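import Pool.Agent.R138.ModBlock

/-! Kernel-friendly checks for vectors over `ZMod 7` given by lists of natural numbers. -/

namespace Pool.Agent.R138.Chk

open Set Module Submodule Pool.Agent.Helper236 Pool.Agent.R138.ModBlock

instance fact7 : Fact (Nat.Prime 7) := ⟨by norm_num⟩

/-- dot product of two lists -/
def dot : List ℕ → List ℕ → ℕ
  | a :: f, b :: x => a * b + dot f x
  | _, _ => 0

/-- the functional `f` vanishes at `x` -/
def z (f x : List ℕ) : Bool := Nat.beq (dot f x % 7) 0

/-- `w = a x + b y` modulo `7` -/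
def lc (a : ℕ) : List ℕ → ℕ → List ℕ → List ℕ → Bool
  | x :: xs, b, y :: ys, w :: ws => Nat.beq ((a * x + b * y) % 7) (w % 7) && lc a xs b ys ws
  | [], _, [], [] => true
  | _, _, _, _ => false

/-- `w = a x + b y + c t` modulo `7` -/
def lc3 (a b c : ℕ) : List ℕ → List ℕ → List ℕ → List ℕ → Bool
  | x :: xs, y :: ys, t :: ts, w :: ws =>
      Nat.beq ((a * x + b * y + c * t) % 7) (w % 7) && lc3 a b c xs ys ts ws
  | [], [], [], [] => true
  | _, _, _, _ => false

/-- the vector of a list -/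
def vec {n : ℕ} (l : List ℕ) : Fin n → ZMod 7 := fun i => ((l.getD i 0 : ℕ) : ZMod 7)

theorem sum_vec : ∀ (n : ℕ) (f x : List ℕ), f.length = n → x.length = n →
    ∑ i : Fin n, vec f i * vec x i = ((dot f x : ℕ) : ZMod 7)
  | 0, [], [], _, _ => by simp [dot]
  | n + 1, a :: f, b :: x, hf, hx => by
      have ih := sum_vec n f x (by simpa using hf) (by simpa using hx)
      rw [Fin.sum_univ_succ, dot, Nat.cast_add, ← ih, Nat.cast_mul]
      rfl
  | 0, [], b :: x, _, hx => by simp at hx
  | 0, a :: f, _, hf, _ => by simp at hf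
  | n + 1, [], _, hf, _ => by simp at hf
  | n + 1, a :: f, [], _, hx => by simp at hx

/-- the linear functional of a list -/
def fn {n : ℕ} (f : List ℕ) : (Fin n → ZMod 7) →ₗ[ZMod 7] ZMod 7 where
  toFun x := ∑ i : Fin n, vec f i * x i
  map_add' x y := by
    simp only [Pi.add_apply, mul_add, Finset.sum_add_distrib]
  map_smul' c x := by
    simp only [Pi.smul_apply, smul_eq_mul, RingHom.id_apply, Finset.mul_sum]
    exact Finset.sum_congr rfl fun i _ => by ring

theorem fn_eq_zero_iff {n : ℕ} {f x : List ℕ} (hf : f.length = n) (hx : x.length = n) :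
    fn (n := n) f (vec x) = 0 ↔ z f x = true := by
  change ∑ i : Fin n, vec f i * vec x i = 0 ↔ _
  rw [sum_vec n f x hf hx, ZMod.natCast_eq_zero_iff, Nat.dvd_iff_mod_eq_zero, z]
  exact (Nat.beq_eq ▸ Iff.rfl)

theorem cast_eq {a b : ℕ} (h : Nat.beq (a % 7) (b % 7) = true) : (a : ZMod 7) = b := by
  rw [ZMod.natCast_eq_natCast_iff]
  exact Nat.eq_of_beq_eq_true h

theorem lc_sound (a : ℕ) : ∀ (x : List ℕ) (b : ℕ) (y w : List ℕ), lc a x b y w = true →
    ∀ i : ℕ, ((w.getD i 0 : ℕ) : ZMod 7) = a * ((x.getD i 0 : ℕ) : ZMod 7) +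
      b * ((y.getD i 0 : ℕ) : ZMod 7)
  | [], b, [], [], _, i => by simp
  | x :: xs, b, y :: ys, w :: ws, h, i => by
      rw [lc, Bool.and_eq_true] at h
      cases i with
      | zero =>
        have := cast_eq h.1
        push_cast at this
        simpa using this.symm
      | succ i =>
        have := lc_sound a xs b ys ws h.2 i
        simpa using this
  | [], b, [], w :: ws, h, i => by simp [lc] at h
  | [], b, y :: ys, w, h, i => by simp [lc] at h
  | x :: xs, b, [], w, h, i => by simp [lc] at h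
  | x :: xs, b, y :: ys, [], h, i => by simp [lc] at h

theorem lc_vec {n : ℕ} {a b : ℕ} {x y w : List ℕ} (h : lc a x b y w = true) :
    (vec w : Fin n → ZMod 7) = (a : ZMod 7) • vec x + (b : ZMod 7) • vec y := by
  ext i
  exact lc_sound a x b y w h i

theorem lc3_sound (a b c : ℕ) : ∀ (x y t w : List ℕ), lc3 a b c x y t w = true →
    ∀ i : ℕ, ((w.getD i 0 : ℕ) : ZMod 7) = a * ((x.getD i 0 : ℕ) : ZMod 7) +
      b * ((y.getD i 0 : ℕ) : ZMod 7) + c * ((t.getD i 0 : ℕ) : ZMod 7)
  | [], [], [], [], _, i => by simp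
  | x :: xs, y :: ys, t :: ts, w :: ws, h, i => by
      rw [lc3, Bool.and_eq_true] at h
      cases i with
      | zero =>
        have := cast_eq h.1
        push_cast at this
        simpa using this.symm
      | succ i =>
        have := lc3_sound a b c xs ys ts ws h.2 i
        simpa using this
  | [], [], [], w :: ws, h, i => by simp [lc3] at h
  | [], [], t :: ts, w, h, i => by simp [lc3] at h
  | [], y :: ys, t, w, h, i => by simp [lc3] at h
  | x :: xs, [], t, w, h, i => by simp [lc3] at h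
  | x :: xs, y :: ys, [], w, h, i => by simp [lc3] at h
  | x :: xs, y :: ys, t :: ts, [], h, i => by simp [lc3] at h

theorem lc3_vec {n : ℕ} {a b c : ℕ} {x y t w : List ℕ} (h : lc3 a b c x y t w = true) :
    (vec w : Fin n → ZMod 7) = (a : ZMod 7) • vec x + (b : ZMod 7) • vec y +
      (c : ZMod 7) • vec t := by
  ext i
  exact lc3_sound a b c x y t w h i

variable {α F W : Type*} [Field F] [AddCommGroup W] [Module F W]
  {M : Matroid α} {v : α → W}

/-- If every line through two of at least `q` outside points meets the copoint, every functional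
vanishes somewhere. -/
theorem block_of_lines [Finite F] [M.Finite] (φ : W →ₗ[F] F)
    (hl : ∀ i ∈ M.E, ∀ j ∈ M.E, φ (v i) ≠ 0 → φ (v j) ≠ 0 → i ≠ j →
      ∃ l ∈ M.E, φ (v l) = 0 ∧ ∃ c : F, c ≠ 0 ∧
        v l = c • ((φ (v i))⁻¹ • v i - (φ (v j))⁻¹ • v j))
    (hc : Nat.card F ≤ {e | e ∈ M.E ∧ φ (v e) ≠ 0}.ncard) (f : W →ₗ[F] F) :
    ∃ e ∈ M.E, f (v e) = 0 := by
  by_contra hcon
  push Not at hcon
  set A : Set α := {e | e ∈ M.E ∧ φ (v e) ≠ 0} with hA
  have hAf : A.Finite := M.ground_finite.subset fun e he => he.1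
  have hinj : Set.InjOn (fun e => (φ (v e))⁻¹ * f (v e)) A := by
    intro i hi j hj hij
    by_contra hne
    obtain ⟨l, hlE, hlφ, c, hc, hlc⟩ := hl i hi.1 j hj.1 hi.2 hj.2 hne
    apply hcon l hlE
    rw [hlc, map_smul, map_sub, map_smul, map_smul, smul_eq_mul, smul_eq_mul, smul_eq_mul]
    beta_reduce at hij
    rw [hij, sub_self, mul_zero]
  have h1 : ((fun e => (φ (v e))⁻¹ * f (v e)) '' A).ncard = A.ncard := hinj.ncard_image
  have h2 : (fun e => (φ (v e))⁻¹ * f (v e)) '' A ⊆ {x : F | x ≠ 0} := by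
    rintro _ ⟨e, he, rfl⟩
    exact mul_ne_zero (inv_ne_zero he.2) (hcon e he.1)
  have h3 := Set.ncard_le_ncard h2 (Set.toFinite _)
  have h4 : {x : F | x ≠ 0}.ncard < Nat.card F := by
    rw [← Set.ncard_univ]
    apply Set.ncard_lt_ncard _ (Set.toFinite _)
    rw [Set.ssubset_univ_iff]
    intro h5
    have : (0 : F) ∈ {x : F | x ≠ 0} := h5 ▸ mem_univ _
    exact this rfl
  omega

end Pool.Agent.R138.Chk
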