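import Pool.Agent.R138.Chk

/-! A rank-four tangential `1`-block over `GF(7)` with a modular copoint and without modular
lines. -/

namespace Pool.Agent.R138.Ex7

open Set Module Submodule Pool.Agent.Helper236 Pool.Agent.R138.ModBlock Pool.Agent.R138.Chk

/-- nineteen points: seven affine points and the twelve directions of their differences -/
def pts : List (List ℕ) :=
  [[1, 0, 0, 0],
    [1, 1, 0, 0],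
    [1, 3, 0, 0],
    [1, 0, 1, 0],
    [1, 0, 3, 0],
    [1, 0, 0, 1],
    [1, 0, 0, 3],
    [0, 1, 0, 0],
    [0, 0, 1, 0],
    [0, 0, 0, 1],
    [0, 1, 6, 0],
    [0, 1, 4, 0],
    [0, 1, 2, 0],
    [0, 1, 0, 6],
    [0, 1, 0, 4],
    [0, 1, 0, 2],
    [0, 0, 1, 6],
    [0, 0, 1, 4],
    [0, 0, 1, 2]]

/-- tangents at the points -/
def tps : List (List ℕ) :=
  [[0, 1, 2, 4],
    [1, 6, 3, 5],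
    [1, 2, 1, 4],
    [1, 3, 6, 5],
    [1, 1, 2, 4],
    [1, 3, 5, 6],
    [1, 1, 4, 2],
    [1, 0, 1, 4],
    [1, 1, 0, 4],
    [1, 1, 4, 0],
    [1, 1, 1, 4],
    [1, 3, 1, 4],
    [1, 1, 3, 4],
    [1, 1, 4, 1],
    [1, 3, 4, 1],
    [1, 1, 4, 3],
    [1, 1, 4, 4],
    [1, 3, 5, 4],
    [1, 3, 4, 5]]

/-- certificates for a pair of points -/
structure Entry where
  /-- a functional vanishing exactly on the line -/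
  g : List ℕ
  /-- the coordinates of the points of the line -/
  co : List (ℕ × ℕ)
  /-- first point of a coplanar line -/
  k : ℕ
  /-- second point of a coplanar line -/
  l : ℕ
  /-- coefficient -/
  a : ℕ
  /-- coefficient -/
  b : ℕ
  /-- coefficient -/
  c : ℕ
  /-- a functional vanishing at `k` and `l` and nowhere on the line -/
  f : List ℕ

/-- table of certificates -/
def tab : List (List Entry) :=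
  [[⟨[0, 0, 1, 2], [(1, 0), (0, 1), (5, 3), (6, 1)], 3, 11, 2, 1, 4, [1, 4, 6, 0]⟩,
    ⟨[0, 0, 1, 2], [(1, 0), (3, 5), (0, 1), (2, 5)], 3, 11, 5, 5, 4, [1, 4, 6, 0]⟩,
    ⟨[0, 1, 0, 2], [(1, 0), (0, 1), (5, 3), (6, 1)], 1, 12, 4, 2, 1, [1, 6, 4, 0]⟩,
    ⟨[0, 1, 0, 2], [(1, 0), (3, 5), (0, 1), (2, 5)], 1, 12, 3, 3, 1, [1, 6, 4, 0]⟩,
    ⟨[0, 1, 2, 0], [(1, 0), (0, 1), (5, 3), (6, 1)], 1, 15, 4, 2, 1, [1, 6, 0, 4]⟩,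
    ⟨[0, 1, 2, 0], [(1, 0), (3, 5), (0, 1), (2, 5)], 1, 15, 3, 3, 1, [1, 6, 0, 4]⟩,
    ⟨[0, 0, 1, 2], [(1, 0), (1, 1), (1, 3), (0, 1)], 3, 11, 3, 1, 4, [1, 4, 6, 0]⟩,
    ⟨[0, 1, 0, 2], [(1, 0), (1, 1), (1, 3), (0, 1)], 1, 12, 6, 2, 1, [1, 6, 4, 0]⟩,
    ⟨[0, 1, 2, 0], [(1, 0), (1, 1), (1, 3), (0, 1)], 1, 15, 6, 2, 1, [1, 6, 0, 4]⟩,
    ⟨[0, 1, 1, 2], [(1, 0), (0, 1)], 1, 4, 5, 4, 3, [1, 6, 2, 0]⟩,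
    ⟨[0, 1, 5, 2], [(1, 0), (0, 1)], 1, 3, 3, 2, 5, [1, 6, 6, 0]⟩,
    ⟨[0, 1, 3, 4], [(1, 0), (0, 1)], 1, 3, 5, 4, 3, [1, 6, 6, 0]⟩,
    ⟨[0, 1, 2, 1], [(1, 0), (0, 1)], 1, 6, 5, 4, 3, [1, 6, 0, 2]⟩,
    ⟨[0, 1, 2, 5], [(1, 0), (0, 1)], 1, 5, 3, 2, 5, [1, 6, 0, 6]⟩,
    ⟨[0, 1, 4, 3], [(1, 0), (0, 1)], 1, 5, 5, 4, 3, [1, 6, 0, 6]⟩,
    ⟨[0, 1, 2, 2], [(1, 0), (0, 1)], 3, 6, 5, 4, 3, [1, 0, 6, 2]⟩,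
    ⟨[0, 1, 4, 6], [(1, 0), (0, 1)], 3, 5, 3, 2, 5, [1, 0, 6, 6]⟩,
    ⟨[0, 1, 2, 6], [(1, 0), (0, 1)], 3, 5, 5, 4, 3, [1, 0, 6, 6]⟩],
   [⟨[0, 0, 1, 2], [(5, 3), (1, 0), (0, 1), (3, 4)], 3, 11, 4, 6, 4, [1, 4, 6, 0]⟩,
    ⟨[1, 6, 6, 1], [(1, 0), (0, 1), (1, 6)], 0, 11, 1, 4, 2, [0, 1, 5, 0]⟩,
    ⟨[1, 6, 2, 1], [(1, 0), (0, 1), (1, 6)], 0, 10, 1, 2, 4, [0, 1, 1, 0]⟩,
    ⟨[1, 6, 1, 6], [(1, 0), (0, 1), (1, 6)], 0, 14, 1, 4, 2, [0, 1, 0, 5]⟩,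
    ⟨[1, 6, 1, 2], [(1, 0), (0, 1), (1, 6)], 0, 13, 1, 2, 4, [0, 1, 0, 1]⟩,
    ⟨[0, 0, 1, 2], [(1, 6), (1, 0), (1, 2), (0, 1)], 3, 11, 3, 5, 4, [1, 4, 6, 0]⟩,
    ⟨[1, 6, 0, 1], [(1, 0), (0, 1)], 0, 10, 1, 6, 6, [0, 1, 1, 0]⟩,
    ⟨[1, 6, 1, 0], [(1, 0), (0, 1)], 0, 13, 1, 6, 6, [0, 1, 0, 1]⟩,
    ⟨[1, 6, 6, 1], [(1, 0), (1, 6), (0, 1)], 0, 11, 5, 3, 2, [0, 1, 5, 0]⟩,
    ⟨[1, 6, 2, 1], [(1, 0), (1, 6), (0, 1)], 0, 10, 3, 5, 4, [0, 1, 1, 0]⟩,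
    ⟨[1, 6, 4, 1], [(1, 0), (0, 1)], 0, 3, 3, 4, 5, [0, 1, 0, 0]⟩,
    ⟨[1, 6, 1, 6], [(1, 0), (1, 6), (0, 1)], 0, 14, 5, 3, 2, [0, 1, 0, 5]⟩,
    ⟨[1, 6, 1, 2], [(1, 0), (1, 6), (0, 1)], 0, 13, 3, 5, 4, [0, 1, 0, 1]⟩,
    ⟨[1, 6, 1, 4], [(1, 0), (0, 1)], 0, 5, 3, 4, 5, [0, 1, 0, 0]⟩,
    ⟨[1, 6, 1, 1], [(1, 0), (0, 1)], 3, 13, 1, 1, 6, [0, 1, 0, 1]⟩,
    ⟨[1, 6, 1, 5], [(1, 0), (0, 1)], 3, 14, 1, 1, 6, [0, 1, 0, 5]⟩,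
    ⟨[1, 6, 1, 3], [(1, 0), (0, 1)], 3, 15, 1, 1, 6, [0, 1, 0, 3]⟩],
   [⟨[1, 2, 6, 1], [(1, 0), (0, 1), (5, 2)], 0, 10, 5, 6, 3, [0, 1, 1, 0]⟩,
    ⟨[1, 2, 2, 1], [(1, 0), (0, 1), (5, 2)], 0, 11, 5, 6, 3, [0, 1, 5, 0]⟩,
    ⟨[1, 2, 1, 6], [(1, 0), (0, 1), (5, 2)], 0, 13, 5, 6, 3, [0, 1, 0, 1]⟩,
    ⟨[1, 2, 1, 2], [(1, 0), (0, 1), (5, 2)], 0, 14, 5, 6, 3, [0, 1, 0, 5]⟩,
    ⟨[0, 0, 1, 2], [(1, 4), (1, 5), (1, 0), (0, 1)], 3, 11, 3, 6, 4, [1, 4, 6, 0]⟩,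
    ⟨[1, 2, 0, 1], [(1, 0), (0, 1)], 0, 10, 5, 6, 2, [0, 1, 1, 0]⟩,
    ⟨[1, 2, 1, 0], [(1, 0), (0, 1)], 0, 13, 5, 6, 2, [0, 1, 0, 1]⟩,
    ⟨[1, 2, 2, 1], [(1, 0), (1, 4), (0, 1)], 0, 11, 4, 3, 3, [0, 1, 5, 0]⟩,
    ⟨[1, 2, 3, 4], [(1, 0), (0, 1)], 0, 3, 4, 2, 4, [0, 1, 0, 0]⟩,
    ⟨[1, 2, 6, 1], [(1, 0), (1, 4), (0, 1)], 0, 10, 4, 3, 3, [0, 1, 1, 0]⟩,
    ⟨[1, 2, 1, 2], [(1, 0), (1, 4), (0, 1)], 0, 14, 4, 3, 3, [0, 1, 0, 5]⟩,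
    ⟨[1, 2, 4, 3], [(1, 0), (0, 1)], 0, 5, 4, 2, 4, [0, 1, 0, 0]⟩,
    ⟨[1, 2, 1, 6], [(1, 0), (1, 4), (0, 1)], 0, 13, 4, 3, 3, [0, 1, 0, 1]⟩,
    ⟨[1, 2, 1, 1], [(1, 0), (0, 1)], 3, 15, 5, 5, 2, [0, 1, 0, 3]⟩,
    ⟨[1, 2, 1, 5], [(1, 0), (0, 1)], 3, 13, 5, 5, 2, [0, 1, 0, 1]⟩,
    ⟨[1, 2, 4, 5], [(1, 0), (0, 1)], 4, 15, 5, 1, 2, [0, 1, 0, 3]⟩],
   [⟨[0, 1, 0, 2], [(5, 3), (1, 0), (0, 1), (3, 4)], 1, 12, 1, 5, 1, [1, 6, 4, 0]⟩,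
    ⟨[1, 1, 6, 6], [(1, 0), (0, 1), (1, 6)], 0, 17, 1, 4, 2, [0, 0, 1, 5]⟩,
    ⟨[1, 1, 6, 2], [(1, 0), (0, 1), (1, 6)], 0, 16, 1, 2, 4, [0, 0, 1, 1]⟩,
    ⟨[1, 0, 6, 1], [(1, 0), (0, 1)], 0, 10, 6, 1, 1, [0, 1, 1, 0]⟩,
    ⟨[0, 1, 0, 2], [(1, 6), (1, 0), (1, 2), (0, 1)], 1, 12, 6, 3, 1, [1, 6, 4, 0]⟩,
    ⟨[1, 1, 6, 0], [(1, 0), (0, 1)], 0, 16, 1, 6, 6, [0, 0, 1, 1]⟩,
    ⟨[1, 6, 6, 1], [(1, 1), (1, 0), (0, 1)], 0, 11, 5, 1, 2, [0, 1, 5, 0]⟩,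
    ⟨[1, 4, 6, 1], [(1, 0), (0, 1)], 0, 1, 3, 1, 5, [0, 0, 1, 0]⟩,
    ⟨[1, 2, 6, 1], [(1, 3), (1, 0), (0, 1)], 0, 10, 4, 1, 3, [0, 1, 1, 0]⟩,
    ⟨[1, 1, 6, 1], [(1, 0), (0, 1)], 1, 16, 1, 1, 6, [0, 0, 1, 1]⟩,
    ⟨[1, 1, 6, 5], [(1, 0), (0, 1)], 1, 17, 1, 1, 6, [0, 0, 1, 5]⟩,
    ⟨[1, 1, 6, 3], [(1, 0), (0, 1)], 1, 18, 1, 1, 6, [0, 0, 1, 3]⟩,
    ⟨[1, 1, 6, 6], [(1, 0), (1, 6), (0, 1)], 0, 17, 5, 3, 2, [0, 0, 1, 5]⟩,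
    ⟨[1, 1, 6, 2], [(1, 0), (1, 6), (0, 1)], 0, 16, 3, 5, 4, [0, 0, 1, 1]⟩,
    ⟨[1, 1, 6, 4], [(1, 0), (0, 1)], 0, 5, 3, 4, 5, [0, 0, 1, 0]⟩],
   [⟨[1, 1, 2, 6], [(1, 0), (0, 1), (5, 2)], 0, 16, 5, 6, 3, [0, 0, 1, 1]⟩,
    ⟨[1, 1, 2, 2], [(1, 0), (0, 1), (5, 2)], 0, 17, 5, 6, 3, [0, 0, 1, 5]⟩,
    ⟨[1, 0, 2, 1], [(1, 0), (0, 1)], 0, 10, 2, 1, 5, [0, 1, 1, 0]⟩,
    ⟨[0, 1, 0, 2], [(1, 4), (1, 5), (1, 0), (0, 1)], 1, 12, 6, 5, 1, [1, 6, 4, 0]⟩,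
    ⟨[1, 1, 2, 0], [(1, 0), (0, 1)], 0, 16, 5, 6, 2, [0, 0, 1, 1]⟩,
    ⟨[1, 2, 2, 1], [(1, 3), (1, 0), (0, 1)], 0, 11, 4, 1, 3, [0, 1, 5, 0]⟩,
    ⟨[1, 6, 2, 1], [(1, 1), (1, 0), (0, 1)], 0, 10, 3, 1, 4, [0, 1, 1, 0]⟩,
    ⟨[1, 3, 2, 4], [(1, 0), (0, 1)], 0, 1, 4, 1, 4, [0, 0, 1, 0]⟩,
    ⟨[1, 1, 2, 1], [(1, 0), (0, 1)], 1, 18, 5, 5, 2, [0, 0, 1, 3]⟩,
    ⟨[1, 1, 2, 5], [(1, 0), (0, 1)], 1, 16, 5, 5, 2, [0, 0, 1, 1]⟩,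
    ⟨[1, 4, 2, 5], [(1, 0), (0, 1)], 2, 18, 5, 1, 2, [0, 0, 1, 3]⟩,
    ⟨[1, 1, 2, 2], [(1, 0), (1, 4), (0, 1)], 0, 17, 4, 3, 3, [0, 0, 1, 5]⟩,
    ⟨[1, 4, 2, 3], [(1, 0), (0, 1)], 0, 5, 4, 2, 4, [0, 0, 1, 0]⟩,
    ⟨[1, 1, 2, 6], [(1, 0), (1, 4), (0, 1)], 0, 16, 4, 3, 3, [0, 0, 1, 1]⟩],
   [⟨[0, 1, 2, 0], [(5, 3), (1, 0), (0, 1), (3, 4)], 1, 15, 1, 5, 1, [1, 6, 0, 4]⟩,
    ⟨[1, 0, 1, 6], [(1, 0), (0, 1)], 0, 13, 6, 1, 1, [0, 1, 0, 1]⟩,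
    ⟨[1, 1, 0, 6], [(1, 0), (0, 1)], 0, 16, 6, 1, 1, [0, 0, 1, 1]⟩,
    ⟨[0, 1, 2, 0], [(1, 6), (1, 0), (1, 2), (0, 1)], 1, 15, 6, 3, 1, [1, 6, 0, 4]⟩,
    ⟨[1, 1, 1, 6], [(1, 0), (0, 1)], 1, 16, 6, 6, 1, [0, 0, 1, 1]⟩,
    ⟨[1, 1, 5, 6], [(1, 0), (0, 1)], 1, 18, 2, 2, 5, [0, 0, 1, 3]⟩,
    ⟨[1, 1, 3, 6], [(1, 0), (0, 1)], 1, 17, 4, 4, 3, [0, 0, 1, 5]⟩,
    ⟨[1, 6, 1, 6], [(1, 1), (1, 0), (0, 1)], 0, 14, 5, 1, 2, [0, 1, 0, 5]⟩,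
    ⟨[1, 4, 1, 6], [(1, 0), (0, 1)], 0, 1, 3, 1, 5, [0, 0, 0, 1]⟩,
    ⟨[1, 2, 1, 6], [(1, 3), (1, 0), (0, 1)], 0, 13, 4, 1, 3, [0, 1, 0, 1]⟩,
    ⟨[1, 1, 6, 6], [(1, 1), (1, 0), (0, 1)], 0, 17, 5, 1, 2, [0, 0, 1, 5]⟩,
    ⟨[1, 1, 4, 6], [(1, 0), (0, 1)], 0, 3, 3, 1, 5, [0, 0, 0, 1]⟩,
    ⟨[1, 1, 2, 6], [(1, 3), (1, 0), (0, 1)], 0, 16, 4, 1, 3, [0, 0, 1, 1]⟩],
   [⟨[1, 0, 1, 2], [(1, 0), (0, 1)], 0, 13, 2, 1, 5, [0, 1, 0, 1]⟩,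
    ⟨[1, 1, 0, 2], [(1, 0), (0, 1)], 0, 16, 2, 1, 5, [0, 0, 1, 1]⟩,
    ⟨[0, 1, 2, 0], [(1, 4), (1, 5), (1, 0), (0, 1)], 1, 15, 6, 5, 1, [1, 6, 0, 4]⟩,
    ⟨[1, 1, 1, 2], [(1, 0), (0, 1)], 1, 17, 6, 6, 1, [0, 0, 1, 5]⟩,
    ⟨[1, 1, 5, 2], [(1, 0), (0, 1)], 1, 16, 2, 2, 5, [0, 0, 1, 1]⟩,
    ⟨[1, 4, 5, 2], [(1, 0), (0, 1)], 2, 17, 6, 4, 1, [0, 0, 1, 5]⟩,
    ⟨[1, 2, 1, 2], [(1, 3), (1, 0), (0, 1)], 0, 14, 4, 1, 3, [0, 1, 0, 5]⟩,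
    ⟨[1, 6, 1, 2], [(1, 1), (1, 0), (0, 1)], 0, 13, 3, 1, 4, [0, 1, 0, 1]⟩,
    ⟨[1, 3, 4, 2], [(1, 0), (0, 1)], 0, 1, 4, 1, 4, [0, 0, 0, 1]⟩,
    ⟨[1, 1, 2, 2], [(1, 3), (1, 0), (0, 1)], 0, 17, 4, 1, 3, [0, 0, 1, 5]⟩,
    ⟨[1, 1, 6, 2], [(1, 1), (1, 0), (0, 1)], 0, 16, 3, 1, 4, [0, 0, 1, 1]⟩,
    ⟨[1, 4, 3, 2], [(1, 0), (0, 1)], 0, 3, 4, 1, 4, [0, 0, 0, 1]⟩],
   [⟨[1, 0, 0, 1], [(1, 0), (0, 1), (1, 6), (1, 4), (1, 2)], 14, 18, 3, 1, 4, [0, 1, 4, 5]⟩,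
    ⟨[1, 0, 1, 0], [(1, 0), (0, 1), (1, 6), (1, 4), (1, 2)], 11, 17, 5, 4, 2, [0, 1, 5, 4]⟩,
    ⟨[1, 0, 0, 1], [(1, 0), (1, 6), (0, 1), (5, 3), (3, 5)], 14, 18, 4, 6, 4, [0, 1, 4, 5]⟩,
    ⟨[1, 0, 0, 1], [(1, 0), (5, 2), (3, 5), (0, 1), (4, 4)], 14, 18, 1, 2, 4, [0, 1, 4, 5]⟩,
    ⟨[1, 0, 0, 1], [(1, 0), (3, 4), (5, 3), (6, 2), (0, 1)], 14, 18, 6, 4, 4, [0, 1, 4, 5]⟩,
    ⟨[1, 0, 1, 0], [(1, 0), (1, 6), (0, 1), (5, 3), (3, 5)], 11, 17, 2, 3, 2, [0, 1, 5, 4]⟩,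
    ⟨[1, 0, 1, 0], [(1, 0), (5, 2), (3, 5), (0, 1), (4, 4)], 11, 17, 4, 1, 2, [0, 1, 5, 4]⟩,
    ⟨[1, 0, 1, 0], [(1, 0), (3, 4), (5, 3), (6, 2), (0, 1)], 11, 17, 3, 2, 2, [0, 1, 5, 4]⟩,
    ⟨[1, 0, 1, 1], [(1, 0), (0, 1)], 8, 13, 1, 1, 6, [0, 1, 0, 1]⟩,
    ⟨[1, 0, 1, 5], [(1, 0), (0, 1)], 8, 13, 1, 5, 2, [0, 1, 0, 1]⟩,
    ⟨[1, 0, 1, 3], [(1, 0), (0, 1)], 8, 13, 1, 3, 4, [0, 1, 0, 1]⟩],
   [⟨[1, 1, 0, 0], [(1, 0), (0, 1), (1, 6), (1, 4), (1, 2)], 11, 15, 3, 2, 1, [0, 1, 5, 3]⟩,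
    ⟨[1, 0, 0, 1], [(1, 1), (1, 0), (0, 1), (5, 1), (3, 1)], 14, 18, 4, 3, 4, [0, 1, 4, 5]⟩,
    ⟨[1, 0, 0, 1], [(3, 1), (1, 0), (2, 1), (0, 1), (5, 1)], 14, 18, 3, 3, 4, [0, 1, 4, 5]⟩,
    ⟨[1, 0, 0, 1], [(5, 1), (1, 0), (4, 1), (2, 1), (0, 1)], 14, 18, 2, 3, 4, [0, 1, 4, 5]⟩,
    ⟨[1, 1, 0, 1], [(1, 0), (0, 1)], 7, 16, 1, 1, 6, [0, 0, 1, 1]⟩,
    ⟨[1, 1, 0, 5], [(1, 0), (0, 1)], 7, 16, 1, 5, 2, [0, 0, 1, 1]⟩,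
    ⟨[1, 1, 0, 3], [(1, 0), (0, 1)], 7, 16, 1, 3, 4, [0, 0, 1, 1]⟩,
    ⟨[1, 1, 0, 0], [(1, 0), (1, 6), (0, 1), (5, 3), (3, 5)], 11, 15, 5, 5, 1, [0, 1, 5, 3]⟩,
    ⟨[1, 1, 0, 0], [(1, 0), (5, 2), (3, 5), (0, 1), (4, 4)], 11, 15, 6, 4, 1, [0, 1, 5, 3]⟩,
    ⟨[1, 1, 0, 0], [(1, 0), (3, 4), (5, 3), (6, 2), (0, 1)], 11, 15, 2, 1, 1, [0, 1, 5, 3]⟩],
   [⟨[1, 1, 1, 0], [(1, 0), (0, 1)], 7, 16, 6, 6, 1, [0, 0, 1, 1]⟩,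
    ⟨[1, 1, 5, 0], [(1, 0), (0, 1)], 7, 16, 6, 2, 5, [0, 0, 1, 1]⟩,
    ⟨[1, 1, 3, 0], [(1, 0), (0, 1)], 7, 16, 6, 4, 3, [0, 0, 1, 1]⟩,
    ⟨[1, 0, 1, 0], [(1, 1), (1, 0), (0, 1), (5, 1), (3, 1)], 11, 17, 2, 5, 2, [0, 1, 5, 4]⟩,
    ⟨[1, 0, 1, 0], [(3, 1), (1, 0), (2, 1), (0, 1), (5, 1)], 11, 17, 5, 5, 2, [0, 1, 5, 4]⟩,
    ⟨[1, 0, 1, 0], [(5, 1), (1, 0), (4, 1), (2, 1), (0, 1)], 11, 17, 1, 5, 2, [0, 1, 5, 4]⟩,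
    ⟨[1, 1, 0, 0], [(1, 1), (1, 0), (0, 1), (5, 1), (3, 1)], 11, 15, 5, 3, 1, [0, 1, 5, 3]⟩,
    ⟨[1, 1, 0, 0], [(3, 1), (1, 0), (2, 1), (0, 1), (5, 1)], 11, 15, 4, 3, 1, [0, 1, 5, 3]⟩,
    ⟨[1, 1, 0, 0], [(5, 1), (1, 0), (4, 1), (2, 1), (0, 1)], 11, 15, 3, 3, 1, [0, 1, 5, 3]⟩],
   [⟨[1, 0, 0, 1], [(5, 3), (4, 3), (1, 0), (0, 1), (6, 2)], 14, 18, 5, 5, 4, [0, 1, 4, 5]⟩,
    ⟨[1, 0, 0, 1], [(3, 5), (2, 5), (1, 0), (4, 4), (0, 1)], 14, 18, 4, 6, 4, [0, 1, 4, 5]⟩,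
    ⟨[1, 1, 1, 1], [(1, 0), (0, 1), (6, 1)], 7, 17, 6, 3, 5, [0, 0, 1, 5]⟩,
    ⟨[1, 1, 1, 5], [(1, 0), (0, 1), (6, 1)], 7, 16, 6, 5, 3, [0, 0, 1, 1]⟩,
    ⟨[1, 1, 1, 3], [(1, 0), (0, 1), (6, 1)], 7, 16, 6, 3, 5, [0, 0, 1, 1]⟩,
    ⟨[1, 1, 1, 1], [(1, 0), (1, 1), (0, 1)], 7, 17, 2, 3, 5, [0, 0, 1, 5]⟩,
    ⟨[1, 1, 1, 5], [(1, 0), (1, 1), (0, 1)], 7, 16, 4, 5, 3, [0, 0, 1, 1]⟩,
    ⟨[1, 1, 1, 3], [(1, 0), (1, 1), (0, 1)], 7, 16, 2, 3, 5, [0, 0, 1, 1]⟩],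
   [⟨[1, 0, 0, 1], [(6, 2), (4, 3), (2, 6), (1, 0), (0, 1)], 14, 18, 1, 2, 4, [0, 1, 4, 5]⟩,
    ⟨[1, 1, 5, 1], [(1, 0), (0, 1), (2, 5)], 7, 16, 2, 1, 4, [0, 0, 1, 1]⟩,
    ⟨[1, 1, 5, 5], [(1, 0), (0, 1), (2, 5)], 7, 17, 2, 1, 4, [0, 0, 1, 5]⟩,
    ⟨[1, 1, 5, 3], [(1, 0), (0, 1)], 7, 16, 2, 3, 2, [0, 0, 1, 1]⟩,
    ⟨[1, 1, 5, 5], [(1, 0), (1, 3), (0, 1)], 7, 17, 3, 3, 4, [0, 0, 1, 5]⟩,
    ⟨[1, 1, 5, 4], [(1, 0), (0, 1)], 7, 9, 3, 2, 4, [0, 0, 1, 0]⟩,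
    ⟨[1, 1, 5, 1], [(1, 0), (1, 3), (0, 1)], 7, 16, 3, 3, 4, [0, 0, 1, 1]⟩],
   [⟨[1, 1, 3, 1], [(1, 0), (0, 1), (4, 3)], 7, 16, 4, 1, 2, [0, 0, 1, 1]⟩,
    ⟨[1, 1, 3, 5], [(1, 0), (0, 1)], 7, 16, 4, 5, 5, [0, 0, 1, 1]⟩,
    ⟨[1, 1, 3, 3], [(1, 0), (0, 1), (4, 3)], 7, 17, 4, 2, 1, [0, 0, 1, 5]⟩,
    ⟨[1, 1, 3, 3], [(1, 0), (1, 5), (0, 1)], 7, 17, 6, 3, 1, [0, 0, 1, 5]⟩,
    ⟨[1, 1, 3, 1], [(1, 0), (1, 5), (0, 1)], 7, 16, 5, 5, 2, [0, 0, 1, 1]⟩,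
    ⟨[1, 4, 5, 1], [(1, 0), (0, 1)], 7, 9, 5, 4, 2, [0, 0, 1, 0]⟩],
   [⟨[1, 0, 1, 0], [(5, 3), (4, 3), (1, 0), (0, 1), (6, 2)], 11, 17, 6, 6, 2, [0, 1, 5, 4]⟩,
    ⟨[1, 0, 1, 0], [(3, 5), (2, 5), (1, 0), (4, 4), (0, 1)], 11, 17, 2, 3, 2, [0, 1, 5, 4]⟩,
    ⟨[1, 1, 1, 1], [(1, 6), (1, 0), (0, 1)], 7, 17, 2, 1, 5, [0, 0, 1, 5]⟩,
    ⟨[1, 1, 3, 1], [(1, 2), (1, 0), (0, 1)], 7, 16, 5, 1, 2, [0, 0, 1, 1]⟩,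
    ⟨[1, 1, 5, 1], [(1, 4), (1, 0), (0, 1)], 7, 16, 3, 1, 4, [0, 0, 1, 1]⟩],
   [⟨[1, 0, 1, 0], [(6, 2), (4, 3), (2, 6), (1, 0), (0, 1)], 11, 17, 4, 1, 2, [0, 1, 5, 4]⟩,
    ⟨[1, 1, 5, 5], [(1, 4), (1, 0), (0, 1)], 7, 17, 3, 1, 4, [0, 0, 1, 5]⟩,
    ⟨[1, 1, 1, 5], [(1, 6), (1, 0), (0, 1)], 7, 16, 4, 1, 3, [0, 0, 1, 1]⟩,
    ⟨[1, 1, 4, 5], [(1, 0), (0, 1)], 7, 8, 3, 1, 4, [0, 0, 0, 1]⟩],
   [⟨[1, 1, 3, 3], [(1, 2), (1, 0), (0, 1)], 7, 17, 6, 1, 1, [0, 0, 1, 5]⟩,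
    ⟨[1, 4, 1, 5], [(1, 0), (0, 1)], 7, 8, 5, 1, 2, [0, 0, 0, 1]⟩,
    ⟨[1, 1, 1, 3], [(1, 6), (1, 0), (0, 1)], 7, 16, 2, 1, 5, [0, 0, 1, 1]⟩],
   [⟨[1, 1, 0, 0], [(5, 3), (4, 3), (1, 0), (0, 1), (6, 2)], 11, 15, 2, 1, 1, [0, 1, 5, 3]⟩,
    ⟨[1, 1, 0, 0], [(3, 5), (2, 5), (1, 0), (4, 4), (0, 1)], 11, 15, 6, 4, 1, [0, 1, 5, 3]⟩],
   [⟨[1, 1, 0, 0], [(6, 2), (4, 3), (2, 6), (1, 0), (0, 1)], 11, 15, 5, 5, 1, [0, 1, 5, 3]⟩],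
   []]

/-- the point with number `i` -/
def pn (i : ℕ) : List ℕ := pts.getD i []

/-- check of one certificate -/
def chkEntry (x y : List ℕ) (t : Entry) : Bool :=
  Nat.beq t.g.length 4 && Nat.beq t.f.length 4 && z t.g x && z t.g y &&
  pts.all (fun p => !(z t.g p) || t.co.any (fun c => lc c.1 x c.2 y p)) &&
  Nat.blt t.k t.l && Nat.blt t.l 19 &&
  lc3 t.a t.b t.c x y (pn t.k) (pn t.l) && z t.f (pn t.k) && z t.f (pn t.l) &&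
  pts.all (fun p => !(z t.f p && z t.g p))

theorem chk_tab : ((List.range 19).all fun i => (List.range 19).all fun j =>
    Nat.ble j i || chkEntry (pn i) (pn j) ((tab.getD i []).getD (j - i - 1)
      ⟨[], [], 0, 0, 0, 0, 0, []⟩)) = true := by
  decide +kernel

theorem chk_tps : ((List.range 19).all fun i => (List.range 19).all fun j =>
    Nat.beq (tps.getD i []).length 4 &&
    (if Nat.beq i j then z (tps.getD i []) (pn j) else !(z (tps.getD i []) (pn j)))) = true := by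
  decide +kernel

theorem chk_len : ((List.range 19).all fun i => Nat.beq (pn i).length 4) = true := by
  decide +kernel

/-- the point with number `i` as a vector -/
def pt (i : Fin 19) : Fin 4 → ZMod 7 := vec (pn i)

theorem len_pn (i : Fin 19) : (pn i).length = 4 := by
  have h := chk_len
  rw [List.all_eq_true] at h
  exact Nat.eq_of_beq_eq_true (h i.1 (List.mem_range.2 i.2))

theorem len_tp (i : Fin 19) : (tps.getD i []).length = 4 := by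
  have h := chk_tps
  rw [List.all_eq_true] at h
  have h1 := h i.1 (List.mem_range.2 i.2)
  rw [List.all_eq_true] at h1
  have h2 := h1 i.1 (List.mem_range.2 i.2)
  rw [Bool.and_eq_true] at h2
  exact Nat.eq_of_beq_eq_true h2.1

theorem tangent (i j : Fin 19) : fn (n := 4) (tps.getD i []) (pt j) = 0 ↔ j = i := by
  rw [pt, fn_eq_zero_iff (len_tp i) (len_pn j)]
  have h := chk_tps
  rw [List.all_eq_true] at h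
  have h1 := h i.1 (List.mem_range.2 i.2)
  rw [List.all_eq_true] at h1
  have h2 := h1 j.1 (List.mem_range.2 j.2)
  rw [Bool.and_eq_true] at h2
  have h3 := h2.2
  by_cases hij : j = i
  · subst hij
    rw [if_pos (Nat.beq_refl _)] at h3
    exact ⟨fun _ => rfl, fun _ => h3⟩
  · rw [if_neg (fun hb => hij (Fin.ext (Nat.eq_of_beq_eq_true hb).symm))] at h3
    rw [Bool.not_eq_true'] at h3
    rw [h3]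
    exact ⟨fun hb => absurd hb (by decide), fun hb => absurd hb hij⟩

theorem entry (i j : Fin 19) (hij : i < j) : ∃ t : Entry, chkEntry (pn i) (pn j) t = true := by
  have h := chk_tab
  rw [List.all_eq_true] at h
  have h1 := h i.1 (List.mem_range.2 i.2)
  rw [List.all_eq_true] at h1
  have h2 := h1 j.1 (List.mem_range.2 j.2)
  rw [Bool.or_eq_true] at h2
  rcases h2 with h2 | h2
  · have := Nat.le_of_ble_eq_true h2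
    omega
  · exact ⟨_, h2⟩

theorem pn_mem (i : Fin 19) : pn i ∈ pts := by
  rw [pn, List.getD_eq_getElem _ _ (show i.1 < pts.length from i.2)]
  exact List.getElem_mem _

theorem phi_eq (i : Fin 19) : pt i 0 = if i.1 < 7 then 1 else 0 := by
  revert i
  decide +kernel

theorem chk_lines : ((List.range 7).all fun i => (List.range 7).all fun j =>
    Nat.beq i j || (List.range 12).any fun l => (List.range 6).any fun c =>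
      lc (c + 1) (pn i) (6 * (c + 1)) (pn j) (pn (7 + l))) = true := by
  decide +kernel

theorem lines (i j : Fin 19) (hi : pt i 0 ≠ 0) (hj : pt j 0 ≠ 0) (hij : i ≠ j) :
    ∃ l : Fin 19, pt l 0 = 0 ∧ ∃ c : ZMod 7, c ≠ 0 ∧ pt l = c • ((pt i 0)⁻¹ • pt i -
      (pt j 0)⁻¹ • pt j) := by
  have hi7 : i.1 < 7 := by
    by_contra hcon
    rw [phi_eq, if_neg hcon] at hi
    exact hi rfl
  have hj7 : j.1 < 7 := by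
    by_contra hcon
    rw [phi_eq, if_neg hcon] at hj
    exact hj rfl
  have h := chk_lines
  rw [List.all_eq_true] at h
  have h1 := h i.1 (List.mem_range.2 hi7)
  rw [List.all_eq_true] at h1
  have h2 := h1 j.1 (List.mem_range.2 hj7)
  rw [Bool.or_eq_true] at h2
  rcases h2 with h2 | h2
  · exact absurd (Fin.ext (Nat.eq_of_beq_eq_true h2)) hij
  rw [List.any_eq_true] at h2
  obtain ⟨l, hl, h3⟩ := h2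
  rw [List.any_eq_true] at h3
  obtain ⟨c, hc, h4⟩ := h3
  rw [List.mem_range] at hl hc
  refine ⟨⟨7 + l, by omega⟩, ?_, ((c + 1 : ℕ) : ZMod 7), ?_, ?_⟩
  · rw [phi_eq, if_neg]
    simp
  · rw [Ne, ZMod.natCast_eq_zero_iff]
    exact Nat.not_dvd_of_pos_of_lt (by omega) (by omega)
  · have h5 := lc_vec (n := 4) h4
    have h6 : pt ⟨7 + l, by omega⟩ = vec (pn (7 + l)) := rfl
    have h7 : ((6 * (c + 1) : ℕ) : ZMod 7) = - ((c + 1 : ℕ) : ZMod 7) := by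
      rw [Nat.cast_mul]
      have : ((6 : ℕ) : ZMod 7) = -1 := by decide
      rw [this, neg_one_mul]
    rw [h6, h5, phi_eq i, phi_eq j, if_pos hi7, if_pos hj7, inv_one, one_smul, one_smul, h7,
      neg_smul, smul_sub, ← sub_eq_add_neg]
    rfl

/-- the matroid on nineteen points -/
noncomputable def Mat : Matroid (Fin 19) := linMatroid (ZMod 7) pt univ (Set.toFinite _)

theorem Mat_E : Mat.E = univ := rfl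

instance Mat_finite : Mat.Finite := ⟨Set.toFinite _⟩

theorem Mat_rep : Rep (ZMod 7) Mat pt := linMatroid_rep _ _ _

theorem exists_ne (i : Fin 19) : ∃ j : Fin 19, j ≠ i := by
  by_cases h : i = 0
  · exact ⟨1, by rw [h]; decide⟩
  · exact ⟨0, Ne.symm h⟩

theorem pt_ne_zero (i : Fin 19) : pt i ≠ 0 := by
  intro h
  obtain ⟨j, hj⟩ := exists_ne i
  have := (tangent j i).1 (by rw [h, map_zero])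
  exact hj this.symm

theorem Mat_simple : IsSimple Mat := by
  intro e _ f _
  rw [Mat_rep _ (subset_univ _)]
  by_cases hef : e = f
  · subst hef
    simpa using pt_ne_zero e
  · rw [linearIndepOn_pair_iff _ hef (pt_ne_zero e)]
    intro c hc
    have h1 : fn (n := 4) (tps.getD e []) (pt f) = 0 := by
      rw [← hc, map_smul, (tangent e e).2 rfl, smul_zero]
    exact hef ((tangent e f).1 h1).symm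

theorem Mat_rank : rk Mat Mat.E ≤ 4 := by
  rw [Mat_rep.rk_eq Subset.rfl]
  refine (Submodule.finrank_le _).trans ?_
  rw [Module.finrank_fin_fun]

theorem Mat_copoint : IsModularHyperplane Mat {e | e ∈ Mat.E ∧
    (LinearMap.proj 0 : (Fin 4 → ZMod 7) →ₗ[ZMod 7] ZMod 7) (pt e) = 0} := by
  refine modular_of_lines Mat_rep _ (mem_univ (0 : Fin 19)) ?_ ?_
  · change pt 0 0 ≠ 0
    rw [phi_eq]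
    decide
  · intro i _ j _ hi hj hij
    obtain ⟨l, hl, c, hc, hlc⟩ := lines i j hi hj hij
    exact ⟨l, mem_univ _, hl, c, hc, hlc⟩

theorem Mat_block (f : (Fin 4 → ZMod 7) →ₗ[ZMod 7] (Fin 1 → ZMod 7)) :
    ∃ e ∈ Mat.E, f (pt e) = 0 := by
  obtain ⟨e, he, h⟩ := block_of_lines (M := Mat) (v := pt)
    (LinearMap.proj 0 : (Fin 4 → ZMod 7) →ₗ[ZMod 7] ZMod 7) (by
      intro i _ j _ hi hj hij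
      obtain ⟨l, hl, c, hc, hlc⟩ := lines i j hi hj hij
      exact ⟨l, mem_univ _, hl, c, hc, hlc⟩) (by
      rw [Nat.card_zmod]
      have h1 : {e : Fin 19 | e ∈ Mat.E ∧
          (LinearMap.proj 0 : (Fin 4 → ZMod 7) →ₗ[ZMod 7] ZMod 7) (pt e) ≠ 0} =
          ((Finset.univ.filter (fun e : Fin 19 => e.1 < 7) : Finset (Fin 19)) : Set (Fin 19)) := by
        ext e
        rw [Finset.coe_filter]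
        constructor
        · rintro ⟨-, he⟩
          refine ⟨Finset.mem_univ _, ?_⟩
          by_contra hcon
          apply he
          change pt e 0 = 0
          rw [phi_eq, if_neg hcon]
        · rintro ⟨-, he⟩
          refine ⟨mem_univ _, ?_⟩
          change pt e 0 ≠ 0
          rw [phi_eq, if_pos he]
          decide
      rw [h1, Set.ncard_coe_finset]
      decide) ((LinearMap.proj 0).comp f)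
  refine ⟨e, he, ?_⟩
  ext j
  rw [Subsingleton.elim j 0]
  exact h

theorem Mat_tangent : ∀ e ∈ Mat.E, ∃ f : (Fin 4 → ZMod 7) →ₗ[ZMod 7] ZMod 7,
    f (pt e) = 0 ∧ ∀ x ∈ Mat.E, x ≠ e → f (pt x) ≠ 0 := by
  intro e _
  exact ⟨fn (tps.getD e []), (tangent e e).2 rfl, fun x _ hx h0 => hx ((tangent e x).1 h0)⟩

/-- everything encoded in the certificates -/
theorem line_data (i j : Fin 19) (hij : i < j) :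
    (∃ g : (Fin 4 → ZMod 7) →ₗ[ZMod 7] ZMod 7, g (pt i) = 0 ∧ g (pt j) = 0 ∧
      (∀ x : Fin 19, g (pt x) = 0 → pt x ∈ span (ZMod 7) {pt i, pt j}) ∧
      ∃ (k l : Fin 19) (a b c : ZMod 7) (f : (Fin 4 → ZMod 7) →ₗ[ZMod 7] ZMod 7),
        k ≠ l ∧ pt l = a • pt i + b • pt j + c • pt k ∧ f (pt k) = 0 ∧ f (pt l) = 0 ∧
        ∀ x : Fin 19, f (pt x) = 0 → pt x ∉ span (ZMod 7) {pt i, pt j}) := by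
  obtain ⟨t, ht⟩ := entry i j hij
  simp only [chkEntry, Bool.and_eq_true] at ht
  obtain ⟨⟨⟨⟨⟨⟨⟨⟨⟨⟨h1, h2⟩, h3⟩, h4⟩, h5⟩, h6⟩, h7⟩, h8⟩, h9⟩, h10⟩, h11⟩ := ht
  have hg : t.g.length = 4 := Nat.eq_of_beq_eq_true h1
  have hf : t.f.length = 4 := Nat.eq_of_beq_eq_true h2
  have hkl : t.k < t.l := Nat.le_of_ble_eq_true h6
  have hl : t.l < 19 := Nat.le_of_ble_eq_true h7
  have hgi : fn (n := 4) t.g (pt i) = 0 := (fn_eq_zero_iff hg (len_pn i)).2 h3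
  have hgj : fn (n := 4) t.g (pt j) = 0 := (fn_eq_zero_iff hg (len_pn j)).2 h4
  refine ⟨fn t.g, hgi, hgj, ?_, ⟨t.k, by omega⟩, ⟨t.l, hl⟩, t.a, t.b, t.c, fn t.f, ?_, ?_, ?_, ?_,
    ?_⟩
  · intro x hx
    rw [pt, fn_eq_zero_iff hg (len_pn x)] at hx
    rw [List.all_eq_true] at h5
    have h12 := h5 (pn x) (pn_mem x)
    rw [hx, Bool.not_true, Bool.false_or, List.any_eq_true] at h12
    obtain ⟨c, -, hc⟩ := h12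
    have h13 := lc_vec (n := 4) hc
    have h14 : pt x = vec (pn x) := rfl
    rw [h14, h13]
    apply add_mem
    · exact Submodule.smul_mem _ _ (subset_span (by left; rfl))
    · exact Submodule.smul_mem _ _ (subset_span (by right; rfl))
  · intro h
    have := congrArg Fin.val h
    simp only at this
    omega
  · exact lc3_vec (n := 4) h8
  · exact (fn_eq_zero_iff hf (len_pn ⟨t.k, by omega⟩)).2 h9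
  · exact (fn_eq_zero_iff hf (len_pn ⟨t.l, hl⟩)).2 h10
  · intro x hx hmem
    have h15 : span (ZMod 7) {pt i, pt j} ≤ LinearMap.ker (fn (n := 4) t.g) := by
      rw [span_le]
      rintro y (rfl | rfl)
      · exact hgi
      · exact hgj
    have h16 : fn (n := 4) t.g (pt x) = 0 := h15 hmem
    rw [pt, fn_eq_zero_iff hg (len_pn x)] at h16
    rw [pt, fn_eq_zero_iff hf (len_pn x)] at hx
    rw [List.all_eq_true] at h11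
    have h12 := h11 (pn x) (pn_mem x)
    rw [hx, h16] at h12
    exact absurd h12 (by decide)

theorem Mat_lines (i : Fin 19) (_ : i ∈ Mat.E) (j : Fin 19) (_ : j ∈ Mat.E) (hij : i ≠ j) :
    ∃ f : (Fin 4 → ZMod 7) →ₗ[ZMod 7] ZMod 7, f (pt i) = 0 ∧ f (pt j) = 0 ∧
      ∀ x ∈ Mat.E, f (pt x) = 0 → pt x ∈ span (ZMod 7) {pt i, pt j} := by
  rcases lt_or_gt_of_ne hij with h | h
  · obtain ⟨g, h1, h2, h3, -⟩ := line_data i j h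
    exact ⟨g, h1, h2, fun x _ hx => h3 x hx⟩
  · obtain ⟨g, h1, h2, h3, -⟩ := line_data j i h
    refine ⟨g, h2, h1, fun x _ hx => ?_⟩
    rw [Set.pair_comm]
    exact h3 x hx

theorem Mat_flats (G : Set (Fin 19)) (hG : Mat.IsFlat G) (hGne : G.Nonempty) :
    ∃ f : (Fin 4 → ZMod 7) →ₗ[ZMod 7] (Fin 1 → ZMod 7),
      (∀ x ∈ G, f (pt x) = 0) ∧ ∀ x ∈ Mat.E, x ∉ G → f (pt x) ≠ 0 :=
  rank_four_flats Mat_rep Mat_simple Mat_rank Mat_tangent Mat_lines G hG hGne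

theorem Mat_critExp_gt : ((1 : ℕ) : ℕ∞) < critExp Mat (Nat.card (ZMod 7)) :=
  (lt_critExp_iff Mat_rep 1).2 Mat_block

theorem Mat_minor {N : Matroid (Fin 19)} (hN : N.IsMinor Mat) (hne : N ≠ Mat)
    (hl : ∀ e ∈ N.E, N.IsNonloop e) : critExp N (Nat.card (ZMod 7)) ≤ (1 : ℕ) :=
  minor_le Mat_rep Mat_simple Mat_flats hN hne hl

theorem Mat_rank_eq : rk Mat Mat.E = 4 := by
  rw [Mat_rep.rk_eq Subset.rfl]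
  have h : span (ZMod 7) (pt '' Mat.E) = ⊤ := by
    rw [eq_top_iff]
    rintro x -
    have hx : x = x 0 • pt 0 + x 1 • pt 7 + x 2 • pt 8 + x 3 • pt 9 := by
      have h0 : pt 0 = ![1, 0, 0, 0] := by decide +kernel
      have h1 : pt 7 = ![0, 1, 0, 0] := by decide +kernel
      have h2 : pt 8 = ![0, 0, 1, 0] := by decide +kernel
      have h3 : pt 9 = ![0, 0, 0, 1] := by decide +kernel
      rw [h0, h1, h2, h3]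
      ext i
      fin_cases i <;> simp
    rw [hx]
    refine add_mem (add_mem (add_mem ?_ ?_) ?_) ?_ <;>
      exact Submodule.smul_mem _ _ (subset_span (mem_image_of_mem pt (mem_univ _)))
  rw [h, finrank_top, Module.finrank_fin_fun]

/-- no flat of rank two is modular -/
theorem Mat_not_modular_line (G : Set (Fin 19)) (hG : rk Mat G = 2) : ¬ IsModularFlat Mat G := by
  intro hmod
  obtain ⟨i, _, j, _, hij, hGij⟩ := exists_pair_of_rk_two Mat_rep Mat_simple hmod.1 hG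
  rw [hGij] at hmod
  rcases lt_or_gt_of_ne hij with h | h
  · obtain ⟨g, -, -, -, k, l, a, b, c, f, hkl, hrel, hfk, hfl, hf⟩ := line_data i j h
    exact not_modular_line Mat_rep Mat_simple (mem_univ i) (mem_univ j) (mem_univ k) (mem_univ l)
      hij hkl a b c hrel f hfk hfl (fun x _ => hf x) hmod
  · obtain ⟨g, -, -, -, k, l, a, b, c, f, hkl, hrel, hfk, hfl, hf⟩ := line_data j i h
    rw [Set.pair_comm] at hmod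
    exact not_modular_line Mat_rep Mat_simple (mem_univ j) (mem_univ i) (mem_univ k) (mem_univ l)
      hij.symm hkl a b c hrel f hfk hfl (fun x _ => hf x) hmod

end Pool.Agent.R138.Ex7
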