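import Pool.Agent.R138.Chk

/-! A rank-five minimal `1`-block over `GF(7)` with a modular copoint that is not tangential. -/

namespace Pool.Agent.R138.Ex7b

open Set Module Submodule Pool.Agent.Helper236 Pool.Agent.R138.ModBlock Pool.Agent.R138.Chk

/-- twenty-six points: seven affine points and the nineteen directions of their differences -/
def pts : List (List ℕ) :=
  [[1, 0, 0, 0, 6],
    [1, 6, 1, 2, 6],
    [1, 1, 0, 0, 0],
    [1, 0, 1, 0, 0],
    [1, 0, 0, 1, 0],
    [1, 0, 0, 0, 1],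
    [1, 0, 0, 0, 0],
    [0, 0, 0, 0, 1],
    [0, 0, 0, 1, 0],
    [0, 0, 0, 1, 1],
    [0, 0, 0, 1, 6],
    [0, 0, 1, 0, 0],
    [0, 0, 1, 0, 1],
    [0, 0, 1, 0, 6],
    [0, 0, 1, 6, 0],
    [0, 1, 0, 0, 0],
    [0, 1, 0, 0, 1],
    [0, 1, 0, 0, 6],
    [0, 1, 0, 5, 1],
    [0, 1, 0, 6, 0],
    [0, 1, 3, 6, 4],
    [0, 1, 6, 0, 0],
    [0, 1, 6, 5, 0],
    [0, 1, 6, 5, 1],
    [0, 1, 6, 5, 2],
    [0, 1, 6, 6, 1]]

/-- tangents at the points -/
def tps : List (List ℕ) :=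
  [[1, 2, 5, 4, 1],
    [1, 2, 1, 5, 3],
    [1, 6, 1, 5, 3],
    [1, 1, 6, 2, 4],
    [1, 1, 4, 6, 5],
    [1, 4, 2, 3, 6],
    [0, 1, 4, 6, 5],
    [1, 1, 2, 5, 0],
    [1, 1, 2, 0, 3],
    [1, 1, 5, 4, 3],
    [1, 1, 2, 4, 4],
    [1, 3, 0, 1, 2],
    [1, 1, 5, 4, 2],
    [1, 1, 3, 5, 3],
    [1, 2, 1, 1, 3],
    [1, 0, 2, 5, 4],
    [1, 3, 1, 2, 4],
    [1, 3, 2, 1, 3],
    [1, 1, 4, 3, 5],
    [1, 1, 4, 1, 2],
    [1, 1, 2, 5, 3],
    [1, 1, 1, 3, 2],
    [1, 5, 1, 2, 3],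
    [1, 1, 2, 5, 4],
    [1, 1, 3, 4, 5],
    [1, 2, 1, 5, 4]]

/-- the point with number `i` -/
def pn (i : ℕ) : List ℕ := pts.getD i []

theorem chk_tps : ((List.range 26).all fun i => (List.range 26).all fun j =>
    Nat.beq (tps.getD i []).length 5 &&
    (if Nat.beq i j then z (tps.getD i []) (pn j) else !(z (tps.getD i []) (pn j)))) = true := by
  decide +kernel

theorem chk_len : ((List.range 26).all fun i => Nat.beq (pn i).length 5) = true := by
  decide +kernel

/-- no tangent at the line through the points with numbers `9` and `11` -/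
theorem chk_no : ((List.range 7).all fun a => (List.range 7).all fun b => (List.range 7).all fun c =>
    (List.range 26).any fun x => !(Nat.beq x 9) && !(Nat.beq x 11) &&
      z [a, b, 0, c, 6 * c] (pn x)) = true := by
  decide +kernel

/-- the point with number `i` as a vector -/
def pt (i : Fin 26) : Fin 5 → ZMod 7 := vec (pn i)

theorem len_pn (i : Fin 26) : (pn i).length = 5 := by
  have h := chk_len
  rw [List.all_eq_true] at h
  exact Nat.eq_of_beq_eq_true (h i.1 (List.mem_range.2 i.2))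

theorem len_tp (i : Fin 26) : (tps.getD i []).length = 5 := by
  have h := chk_tps
  rw [List.all_eq_true] at h
  have h1 := h i.1 (List.mem_range.2 i.2)
  rw [List.all_eq_true] at h1
  have h2 := h1 i.1 (List.mem_range.2 i.2)
  rw [Bool.and_eq_true] at h2
  exact Nat.eq_of_beq_eq_true h2.1

theorem tangent (i j : Fin 26) : fn (n := 5) (tps.getD i []) (pt j) = 0 ↔ j = i := by
  rw [pt, fn_eq_zero_iff (len_tp i) (len_pn j)]
  have h := chk_tps
  rw [List.all_eq_true] at h
  have h1 := h i.1 (List.mem_range.2 i.2)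
  rw [List.all_eq_true] at h1
  have h2 := h1 j.1 (List.mem_range.2 j.2)
  rw [Bool.and_eq_true] at h2
  have h3 := h2.2
  by_cases hij : j = i
  · subst hij
    rw [if_pos (Nat.beq_refl _)] at h3
    exact ⟨fun _ => rfl, fun _ => h3⟩
  · rw [if_neg (fun hb => hij (Fin.ext (Nat.eq_of_beq_eq_true hb).symm))] at h3
    rw [Bool.not_eq_true'] at h3
    rw [h3]
    exact ⟨fun hb => absurd hb (by decide), fun hb => absurd hb hij⟩

theorem phi_eq (i : Fin 26) : pt i 0 = if i.1 < 7 then 1 else 0 := by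
  revert i
  decide +kernel

theorem chk_lines : ((List.range 7).all fun i => (List.range 7).all fun j =>
    Nat.beq i j || (List.range 19).any fun l => (List.range 6).any fun c =>
      lc (c + 1) (pn i) (6 * (c + 1)) (pn j) (pn (7 + l))) = true := by
  decide +kernel

theorem lines (i j : Fin 26) (hi : pt i 0 ≠ 0) (hj : pt j 0 ≠ 0) (hij : i ≠ j) :
    ∃ l : Fin 26, pt l 0 = 0 ∧ ∃ c : ZMod 7, c ≠ 0 ∧ pt l = c • ((pt i 0)⁻¹ • pt i -
      (pt j 0)⁻¹ • pt j) := by
  have hi7 : i.1 < 7 := by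
    by_contra hcon
    rw [phi_eq, if_neg hcon] at hi
    exact hi rfl
  have hj7 : j.1 < 7 := by
    by_contra hcon
    rw [phi_eq, if_neg hcon] at hj
    exact hj rfl
  have h := chk_lines
  rw [List.all_eq_true] at h
  have h1 := h i.1 (List.mem_range.2 hi7)
  rw [List.all_eq_true] at h1
  have h2 := h1 j.1 (List.mem_range.2 hj7)
  rw [Bool.or_eq_true] at h2
  rcases h2 with h2 | h2
  · exact absurd (Fin.ext (Nat.eq_of_beq_eq_true h2)) hij
  rw [List.any_eq_true] at h2
  obtain ⟨l, hl, h3⟩ := h2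
  rw [List.any_eq_true] at h3
  obtain ⟨c, hc, h4⟩ := h3
  rw [List.mem_range] at hl hc
  refine ⟨⟨7 + l, by omega⟩, ?_, ((c + 1 : ℕ) : ZMod 7), ?_, ?_⟩
  · rw [phi_eq, if_neg]
    simp
  · rw [Ne, ZMod.natCast_eq_zero_iff]
    exact Nat.not_dvd_of_pos_of_lt (by omega) (by omega)
  · have h5 := lc_vec (n := 5) h4
    have h6 : pt ⟨7 + l, by omega⟩ = vec (pn (7 + l)) := rfl
    have h7 : ((6 * (c + 1) : ℕ) : ZMod 7) = - ((c + 1 : ℕ) : ZMod 7) := by
      rw [Nat.cast_mul]
      have : ((6 : ℕ) : ZMod 7) = -1 := by decide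
      rw [this, neg_one_mul]
    rw [h6, h5, phi_eq i, phi_eq j, if_pos hi7, if_pos hj7, inv_one, one_smul, one_smul, h7,
      neg_smul, smul_sub, ← sub_eq_add_neg]
    rfl

/-- the matroid on twenty-six points -/
noncomputable def Mat : Matroid (Fin 26) := linMatroid (ZMod 7) pt univ (Set.toFinite _)

theorem Mat_E : Mat.E = univ := rfl

instance Mat_finite : Mat.Finite := ⟨Set.toFinite _⟩

theorem Mat_rep : Rep (ZMod 7) Mat pt := linMatroid_rep _ _ _

theorem exists_ne (i : Fin 26) : ∃ j : Fin 26, j ≠ i := by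
  by_cases h : i = 0
  · exact ⟨1, by rw [h]; decide⟩
  · exact ⟨0, Ne.symm h⟩

theorem pt_ne_zero (i : Fin 26) : pt i ≠ 0 := by
  intro h
  obtain ⟨j, hj⟩ := exists_ne i
  have := (tangent j i).1 (by rw [h, map_zero])
  exact hj this.symm

theorem Mat_simple : IsSimple Mat := by
  intro e _ f _
  rw [Mat_rep _ (subset_univ _)]
  by_cases hef : e = f
  · subst hef
    simpa using pt_ne_zero e
  · rw [linearIndepOn_pair_iff _ hef (pt_ne_zero e)]
    intro c hc
    have h1 : fn (n := 5) (tps.getD e []) (pt f) = 0 := by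
      rw [← hc, map_smul, (tangent e e).2 rfl, smul_zero]
    exact hef ((tangent e f).1 h1).symm

theorem Mat_rank_eq : rk Mat Mat.E = 5 := by
  rw [Mat_rep.rk_eq Subset.rfl]
  have h : span (ZMod 7) (pt '' Mat.E) = ⊤ := by
    rw [eq_top_iff]
    rintro x -
    have hx : x = x 0 • pt 6 + x 1 • pt 15 + x 2 • pt 11 + x 3 • pt 8 + x 4 • pt 7 := by
      have h0 : pt 6 = ![1, 0, 0, 0, 0] := by decide +kernel
      have h1 : pt 15 = ![0, 1, 0, 0, 0] := by decide +kernel
      have h2 : pt 11 = ![0, 0, 1, 0, 0] := by decide +kernel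
      have h3 : pt 8 = ![0, 0, 0, 1, 0] := by decide +kernel
      have h4 : pt 7 = ![0, 0, 0, 0, 1] := by decide +kernel
      rw [h0, h1, h2, h3, h4]
      ext i
      fin_cases i <;> simp
    rw [hx]
    refine add_mem (add_mem (add_mem (add_mem ?_ ?_) ?_) ?_) ?_ <;>
      exact Submodule.smul_mem _ _ (subset_span (mem_image_of_mem pt (mem_univ _)))
  rw [h, finrank_top, Module.finrank_fin_fun]

theorem Mat_copoint : IsModularHyperplane Mat {e | e ∈ Mat.E ∧
    (LinearMap.proj 0 : (Fin 5 → ZMod 7) →ₗ[ZMod 7] ZMod 7) (pt e) = 0} := by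
  refine modular_of_lines Mat_rep _ (mem_univ (0 : Fin 26)) ?_ ?_
  · change pt 0 0 ≠ 0
    rw [phi_eq]
    decide
  · intro i _ j _ hi hj hij
    obtain ⟨l, hl, c, hc, hlc⟩ := lines i j hi hj hij
    exact ⟨l, mem_univ _, hl, c, hc, hlc⟩

theorem Mat_block (f : (Fin 5 → ZMod 7) →ₗ[ZMod 7] (Fin 1 → ZMod 7)) :
    ∃ e ∈ Mat.E, f (pt e) = 0 := by
  obtain ⟨e, he, h⟩ := block_of_lines (M := Mat) (v := pt)
    (LinearMap.proj 0 : (Fin 5 → ZMod 7) →ₗ[ZMod 7] ZMod 7) (by
      intro i _ j _ hi hj hij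
      obtain ⟨l, hl, c, hc, hlc⟩ := lines i j hi hj hij
      exact ⟨l, mem_univ _, hl, c, hc, hlc⟩) (by
      rw [Nat.card_zmod]
      have h1 : {e : Fin 26 | e ∈ Mat.E ∧
          (LinearMap.proj 0 : (Fin 5 → ZMod 7) →ₗ[ZMod 7] ZMod 7) (pt e) ≠ 0} =
          ((Finset.univ.filter (fun e : Fin 26 => e.1 < 7) : Finset (Fin 26)) : Set (Fin 26)) := by
        ext e
        rw [Finset.coe_filter]
        constructor
        · rintro ⟨-, he⟩
          refine ⟨Finset.mem_univ _, ?_⟩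
          by_contra hcon
          apply he
          change pt e 0 = 0
          rw [phi_eq, if_neg hcon]
        · rintro ⟨-, he⟩
          refine ⟨mem_univ _, ?_⟩
          change pt e 0 ≠ 0
          rw [phi_eq, if_pos he]
          decide
      rw [h1, Set.ncard_coe_finset]
      decide) ((LinearMap.proj 0).comp f)
  refine ⟨e, he, ?_⟩
  ext j
  rw [Subsingleton.elim j 0]
  exact h

theorem Mat_critExp_gt : ((1 : ℕ) : ℕ∞) < critExp Mat (Nat.card (ZMod 7)) :=
  (lt_critExp_iff Mat_rep 1).2 Mat_block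

theorem Mat_delete (x : Fin 26) : critExp (Mat.delete {x}) (Nat.card (ZMod 7)) ≤ (1 : ℕ) := by
  have h := minor_critExp_le_iff Mat_rep 1 ∅ {x} (empty_subset _)
  rw [Matroid.contract_empty] at h
  rw [h]
  refine ⟨LinearMap.pi (fun _ => fn (tps.getD x [])), by simp, ?_⟩
  intro e he h0
  have h1 := congrFun h0 0
  have h2 : e = x := (tangent x e).1 (by simpa using h1)
  exact he.2 h2

theorem no_tangent (f : (Fin 5 → ZMod 7) →ₗ[ZMod 7] ZMod 7) (h9 : f (pt 9) = 0)
    (h11 : f (pt 11) = 0) : ∃ x : Fin 26, x ≠ 9 ∧ x ≠ 11 ∧ f (pt x) = 0 := by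
  have e9 : pt 9 = Pi.single 3 1 + Pi.single 4 1 := by decide +kernel
  have e11 : pt 11 = Pi.single 2 1 := by decide +kernel
  rw [e9, map_add] at h9
  rw [e11] at h11
  set a : ℕ := (f (Pi.single 0 1)).val with ha
  set b : ℕ := (f (Pi.single 1 1)).val with hb
  set c : ℕ := (f (Pi.single 3 1)).val with hc
  have hf : ∀ y, f y = fn (n := 5) [a, b, 0, c, 6 * c] y := by
    intro y
    have hy : y = y 0 • Pi.single 0 1 + y 1 • Pi.single 1 1 + y 2 • Pi.single 2 1 +
        y 3 • Pi.single 3 1 + y 4 • Pi.single 4 1 := by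
      ext i
      fin_cases i <;> simp
    conv_lhs => rw [hy]
    simp only [map_add, map_smul, smul_eq_mul]
    have h1 : fn (n := 5) [a, b, 0, c, 6 * c] y = (a : ZMod 7) * y 0 + (b : ZMod 7) * y 1 +
        (0 : ZMod 7) * y 2 + (c : ZMod 7) * y 3 + ((6 * c : ℕ) : ZMod 7) * y 4 := by
      change ∑ i : Fin 5, vec [a, b, 0, c, 6 * c] i * y i = _
      rw [Fin.sum_univ_five]
      simp [vec]
    rw [h1, ha, hb, hc]
    push_cast
    simp only [ZMod.natCast_val, ZMod.cast_id', id_eq]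
    have h6 : (6 : ZMod 7) = -1 := by decide
    rw [h6, h11]
    have h4 : f (Pi.single 4 1) = - f (Pi.single 3 1) := by
      rw [eq_neg_iff_add_eq_zero, add_comm]
      exact h9
    rw [h4]
    ring
  have ha7 : a < 7 := ZMod.val_lt _
  have hb7 : b < 7 := ZMod.val_lt _
  have hc7 : c < 7 := ZMod.val_lt _
  have h := chk_no
  rw [List.all_eq_true] at h
  have h1 := h a (List.mem_range.2 ha7)
  rw [List.all_eq_true] at h1
  have h2 := h1 b (List.mem_range.2 hb7)
  rw [List.all_eq_true] at h2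
  have h3 := h2 c (List.mem_range.2 hc7)
  rw [List.any_eq_true] at h3
  obtain ⟨x, hx, h4⟩ := h3
  rw [List.mem_range] at hx
  simp only [Bool.and_eq_true, Bool.not_eq_true'] at h4
  refine ⟨⟨x, hx⟩, ?_, ?_, ?_⟩
  · intro h5
    have h6 : x = 9 := congrArg Fin.val h5
    rw [h6] at h4
    exact absurd h4.1.1 (by decide)
  · intro h5
    have h6 : x = 11 := congrArg Fin.val h5
    rw [h6] at h4
    exact absurd h4.1.2 (by decide)
  · rw [hf, pt, fn_eq_zero_iff (by rfl) (len_pn ⟨x, hx⟩)]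
    exact h4.2

end Pool.Agent.R138.Ex7b
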