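import Mathlib

/-! Principal minors, principal pivots, and nonarchimedean sizes. -/

namespace Pool.Agent.R138.Herm

open Matrix Finset

variable {K : Type*} [Field K] {V : Type*} [Fintype V] [DecidableEq V]

/-- rows of `H` in `U`, rows of the identity elsewhere -/
def rowM (H : Matrix V V K) (U : Finset V) : Matrix V V K :=
  fun i j => if i ∈ U then H i j else (1 : Matrix V V K) i j

/-- principal minor -/
def pm (H : Matrix V V K) (U : Finset V) : K := (rowM H U).det

theorem det_inst {n : Type*} (i1 i2 : Fintype n) (d1 d2 : DecidableEq n) (M : Matrix n n K) :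
    @Matrix.det n d1 i1 K _ M = @Matrix.det n d2 i2 K _ M := by
  obtain rfl : i1 = i2 := Subsingleton.elim _ _
  obtain rfl : d1 = d2 := Subsingleton.elim _ _
  rfl

theorem pm_eq (H : Matrix V V K) (U : Finset V) :
    pm H U = (H.submatrix (fun i : U => (i : V)) (fun i : U => (i : V))).det := by
  have h0 := twoBlockTriangular_det (rowM H U) (fun i => i ∈ U) (by
    intro i hi j hj
    rw [rowM, if_neg hi, one_apply_ne]
    rintro rfl
    exact hi hj)
  have h1 : toSquareBlockProp (rowM H U) (fun i => ¬ i ∈ U) = 1 := by
    ext i j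
    rw [toSquareBlockProp_def, of_apply, rowM, if_neg i.2]
    by_cases hij : i = j
    · rw [hij, one_apply_eq, one_apply_eq]
    · rw [one_apply_ne hij, one_apply_ne (fun h => hij (Subtype.ext h))]
  have h2 : toSquareBlockProp (rowM H U) (fun i => i ∈ U) =
      H.submatrix (fun i : U => (i : V)) (fun i : U => (i : V)) := by
    ext i j
    rw [toSquareBlockProp_def, of_apply, rowM, if_pos i.2]
    rfl
  rw [h1, det_one, mul_one, h2] at h0
  rw [pm, h0]
  exact det_inst _ _ _ _ _

theorem pm_empty (H : Matrix V V K) : pm H ∅ = 1 := by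
  rw [pm]
  have : rowM H ∅ = 1 := by
    ext i j
    simp [rowM]
  rw [this, det_one]

theorem pm_singleton (H : Matrix V V K) (i : V) : pm H {i} = H i i := by
  rw [pm_eq, det_eq_elem_of_card_eq_one (by simp) ⟨i, mem_singleton_self i⟩]
  rfl

theorem pm_pair (H : Matrix V V K) {i j : V} (hij : i ≠ j) :
    pm H {i, j} = H i i * H j j - H i j * H j i := by
  rw [pm_eq]
  let e : Fin 2 ≃ ({i, j} : Finset V) :=
    { toFun := fun k => if k = 0 then ⟨i, by simp⟩ else ⟨j, by simp⟩
      invFun := fun x => if (x : V) = i then 0 else 1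
      left_inv := by
        intro k
        fin_cases k
        · simp
        · simp [hij.symm]
      right_inv := by
        rintro ⟨x, hx⟩
        rw [mem_insert, mem_singleton] at hx
        rcases hx with rfl | rfl
        · simp
        · simp [hij.symm] }
  rw [← det_submatrix_equiv_self e, det_fin_two]
  rfl

/-- the principal pivot transform -/
noncomputable def pivot (H : Matrix V V K) (X : Finset V) : Matrix V V K :=
  rowM H Xᶜ * (rowM H X)⁻¹

/-- rows of the identity in `X`, rows of `H` elsewhere -/
theorem rowM_compl (H : Matrix V V K) (X : Finset V) (i j : V) :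
    rowM H Xᶜ i j = if i ∈ X then (1 : Matrix V V K) i j else H i j := by
  rw [rowM]
  by_cases h : i ∈ X
  · rw [if_neg (by simpa using h), if_pos h]
  · rw [if_pos (by simpa using h), if_neg h]

theorem pivot_mul (H : Matrix V V K) (X : Finset V) (hX : pm H X ≠ 0) :
    pivot H X * rowM H X = rowM H Xᶜ := by
  rw [pivot, Matrix.mul_assoc, nonsing_inv_mul _ (isUnit_iff_ne_zero.2 hX), Matrix.mul_one]

theorem pm_pivot (H : Matrix V V K) (X U : Finset V) (hX : pm H X ≠ 0) :
    pm (pivot H X) U * pm H X = pm H (symmDiff X U) := by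
  rw [pm, pm, pm, ← det_mul]
  congr 1
  ext i j
  rw [mul_apply]
  by_cases hU : i ∈ U
  · have h1 : ∑ k, rowM (pivot H X) U i k * rowM H X k j = (pivot H X * rowM H X) i j := by
      rw [mul_apply]
      refine Finset.sum_congr rfl fun k _ => ?_
      rw [rowM, if_pos hU]
    rw [h1, pivot_mul H X hX, rowM_compl, rowM]
    by_cases hX' : i ∈ X
    · rw [if_pos hX', if_neg]
      rw [mem_symmDiff]
      tauto
    · rw [if_neg hX', if_pos]
      rw [mem_symmDiff]
      tauto
  · have h1 : ∑ k, rowM (pivot H X) U i k * rowM H X k j = ((1 : Matrix V V K) * rowM H X) i j := by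
      rw [mul_apply]
      refine Finset.sum_congr rfl fun k _ => ?_
      rw [rowM, if_neg hU]
    rw [h1, Matrix.one_mul, rowM, rowM]
    by_cases hX' : i ∈ X
    · rw [if_pos hX', if_pos]
      rw [mem_symmDiff]
      tauto
    · rw [if_neg hX', if_neg]
      rw [mem_symmDiff]
      tauto

/-- conjugate transpose with respect to a ring endomorphism -/
def ct (σ : K →+* K) (M : Matrix V V K) : Matrix V V K := (M.map σ)ᵀ

omit [Fintype V] [DecidableEq V] in
theorem ct_apply (σ : K →+* K) (M : Matrix V V K) (i j : V) : ct σ M i j = σ (M j i) := rfl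

omit [DecidableEq V] in
theorem ct_mul (σ : K →+* K) (M N : Matrix V V K) : ct σ (M * N) = ct σ N * ct σ M := by
  rw [ct, Matrix.map_mul, transpose_mul]
  rfl

theorem det_ct (σ : K →+* K) (M : Matrix V V K) : (ct σ M).det = σ M.det := by
  rw [ct, det_transpose, ← RingHom.mapMatrix_apply, RingHom.map_det]

theorem pivot_herm [CharP K 2] (σ : K →+* K) (H : Matrix V V K) (hH : ct σ H = H)
    (X : Finset V) (hX : pm H X ≠ 0) : ct σ (pivot H X) = pivot H X := by
  have hHe : ∀ i j, σ (H i j) = H j i := by
    intro i j
    have := congrFun (congrFun hH j) i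
    rwa [ct_apply] at this
  have h2 : ∀ x : K, x + x = 0 := CharTwo.add_self_eq_zero
  have key : ct σ (rowM H X) * rowM H Xᶜ = ct σ (rowM H Xᶜ) * rowM H X := by
    ext i j
    have h3 : (ct σ (rowM H X) * rowM H Xᶜ) i j =
        (if j ∈ X then H i j else 0) + (if i ∈ X then 0 else H i j) := by
      rw [mul_apply]
      have h4 : ∀ k, ct σ (rowM H X) i k * rowM H Xᶜ k j =
          (if k ∈ X then H i k * (1 : Matrix V V K) k j else 0) +
          (if k ∈ X then 0 else (1 : Matrix V V K) k i * H k j) := by
        intro k
        rw [ct_apply, rowM_compl, rowM]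
        by_cases hk : k ∈ X
        · rw [if_pos hk, if_pos hk, if_pos hk, if_pos hk, hHe, add_zero]
        · rw [if_neg hk, if_neg hk, if_neg hk, if_neg hk, zero_add]
          by_cases hki : k = i
          · rw [hki, one_apply_eq, map_one]
          · rw [one_apply_ne hki, map_zero]
      rw [Finset.sum_congr rfl fun k _ => h4 k, Finset.sum_add_distrib]
      congr 1
      · rw [Finset.sum_eq_single j]
        · rw [one_apply_eq, mul_one]
        · intro k _ hkj
          rw [one_apply_ne hkj, mul_zero, ite_self]
        · intro h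
          exact absurd (mem_univ _) h
      · rw [Finset.sum_eq_single i]
        · rw [one_apply_eq, one_mul]
        · intro k _ hki
          rw [one_apply_ne hki, zero_mul, ite_self]
        · intro h
          exact absurd (mem_univ _) h
    have h5 : (ct σ (rowM H Xᶜ) * rowM H X) i j =
        (if i ∈ X then H i j else 0) + (if j ∈ X then 0 else H i j) := by
      rw [mul_apply]
      have h4 : ∀ k, ct σ (rowM H Xᶜ) i k * rowM H X k j =
          (if k ∈ X then (1 : Matrix V V K) k i * H k j else 0) +
          (if k ∈ X then 0 else H i k * (1 : Matrix V V K) k j) := by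
        intro k
        rw [ct_apply, rowM_compl, rowM]
        by_cases hk : k ∈ X
        · rw [if_pos hk, if_pos hk, if_pos hk, if_pos hk, add_zero]
          by_cases hki : k = i
          · rw [hki, one_apply_eq, map_one]
          · rw [one_apply_ne hki, map_zero]
        · rw [if_neg hk, if_neg hk, if_neg hk, if_neg hk, zero_add, hHe]
      rw [Finset.sum_congr rfl fun k _ => h4 k, Finset.sum_add_distrib]
      congr 1
      · rw [Finset.sum_eq_single i]
        · rw [one_apply_eq, one_mul]
        · intro k _ hki
          rw [one_apply_ne hki, zero_mul, ite_self]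
        · intro h
          exact absurd (mem_univ _) h
      · rw [Finset.sum_eq_single j]
        · rw [one_apply_eq, mul_one]
        · intro k _ hkj
          rw [one_apply_ne hkj, mul_zero, ite_self]
        · intro h
          exact absurd (mem_univ _) h
    rw [h3, h5]
    by_cases hi : i ∈ X <;> by_cases hj : j ∈ X <;> simp [hi, hj, h2]
  have hR := pivot_mul H X hX
  have hRu : IsUnit (rowM H X).det := isUnit_iff_ne_zero.2 hX
  have hRc : IsUnit (ct σ (rowM H X)).det := by
    rw [det_ct]
    exact hRu.map σ
  have h6 : ct σ (rowM H X) * ct σ (pivot H X) * rowM H X =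
      ct σ (rowM H X) * pivot H X * rowM H X := by
    rw [← ct_mul, hR, Matrix.mul_assoc, hR, key]
  have h7 : ct σ (rowM H X) * ct σ (pivot H X) = ct σ (rowM H X) * pivot H X := by
    have := congrArg (· * (rowM H X)⁻¹) h6
    beta_reduce at this
    rwa [Matrix.mul_assoc, mul_nonsing_inv _ hRu, Matrix.mul_one, Matrix.mul_assoc _ _ (rowM H X)⁻¹,
      mul_nonsing_inv _ hRu, Matrix.mul_one] at this
  have := congrArg ((ct σ (rowM H X))⁻¹ * ·) h7
  beta_reduce at this
  rwa [← Matrix.mul_assoc, nonsing_inv_mul _ hRc, Matrix.one_mul, ← Matrix.mul_assoc,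
    nonsing_inv_mul _ hRc, Matrix.one_mul] at this

end Pool.Agent.R138.Herm
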