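import Pool.Agent.R138.Herm

/-! Nonarchimedean sizes of principal minors of Hermitian matrices in characteristic two. -/

namespace Pool.Agent.R138.Herm

open Matrix Finset

variable {K : Type*} [Field K] {V : Type*} [Fintype V] [DecidableEq V]

/-- the strong triangle inequality -/
def Ultra (N : AbsoluteValue K ℝ) : Prop := ∀ x y, N (x + y) ≤ max (N x) (N y)

variable {N : AbsoluteValue K ℝ}

theorem Ultra.sub (h : Ultra N) (x y : K) : N (x - y) ≤ max (N x) (N y) := by
  have := h x (-y)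
  rwa [N.map_neg, ← sub_eq_add_neg] at this

theorem sum_lt (h : Ultra N) {ι : Type*} (s : Finset ι) (f : ι → K) (B : ℝ) (hB : 0 < B)
    (hf : ∀ i ∈ s, N (f i) < B) : N (∑ i ∈ s, f i) < B := by
  classical
  induction s using Finset.induction_on with
  | empty => simpa using hB
  | insert a s ha ih =>
    rw [Finset.sum_insert ha]
    refine (h _ _).trans_lt (max_lt (hf a (mem_insert_self _ _)) (ih ?_))
    intro i hi
    exact hf i (mem_insert_of_mem hi)

theorem det_lt (h : Ultra N) {ι : Type*} [Fintype ι] [DecidableEq ι] (M : Matrix ι ι K) (B : ℝ)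
    (hB : 0 < B) (hM : ∀ π : Equiv.Perm ι, N (∏ i, M (π i) i) < B) : N M.det < B := by
  rw [det_apply']
  refine sum_lt h _ _ B hB fun π _ => ?_
  rw [N.map_mul]
  have : N ((Equiv.Perm.sign π : ℤ) : K) = 1 := by
    rcases Int.units_eq_one_or (Equiv.Perm.sign π) with h1 | h1
    · rw [h1]; simp
    · rw [h1]; simp
  rw [this, one_mul]
  exact hM π

theorem det_small (h : Ultra N) (G : Matrix V V K) (W : V → ℝ) (hW : ∀ i, 0 < W i)
    (hG : ∀ i j, N (G i j) = N (G j i)) (D : Finset V) (z : V)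
    (h1 : ∀ i ∈ D, i ≠ z → N (G i i) * W i < 1) (hz : z ∈ D → N (G z z) * W z ≤ 1)
    (h2 : ∀ i ∈ D, ∀ j ∈ D, i ≠ j → N (G i i * G j j - G i j * G j i) * (W i * W j) < 1)
    (hne : ∃ i ∈ D, i ≠ z) : N (pm G D) * ∏ i ∈ D, W i < 1 := by
  have hdiag : ∀ i ∈ D, N (G i i) * W i ≤ 1 := by
    intro i hi
    by_cases hiz : i = z
    · rw [hiz] at hi ⊢
      exact hz hi
    · exact (h1 i hi hiz).le
  have hnn : ∀ i, 0 ≤ N (G i i) * W i := fun i => mul_nonneg (N.nonneg _) (hW i).le
  have hoff : ∀ i ∈ D, ∀ j ∈ D, i ≠ j → N (G i j) ^ 2 * (W i * W j) < 1 := by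
    intro i hi j hj hij
    have h3 : N (G i j) ^ 2 = N (G i j * G j i) := by
      rw [N.map_mul, hG j i, sq]
    have h4 : G i j * G j i = G i i * G j j - (G i i * G j j - G i j * G j i) := by ring
    have h5 : N (G i j * G j i) ≤ max (N (G i i * G j j)) (N (G i i * G j j - G i j * G j i)) := by
      conv_lhs => rw [h4]
      exact h.sub _ _
    have hWW : 0 < W i * W j := mul_pos (hW i) (hW j)
    have h6 : N (G i i * G j j) * (W i * W j) < 1 := by
      rw [N.map_mul]
      have h7 : N (G i i) * N (G j j) * (W i * W j) = (N (G i i) * W i) * (N (G j j) * W j) := by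
        ring
      rw [h7]
      by_cases hiz : i = z
      · have hjz : j ≠ z := fun hjz => hij (hiz.trans hjz.symm)
        calc (N (G i i) * W i) * (N (G j j) * W j) ≤ 1 * (N (G j j) * W j) :=
              mul_le_mul_of_nonneg_right (hdiag i hi) (hnn j)
          _ < 1 := by rw [one_mul]; exact h1 j hj hjz
      · calc (N (G i i) * W i) * (N (G j j) * W j) ≤ (N (G i i) * W i) * 1 :=
              mul_le_mul_of_nonneg_left (hdiag j hj) (hnn i)
          _ < 1 := by rw [mul_one]; exact h1 i hi hiz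
    rw [h3]
    calc N (G i j * G j i) * (W i * W j) ≤
          max (N (G i i * G j j)) (N (G i i * G j j - G i j * G j i)) * (W i * W j) :=
            mul_le_mul_of_nonneg_right h5 hWW.le
      _ = max (N (G i i * G j j) * (W i * W j))
            (N (G i i * G j j - G i j * G j i) * (W i * W j)) := max_mul_of_nonneg _ _ hWW.le
      _ < 1 := max_lt h6 (h2 i hi j hj hij)
  have hall : ∀ i ∈ D, ∀ j ∈ D, N (G i j) ^ 2 * (W i * W j) ≤ 1 := by
    intro i hi j hj
    by_cases hij : i = j
    · rw [← hij]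
      have : N (G i i) ^ 2 * (W i * W i) = (N (G i i) * W i) ^ 2 := by ring
      rw [this]
      exact pow_le_one₀ (hnn i) (hdiag i hi)
    · exact (hoff i hi j hj hij).le
  obtain ⟨i₀, hi₀, hi₀z⟩ := hne
  have hstrict : ∀ j ∈ D, N (G j i₀) ^ 2 * (W j * W i₀) < 1 := by
    intro j hj
    by_cases hij : j = i₀
    · rw [hij]
      have : N (G i₀ i₀) ^ 2 * (W i₀ * W i₀) = (N (G i₀ i₀) * W i₀) ^ 2 := by ring
      rw [this]
      exact pow_lt_one₀ (hnn i₀) (h1 i₀ hi₀ hi₀z) two_ne_zero
    · exact hoff j hj i₀ hi₀ hij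
  have hPW : 0 < ∏ i ∈ D, W i := Finset.prod_pos fun i _ => hW i
  rw [← lt_div_iff₀ hPW, pm_eq]
  refine det_lt h _ _ (div_pos one_pos hPW) fun π => ?_
  rw [lt_div_iff₀ hPW, N.map_prod]
  have hDW : ∏ i ∈ D, W i = ∏ i : D, W i := (Finset.prod_coe_sort D W).symm
  rw [hDW]
  have hsq : ((∏ i : D, N (G (π i) i)) * ∏ i : D, W i) ^ 2 =
      ∏ i : D, (N (G (π i) i) ^ 2 * (W (π i) * W i)) := by
    rw [Finset.prod_mul_distrib, Finset.prod_mul_distrib, Finset.prod_pow,
      Equiv.prod_comp π (fun i : D => W i)]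
    ring
  have hlt : ∏ i : D, (N (G (π i) i) ^ 2 * (W (π i) * W i)) < 1 := by
    rw [← Finset.mul_prod_erase univ _ (mem_univ (⟨i₀, hi₀⟩ : D))]
    have hle : ∏ i ∈ univ.erase (⟨i₀, hi₀⟩ : D), (N (G (π i) i) ^ 2 * (W (π i) * W i)) ≤ 1 := by
      apply Finset.prod_le_one
      · intro i _
        exact mul_nonneg (sq_nonneg _) (mul_nonneg (hW _).le (hW _).le)
      · intro i _
        exact hall _ (π i).2 _ i.2
    have h8 : 0 ≤ N (G (π ⟨i₀, hi₀⟩) i₀) ^ 2 * (W (π ⟨i₀, hi₀⟩) * W i₀) :=
      mul_nonneg (sq_nonneg _) (mul_nonneg (hW _).le (hW _).le)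
    calc _ ≤ N (G (π ⟨i₀, hi₀⟩) i₀) ^ 2 * (W (π ⟨i₀, hi₀⟩) * W i₀) * 1 :=
          mul_le_mul_of_nonneg_left hle h8
      _ < 1 := by rw [mul_one]; exact hstrict _ (π ⟨i₀, hi₀⟩).2
  have h9 : ((∏ i : D, N (G (π i) i)) * ∏ i : D, W i) ^ 2 < 1 := hsq ▸ hlt
  have h10 : (∏ i : D, N (G (π i) i)) * ∏ i : D, W i < 1 := by
    by_contra hcon
    rw [not_lt] at hcon
    have : (1 : ℝ) ≤ ((∏ i : D, N (G (π i) i)) * ∏ i : D, W i) ^ 2 := one_le_pow₀ hcon
    linarith
  exact h10

theorem prod_symmDiff (W : V → ℝ) (hW : ∀ i, 0 < W i) (X U : Finset V) :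
    ∏ i ∈ symmDiff X U, W i =
      (∏ i ∈ X, W i) * ∏ i ∈ U, (if i ∈ X then (W i)⁻¹ else W i) := by
  have h : ∀ (U : Finset V) (f : V → ℝ), ∏ i ∈ U, f i = ∏ i, if i ∈ U then f i else 1 := by
    intro U f
    rw [Finset.prod_ite_mem, Finset.univ_inter]
  rw [h, h X, h U, ← Finset.prod_mul_distrib]
  refine Finset.prod_congr rfl fun i _ => ?_
  have hi := (hW i).ne'
  by_cases hX : i ∈ X <;> by_cases hU : i ∈ U <;> simp [mem_symmDiff, hX, hU, hi]

omit [Fintype V] in
theorem erase_symmDiff (X U : Finset V) (z : V) :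
    (symmDiff X U).erase z = symmDiff (X.erase z) (U.erase z) := by
  ext i
  simp only [mem_erase, mem_symmDiff]
  tauto

/-- the weighted size of a principal minor -/
noncomputable def P (N : AbsoluteValue K ℝ) (H : Matrix V V K) (W : V → ℝ) (U : Finset V) : ℝ :=
  N (pm H U) * ∏ i ∈ U, W i

/-- The main estimate: two maximisers of the weighted size of the principal minors of a Hermitian
matrix in characteristic two differ by at most two elements, away from the element `z`. -/
theorem herm_edge [CharP K 2] (h : Ultra N) (σ : K →+* K) (hσN : ∀ x, N (σ x) = N x)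
    (H : Matrix V V K) (hH : ct σ H = H) (W : V → ℝ) (hW : ∀ i, 0 < W i) (z : V)
    (X Y : Finset V) (hX : 0 < P N H W X) (hXY : P N H W Y = P N H W X)
    (hle : ∀ U, P N H W U ≤ P N H W X)
    (hlt : ∀ U, U.erase z ≠ X.erase z → U.erase z ≠ Y.erase z → P N H W U < P N H W X) :
    (symmDiff (X.erase z) (Y.erase z)).card ≤ 2 := by
  by_contra hcon
  rw [not_le] at hcon
  have hpm : pm H X ≠ 0 := by
    intro h0
    rw [P, h0, map_zero, zero_mul] at hX
    exact lt_irrefl _ hX
  set G := pivot H X with hG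
  set W' : V → ℝ := fun i => if i ∈ X then (W i)⁻¹ else W i with hW'
  have hW'pos : ∀ i, 0 < W' i := by
    intro i
    rw [hW']
    beta_reduce
    split_ifs
    · exact inv_pos.2 (hW i)
    · exact hW i
  have hscale : ∀ U, P N H W (symmDiff X U) = P N H W X * (N (pm G U) * ∏ i ∈ U, W' i) := by
    intro U
    rw [P, P, prod_symmDiff W hW, ← pm_pivot H X U hpm, N.map_mul]
    ring
  have hQlt : ∀ U, P N H W (symmDiff X U) < P N H W X → N (pm G U) * ∏ i ∈ U, W' i < 1 := by
    intro U hU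
    rw [hscale] at hU
    by_contra hc
    rw [not_lt] at hc
    nlinarith
  have hQle : ∀ U, N (pm G U) * ∏ i ∈ U, W' i ≤ 1 := by
    intro U
    have hU := hle (symmDiff X U)
    rw [hscale] at hU
    by_contra hc
    rw [not_le] at hc
    nlinarith
  have hsmall : ∀ U : Finset V, U.card ≤ 2 → (∃ i ∈ U, i ≠ z) →
      N (pm G U) * ∏ i ∈ U, W' i < 1 := by
    intro U hU2 hUz
    apply hQlt
    apply hlt
    · intro heq
      rw [erase_symmDiff] at heq
      have h1 : U.erase z = ∅ := by
        have h2 : symmDiff (X.erase z) (symmDiff (X.erase z) (U.erase z)) =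
            symmDiff (X.erase z) (X.erase z) := by rw [heq]
        rw [symmDiff_symmDiff_cancel_left, symmDiff_self] at h2
        exact h2
      obtain ⟨i, hi, hiz⟩ := hUz
      have : i ∈ U.erase z := mem_erase.2 ⟨hiz, hi⟩
      rw [h1] at this
      exact absurd this (notMem_empty _)
    · intro heq
      rw [erase_symmDiff] at heq
      have h1 : U.erase z = symmDiff (X.erase z) (Y.erase z) := by
        rw [← heq, symmDiff_symmDiff_cancel_left]
      have h3 : (U.erase z).card ≤ U.card := Finset.card_le_card (erase_subset _ _)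
      rw [h1] at h3
      omega
  have hGN : ∀ i j, N (G i j) = N (G j i) := by
    intro i j
    have h1 := congrFun (congrFun (pivot_herm σ H hH X hpm) i) j
    rw [ct_apply] at h1
    rw [hG, ← h1, hσN]
  have hne : ∃ i ∈ symmDiff X Y, i ≠ z := by
    have : (symmDiff (X.erase z) (Y.erase z)).Nonempty := by
      rw [← Finset.card_pos]
      omega
    obtain ⟨i, hi⟩ := this
    rw [← erase_symmDiff, mem_erase] at hi
    exact ⟨i, hi.2, hi.1⟩
  have hfin := det_small h G W' hW'pos hGN (symmDiff X Y) z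
    (by
      intro i _ hiz
      have := hsmall {i} (by simp) ⟨i, by simp, hiz⟩
      rwa [pm_singleton, Finset.prod_singleton] at this)
    (by
      intro _
      have := hQle {z}
      rwa [pm_singleton, Finset.prod_singleton] at this)
    (by
      intro i _ j _ hij
      have hz' : ∃ k ∈ ({i, j} : Finset V), k ≠ z := by
        by_cases hiz : i = z
        · exact ⟨j, by simp, fun hjz => hij (hiz.trans hjz.symm)⟩
        · exact ⟨i, by simp, hiz⟩
      have := hsmall {i, j} (Finset.card_le_two) hz'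
      rwa [pm_pair G hij, Finset.prod_pair hij] at this)
    hne
  have h5 := hscale (symmDiff X Y)
  rw [symmDiff_symmDiff_cancel_left, hXY] at h5
  have h6 : N (pm G (symmDiff X Y)) * ∏ i ∈ symmDiff X Y, W' i = 1 := by
    have h7 : P N H W X * (N (pm G (symmDiff X Y)) * ∏ i ∈ symmDiff X Y, W' i - 1) = 0 := by
      rw [mul_sub, mul_one, ← h5, sub_self]
    rcases mul_eq_zero.1 h7 with h8 | h8
    · exact absurd h8 hX.ne'
    · linarith
  rw [h6] at hfin
  exact lt_irrefl _ hfin

end Pool.Agent.R138.Herm
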