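import Pool.Agent.R138.Herm2

/-! Hermitian plus `ω` times a rank-one Hermitian matrix in characteristic two. -/

namespace Pool.Agent.R138.Herm

open Matrix Finset

variable {K : Type*} [Field K] {m : Type*} [Fintype m] [DecidableEq m]

/-- the bordered matrix -/
def bord (B : Matrix m m K) (u v : m → K) : Matrix (m ⊕ Unit) (m ⊕ Unit) K :=
  fromBlocks B (of fun i _ => u i) (of fun _ j => v j) 0

/-- `S` as a set of indices of the bordered matrix -/
def lo (S : Finset m) : Finset (m ⊕ Unit) := S.map Function.Embedding.inl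

/-- `S` together with the border -/
def hi (S : Finset m) : Finset (m ⊕ Unit) := insert (Sum.inr ()) (lo S)

omit [Fintype m] [DecidableEq m] in
theorem inl_mem_lo {S : Finset m} {i : m} : Sum.inl i ∈ lo S ↔ i ∈ S := by
  simp [lo]

omit [Fintype m] [DecidableEq m] in
theorem inr_mem_lo {S : Finset m} {x : Unit} : Sum.inr x ∉ lo S := by
  simp [lo]

omit [Fintype m] in
theorem inl_mem_hi {S : Finset m} {i : m} : Sum.inl i ∈ hi S ↔ i ∈ S := by
  simp [hi, lo]

omit [Fintype m] in
theorem inr_mem_hi {S : Finset m} {x : Unit} : Sum.inr x ∈ hi S := by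
  simp [hi]

omit [Fintype m] in
theorem erase_lo (S : Finset m) : (lo S).erase (Sum.inr ()) = lo S :=
  Finset.erase_eq_of_notMem inr_mem_lo

omit [Fintype m] in
theorem erase_hi (S : Finset m) : (hi S).erase (Sum.inr ()) = lo S :=
  Finset.erase_insert inr_mem_lo

omit [Fintype m] in
/-- every index set is of one of the two kinds -/
theorem exists_lo_hi [Fintype m] (U : Finset (m ⊕ Unit)) : ∃ S : Finset m, U = lo S ∨ U = hi S := by
  refine ⟨univ.filter (fun i => Sum.inl i ∈ U), ?_⟩
  by_cases h : Sum.inr () ∈ U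
  · right
    ext x
    rcases x with i | x
    · rw [inl_mem_hi]; simp
    · simp [inr_mem_hi, h]
  · left
    ext x
    rcases x with i | x
    · rw [inl_mem_lo]; simp
    · simp [inr_mem_lo, h]

/-- expansion of the principal minors of a rank-one perturbation -/
theorem pm_add (B : Matrix m m K) (u v : m → K) (t : K) (S : Finset m) :
    pm (B + t • vecMulVec u v) S = pm (bord B u v) (lo S) - t * pm (bord B u v) (hi S) := by
  set X : Matrix m m K := rowM B S with hX
  set Y : Matrix m Unit K := of fun i _ => if i ∈ S then u i else 0 with hY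
  set Z : Matrix Unit m K := of fun _ j => - t * v j with hZ
  have h1 := det_fromBlocks_one₂₂ X Y Z
  have h2 : X - Y * Z = rowM (B + t • vecMulVec u v) S := by
    ext i j
    rw [Matrix.sub_apply, mul_apply, hX, rowM, rowM]
    simp only [univ_unique, PUnit.default_eq_unit, Finset.sum_singleton, hY, hZ, of_apply]
    by_cases hi : i ∈ S
    · rw [if_pos hi, if_pos hi, if_pos hi, Matrix.add_apply, Matrix.smul_apply, vecMulVec_apply,
        smul_eq_mul]
      ring
    · rw [if_neg hi, if_neg hi, if_neg hi, zero_mul, sub_zero]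
  rw [h2] at h1
  rw [pm, ← h1, pm, pm]
  set M0 := rowM (bord B u v) (lo S) with hM0
  set r0 : m ⊕ Unit → K := Sum.elim 0 1 with hr0
  set r1 : m ⊕ Unit → K := Sum.elim v 0 with hr1
  have h3 : fromBlocks X Y Z 1 =
      updateRow M0 (Sum.inr ()) (r0 + (-t) • r1) := by
    ext i j
    rcases i with i | ⟨⟩
    · rw [updateRow_ne (by simp)]
      rcases j with j | ⟨⟩
      · rw [fromBlocks_apply₁₁, hM0, rowM, hX, rowM]
        by_cases hi : i ∈ S
        · rw [if_pos hi, if_pos (inl_mem_lo.2 hi)]
          rfl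
        · rw [if_neg hi, if_neg (fun h => hi (inl_mem_lo.1 h))]
          by_cases hij : i = j
          · rw [hij, one_apply_eq, one_apply_eq]
          · rw [one_apply_ne hij, one_apply_ne (by simpa using hij)]
      · rw [fromBlocks_apply₁₂, hM0, rowM, hY, of_apply]
        by_cases hi : i ∈ S
        · rw [if_pos hi, if_pos (inl_mem_lo.2 hi)]
          rfl
        · rw [if_neg hi, if_neg (fun h => hi (inl_mem_lo.1 h)), one_apply_ne (by simp)]
    · rw [updateRow_self]
      rcases j with j | ⟨⟩
      · rw [fromBlocks_apply₂₁, hZ, of_apply]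
        simp [hr0, hr1]
      · rw [fromBlocks_apply₂₂]
        simp [hr0, hr1]
  have h4 : updateRow M0 (Sum.inr ()) r0 = M0 := by
    ext i j
    rcases i with i | ⟨⟩
    · rw [updateRow_ne (by simp)]
    · rw [updateRow_self, hM0, rowM, if_neg inr_mem_lo]
      rcases j with j | ⟨⟩
      · rw [one_apply_ne (by simp)]; rfl
      · rw [one_apply_eq]; rfl
  have h5 : updateRow M0 (Sum.inr ()) r1 = rowM (bord B u v) (hi S) := by
    ext i j
    rcases i with i | ⟨⟩
    · rw [updateRow_ne (by simp), hM0, rowM, rowM]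
      by_cases hi' : i ∈ S
      · rw [if_pos (inl_mem_lo.2 hi'), if_pos (inl_mem_hi.2 hi')]
      · rw [if_neg (fun h => hi' (inl_mem_lo.1 h)), if_neg (fun h => hi' (inl_mem_hi.1 h))]
    · rw [updateRow_self, rowM, if_pos inr_mem_hi]
      rcases j with j | ⟨⟩
      · rfl
      · rfl
  rw [h3, det_updateRow_add, det_updateRow_smul, h4, h5]
  ring

theorem pm_fixed (σ : K →+* K) (H : Matrix m m K) (hH : ct σ H = H) (S : Finset m) :
    σ (pm H S) = pm H S := by
  have hHe : ∀ i j, σ (H i j) = H j i := by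
    intro i j
    have := congrFun (congrFun hH j) i
    rwa [ct_apply] at this
  rw [pm_eq]
  have h1 : σ (H.submatrix (fun i : S => (i : m)) (fun i : S => (i : m))).det =
      ((H.submatrix (fun i : S => (i : m)) (fun i : S => (i : m)))ᵀ).det := by
    rw [RingHom.map_det]
    congr 1
    ext i j
    rw [RingHom.mapMatrix_apply, map_apply, submatrix_apply, hHe]
    rfl
  rw [h1, det_transpose]

/-- The multiplicative form of the main theorem. -/
theorem main_mul [CharP K 2] {N : AbsoluteValue K ℝ} (h : Ultra N) (σ : K →+* K)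
    (hσ2 : ∀ x, σ (σ x) = x) (hσN : ∀ x, N (σ x) = N x) (ω : K) (hω : σ ω ≠ ω)
    (B : Matrix m m K) (hB : ct σ B = B) (c : K) (hc : c ≠ 0) (hcσ : σ c = c) (u : m → K)
    (w : m → ℝ) (hw : ∀ i, 0 < w i) (S T : Finset m)
    (hS : 0 < P N (B + (ω * c) • vecMulVec u (fun j => σ (u j))) w S)
    (hST : P N (B + (ω * c) • vecMulVec u (fun j => σ (u j))) w T =
      P N (B + (ω * c) • vecMulVec u (fun j => σ (u j))) w S)
    (hlt : ∀ U, U ≠ S → U ≠ T → P N (B + (ω * c) • vecMulVec u (fun j => σ (u j))) w U <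
      P N (B + (ω * c) • vecMulVec u (fun j => σ (u j))) w S) :
    (symmDiff S T).card ≤ 2 := by
  set v : m → K := fun j => σ (u j) with hv
  set A := B + (ω * c) • vecMulVec u v with hA
  -- bordered matrices are Hermitian
  have hbord : ∀ B' : Matrix m m K, ct σ B' = B' → ct σ (bord B' u v) = bord B' u v := by
    intro B' hB'
    have hBe : ∀ i j, σ (B' j i) = B' i j := fun i j => congrFun (congrFun hB' i) j
    ext i j
    rw [ct_apply]
    rcases i with i | i <;> rcases j with j | j
    · exact hBe i j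
    · change σ (v i) = u i
      rw [hv]
      exact hσ2 _
    · rfl
    · exact map_zero σ
  set bS : Finset m → K := fun S => pm (bord B u v) (lo S) with hbS
  set dS : Finset m → K := fun S => pm (bord B u v) (hi S) with hdS
  have hbσ : ∀ S, σ (bS S) = bS S := fun S => pm_fixed σ _ (hbord B hB) _
  have hdσ : ∀ S, σ (dS S) = dS S := fun S => pm_fixed σ _ (hbord B hB) _
  set x : Finset m → K := fun S => bS S / (c * dS S) with hx
  have hxσ : ∀ S, σ (x S) = x S := by
    intro S
    rw [hx]
    beta_reduce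
    rw [map_div₀, map_mul, hbσ, hdσ, hcσ]
  obtain ⟨S₀, -, hS₀⟩ := Finset.exists_min_image (univ : Finset (Finset m))
    (fun S => N (ω - x S)) ⟨∅, mem_univ _⟩
  set s := x S₀ with hs
  have hsσ : σ s = s := hxσ S₀
  have hmin : ∀ S, N (ω - s) ≤ N (ω - x S) := fun S => hS₀ S (mem_univ _)
  have hωs : ω - s ≠ 0 := by
    intro h0
    rw [sub_eq_zero] at h0
    rw [h0] at hω
    exact hω hsσ
  set B' := B + (s * c) • vecMulVec u v with hB'
  have hB'σ : ct σ B' = B' := by
    have hBe : ∀ i j, σ (B j i) = B i j := fun i j => congrFun (congrFun hB i) j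
    ext i j
    rw [ct_apply, hB', Matrix.add_apply, Matrix.add_apply, Matrix.smul_apply, Matrix.smul_apply,
      vecMulVec_apply, vecMulVec_apply, smul_eq_mul, smul_eq_mul, map_add, map_mul, map_mul,
      map_mul, hsσ, hcσ, hBe, hv]
    beta_reduce
    rw [hσ2]
    ring
  have hAB' : A = B' + ((ω - s) * c) • vecMulVec u v := by
    rw [hA, hB', add_assoc, ← add_smul]
    congr 2
    ring
  have hbS' : ∀ S, pm (bord B' u v) (lo S) - 0 = bS S - (s * c) * dS S := by
    intro S
    have h1 := pm_add B u v (s * c) S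
    have h2 := pm_add B' u v 0 S
    rw [zero_smul, add_zero, zero_mul] at h2
    rw [← h2, ← h1]
  have hdS' : ∀ S, pm (bord B' u v) (hi S) = dS S := by
    intro S
    have h1 := pm_add B u v (ω * c) S
    have h2 := pm_add B' u v ((ω - s) * c) S
    rw [← hAB', hA, h1] at h2
    have h3 := hbS' S
    rw [sub_zero] at h3
    rw [h3] at h2
    have h4 : ((ω - s) * c) * pm (bord B' u v) (hi S) = ((ω - s) * c) * dS S := by
      linear_combination h2
    exact mul_left_cancel₀ (mul_ne_zero hωs hc) h4
  -- the size of a principal minor of `A`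
  have hsize : ∀ S, N (pm A S) = max (N (pm (bord B' u v) (lo S)))
      (N ((ω - s) * c) * N (pm (bord B' u v) (hi S))) := by
    intro S
    have h1 := pm_add B u v (ω * c) S
    have h3 := hbS' S
    rw [sub_zero] at h3
    rw [hdS', h3, ← N.map_mul, hA, h1]
    change N (bS S - ω * c * dS S) = _
    by_cases hd : dS S = 0
    · rw [hd, mul_zero, sub_zero, mul_zero, mul_zero, sub_zero, map_zero]
      exact (max_eq_left (N.nonneg _)).symm
    · have hcd : c * dS S ≠ 0 := mul_ne_zero hc hd
      have hb : bS S = (c * dS S) * x S := by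
        rw [hx]
        field_simp
      have e1 : bS S - ω * c * dS S = -((c * dS S) * (ω - x S)) := by
        rw [hb]; ring
      have e2 : bS S - s * c * dS S = (c * dS S) * (x S - s) := by
        rw [hb]; ring
      have e3 : (ω - s) * c * dS S = (c * dS S) * (ω - s) := by ring
      rw [e1, e2, e3, N.map_neg, N.map_mul (c * dS S) (ω - x S),
        N.map_mul (c * dS S) (x S - s), N.map_mul (c * dS S) (ω - s),
        ← mul_max_of_nonneg _ _ (N.nonneg _)]
      congr 1
      apply le_antisymm
      · have h5 : ω - x S = (ω - s) - (x S - s) := by ring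
        rw [h5, max_comm]
        exact h.sub _ _
      · apply max_le _ (hmin S)
        have h5 : x S - s = (ω - s) - (ω - x S) := by ring
        rw [h5]
        exact (h.sub _ _).trans (max_le (hmin S) le_rfl)
  set W : m ⊕ Unit → ℝ := Sum.elim w (fun _ => N ((ω - s) * c)) with hW
  have hWpos : ∀ i, 0 < W i := by
    rintro (i | i)
    · exact hw i
    · exact N.pos (mul_ne_zero hωs hc)
  have hprodlo : ∀ S, ∏ i ∈ lo S, W i = ∏ i ∈ S, w i := by
    intro S
    rw [lo, Finset.prod_map]
    rfl
  have hprodhi : ∀ S, ∏ i ∈ hi S, W i = N ((ω - s) * c) * ∏ i ∈ S, w i := by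
    intro S
    rw [hi, Finset.prod_insert inr_mem_lo, hprodlo]
    rfl
  have hpp : ∀ S : Finset m, 0 ≤ ∏ i ∈ S, w i := fun S => Finset.prod_nonneg fun i _ => (hw i).le
  have hP : ∀ S, P N A w S = max (P N (bord B' u v) W (lo S)) (P N (bord B' u v) W (hi S)) := by
    intro S
    rw [P, P, P, hprodlo, hprodhi, hsize, max_mul_of_nonneg _ _ (hpp S)]
    congr 1
    ring
  have hSle : ∀ U, P N A w U ≤ P N A w S := by
    intro U
    by_cases h1 : U = S
    · rw [h1]
    by_cases h2 : U = T
    · rw [h2, hST]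
    exact (hlt U h1 h2).le
  -- choose maximisers
  have hpick : ∀ U, ∃ X : Finset (m ⊕ Unit), X.erase (Sum.inr ()) = lo U ∧
      P N (bord B' u v) W X = P N A w U := by
    intro U
    rcases le_total (P N (bord B' u v) W (lo U)) (P N (bord B' u v) W (hi U)) with h1 | h1
    · exact ⟨hi U, erase_hi U, by rw [hP, max_eq_right h1]⟩
    · exact ⟨lo U, erase_lo U, by rw [hP, max_eq_left h1]⟩
  obtain ⟨X, hXe, hXP⟩ := hpick S
  obtain ⟨Y, hYe, hYP⟩ := hpick T
  have hlo_inj : ∀ {U U' : Finset m}, lo U = lo U' → U = U' := fun hUU => Finset.map_injective _ hUU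
  have hle' : ∀ (U : Finset (m ⊕ Unit)) (U₀ : Finset m), (U = lo U₀ ∨ U = hi U₀) →
      P N (bord B' u v) W U ≤ P N A w U₀ := by
    intro U U₀ hU
    rw [hP]
    rcases hU with rfl | rfl
    · exact le_max_left _ _
    · exact le_max_right _ _
  have herase : ∀ (U : Finset (m ⊕ Unit)) (U₀ : Finset m), (U = lo U₀ ∨ U = hi U₀) →
      U.erase (Sum.inr ()) = lo U₀ := by
    intro U U₀ hU
    rcases hU with rfl | rfl
    · exact erase_lo _
    · exact erase_hi _
  have hfin := herm_edge h σ hσN (bord B' u v) (hbord B' hB'σ) W hWpos (Sum.inr ()) X Y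
    (by rw [hXP]; exact hS) (by rw [hXP, hYP, hST]) (by
      intro U
      obtain ⟨U₀, hU₀⟩ := exists_lo_hi U
      rw [hXP]
      exact (hle' U U₀ hU₀).trans (hSle U₀)) (by
      intro U hUX hUY
      obtain ⟨U₀, hU₀⟩ := exists_lo_hi U
      rw [herase U U₀ hU₀, hXe] at hUX
      rw [herase U U₀ hU₀, hYe] at hUY
      rw [hXP]
      refine (hle' U U₀ hU₀).trans_lt (hlt U₀ ?_ ?_)
      · rintro rfl
        exact hUX rfl
      · rintro rfl
        exact hUY rfl)
  rw [hXe, hYe] at hfin
  have hmap : symmDiff (lo S) (lo T) = lo (symmDiff S T) := by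
    ext y
    rcases y with i | y
    · simp [mem_symmDiff, inl_mem_lo]
    · simp [mem_symmDiff, inr_mem_lo]
  rw [hmap, lo, Finset.card_map] at hfin
  exact hfin

end Pool.Agent.R138.Herm
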