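import Pool.Agent.Helper236.Tang

/-! General lemmas about modular copoints and tangents of represented matroids. -/

namespace Pool.Agent.R138.ModBlock

open Set Module Submodule Pool.Agent.Helper236

variable {α F W : Type*} [Field F] [AddCommGroup W] [Module F W]
  {M : Matroid α} {v : α → W}

theorem rk_mono (h : Rep F M v) [M.Finite] {X Y : Set α} (hY : Y ⊆ M.E) (hXY : X ⊆ Y) :
    rk M X ≤ rk M Y := by
  rw [h.rk_eq (hXY.trans hY), h.rk_eq hY]
  have : FiniteDimensional F (span F (v '' Y)) :=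
    FiniteDimensional.span_of_finite F ((M.ground_finite.subset hY).image v)
  exact Submodule.finrank_mono (span_mono (image_mono hXY))

theorem rk_lt (h : Rep F M v) [M.Finite] {X Y : Set α} (hX : M.IsFlat X) (hYE : Y ⊆ M.E)
    (hXY : X ⊆ Y) (hne : X ≠ Y) : rk M X < rk M Y := by
  have hXE : X ⊆ M.E := hXY.trans hYE
  rw [h.rk_eq hXE, h.rk_eq hYE]
  have hfd : FiniteDimensional F (span F (v '' Y)) :=
    FiniteDimensional.span_of_finite F ((M.ground_finite.subset hYE).image v)
  apply Submodule.finrank_lt_finrank_of_lt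
  refine lt_of_le_of_ne (span_mono (image_mono hXY)) fun heq => ?_
  obtain ⟨y, hyY, hyX⟩ := Set.exists_of_ssubset (hXY.ssubset_of_ne hne)
  have : y ∈ M.closure X := (h.mem_closure_iff hXE (hYE hyY)).2 (by
    rw [heq]
    exact subset_span (mem_image_of_mem v hyY))
  rw [hX.closure] at this
  exact hyX this

theorem finrank_sup_singleton {U : Submodule F W} [FiniteDimensional F U] {x : W} (hx : x ∉ U) :
    finrank F (U ⊔ span F {x} : Submodule F W) = finrank F U + 1 := by
  have h1 : U ⊓ span F {x} = ⊥ := by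
    rw [Submodule.eq_bot_iff]
    intro y hy
    obtain ⟨hyU, hyx⟩ := hy
    rw [SetLike.mem_coe] at hyU hyx
    rw [mem_span_singleton] at hyx
    obtain ⟨c, rfl⟩ := hyx
    by_cases hc : c = 0
    · rw [hc, zero_smul]
    · exfalso
      apply hx
      have := U.smul_mem c⁻¹ hyU
      rwa [smul_smul, inv_mul_cancel₀ hc, one_smul] at this
  have hx0 : x ≠ 0 := by
    rintro rfl
    exact hx U.zero_mem
  have h2 := Submodule.finrank_sup_add_finrank_inf_eq U (span F {x})
  rw [h1, finrank_bot, finrank_span_singleton hx0] at h2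
  omega

/-- A copoint given by a functional is modular as soon as every line through two outside points
meets it. -/
theorem modular_of_lines (h : Rep F M v) [M.Finite] (φ : W →ₗ[F] F) {i₀ : α}
    (hi₀ : i₀ ∈ M.E) (hφ₀ : φ (v i₀) ≠ 0)
    (hl : ∀ i ∈ M.E, ∀ j ∈ M.E, φ (v i) ≠ 0 → φ (v j) ≠ 0 → i ≠ j →
      ∃ l ∈ M.E, φ (v l) = 0 ∧ ∃ c : F, c ≠ 0 ∧
        v l = c • ((φ (v i))⁻¹ • v i - (φ (v j))⁻¹ • v j)) :
    IsModularHyperplane M {e | e ∈ M.E ∧ φ (v e) = 0} := by
  set X : Set α := {e | e ∈ M.E ∧ φ (v e) = 0} with hX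
  have hXE : X ⊆ M.E := fun e he => he.1
  have hker : ∀ Y : Set α, Y ⊆ X → span F (v '' Y) ≤ LinearMap.ker φ := by
    intro Y hY
    rw [span_le]
    rintro _ ⟨e, he, rfl⟩
    exact (hY he).2
  have hflat : M.IsFlat X := by
    rw [Matroid.isFlat_iff_closure_eq]
    apply Subset.antisymm _ (M.subset_closure X hXE)
    intro e he
    have heE : e ∈ M.E := M.closure_subset_ground _ he
    rw [h.mem_closure_iff hXE heE] at he
    exact ⟨heE, hker X Subset.rfl he⟩
  -- the rank drops by one on flats meeting the complement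
  have key : ∀ Y : Set α, M.IsFlat Y → ∀ y₀ ∈ Y, φ (v y₀) ≠ 0 →
      span F (v '' Y) = span F (v '' (X ∩ Y)) ⊔ span F {v y₀} := by
    intro Y hY y₀ hy₀ hφy
    have hYE := hY.subset_ground
    apply le_antisymm
    · rw [span_le]
      rintro _ ⟨y, hy, rfl⟩
      rw [SetLike.mem_coe]
      by_cases hyφ : φ (v y) = 0
      · exact (le_sup_left : span F (v '' (X ∩ Y)) ≤ _)
          (subset_span (mem_image_of_mem v ⟨⟨hYE hy, hyφ⟩, hy⟩))
      by_cases hyy : y = y₀
      · rw [hyy]
        exact (le_sup_right : span F {v y₀} ≤ _) (subset_span rfl)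
      obtain ⟨l, hlE, hlφ, c, hc, hlc⟩ := hl y (hYE hy) y₀ (hYE hy₀) hyφ hφy hyy
      have hlY : l ∈ Y := by
        have : l ∈ M.closure Y := by
          rw [h.mem_closure_iff hYE hlE, hlc]
          apply Submodule.smul_mem
          exact Submodule.sub_mem _ (Submodule.smul_mem _ _ (subset_span (mem_image_of_mem v hy)))
            (Submodule.smul_mem _ _ (subset_span (mem_image_of_mem v hy₀)))
        rwa [hY.closure] at this
      have h1 : v y = (φ (v y)) • (c⁻¹ • v l + (φ (v y₀))⁻¹ • v y₀) := by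
        rw [hlc, smul_smul, inv_mul_cancel₀ hc, one_smul, sub_add_cancel, smul_smul,
          mul_inv_cancel₀ hyφ, one_smul]
      rw [h1]
      apply Submodule.smul_mem
      apply Submodule.add_mem
      · exact (le_sup_left : span F (v '' (X ∩ Y)) ≤ _)
          (Submodule.smul_mem _ _ (subset_span (mem_image_of_mem v ⟨⟨hlE, hlφ⟩, hlY⟩)))
      · exact (le_sup_right : span F {v y₀} ≤ _) (Submodule.smul_mem _ _ (subset_span rfl))
    · apply sup_le
      · exact span_mono (image_mono inter_subset_right)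
      · rw [span_singleton_le_iff_mem]
        exact subset_span (mem_image_of_mem v hy₀)
  have keyrk : ∀ Y : Set α, M.IsFlat Y → ∀ y₀ ∈ Y, φ (v y₀) ≠ 0 →
      rk M Y = rk M (X ∩ Y) + 1 := by
    intro Y hY y₀ hy₀ hφy
    have hYE := hY.subset_ground
    have hsub : X ∩ Y ⊆ M.E := inter_subset_left.trans hXE
    rw [h.rk_eq hYE, h.rk_eq hsub, key Y hY y₀ hy₀ hφy]
    have : FiniteDimensional F (span F (v '' (X ∩ Y))) :=
      FiniteDimensional.span_of_finite F ((M.ground_finite.subset hsub).image v)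
    exact finrank_sup_singleton fun hmem => hφy (hker _ inter_subset_left hmem)
  have hXr : rk M M.E = rk M X + 1 := by
    have := keyrk M.E M.ground_isFlat i₀ hi₀ hφ₀
    rwa [inter_eq_self_of_subset_left hXE] at this
  refine ⟨⟨hflat, ?_⟩, hXr.symm⟩
  intro Y hY
  by_cases hYX : Y ⊆ X
  · rw [union_eq_self_of_subset_right hYX, inter_eq_self_of_subset_right hYX]
  · obtain ⟨y₀, hy₀, hy₀X⟩ := Set.not_subset.1 hYX
    have hYE := hY.subset_ground
    have hφy : φ (v y₀) ≠ 0 := fun h0 => hy₀X ⟨hYE hy₀, h0⟩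
    have h1 := keyrk Y hY y₀ hy₀ hφy
    have hU : X ∪ Y ⊆ M.E := union_subset hXE hYE
    have h2 : rk M X < rk M (X ∪ Y) := by
      refine rk_lt h hflat hU subset_union_left fun heq => hy₀X ?_
      rw [heq]
      exact Or.inr hy₀
    have h3 : rk M (X ∪ Y) ≤ rk M M.E := rk_mono h Subset.rfl hU
    omega

theorem rk_pair (_h : Rep F M v) [M.Finite] (hs : IsSimple M) {i j : α} (hi : i ∈ M.E)
    (hj : j ∈ M.E) (hij : i ≠ j) : rk M (M.closure {i, j}) = 2 := by
  have hind : M.Indep {i, j} := hs i hi j hj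
  rw [rk, M.eRk_closure_eq, hind.eRk_eq_encard, Set.encard_pair hij]
  rfl

theorem rk_singleton (hs : IsSimple M) {i : α} (hi : i ∈ M.E) : rk M {i} = 1 := by
  rw [rk, ((isSimple_nonloop hs) i hi).eRk_eq]
  rfl

theorem rk_empty : rk M ∅ = 0 := by
  rw [rk, M.eRk_empty]
  rfl

/-- A flat of rank two is spanned by two distinct points. -/
theorem exists_pair_of_rk_two (h : Rep F M v) [M.Finite] (hs : IsSimple M) {G : Set α}
    (hG : M.IsFlat G) (hr : rk M G = 2) :
    ∃ i ∈ G, ∃ j ∈ G, i ≠ j ∧ G = M.closure {i, j} := by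
  have hGE := hG.subset_ground
  have hne : G.Nonempty := by
    rw [Set.nonempty_iff_ne_empty]
    rintro rfl
    rw [rk_empty] at hr
    omega
  obtain ⟨i, hi⟩ := hne
  have h2 : ∃ j ∈ G, j ≠ i := by
    by_contra hcon
    push Not at hcon
    have : G = {i} := Subset.antisymm (fun x hx => hcon x hx) (by simpa using hi)
    rw [this, rk_singleton hs (hGE hi)] at hr
    omega
  obtain ⟨j, hj, hji⟩ := h2
  refine ⟨i, hi, j, hj, hji.symm, ?_⟩
  have hsub : M.closure {i, j} ⊆ G := by
    rw [← hG.closure]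
    apply M.closure_subset_closure
    rintro x (rfl | rfl)
    · exact hi
    · exact hj
  by_contra hneq
  have h3 := rk_lt h (M.isFlat_closure {i, j}) hGE hsub (fun h' => hneq h'.symm)
  rw [rk_pair h hs (hGE hi) (hGE hj) hji.symm] at h3
  omega

/-- In rank at most four and for `k = 1` only one-point and two-point-spanned flats have to be
checked. -/
theorem rank_four_flats [Finite F] [FiniteDimensional F W] [M.Finite] (h : Rep F M v)
    (hs : IsSimple M) (hr : rk M M.E ≤ 4)
    (hT : ∀ e ∈ M.E, ∃ f : W →ₗ[F] F, f (v e) = 0 ∧ ∀ x ∈ M.E, x ≠ e → f (v x) ≠ 0)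
    (hT2 : ∀ i ∈ M.E, ∀ j ∈ M.E, i ≠ j → ∃ f : W →ₗ[F] F, f (v i) = 0 ∧ f (v j) = 0 ∧
      ∀ x ∈ M.E, f (v x) = 0 → v x ∈ span F {v i, v j})
    (G : Set α) (hG : M.IsFlat G) (hGne : G.Nonempty) :
    ∃ f : W →ₗ[F] (Fin 1 → F), (∀ x ∈ G, f (v x) = 0) ∧ ∀ x ∈ M.E, x ∉ G → f (v x) ≠ 0 := by
  suffices hsuff : ∃ f : W →ₗ[F] F, (∀ x ∈ G, f (v x) = 0) ∧ ∀ x ∈ M.E, x ∉ G → f (v x) ≠ 0 by
    obtain ⟨f, hf1, hf2⟩ := hsuff
    refine ⟨LinearMap.pi (fun _ => f), ?_, ?_⟩
    · intro x hx
      ext i
      simpa using hf1 x hx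
    · intro x hx hxG h0
      apply hf2 x hx hxG
      have := congrFun h0 0
      simpa using this
  have hGE : G ⊆ M.E := hG.subset_ground
  obtain ⟨e, he⟩ := hGne
  by_cases h1 : G = {e}
  · obtain ⟨f, hf1, hf2⟩ := hT e (hGE he)
    refine ⟨f, ?_, ?_⟩
    · intro x hx
      rw [h1] at hx
      rw [hx]
      exact hf1
    · intro x hx hxG
      refine hf2 x hx ?_
      rintro rfl
      exact hxG he
  by_cases h2 : G = M.E
  · refine ⟨0, by simp, ?_⟩
    intro x hx hxG
    rw [h2] at hxG
    exact absurd hx hxG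
  have hE : ({e} : Set α) ⊆ M.E := by simpa using hGE he
  have ha := rk_lt h (isFlat_singleton_of_simple h hs (hGE he)) hGE (by simpa using he)
    (Ne.symm h1)
  have hb := rk_lt h hG Subset.rfl hGE h2
  rw [rk_singleton hs (hGE he)] at ha
  by_cases h3 : rk M G = 2
  · obtain ⟨i, hi, j, hj, hij, hGij⟩ := exists_pair_of_rk_two h hs hG h3
    obtain ⟨f, hf1, hf2, hf3⟩ := hT2 i (hGE hi) j (hGE hj) hij
    have hijE : ({i, j} : Set α) ⊆ M.E := by
      rintro x (rfl | rfl)
      · exact hGE hi
      · exact hGE hj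
    have himg : v '' {i, j} = {v i, v j} := image_pair v i j
    refine ⟨f, ?_, ?_⟩
    · intro x hx
      have h4 : x ∈ M.closure {i, j} := hGij ▸ hx
      rw [h.mem_closure_iff hijE (hGE hx), himg] at h4
      have h5 : span F {v i, v j} ≤ LinearMap.ker f := by
        rw [span_le]
        rintro y (rfl | rfl)
        · exact hf1
        · exact hf2
      exact h5 h4
    · intro x hx hxG h0
      apply hxG
      have h4 := hf3 x hx h0
      rw [← himg, ← h.mem_closure_iff hijE hx] at h4
      exact hGij ▸ h4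
  · obtain ⟨f, hf1, hf2⟩ := exists_functional h hG (by omega)
    exact ⟨f, hf1, hf2⟩

/-- A certificate that the line through `i` and `j` is not modular. -/
theorem not_modular_line (h : Rep F M v) [M.Finite] (hs : IsSimple M) {i j k l : α}
    (hi : i ∈ M.E) (hj : j ∈ M.E) (hk : k ∈ M.E) (hl : l ∈ M.E) (hij : i ≠ j) (hkl : k ≠ l)
    (a b c : F) (hrel : v l = a • v i + b • v j + c • v k) (f : W →ₗ[F] F)
    (hfk : f (v k) = 0) (hfl : f (v l) = 0)
    (hf : ∀ x ∈ M.E, f (v x) = 0 → v x ∉ span F {v i, v j}) :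
    ¬ IsModularFlat M (M.closure {i, j}) := by
  rintro ⟨-, hmod⟩
  have h1 := hmod (M.closure {k, l}) (M.isFlat_closure _)
  rw [rk_pair h hs hi hj hij, rk_pair h hs hk hl hkl] at h1
  have hijE : ({i, j} : Set α) ⊆ M.E := by
    rintro x (rfl | rfl)
    · exact hi
    · exact hj
  have hklE : ({k, l} : Set α) ⊆ M.E := by
    rintro x (rfl | rfl)
    · exact hk
    · exact hl
  have himg : v '' {i, j} = {v i, v j} := image_pair v i j
  have himg' : v '' {k, l} = {v k, v l} := image_pair v k l
  have h2 : M.closure {i, j} ∩ M.closure {k, l} = ∅ := by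
    rw [Set.eq_empty_iff_forall_notMem]
    rintro x ⟨hx1, hx2⟩
    have hxE : x ∈ M.E := M.closure_subset_ground _ hx1
    rw [h.mem_closure_iff hijE hxE, himg] at hx1
    rw [h.mem_closure_iff hklE hxE, himg'] at hx2
    have h5 : span F {v k, v l} ≤ LinearMap.ker f := by
      rw [span_le]
      rintro y (rfl | rfl)
      · exact hfk
      · exact hfl
    exact hf x hxE (h5 hx2) hx1
  have hUE : M.closure {i, j} ∪ M.closure {k, l} ⊆ M.E :=
    union_subset (M.closure_subset_ground _) (M.closure_subset_ground _)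
  have h3 : rk M (M.closure {i, j} ∪ M.closure {k, l}) ≤ 3 := by
    rw [h.rk_eq hUE]
    classical
    have hle : span F (v '' (M.closure {i, j} ∪ M.closure {k, l})) ≤
        span F (({v i, v j, v k} : Finset W) : Set W) := by
      rw [span_le]
      rintro _ ⟨x, hx | hx, rfl⟩
      · have hxE : x ∈ M.E := M.closure_subset_ground _ hx
        rw [h.mem_closure_iff hijE hxE, himg] at hx
        refine span_mono ?_ hx
        rintro y (rfl | rfl) <;> simp
      · have hxE : x ∈ M.E := M.closure_subset_ground _ hx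
        rw [h.mem_closure_iff hklE hxE, himg'] at hx
        have h5 : span F {v k, v l} ≤ span F (({v i, v j, v k} : Finset W) : Set W) := by
          rw [span_le]
          rintro y (rfl | rfl)
          · exact subset_span (by simp)
          · rw [SetLike.mem_coe, hrel]
            refine add_mem (add_mem ?_ ?_) ?_
            · exact Submodule.smul_mem _ _ (subset_span (by simp))
            · exact Submodule.smul_mem _ _ (subset_span (by simp))
            · exact Submodule.smul_mem _ _ (subset_span (by simp))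
        exact h5 hx
    have : FiniteDimensional F (span F (({v i, v j, v k} : Finset W) : Set W)) :=
      FiniteDimensional.span_finset F _
    refine (Submodule.finrank_mono hle).trans ?_
    refine (finrank_span_finset_le_card _).trans ?_
    exact Finset.card_le_three
  rw [h2, rk_empty] at h1
  omega

end Pool.Agent.R138.ModBlock
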