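import Mathlib
import Pool.Agent.Helper236.Lin

/-!
Oriented matroids (signed circuits) and the oriented matroid of a real vector configuration.
-/

set_option autoImplicit false

namespace Pool.Agent.R138.OM

open Set

/-- An oriented matroid on a subset of `α`: a matroid `M` (the underlying matroid) together with a
set `C` of sign vectors (the signed circuits) satisfying the signed circuit axioms. -/
structure OrientedMatroid (α : Type) where
  /-- the underlying matroid -/
  M : Matroid α
  /-- the signed circuits -/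
  C : Set (α → SignType)
  /-- the circuits of the underlying matroid are the supports of the signed circuits -/
  isCircuit_iff : ∀ D : Set α, M.IsCircuit D ↔ ∃ X ∈ C, {e | X e ≠ 0} = D
  /-- symmetry -/
  neg_mem : ∀ X ∈ C, (fun e => - X e) ∈ C
  /-- incomparability -/
  eq_or_neg : ∀ X ∈ C, ∀ Y ∈ C, {e | X e ≠ 0} ⊆ {e | Y e ≠ 0} → X = Y ∨ X = fun e => - Y e
  /-- (weak) circuit elimination -/
  elim : ∀ X ∈ C, ∀ Y ∈ C, (X ≠ fun e => - Y e) → ∀ e, X e = 1 → Y e = -1 →
    ∃ Z ∈ C, Z e = 0 ∧ ∀ f, (Z f = 1 → X f = 1 ∨ Y f = 1) ∧ (Z f = -1 → X f = -1 ∨ Y f = -1)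

variable {α : Type} {W : Type} [AddCommGroup W] [Module ℝ W]

/-- `c` is a linear dependency of the vectors `v e`, `e ∈ E` -/
def Dep (v : α → W) (E : Finset α) (c : α → ℝ) : Prop :=
  (∀ e, e ∉ E → c e = 0) ∧ ∑ e ∈ E, c e • v e = 0

/-- `c` is a nonzero dependency of minimal support -/
def MinDep (v : α → W) (E : Finset α) (c : α → ℝ) : Prop :=
  Dep v E c ∧ c ≠ 0 ∧ ∀ d, Dep v E d → d ≠ 0 → (∀ e, c e = 0 → d e = 0) → ∀ e, d e = 0 → c e = 0

theorem Dep.add {v : α → W} {E : Finset α} {c d : α → ℝ} (hc : Dep v E c) (hd : Dep v E d)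
    (s t : ℝ) : Dep v E (fun e => s * c e + t * d e) := by
  refine ⟨fun e he => by beta_reduce; rw [hc.1 e he, hd.1 e he]; ring, ?_⟩
  have h : ∀ e ∈ E, (s * c e + t * d e) • v e = s • (c e • v e) + t • (d e • v e) := by
    intro e _
    rw [add_smul, mul_smul, mul_smul]
  rw [Finset.sum_congr rfl h, Finset.sum_add_distrib, ← Finset.smul_sum, ← Finset.smul_sum,
    hc.2, hd.2]
  simp

theorem MinDep.neg {v : α → W} {E : Finset α} {c : α → ℝ} (h : MinDep v E c) :
    MinDep v E (fun e => - c e) := by
  obtain ⟨h1, h2, h3⟩ := h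
  refine ⟨?_, ?_, ?_⟩
  · have := h1.add h1 (-1) 0
    have he : (fun e => -1 * c e + 0 * c e) = fun e => - c e := by
      funext e; ring
    rwa [he] at this
  · intro h0
    apply h2
    funext e
    have := congrFun h0 e
    simp only [Pi.zero_apply] at this ⊢
    linarith
  · intro d hd hd0 hsub e he
    beta_reduce
    rw [neg_eq_zero]
    refine h3 d hd hd0 (fun x hx => hsub x (by beta_reduce; rw [hx, neg_zero])) e he

open Classical in
/-- conformal circuits -/
theorem exists_conformal (v : α → W) (E : Finset α) :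
    ∀ (n : ℕ) (z : α → ℝ), (E.filter (fun e => z e ≠ 0)).card = n → Dep v E z → z ≠ 0 →
      ∃ c, MinDep v E c ∧ ∀ e, c e ≠ 0 → 0 < c e * z e := by
  intro n
  induction n using Nat.strong_induction_on with
  | _ n ih =>
    intro z hn hz hz0
    by_cases hmin : MinDep v E z
    · refine ⟨z, hmin, fun e he => ?_⟩
      exact mul_self_pos.2 he
    · -- a smaller dependency
      have : ∃ d, Dep v E d ∧ d ≠ 0 ∧ (∀ e, z e = 0 → d e = 0) ∧ ∃ e, d e = 0 ∧ z e ≠ 0 := by
        by_contra hcon
        apply hmin
        refine ⟨hz, hz0, ?_⟩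
        intro d hd hd0 hsub e he
        by_contra hze
        exact hcon ⟨d, hd, hd0, hsub, e, he, hze⟩
      obtain ⟨d, hd, hd0, hsub, e₁, he₁, hze₁⟩ := this
      -- a coordinate with nonzero ratio
      obtain ⟨e₂, he₂⟩ : ∃ e, d e ≠ 0 := by
        by_contra hcon
        push Not at hcon
        exact hd0 (funext hcon)
      -- choose the sign of `d` so that some ratio is positive
      obtain ⟨y, hy, hysub, hye₁, hpos⟩ : ∃ y, Dep v E y ∧ (∀ e, z e = 0 → y e = 0) ∧ y e₁ = 0 ∧
          0 < y e₂ / z e₂ := by
        have hze₂ : z e₂ ≠ 0 := fun h => he₂ (hsub e₂ h)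
        rcases lt_or_gt_of_ne (div_ne_zero he₂ hze₂) with h | h
        · refine ⟨fun e => -1 * d e + 0 * d e, hd.add hd (-1) 0, ?_, ?_, ?_⟩
          · intro e he
            beta_reduce; rw [hsub e he]; ring
          · beta_reduce; rw [he₁]; ring
          · have : (-1 * d e₂ + 0 * d e₂) / z e₂ = - (d e₂ / z e₂) := by ring
            rw [this]
            linarith
        · exact ⟨d, hd, hsub, he₁, h⟩
      have he₂E : e₂ ∈ E := by
        by_contra h
        rw [hy.1 e₂ h] at hpos
        simp at hpos
      obtain ⟨e₃, he₃E, hmax⟩ := Finset.exists_max_image E (fun e => y e / z e) ⟨e₂, he₂E⟩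
      set t := y e₃ / z e₃ with ht
      have htpos : 0 < t := lt_of_lt_of_le hpos (hmax e₂ he₂E)
      have hze₃ : z e₃ ≠ 0 := by
        intro h
        rw [ht, h, div_zero] at htpos
        exact lt_irrefl _ htpos
      set z' : α → ℝ := fun e => 1 * z e + (- t⁻¹) * y e with hz'
      have hz'dep : Dep v E z' := hz.add hy 1 (- t⁻¹)
      have hz'e₃ : z' e₃ = 0 := by
        have h1 : y e₃ = t * z e₃ := by
          rw [ht]
          field_simp
        rw [hz']
        simp only
        rw [h1]
        field_simp
        ring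
      have hz'e₁ : z' e₁ = z e₁ := by
        rw [hz']
        simp only
        rw [hye₁]
        ring
      have hz'0 : z' ≠ 0 := by
        intro h
        have := congrFun h e₁
        rw [hz'e₁] at this
        exact hze₁ this
      have hconf : ∀ e, z' e ≠ 0 → 0 < z' e * z e := by
        intro e he
        have hze : z e ≠ 0 := by
          intro h
          apply he
          rw [hz']
          simp only
          rw [h, hysub e h]
          ring
        have heE : e ∈ E := by
          by_contra h
          exact hze (hz.1 e h)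
        have h1 : y e / z e ≤ t := hmax e heE
        have h2 : z' e = z e * (1 - t⁻¹ * (y e / z e)) := by
          rw [hz']
          simp only
          field_simp
          ring
        have h3 : 0 ≤ 1 - t⁻¹ * (y e / z e) := by
          have := mul_le_mul_of_nonneg_left h1 (inv_nonneg.2 htpos.le)
          rw [inv_mul_cancel₀ htpos.ne'] at this
          linarith
        have h4 : 1 - t⁻¹ * (y e / z e) ≠ 0 := by
          intro h
          rw [h, mul_zero] at h2
          exact he h2
        have h5 : 0 < 1 - t⁻¹ * (y e / z e) := lt_of_le_of_ne h3 (Ne.symm h4)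
        rw [h2]
        have h6 : 0 < z e * z e := mul_self_pos.2 hze
        nlinarith
      have hlt : (E.filter (fun e => z' e ≠ 0)).card < n := by
        rw [← hn]
        apply Finset.card_lt_card
        rw [Finset.ssubset_iff_subset_ne]
        constructor
        · intro e he
          rw [Finset.mem_filter] at he ⊢
          refine ⟨he.1, ?_⟩
          intro h
          have := hconf e he.2
          rw [h, mul_zero] at this
          exact lt_irrefl _ this
        · intro h
          have h1 : e₃ ∈ E.filter (fun e => z e ≠ 0) := by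
            rw [Finset.mem_filter]
            exact ⟨he₃E, hze₃⟩
          rw [← h, Finset.mem_filter] at h1
          exact h1.2 hz'e₃
      obtain ⟨c, hc, hcconf⟩ := ih _ hlt z' rfl hz'dep hz'0
      refine ⟨c, hc, fun e he => ?_⟩
      have h1 := hcconf e he
      have h2 : z' e ≠ 0 := by
        intro h
        rw [h, mul_zero] at h1
        exact lt_irrefl _ h1
      have h3 := hconf e h2
      have h4 : 0 < (c e * z' e) * (z' e * z e) := mul_pos h1 h3
      have h5 : 0 < z' e * z' e := mul_self_pos.2 h2
      have h6 : (c e * z' e) * (z' e * z e) = (c e * z e) * (z' e * z' e) := by ring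
      rw [h6] at h4
      exact (pos_iff_pos_of_mul_pos h4).2 h5

/-- dependent sets of the linear matroid -/
theorem not_linearIndepOn_iff (v : α → W) (E : Finset α) {D : Set α} (hD : D ⊆ E) :
    ¬ LinearIndepOn ℝ v D ↔ ∃ c, Dep v E c ∧ c ≠ 0 ∧ ∀ e, e ∉ D → c e = 0 := by
  classical
  have hDf : D.Finite := E.finite_toSet.subset hD
  have hDE : hDf.toFinset ⊆ E := fun x hx => hD (hDf.mem_toFinset.1 hx)
  have key : LinearIndepOn ℝ v D ↔
      ∀ f : α → ℝ, ∑ i ∈ hDf.toFinset, f i • v i = 0 → ∀ i ∈ hDf.toFinset, f i = 0 := by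
    have := linearIndepOn_finset_iff (R := ℝ) (v := v) (s := hDf.toFinset)
    rwa [hDf.coe_toFinset] at this
  rw [key]
  push Not
  constructor
  · rintro ⟨f, hf, i, hi, hfi⟩
    refine ⟨fun e => if e ∈ D then f e else 0, ⟨?_, ?_⟩, ?_, ?_⟩
    · intro e he
      simp only
      rw [if_neg]
      intro h
      exact he (hD h)
    · rw [← hf, ← Finset.sum_subset hDE]
      · apply Finset.sum_congr rfl
        intro x hx
        beta_reduce
        rw [if_pos (hDf.mem_toFinset.1 hx)]
      · intro x _ hx
        beta_reduce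
        rw [if_neg (fun h => hx (hDf.mem_toFinset.2 h)), zero_smul]
    · intro h
      have := congrFun h i
      simp only [Pi.zero_apply] at this
      rw [if_pos (hDf.mem_toFinset.1 hi)] at this
      exact hfi this
    · intro e he
      simp only
      rw [if_neg he]
  · rintro ⟨c, hc, hc0, hsub⟩
    refine ⟨c, ?_, ?_⟩
    · rw [← hc.2]
      apply Finset.sum_subset hDE
      intro x _ hx
      rw [hsub x (fun h => hx (hDf.mem_toFinset.2 h)), zero_smul]
    · by_contra hcon
      push Not at hcon
      apply hc0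
      funext e
      by_cases he : e ∈ D
      · exact hcon e (hDf.mem_toFinset.2 he)
      · exact hsub e he

theorem isCircuit_iff_minDep (v : α → W) (E : Finset α) (D : Set α) :
    (Pool.Agent.Helper236.linMatroid ℝ v (E : Set α) E.finite_toSet).IsCircuit D ↔
      ∃ c, MinDep v E c ∧ {e | c e ≠ 0} = D := by
  set M := Pool.Agent.Helper236.linMatroid ℝ v (E : Set α) E.finite_toSet with hM
  have hdep : ∀ D : Set α, M.Dep D ↔ D ⊆ E ∧ ¬ LinearIndepOn ℝ v D := by
    intro D
    rw [Matroid.Dep, hM, Pool.Agent.Helper236.linMatroid_indep]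
    change ¬ (D ⊆ E ∧ LinearIndepOn ℝ v D) ∧ D ⊆ E ↔ _
    tauto
  constructor
  · intro hC
    obtain ⟨hDE, hDli⟩ := (hdep D).1 hC.dep
    obtain ⟨c, hc, hc0, hcD⟩ := (not_linearIndepOn_iff v E hDE).1 hDli
    have hsupp : ∀ d, Dep v E d → d ≠ 0 → (∀ e, e ∉ D → d e = 0) → {e | d e ≠ 0} = D := by
      intro d hd hd0 hdD
      have hsub : {e | d e ≠ 0} ⊆ D := by
        intro e he
        by_contra h
        exact he (hdD e h)
      have h1 : M.Dep {e | d e ≠ 0} := by
        rw [hdep]
        refine ⟨hsub.trans hDE, ?_⟩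
        rw [not_linearIndepOn_iff v E (hsub.trans hDE)]
        refine ⟨d, hd, hd0, fun e he => ?_⟩
        simpa using he
      exact (hC.eq_of_dep_subset h1 hsub)
    refine ⟨c, ⟨hc, hc0, ?_⟩, hsupp c hc hc0 hcD⟩
    intro d hd hd0 hsub e he
    by_contra hce
    have h1 := hsupp c hc hc0 hcD
    have h2 := hsupp d hd hd0 (fun e he => hsub e (hcD e he))
    have h3 : e ∈ {e | c e ≠ 0} := hce
    rw [h1, ← h2] at h3
    exact h3 he
  · rintro ⟨c, ⟨hc, hc0, hcmin⟩, rfl⟩
    have hsubE : {e | c e ≠ 0} ⊆ (E : Set α) := by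
      intro e he
      by_contra h
      exact he (hc.1 e h)
    rw [Matroid.isCircuit_iff]
    constructor
    · rw [hdep]
      refine ⟨hsubE, ?_⟩
      rw [not_linearIndepOn_iff v E hsubE]
      exact ⟨c, hc, hc0, fun e he => by simpa using he⟩
    · intro D' hD' hsub
      rw [hdep] at hD'
      obtain ⟨d, hd, hd0, hdD⟩ := (not_linearIndepOn_iff v E hD'.1).1 hD'.2
      apply subset_antisymm hsub
      intro e he
      by_contra hcon
      exact he (hcmin d hd hd0 (fun x hx => hdD x (fun h => hsub h hx)) e (hdD e hcon))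

theorem sign_eq_of_mul_pos {a b : ℝ} (h : 0 < a * b) : SignType.sign a = SignType.sign b := by
  rcases pos_and_pos_or_neg_and_neg_of_mul_pos h with ⟨h1, h2⟩ | ⟨h1, h2⟩
  · rw [sign_pos h1, sign_pos h2]
  · rw [sign_neg h1, sign_neg h2]

/-- The oriented matroid of the real vectors `v e`, `e ∈ E`. -/
noncomputable def ofVectors (v : α → W) (E : Finset α) : OrientedMatroid α where
  M := Pool.Agent.Helper236.linMatroid ℝ v (E : Set α) E.finite_toSet
  C := {X | ∃ c, MinDep v E c ∧ X = fun e => SignType.sign (c e)}
  isCircuit_iff := by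
    intro D
    rw [isCircuit_iff_minDep]
    constructor
    · rintro ⟨c, hc, rfl⟩
      refine ⟨_, ⟨c, hc, rfl⟩, ?_⟩
      ext e
      simp
    · rintro ⟨_, ⟨c, hc, rfl⟩, rfl⟩
      refine ⟨c, hc, ?_⟩
      ext e
      simp
  neg_mem := by
    rintro _ ⟨c, hc, rfl⟩
    refine ⟨_, hc.neg, ?_⟩
    funext e
    rw [Left.sign_neg]
  eq_or_neg := by
    rintro _ ⟨c, hc, rfl⟩ _ ⟨d, hd, rfl⟩ hsub
    have hsub' : ∀ e, d e = 0 → c e = 0 := by
      intro e he
      by_contra h
      exact hsub (show SignType.sign (c e) ≠ 0 from sign_ne_zero.2 h) (by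
        show SignType.sign (d e) = 0
        rw [he, sign_zero])
    obtain ⟨e₀, he₀⟩ : ∃ e, c e ≠ 0 := by
      by_contra hcon
      push Not at hcon
      exact hc.2.1 (funext hcon)
    have hde₀ : d e₀ ≠ 0 := fun h => he₀ (hsub' e₀ h)
    -- `c` and `d` are proportional
    have hprop : ∀ e, c e = (c e₀ / d e₀) * d e := by
      have hz := hc.1.add hd.1 1 (-(c e₀ / d e₀))
      by_contra hcon
      push Not at hcon
      obtain ⟨e, he⟩ := hcon
      have hne : (fun e => 1 * c e + -(c e₀ / d e₀) * d e) ≠ 0 := by
        intro h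
        apply he
        have := congrFun h e
        simp only [Pi.zero_apply] at this
        linarith
      have h1 := hc.2.2 _ hz hne (fun x hx => by
        have h2 := hd.2.2 c hc.1 hc.2.1 hsub' x hx
        rw [hx, h2]
        ring) e₀ (by field_simp; ring)
      exact he₀ h1
    have hr : c e₀ / d e₀ ≠ 0 := div_ne_zero he₀ hde₀
    rcases lt_or_gt_of_ne hr with h | h
    · right
      funext e
      rw [hprop e, sign_mul, sign_neg h]
      simp
    · left
      funext e
      rw [hprop e, sign_mul, sign_pos h, one_mul]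
  elim := by
    rintro _ ⟨c, hc, rfl⟩ _ ⟨d, hd, rfl⟩ hne e he1 he2
    have hce : 0 < c e := sign_eq_one_iff.1 he1
    have hde : d e < 0 := sign_eq_neg_one_iff.1 he2
    set z : α → ℝ := fun x => (c e)⁻¹ * c x + (-(d e)⁻¹) * d x with hz
    have hzdep : Dep v E z := hc.1.add hd.1 _ _
    have hdinv : 0 < -(d e)⁻¹ := by
      have := inv_lt_zero.2 hde
      linarith
    have hcinv : 0 < (c e)⁻¹ := inv_pos.2 hce
    have hze : z e = 0 := by
      rw [hz]
      simp only
      rw [inv_mul_cancel₀ hce.ne', neg_mul, inv_mul_cancel₀ hde.ne]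
      ring
    have hz0 : z ≠ 0 := by
      intro h
      apply hne
      funext x
      have hx := congrFun h x
      rw [hz] at hx
      simp only [Pi.zero_apply] at hx
      have h1 : c x = (c e * -(d e)⁻¹) * (- d x) := by
        have : c x = c e * ((c e)⁻¹ * c x) := by field_simp
        rw [this]
        have h2 : (c e)⁻¹ * c x = - (-(d e)⁻¹ * d x) := by linarith
        rw [h2]
        ring
      rw [h1, sign_mul, sign_pos (mul_pos hce hdinv), one_mul, Left.sign_neg]
    classical
    obtain ⟨y, hy, hyconf⟩ := exists_conformal v E _ z rfl hzdep hz0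
    refine ⟨_, ⟨y, hy, rfl⟩, ?_, ?_⟩
    · beta_reduce
      rw [sign_eq_zero_iff]
      by_contra h
      have := hyconf e h
      rw [hze, mul_zero] at this
      exact lt_irrefl _ this
    · intro f
      constructor
      · intro hf
        have hyf : 0 < y f := sign_eq_one_iff.1 hf
        have hzf : 0 < z f := (pos_iff_pos_of_mul_pos (hyconf f hyf.ne')).1 hyf
        by_contra hcon
        push Not at hcon
        have h1 : c f ≤ 0 := by
          by_contra h
          exact hcon.1 (sign_pos (not_le.1 h))
        have h2 : d f ≤ 0 := by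
          by_contra h
          exact hcon.2 (sign_pos (not_le.1 h))
        have h3 : (c e)⁻¹ * c f ≤ 0 := mul_nonpos_of_nonneg_of_nonpos hcinv.le h1
        have h4 : (-(d e)⁻¹) * d f ≤ 0 := mul_nonpos_of_nonneg_of_nonpos hdinv.le h2
        rw [hz] at hzf
        simp only at hzf
        linarith
      · intro hf
        have hyf : y f < 0 := sign_eq_neg_one_iff.1 hf
        have hzf : z f < 0 := by
          rcases pos_and_pos_or_neg_and_neg_of_mul_pos (hyconf f hyf.ne) with h | h
          · linarith [h.1]
          · exact h.2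
        by_contra hcon
        push Not at hcon
        have h1 : 0 ≤ c f := by
          by_contra h
          exact hcon.1 (sign_neg (not_le.1 h))
        have h2 : 0 ≤ d f := by
          by_contra h
          exact hcon.2 (sign_neg (not_le.1 h))
        have h3 : 0 ≤ (c e)⁻¹ * c f := mul_nonneg hcinv.le h1
        have h4 : 0 ≤ (-(d e)⁻¹) * d f := mul_nonneg hdinv.le h2
        rw [hz] at hzf
        simp only at hzf
        linarith

end Pool.Agent.R138.OM
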