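import Mathlib

/-!
Covector axioms for oriented matroids on a finite ground set, orthogonality and duality.
-/

namespace Pool.Agent.R138.Om

variable {E : Type*}

/-- composition of sign vectors -/
def comp (X Y : E → SignType) : E → SignType := fun e => if X e = 0 then Y e else X e

/-- the element `e` separates `X` and `Y` -/
def Sep (X Y : E → SignType) (e : E) : Prop := X e ≠ 0 ∧ X e = - Y e

/-- the covector axioms -/
structure IsOM (L : Set (E → SignType)) : Prop where
  zero : (fun _ => 0) ∈ L
  neg : ∀ X ∈ L, (fun e => - X e) ∈ L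
  comp : ∀ X ∈ L, ∀ Y ∈ L, comp X Y ∈ L
  elim : ∀ X ∈ L, ∀ Y ∈ L, ∀ e, Sep X Y e →
    ∃ Z ∈ L, Z e = 0 ∧ ∀ f, ¬ Sep X Y f → Z f = Om.comp X Y f

/-- orthogonality of sign vectors -/
def Orth (X Y : E → SignType) : Prop := (∃ e, X e * Y e = 1) ↔ ∃ e, X e * Y e = -1

/-- the product of `X` and `Y` is nonnegative and not zero -/
def Pos (X Y : E → SignType) : Prop := (∀ e, X e * Y e ≠ -1) ∧ ∃ e, X e * Y e = 1

theorem st1 : ∀ a b : SignType, a * b = 1 ↔ a ≠ 0 ∧ a = b := by decide
theorem st2 : ∀ a b : SignType, a * b = -1 ↔ a ≠ 0 ∧ a = -b := by decide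
theorem st3 : ∀ a b : SignType, a * -b = 1 ↔ a * b = -1 := by decide
theorem st4 : ∀ a b : SignType, a * -b = -1 ↔ a * b = 1 := by decide
theorem st5 : ∀ a b : SignType, a * b ≠ 1 → a * b ≠ -1 → a * b = 0 := by decide

theorem Orth.symm {X Y : E → SignType} (h : Orth X Y) : Orth Y X := by
  unfold Orth at *
  simpa only [mul_comm] using h

theorem orth_neg {X Y : E → SignType} : Orth X (fun e => - Y e) ↔ Orth X Y := by
  unfold Orth
  simp only [st3, st4]
  exact ⟨fun h => h.symm, fun h => h.symm⟩

theorem orth_zero (X : E → SignType) : Orth X (fun _ => 0) := by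
  unfold Orth
  have : (0 : SignType) ≠ 1 := by decide
  have : (0 : SignType) ≠ -1 := by decide
  simp [*]

theorem not_orth {X Y : E → SignType} (h : ¬ Orth X Y) : Pos X Y ∨ Pos X (fun e => - Y e) := by
  unfold Orth at h
  unfold Pos
  simp only [ne_eq, st3, st4]
  by_cases h1 : ∃ e, X e * Y e = 1
  · left
    refine ⟨fun e he => h ⟨fun _ => ⟨e, he⟩, fun _ => h1⟩, h1⟩
  · right
    push Not at h1
    by_cases h2 : ∃ e, X e * Y e = -1
    · exact ⟨h1, h2⟩
    · exfalso
      apply h
      constructor
      · rintro ⟨e, he⟩; exact absurd he (h1 e)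
      · intro h3; exact absurd h3 h2

theorem Pos.not_orth {X Y : E → SignType} (h : Pos X Y) : ¬ Orth X Y := by
  intro ho
  obtain ⟨e, he⟩ := ho.1 h.2
  exact h.1 e he

theorem orth_comp {X Y Z : E → SignType} (h1 : Orth X Y) (h2 : Orth X Z) :
    Orth X (comp Y Z) := by
  by_contra hcon
  have key : ∀ (Y Z : E → SignType), Orth X Y → Orth X Z → ¬ Pos X (comp Y Z) := by
    intro Y Z h1 h2 hp
    by_cases h3 : ∃ e, X e * Y e = -1
    · obtain ⟨e, he⟩ := h3
      apply hp.1 e
      have := (st2 _ _).1 he
      have hY : Y e ≠ 0 := by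
        intro h0
        rw [h0] at this
        exact this.1 (by rw [this.2]; decide)
      rw [comp, if_neg hY]; exact he
    · have h4 : ¬ ∃ e, X e * Y e = 1 := fun h => h3 (h1.1 h)
      push Not at h3 h4
      have h0 : ∀ e, X e * Y e = 0 := fun e => st5 _ _ (h4 e) (h3 e)
      have hc : ∀ e, X e ≠ 0 → comp Y Z e = Z e := by
        intro e hX
        have hY : Y e = 0 := by
          rcases mul_eq_zero.1 (h0 e) with h | h
          · exact absurd h hX
          · exact h
        rw [comp, if_pos hY]
      obtain ⟨e, he⟩ := hp.2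
      have hXe : X e ≠ 0 := ((st1 _ _).1 he).1
      rw [hc e hXe] at he
      obtain ⟨f, hf⟩ := h2.1 ⟨e, he⟩
      have hXf : X f ≠ 0 := ((st2 _ _).1 hf).1
      apply hp.1 f
      rw [hc f hXf]; exact hf
  rcases not_orth hcon with h | h
  · exact key Y Z h1 h2 h
  · have : (fun e => - comp Y Z e) = comp (fun e => - Y e) (fun e => - Z e) := by
      funext e
      unfold comp
      by_cases hY : Y e = 0
      · have : - Y e = 0 := by rw [hY]; decide
        rw [if_pos hY, if_pos this]
      · have : - Y e ≠ 0 := by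
          revert hY; generalize Y e = y; revert y; decide
        rw [if_neg hY, if_neg this]
    rw [this] at h
    exact key _ _ (orth_neg.2 h1) (orth_neg.2 h2) h

/-- vectors: everything orthogonal to `L` -/
def dual (L : Set (E → SignType)) : Set (E → SignType) := {X | ∀ Y ∈ L, Orth X Y}

theorem comp_neg (Y Z : E → SignType) :
    (fun e => - comp Y Z e) = comp (fun e => - Y e) (fun e => - Z e) := by
  funext e
  unfold comp
  by_cases hY : Y e = 0
  · have : - Y e = 0 := by rw [hY]; decide
    rw [if_pos hY, if_pos this]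
  · have : - Y e ≠ 0 := by
      revert hY; generalize Y e = y; revert y; decide
    rw [if_neg hY, if_neg this]

theorem neg_neg_vec (Y : E → SignType) : (fun e => - - Y e) = Y := by
  funext e; exact neg_neg _

/-- contraction: members vanishing on `S` -/
theorem IsOM.contract {L : Set (E → SignType)} (hL : IsOM L) (S : Set E) :
    IsOM {Y | Y ∈ L ∧ ∀ e ∈ S, Y e = 0} := by
  refine ⟨⟨hL.zero, fun _ _ => rfl⟩, ?_, ?_, ?_⟩
  · rintro X ⟨h1, h2⟩
    refine ⟨hL.neg X h1, fun e he => ?_⟩
    beta_reduce
    rw [h2 e he]; decide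
  · rintro X ⟨h1, h2⟩ Y ⟨h3, h4⟩
    refine ⟨hL.comp X h1 Y h3, fun e he => ?_⟩
    rw [Om.comp, if_pos (h2 e he), h4 e he]
  · rintro X ⟨h1, h2⟩ Y ⟨h3, h4⟩ e he
    obtain ⟨Z, hZ, hZe, hZf⟩ := hL.elim X h1 Y h3 e he
    refine ⟨Z, ⟨hZ, fun f hf => ?_⟩, hZe, hZf⟩
    rw [hZf f (fun h => h.1 (h2 f hf)), Om.comp, if_pos (h2 f hf), h4 f hf]

/-- one-element extension of orthogonality -/
theorem extend_one [DecidableEq E] {L : Set (E → SignType)} (hL : IsOM L) (a : E)
    (Z : E → SignType) (h : ∀ Y ∈ L, Y a = 0 → Orth Z Y) :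
    ∃ z, ∀ Y ∈ L, Orth (Function.update Z a z) Y := by
  by_contra hcon
  push Not at hcon
  -- choose bad covectors
  have upd : ∀ z e, e ≠ a → Function.update Z a z e = Z e := fun z e he =>
    Function.update_of_ne he _ _
  have bad : ∀ z, ∃ Y ∈ L, Pos (Function.update Z a z) Y := by
    intro z
    obtain ⟨Y, hY, hno⟩ := hcon z
    rcases not_orth hno with h1 | h1
    · exact ⟨Y, hY, h1⟩
    · exact ⟨_, hL.neg Y hY, h1⟩
  have ha : ∀ z, ∀ Y ∈ L, Pos (Function.update Z a z) Y → Y a ≠ 0 := by
    intro z Y hY hp h0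
    apply hp.not_orth
    have h1 := h Y hY h0
    have heq : ∀ e, Function.update Z a z e * Y e = Z e * Y e := by
      intro e
      by_cases he : e = a
      · subst he; rw [h0, mul_zero, mul_zero]
      · rw [upd z e he]
    unfold Orth
    simp only [heq]
    exact h1
  obtain ⟨Y0, hY0, hp0⟩ := bad 0
  have hY0a := ha 0 Y0 hY0 hp0
  obtain ⟨Y1, hY1, hp1⟩ := bad (- Y0 a)
  have hY1a := ha _ Y1 hY1 hp1
  have hsep : Y1 a = - Y0 a := by
    have := hp1.1 a
    rw [Function.update_self] at this
    revert this hY1a hY0a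
    generalize Y0 a = y; generalize Y1 a = z
    revert y z; decide
  have hS : Sep Y0 Y1 a := ⟨hY0a, by rw [hsep, neg_neg]⟩
  obtain ⟨W, hW, hWa, hWf⟩ := hL.elim Y0 hY0 Y1 hY1 a hS
  -- for e ≠ a the products are nonnegative
  have n0 : ∀ e, e ≠ a → Z e * Y0 e ≠ -1 := by
    intro e he
    have := hp0.1 e
    rwa [upd 0 e he] at this
  have n1 : ∀ e, e ≠ a → Z e * Y1 e ≠ -1 := by
    intro e he
    have := hp1.1 e
    rwa [upd _ e he] at this
  have hWe : ∀ e, e ≠ a → Z e ≠ 0 → W e = comp Y0 Y1 e := by
    intro e he hZe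
    apply hWf
    rintro ⟨h1, h2⟩
    have h3 := n0 e he
    have h4 := n1 e he
    revert h1 h2 h3 h4 hZe
    generalize Z e = z; generalize Y0 e = y; generalize Y1 e = w
    revert z y w; decide
  have hpos : Pos Z W := by
    constructor
    · intro e
      by_cases he : e = a
      · rw [he, hWa, mul_zero]; decide
      · by_cases hZe : Z e = 0
        · rw [hZe, zero_mul]; decide
        · rw [hWe e he hZe, comp]
          split_ifs with h0
          · exact n1 e he
          · exact n0 e he
    · obtain ⟨e, he⟩ := hp0.2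
      have hea : e ≠ a := by
        rintro rfl
        rw [Function.update_self, zero_mul] at he
        revert he; decide
      rw [upd 0 e hea] at he
      refine ⟨e, ?_⟩
      have h1 := (st1 _ _).1 he
      have hY0e : Y0 e ≠ 0 := by rw [← h1.2]; exact h1.1
      rw [hWe e hea h1.1, comp, if_neg hY0e]
      exact he
  exact hpos.not_orth (h W hW hWa)

theorem extend_set [DecidableEq E] {L : Set (E → SignType)} (hL : IsOM L) (S : Finset E) :
    ∀ Z : E → SignType, (∀ Y ∈ L, (∀ e ∈ S, Y e = 0) → Orth Z Y) →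
      ∃ Z' ∈ dual L, ∀ e, e ∉ S → Z' e = Z e := by
  induction S using Finset.induction_on with
  | empty =>
    intro Z h
    exact ⟨Z, fun Y hY => h Y hY (by simp), fun _ _ => rfl⟩
  | insert a S haS ih =>
    intro Z h
    have hL' := hL.contract (S := (S : Set E))
    obtain ⟨z, hz⟩ := extend_one hL' a Z (by
      rintro Y ⟨hY, hYS⟩ hYa
      apply h Y hY
      intro e he
      rcases Finset.mem_insert.1 he with rfl | he
      · exact hYa
      · exact hYS e (by exact_mod_cast he))
    obtain ⟨Z', hZ', hZe⟩ := ih (Function.update Z a z) (fun Y hY hYS =>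
      hz Y ⟨hY, fun e he => hYS e (by exact_mod_cast he)⟩)
    refine ⟨Z', hZ', fun e he => ?_⟩
    rw [Finset.mem_insert, not_or] at he
    rw [hZe e he.2, Function.update_of_ne he.1]

/-- composing finitely many members below `σ` -/
theorem exists_full {A : Set (E → SignType)} (hA : ∀ X ∈ A, ∀ Y ∈ A, comp X Y ∈ A)
    (hA0 : (fun _ => 0) ∈ A) {σ : E → SignType}
    (hσ : ∀ X ∈ A, ∀ e, σ e ≠ 0 → X e = 0 ∨ X e = σ e) (F : Finset E) :
    (∀ f ∈ F, σ f ≠ 0 ∧ ∃ X ∈ A, X f ≠ 0) → ∃ X ∈ A, ∀ f ∈ F, X f = σ f := by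
  classical
  induction F using Finset.induction_on with
  | empty => intro _; exact ⟨_, hA0, by simp⟩
  | insert a F haF ih =>
    intro h
    obtain ⟨X, hX, hXF⟩ := ih (fun f hf => h f (Finset.mem_insert_of_mem hf))
    obtain ⟨ha, Y, hY, hYa⟩ := h a (Finset.mem_insert_self _ _)
    refine ⟨comp X Y, hA X hX Y hY, fun f hf => ?_⟩
    rcases Finset.mem_insert.1 hf with rfl | hf
    · rw [comp]
      split_ifs with h0
      · rcases hσ Y hY f ha with h1 | h1
        · exact absurd h1 hYa
        · exact h1
      · rcases hσ X hX f ha with h1 | h1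
        · exact absurd h1 h0
        · exact h1
    · have h1 := h f (Finset.mem_insert_of_mem hf)
      rw [comp, if_neg (by rw [hXF f hf]; exact h1.1), hXF f hf]

/-- Farkas' lemma -/
theorem farkas [Finite E] {L : Set (E → SignType)} (hL : IsOM L) (σ : E → SignType) (S : Set E)
    (hS : ∀ e ∈ S, σ e = 0) (f : E) (hf : σ f ≠ 0)
    (hno : ¬ ∃ Y ∈ L, Y f = σ f ∧ (∀ e, σ e ≠ 0 → Y e = 0 ∨ Y e = σ e) ∧ ∀ e ∈ S, Y e = 0) :
    ∃ Z ∈ dual L, Z f = σ f ∧ ∀ e, e ∉ S → Z e = 0 ∨ Z e = σ e := by
  classical
  have : Fintype E := Fintype.ofFinite E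
  set A : Set (E → SignType) := {Y | Y ∈ L ∧ (∀ e, σ e ≠ 0 → Y e = 0 ∨ Y e = σ e) ∧
    ∀ e ∈ S, Y e = 0} with hA
  have hAc : ∀ X ∈ A, ∀ Y ∈ A, comp X Y ∈ A := by
    rintro X ⟨h1, h2, h3⟩ Y ⟨h4, h5, h6⟩
    refine ⟨hL.comp X h1 Y h4, ?_, ?_⟩
    · intro e he
      rw [comp]
      split_ifs with h0
      · exact h5 e he
      · exact h2 e he
    · intro e he
      rw [comp, if_pos (h3 e he)]; exact h6 e he
  have hA0 : (fun _ => 0) ∈ A := ⟨hL.zero, fun _ _ => Or.inl rfl, fun _ _ => rfl⟩
  obtain ⟨Y0, hY0, hY0F⟩ := exists_full hAc hA0 (σ := σ) (fun X hX e he => hX.2.1 e he)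
    (Finset.univ.filter (fun e => σ e ≠ 0 ∧ ∃ X ∈ A, X e ≠ 0)) (by
      intro e he
      exact (Finset.mem_filter.1 he).2)
  -- the maximal one
  have hmax : ∀ Y ∈ A, ∀ e, σ e ≠ 0 → Y e ≠ 0 → Y0 e = σ e := by
    intro Y hY e he hYe
    exact hY0F e (Finset.mem_filter.2 ⟨Finset.mem_univ _, he, Y, hY, hYe⟩)
  set Z0 : E → SignType := fun e => if Y0 e = 0 then σ e else 0 with hZ0
  have hfY : Y0 f = 0 := by
    by_contra h0
    rcases hY0.2.1 f hf with h1 | h1
    · exact h0 h1
    · exact hno ⟨Y0, hY0.1, h1, hY0.2.1, hY0.2.2⟩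
  have key : ∀ Y ∈ L, (∀ e ∈ S, Y e = 0) → ¬ Pos Z0 Y := by
    intro Y hY hYS hp
    have hmem : comp Y0 Y ∈ A := by
      refine ⟨hL.comp _ hY0.1 _ hY, ?_, ?_⟩
      · intro e he
        rw [comp]
        split_ifs with h0
        · have := hp.1 e
          rw [hZ0] at this
          beta_reduce at this
          rw [if_pos h0] at this
          revert this he
          generalize σ e = s; generalize Y e = y
          revert s y; decide
        · exact hY0.2.1 e he
      · intro e he
        rw [comp, if_pos (hY0.2.2 e he)]; exact hYS e he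
    obtain ⟨e, he⟩ := hp.2
    have h1 := (st1 _ _).1 he
    have h0 : Y0 e = 0 := by
      by_contra h0
      apply h1.1
      rw [hZ0]; beta_reduce; rw [if_neg h0]
    have hσe : σ e ≠ 0 := by
      have := h1.1
      rw [hZ0] at this
      beta_reduce at this
      rwa [if_pos h0] at this
    have hYe : comp Y0 Y e ≠ 0 := by
      rw [comp, if_pos h0, ← h1.2]; exact h1.1
    have := hmax _ hmem e hσe hYe
    rw [h0] at this
    exact hσe this.symm
  have horth : ∀ Y ∈ L, (∀ e ∈ S, Y e = 0) → Orth Z0 Y := by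
    intro Y hY hYS
    by_contra hcon
    rcases not_orth hcon with h1 | h1
    · exact key Y hY hYS h1
    · refine key _ (hL.neg Y hY) (fun e he => ?_) h1
      beta_reduce; rw [hYS e he]; decide
  obtain ⟨Z, hZ, hZe⟩ := extend_set hL (Finset.univ.filter (fun e => e ∈ S)) Z0 (by
    intro Y hY hYS
    exact horth Y hY (fun e he => hYS e (Finset.mem_filter.2 ⟨Finset.mem_univ _, he⟩)))
  have hZe' : ∀ e, e ∉ S → Z e = Z0 e := fun e he => hZe e (by simpa using he)
  refine ⟨Z, hZ, ?_, ?_⟩
  · rw [hZe' f (fun h => hf (hS f h)), hZ0]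
    beta_reduce
    rw [if_pos hfY]
  · intro e he
    rw [hZe' e he, hZ0]
    beta_reduce
    split_ifs
    · exact Or.inr rfl
    · exact Or.inl rfl

/-- duality -/
theorem IsOM.dual [Finite E] {L : Set (E → SignType)} (hL : IsOM L) : IsOM (dual L) := by
  classical
  have : Fintype E := Fintype.ofFinite E
  refine ⟨?_, ?_, ?_, ?_⟩
  · intro Y _
    exact (orth_zero Y).symm
  · intro X hX Y hY
    exact (orth_neg.2 (hX Y hY).symm).symm
  · intro X hX Y hY W hW
    exact (orth_comp (hX W hW).symm (hY W hW).symm).symm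
  · intro X hX Y hY e he
    set σ : E → SignType := fun f => if Sep X Y f then 0 else Om.comp X Y f with hσ
    set S : Set E := {f | Sep X Y f ∧ f ≠ e} with hS
    set A : Set (E → SignType) := {Z | Z ∈ Om.dual L ∧ ∀ f, f ∉ S → Z f = 0 ∨ Z f = σ f} with hA
    have hSσ : ∀ f ∈ S, σ f = 0 := by
      intro f hf
      rw [hσ]; beta_reduce; rw [if_pos hf.1]
    have hσS : ∀ f, σ f ≠ 0 → f ∉ S := fun f hf h => hf (hSσ f h)
    have hAc : ∀ X ∈ A, ∀ Y ∈ A, Om.comp X Y ∈ A := by
      rintro X ⟨h1, h2⟩ Y ⟨h3, h4⟩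
      refine ⟨fun W hW => (orth_comp (h1 W hW).symm (h3 W hW).symm).symm, fun f hf => ?_⟩
      rw [Om.comp]
      split_ifs
      · exact h4 f hf
      · exact h2 f hf
    have hA0 : (fun _ => 0) ∈ A := ⟨fun Y _ => (orth_zero Y).symm, fun _ _ => Or.inl rfl⟩
    have hex : ∀ f, σ f ≠ 0 → ∃ Z ∈ A, Z f ≠ 0 := by
      intro f hf
      obtain ⟨Z, hZ, hZf, hZe⟩ := farkas hL σ S hSσ f hf (by
        rintro ⟨W, hW, hWf, hWσ, hWS⟩
        have hfs : ¬ Sep X Y f := by
          intro h
          apply hf
          rw [hσ]; beta_reduce; rw [if_pos h]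
        have hσf : σ f = Om.comp X Y f := by rw [hσ]; beta_reduce; rw [if_neg hfs]
        -- products off e
        have p1 : ∀ g, g ≠ e → X g * W g ≠ -1 := by
          intro g hg
          by_cases hgs : Sep X Y g
          · rw [hWS g ⟨hgs, hg⟩, mul_zero]; decide
          · by_cases hXg : X g = 0
            · rw [hXg, zero_mul]; decide
            · have hσg : σ g = X g := by
                rw [hσ]; beta_reduce; rw [if_neg hgs, Om.comp, if_neg hXg]
              rcases hWσ g (by rw [hσg]; exact hXg) with h | h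
              · rw [h, mul_zero]; decide
              · rw [h, hσg]
                generalize X g = x; revert x; decide
        have p2 : ∀ g, g ≠ e → Y g * W g ≠ -1 := by
          intro g hg
          by_cases hgs : Sep X Y g
          · rw [hWS g ⟨hgs, hg⟩, mul_zero]; decide
          · by_cases hYg : Y g = 0
            · rw [hYg, zero_mul]; decide
            · have hσg : σ g = Y g := by
                rw [hσ]; beta_reduce; rw [if_neg hgs, Om.comp]
                split_ifs with h0
                · rfl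
                · by_contra hne
                  apply hgs
                  refine ⟨h0, ?_⟩
                  revert h0 hne hYg
                  generalize X g = x; generalize Y g = y
                  revert x y; decide
              rcases hWσ g (by rw [hσg]; exact hYg) with h | h
              · rw [h, mul_zero]; decide
              · rw [h, hσg]
                generalize Y g = x; revert x; decide
        have hcases : X e * W e = 1 ∨ Y e * W e = 1 ∨ W e = 0 := by
          have h1 := he.1
          have h2 := he.2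
          revert h1 h2
          generalize X e = x; generalize Y e = y; generalize W e = w
          revert x y w; decide
        rcases hcases with h | h | h
        · have hp : Pos X W := by
            refine ⟨fun g => ?_, e, h⟩
            by_cases hg : g = e
            · rw [hg, h]; decide
            · exact p1 g hg
          exact hp.not_orth (hX W hW)
        · have hp : Pos Y W := by
            refine ⟨fun g => ?_, e, h⟩
            by_cases hg : g = e
            · rw [hg, h]; decide
            · exact p2 g hg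
          exact hp.not_orth (hY W hW)
        · have q1 : ∀ g, X g * W g ≠ -1 := by
            intro g
            by_cases hg : g = e
            · rw [hg, h, mul_zero]; decide
            · exact p1 g hg
          have q2 : ∀ g, Y g * W g ≠ -1 := by
            intro g
            by_cases hg : g = e
            · rw [hg, h, mul_zero]; decide
            · exact p2 g hg
          have hWf' : W f = Om.comp X Y f := by rw [hWf, hσf]
          have hne : Om.comp X Y f ≠ 0 := by rw [← hσf]; exact hf
          rw [Om.comp] at hWf' hne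
          split_ifs at hWf' hne with h0
          · have hp : Pos Y W := by
              refine ⟨q2, f, ?_⟩
              rw [hWf']; exact (st1 _ _).2 ⟨hne, rfl⟩
            exact hp.not_orth (hY W hW)
          · have hp : Pos X W := by
              refine ⟨q1, f, ?_⟩
              rw [hWf']; exact (st1 _ _).2 ⟨h0, rfl⟩
            exact hp.not_orth (hX W hW))
      exact ⟨Z, ⟨hZ, hZe⟩, by rw [hZf]; exact hf⟩
    obtain ⟨Z, hZ, hZF⟩ := exists_full hAc hA0 (σ := σ)
      (fun X hX f hf => hX.2 f (hσS f hf)) (Finset.univ.filter (fun f => σ f ≠ 0)) (by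
        intro f hf
        have := (Finset.mem_filter.1 hf).2
        exact ⟨this, hex f this⟩)
    have hσe : σ e = 0 := by rw [hσ]; beta_reduce; rw [if_pos he]
    refine ⟨Z, hZ.1, ?_, ?_⟩
    · rcases hZ.2 e (fun h => h.2 rfl) with h | h
      · exact h
      · rw [h, hσe]
    · intro f hf
      have hσf : σ f = Om.comp X Y f := by rw [hσ]; beta_reduce; rw [if_neg hf]
      rw [← hσf]
      by_cases h0 : σ f = 0
      · rcases hZ.2 f (fun h => hf h.1) with h | h
        · rw [h, h0]
        · exact h
      · exact hZF f (Finset.mem_filter.2 ⟨Finset.mem_univ _, h0⟩)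

end Pool.Agent.R138.Om
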