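import Mathlib

/-!
Finite facts about the sign vectors of the braid arrangement
`(a, b, a + b, a + t, b - t, t)`.
-/

namespace Pool.Agent.R138.Om

abbrev S3 := SignType × SignType × SignType
abbrev S6 := SignType × SignType × SignType × SignType × SignType × SignType

/-- scalar composition -/
def c1 : SignType → SignType → SignType
  | .zero, b => b
  | .pos, _ => .pos
  | .neg, _ => .neg

/-- scalar separation -/
def s1 : SignType → SignType → Bool
  | .pos, .neg => true
  | .neg, .pos => true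
  | _, _ => false

/-- equality of signs -/
def eqs : SignType → SignType → Bool
  | .pos, .pos => true
  | .neg, .neg => true
  | .zero, .zero => true
  | _, _ => false

/-- three signs can be the signs of reals with sum zero -/
def z3 : SignType → SignType → SignType → Bool
  | .zero, b, c => match b, c with
    | .zero, .zero => true
    | .pos, .neg => true
    | .neg, .pos => true
    | _, _ => false
  | .pos, b, c => match b, c with
    | .neg, _ => true
    | _, .neg => true
    | _, _ => false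
  | .neg, b, c => match b, c with
    | .pos, _ => true
    | _, .pos => true
    | _, _ => false

/-- sign vectors `(a, b, a + b, a + t, b - t, t)` -/
def R (a b c x y t : SignType) : Bool := z3 a b (-c) && z3 a t (-x) && z3 b (-t) (-y) && z3 x y (-c)

/-- compatible with an elimination of `u` and `v` -/
def cm (z u v : SignType) : Bool := s1 u v || eqs z (c1 u v)

theorem c1_eq : ∀ a b : SignType, c1 a b = if a = 0 then b else a := by decide
theorem s1_eq : ∀ a b : SignType, s1 a b = true ↔ (a ≠ 0 ∧ a = -b) := by decide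
theorem eqs_eq : ∀ a b : SignType, eqs a b = true ↔ a = b := by decide
theorem z3_eq : ∀ a b c : SignType, z3 a b c =
    ((a == 1 || b == 1 || c == 1) == (a == -1 || b == -1 || c == -1)) := by decide

section lists
private abbrev p : SignType := 1
private abbrev z : SignType := 0
private abbrev n : SignType := -1

/-- the 75 covectors of the braid arrangement -/
def Rl : List S6 :=
  [(n, n, n, n, n, n), (n, n, n, n, n, z), (n, n, n, n, n, p), (n, n, n, n, z, n),
   (n, n, n, n, p, n), (n, n, n, z, n, p), (n, n, n, p, n, p), (n, z, n, n, n, p),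
   (n, z, n, n, z, z), (n, z, n, n, p, n), (n, z, n, z, n, p), (n, z, n, p, n, p),
   (n, p, n, n, n, p), (n, p, n, n, z, p), (n, p, n, n, p, n), (n, p, n, n, p, z),
   (n, p, n, n, p, p), (n, p, n, z, n, p), (n, p, n, p, n, p), (n, p, z, n, p, n),
   (n, p, z, n, p, z), (n, p, z, n, p, p), (n, p, z, z, z, p), (n, p, z, p, n, p),
   (n, p, p, n, p, n), (n, p, p, n, p, z), (n, p, p, n, p, p), (n, p, p, z, p, p),
   (n, p, p, p, n, p), (n, p, p, p, z, p), (n, p, p, p, p, p), (z, n, n, n, n, n),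
   (z, n, n, n, z, n), (z, n, n, n, p, n), (z, n, n, z, n, z), (z, n, n, p, n, p),
   (z, z, z, n, p, n), (z, z, z, z, z, z), (z, z, z, p, n, p), (z, p, p, n, p, n),
   (z, p, p, z, p, z), (z, p, p, p, n, p), (z, p, p, p, z, p), (z, p, p, p, p, p),
   (p, n, n, n, n, n), (p, n, n, n, z, n), (p, n, n, n, p, n), (p, n, n, z, n, n),
   (p, n, n, p, n, n), (p, n, n, p, n, z), (p, n, n, p, n, p), (p, n, z, n, p, n),
   (p, n, z, z, z, n), (p, n, z, p, n, n), (p, n, z, p, n, z), (p, n, z, p, n, p),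
   (p, n, p, n, p, n), (p, n, p, z, p, n), (p, n, p, p, n, n), (p, n, p, p, n, z),
   (p, n, p, p, n, p), (p, n, p, p, z, n), (p, n, p, p, p, n), (p, z, p, n, p, n),
   (p, z, p, z, p, n), (p, z, p, p, n, p), (p, z, p, p, z, z), (p, z, p, p, p, n),
   (p, p, p, n, p, n), (p, p, p, z, p, n), (p, p, p, p, n, p), (p, p, p, p, z, p),
   (p, p, p, p, p, n), (p, p, p, p, p, z), (p, p, p, p, p, p)]

/-- the covectors grouped by the first three coordinates -/
def Rt : List (S3 × List S3) :=
  [((n, n, n), [(n, n, n), (n, n, z), (n, n, p), (n, z, n), (n, p, n), (z, n, p), (p, n, p)]),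
   ((n, z, n), [(n, n, p), (n, z, z), (n, p, n), (z, n, p), (p, n, p)]),
   ((n, p, n), [(n, n, p), (n, z, p), (n, p, n), (n, p, z), (n, p, p), (z, n, p), (p, n, p)]),
   ((n, p, z), [(n, p, n), (n, p, z), (n, p, p), (z, z, p), (p, n, p)]),
   ((n, p, p), [(n, p, n), (n, p, z), (n, p, p), (z, p, p), (p, n, p), (p, z, p), (p, p, p)]),
   ((z, n, n), [(n, n, n), (n, z, n), (n, p, n), (z, n, z), (p, n, p)]),
   ((z, z, z), [(n, p, n), (z, z, z), (p, n, p)]),
   ((z, p, p), [(n, p, n), (z, p, z), (p, n, p), (p, z, p), (p, p, p)]),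
   ((p, n, n), [(n, n, n), (n, z, n), (n, p, n), (z, n, n), (p, n, n), (p, n, z), (p, n, p)]),
   ((p, n, z), [(n, p, n), (z, z, n), (p, n, n), (p, n, z), (p, n, p)]),
   ((p, n, p), [(n, p, n), (z, p, n), (p, n, n), (p, n, z), (p, n, p), (p, z, n), (p, p, n)]),
   ((p, z, p), [(n, p, n), (z, p, n), (p, n, p), (p, z, z), (p, p, n)]),
   ((p, p, p), [(n, p, n), (z, p, n), (p, n, p), (p, z, p), (p, p, n), (p, p, z), (p, p, p)])]

end lists

def memRl (a b c x y t : SignType) : Bool :=
  Rl.any fun v => eqs v.1 a && eqs v.2.1 b && eqs v.2.2.1 c && eqs v.2.2.2.1 x &&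
    eqs v.2.2.2.2.1 y && eqs v.2.2.2.2.2 t

theorem mem_Rl_aux : ∀ a b c x y t : SignType,
    (!R a b c x y t || memRl a b c x y t) = true := by
  decide +kernel

theorem R_neg : ∀ a b c x y t : SignType, R a b c x y t = true →
    R (-a) (-b) (-c) (-x) (-y) (-t) = true := by
  decide +kernel

def rtSpec (a b c : SignType) : Bool :=
  !z3 a b (-c) || Rt.any fun q => eqs q.1.1 a && eqs q.1.2.1 b && eqs q.1.2.2 c &&
    q.2.all fun w => R a b c w.1 w.2.1 w.2.2

theorem rtSpec_true : ∀ a b c : SignType, rtSpec a b c = true := by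
  decide +kernel

def rComp : Bool := Rl.all fun v => Rl.all fun w =>
    R (c1 v.1 w.1) (c1 v.2.1 w.2.1) (c1 v.2.2.1 w.2.2.1) (c1 v.2.2.2.1 w.2.2.2.1)
      (c1 v.2.2.2.2.1 w.2.2.2.2.1) (c1 v.2.2.2.2.2 w.2.2.2.2.2)

theorem rComp_true : rComp = true := by decide +kernel

/-- compatibility of the first three coordinates -/
def cmT (T : S3) (v w : S6) : Bool := cm T.1 v.1 w.1 && cm T.2.1 v.2.1 w.2.1 && cm T.2.2 v.2.2.1 w.2.2.1

/-- compatibility of the last three coordinates -/
def cmX (u : S3) (v w : S6) : Bool :=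
  cm u.1 v.2.2.2.1 w.2.2.2.1 && cm u.2.1 v.2.2.2.2.1 w.2.2.2.2.1 && cm u.2.2 v.2.2.2.2.2 w.2.2.2.2.2

def fs1 : Bool :=
  Rl.all fun v => Rl.all fun w => Rt.all fun q => !(cmT q.1 v w) || q.2.any fun u => cmX u v w

theorem fs1_true : fs1 = true := by decide +kernel

/-- the last three coordinates for given first three -/
def look (a b c : SignType) : List S3 :=
  match Rt.find? (fun q => eqs q.1.1 a && eqs q.1.2.1 b && eqs q.1.2.2 c) with
  | some q => q.2
  | none => []

/-- selecting one of three coordinates -/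
def sel : Fin 3 → S3 → SignType
  | 0, u => u.1
  | 1, u => u.2.1
  | 2, u => u.2.2

def hd (v : S6) : S3 := (v.1, v.2.1, v.2.2.1)
def tl (v : S6) : S3 := v.2.2.2

def good (k : Fin 3) (a b c : SignType) (v w : S6) : Bool :=
  (look a b c).any fun u => eqs (sel k u) .zero && cmX u v w

def elimOK (k i : Fin 3) (v w : S6) : Bool :=
  s1 (sel i (hd v)) (sel i (hd w)) && Rt.all fun q =>
    !(eqs (sel i q.1) .zero && cmT q.1 v w) ||
      (good k q.1.1 q.1.2.1 q.1.2.2 v w ||
       (good k (c1 q.1.1 v.1) (c1 q.1.2.1 v.2.1) (c1 q.1.2.2 v.2.2.1) v w ||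
        good k (c1 q.1.1 w.1) (c1 q.1.2.1 w.2.1) (c1 q.1.2.2 w.2.2.1) v w))

def fs2 (k : Fin 3) : Bool :=
  Rl.all fun v => Rl.all fun w => !(s1 (sel k (tl v)) (sel k (tl w))) ||
    (good k (c1 v.1 w.1) (c1 v.2.1 w.2.1) (c1 v.2.2.1 w.2.2.1) v w ||
     (good k (c1 w.1 v.1) (c1 w.2.1 v.2.1) (c1 w.2.2.1 v.2.2.1) v w ||
      (elimOK k 0 v w || (elimOK k 1 v w || elimOK k 2 v w))))

theorem fs2_0 : fs2 0 = true := by decide +kernel
theorem fs2_1 : fs2 1 = true := by decide +kernel
theorem fs2_2 : fs2 2 = true := by decide +kernel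

end Pool.Agent.R138.Om
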