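import Pool.Agent.R138.OmBraid

namespace Pool.Agent.R138.Om

theorem R_mem {a b c x y t : SignType} (h : R a b c x y t = true) : (a, b, c, x, y, t) ∈ Rl := by
  have := mem_Rl_aux a b c x y t
  rw [h] at this
  simp only [Bool.not_true, Bool.false_or] at this
  unfold memRl at this
  rw [List.any_eq_true] at this
  obtain ⟨v, hv, hv2⟩ := this
  simp only [Bool.and_eq_true, eqs_eq] at hv2
  obtain ⟨⟨⟨⟨⟨h1, h2⟩, h3⟩, h4⟩, h5⟩, h6⟩ := hv2
  subst h1 h2 h3 h4 h5 h6
  exact hv

theorem Rt_R_aux : (Rt.all fun q => q.2.all fun w => R q.1.1 q.1.2.1 q.1.2.2 w.1 w.2.1 w.2.2) =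
    true := by decide +kernel

theorem Rt_R {q : S3 × List S3} (hq : q ∈ Rt) {w : S3} (hw : w ∈ q.2) :
    R q.1.1 q.1.2.1 q.1.2.2 w.1 w.2.1 w.2.2 = true := by
  have := Rt_R_aux
  rw [List.all_eq_true] at this
  have := this q hq
  rw [List.all_eq_true] at this
  exact this w hw

theorem exists_Rt {a b c : SignType} (h : z3 a b (-c) = true) : ∃ q ∈ Rt, q.1 = (a, b, c) := by
  have := rtSpec_true a b c
  unfold rtSpec at this
  rw [h] at this
  simp only [Bool.not_true, Bool.false_or] at this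
  rw [List.any_eq_true] at this
  obtain ⟨q, hq, h2⟩ := this
  simp only [Bool.and_eq_true, eqs_eq] at h2
  obtain ⟨⟨⟨h1, h2⟩, h3⟩, _⟩ := h2
  refine ⟨q, hq, ?_⟩
  obtain ⟨⟨q1, q2, q3⟩, q4⟩ := q
  simp only at h1 h2 h3
  rw [h1, h2, h3]

theorem R_comp {a b c x y t a' b' c' x' y' t' : SignType} (h : R a b c x y t = true)
    (h' : R a' b' c' x' y' t' = true) :
    R (c1 a a') (c1 b b') (c1 c c') (c1 x x') (c1 y y') (c1 t t') = true := by
  have := rComp_true
  unfold rComp at this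
  rw [List.all_eq_true] at this
  have := this _ (R_mem h)
  rw [List.all_eq_true] at this
  exact this _ (R_mem h')

/-- elimination away from the star -/
theorem FS1 {a b c x y t a' b' c' x' y' t' : SignType} (h : R a b c x y t = true)
    (h' : R a' b' c' x' y' t' = true) {a3 b3 c3 : SignType} (hz : z3 a3 b3 (-c3) = true)
    (ha : cm a3 a a' = true) (hb : cm b3 b b' = true) (hc : cm c3 c c' = true) :
    ∃ x3 y3 t3, R a3 b3 c3 x3 y3 t3 = true ∧ cm x3 x x' = true ∧ cm y3 y y' = true ∧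
      cm t3 t t' = true := by
  have := fs1_true
  unfold fs1 at this
  rw [List.all_eq_true] at this
  have := this _ (R_mem h)
  rw [List.all_eq_true] at this
  have := this _ (R_mem h')
  rw [List.all_eq_true] at this
  obtain ⟨q, hq, hq1⟩ := exists_Rt hz
  have := this q hq
  rw [hq1] at this
  simp only [cmT, ha, hb, hc, Bool.and_self, Bool.not_true, Bool.false_or] at this
  rw [List.any_eq_true] at this
  obtain ⟨u, hu, hu2⟩ := this
  simp only [cmX, Bool.and_eq_true] at hu2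
  have hR := Rt_R hq hu
  rw [hq1] at hR
  exact ⟨u.1, u.2.1, u.2.2, hR, hu2.1.1, hu2.1.2, hu2.2⟩

theorem good_spec {k : Fin 3} {a b c : SignType} {v w : S6} (h : good k a b c v w = true) :
    ∃ u : S3, R a b c u.1 u.2.1 u.2.2 = true ∧ sel k u = 0 ∧ cmX u v w = true := by
  unfold good at h
  rw [List.any_eq_true] at h
  obtain ⟨u, hu, hu2⟩ := h
  simp only [Bool.and_eq_true, eqs_eq] at hu2
  refine ⟨u, ?_, hu2.1, hu2.2⟩
  unfold look at hu
  split at hu
  · rename_i q hq
    have h1 := List.mem_of_find?_eq_some hq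
    have h2 := List.find?_some hq
    simp only [Bool.and_eq_true, eqs_eq] at h2
    have := Rt_R h1 hu
    rw [h2.1.1, h2.1.2, h2.2] at this
    exact this
  · simp at hu

/-- the conclusion wanted for the third elimination triple -/
def G (k : Fin 3) (v w : S6) (a b c : SignType) : Prop :=
  ∃ u : S3, R a b c u.1 u.2.1 u.2.2 = true ∧ sel k u = 0 ∧ cmX u v w = true

theorem elimOK_spec {k i : Fin 3} {v w : S6} (h : elimOK k i v w = true) :
    s1 (sel i (hd v)) (sel i (hd w)) = true ∧ ∀ a b c, z3 a b (-c) = true → sel i (a, b, c) = 0 →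
      cm a v.1 w.1 = true → cm b v.2.1 w.2.1 = true → cm c v.2.2.1 w.2.2.1 = true →
      G k v w a b c ∨ G k v w (c1 a v.1) (c1 b v.2.1) (c1 c v.2.2.1) ∨
        G k v w (c1 a w.1) (c1 b w.2.1) (c1 c w.2.2.1) := by
  unfold elimOK at h
  rw [Bool.and_eq_true] at h
  refine ⟨h.1, ?_⟩
  intro a b c hz hs ha hb hc
  have h2 := h.2
  rw [List.all_eq_true] at h2
  obtain ⟨q, hq, hq1⟩ := exists_Rt hz
  have h3 := h2 q hq
  rw [hq1] at h3
  have hs' : eqs (sel i (a, b, c)) .zero = true := (eqs_eq _ _).2 hs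
  simp only [cmT, ha, hb, hc, hs', Bool.and_self, Bool.not_true, Bool.false_or,
    Bool.or_eq_true] at h3
  rcases h3 with h3 | h3 | h3
  · exact Or.inl (good_spec h3)
  · exact Or.inr (Or.inl (good_spec h3))
  · exact Or.inr (Or.inr (good_spec h3))

/-- elimination at the star -/
theorem FS2 (k : Fin 3) {v w : S6} (hv : v ∈ Rl) (hw : w ∈ Rl)
    (hs : s1 (sel k (tl v)) (sel k (tl w)) = true) :
    G k v w (c1 v.1 w.1) (c1 v.2.1 w.2.1) (c1 v.2.2.1 w.2.2.1) ∨
    G k v w (c1 w.1 v.1) (c1 w.2.1 v.2.1) (c1 w.2.2.1 v.2.2.1) ∨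
    ∃ i : Fin 3, s1 (sel i (hd v)) (sel i (hd w)) = true ∧ ∀ a b c, z3 a b (-c) = true →
      sel i (a, b, c) = 0 →
      cm a v.1 w.1 = true → cm b v.2.1 w.2.1 = true → cm c v.2.2.1 w.2.2.1 = true →
      G k v w a b c ∨ G k v w (c1 a v.1) (c1 b v.2.1) (c1 c v.2.2.1) ∨
        G k v w (c1 a w.1) (c1 b w.2.1) (c1 c w.2.2.1) := by
  have key : fs2 k = true := by
    fin_cases k
    · exact fs2_0
    · exact fs2_1
    · exact fs2_2
  unfold fs2 at key
  rw [List.all_eq_true] at key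
  have := key v hv
  rw [List.all_eq_true] at this
  have := this w hw
  rw [hs] at this
  simp only [Bool.not_true, Bool.false_or, Bool.or_eq_true] at this
  rcases this with h | h | h | h | h
  · exact Or.inl (good_spec h)
  · exact Or.inr (Or.inl (good_spec h))
  · exact Or.inr (Or.inr ⟨0, elimOK_spec h⟩)
  · exact Or.inr (Or.inr ⟨1, elimOK_spec h⟩)
  · exact Or.inr (Or.inr ⟨2, elimOK_spec h⟩)

end Pool.Agent.R138.Om
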