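import Pool.Agent.R138.OmData2

/-!
The chirotope of the arrangement.
-/

namespace Pool.Agent.R138.Om

/-- packed chirotope -/
def chiN : ℕ := 2281213952851387662901027402342114601210428905807273609205755022295211386893518526184895605508786420141891429301164126222891471293995519158162919899557386618779984882986154643532305443610892387846573054037891582539220957265488528390640678345725670747862167316137641476810755723957364603411050245925177155177232680463615156909938050023811172746516529123882466514464189972657606754448741132637740509550208177141030116209850524879346300336711658582502692898130340177202067509743795428683389138407095375695750481629828750422657860108183502713912157176410497070576548952529967714431106647143395360768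

/-- the chirotope -/
def chi (i k e : Fin 10) : SignType :=
  if (chiN >>> (2 * (100 * i.val + 10 * k.val + e.val))) % 4 = 1 then 1
  else if (chiN >>> (2 * (100 * i.val + 10 * k.val + e.val))) % 4 = 2 then -1 else 0

theorem chi_anti : ∀ i k e, chi i k e = - chi k i e := by decide +kernel
theorem chi_anti' : ∀ i k e, chi i k e = - chi i e k := by decide +kernel

end Pool.Agent.R138.Om
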