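import Pool.Agent.R138.OmSweep3

/-!
Square waves and the heights of the wires.
-/

namespace Pool.Agent.R138.Om

/-- square wave of half-period `T` -/
def Sg (T m : ℤ) : SignType :=
  if m % (2 * T) = 0 ∨ m % (2 * T) = T then 0 else if m % (2 * T) < T then 1 else -1

theorem Sg_val {T K r : ℤ} (hK : ∃ q, K = T * q) (h0 : 0 ≤ r) (h1 : r < 2 * T) :
    Sg T (r + 2 * K) = if r = 0 ∨ r = T then 0 else if r < T then 1 else -1 := by
  obtain ⟨q, rfl⟩ := hK
  have : (r + 2 * (T * q)) % (2 * T) = r := by
    rw [show r + 2 * (T * q) = r + 2 * T * q by ring, Int.add_mul_emod_self_left]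
    exact Int.emod_eq_of_lt h0 h1
  unfold Sg
  rw [this]

theorem Sg_rep {T : ℤ} (hT : 0 < T) (m : ℤ) :
    ∃ r K : ℤ, (∃ q, K = T * q) ∧ 0 ≤ r ∧ r < 2 * T ∧ m = r + 2 * K := by
  refine ⟨m % (2 * T), T * (m / (2 * T)), ⟨_, rfl⟩, Int.emod_nonneg _ (by omega),
    Int.emod_lt_of_pos _ (by omega), ?_⟩
  have := Int.emod_add_mul_ediv m (2 * T)
  linarith

theorem Sg_add {T : ℤ} {K r a : ℤ} (hK : ∃ q, K = T * q) (h0 : 0 ≤ r) (h1 : r < 2 * T)
    (h2 : 0 ≤ a) (h3 : a ≤ T) : Sg T (r + 2 * K + a) =
      if r + a = 0 ∨ r + a = T ∨ r + a = 2 * T then 0 else if r + a < T then 1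
        else if r + a < 2 * T then -1 else if r + a = 3 * T then 0 else 1 := by
  by_cases h : r + a < 2 * T
  · rw [show r + 2 * K + a = (r + a) + 2 * K by ring, Sg_val hK (by omega) h]
    split_ifs <;> first | rfl | omega
  · rw [show r + 2 * K + a = (r + a - 2 * T) + 2 * (K + T) by ring,
      Sg_val (by obtain ⟨q, rfl⟩ := hK; exact ⟨q + 1, by ring⟩) (by omega) (by omega)]
    split_ifs <;> first | rfl | omega

theorem Sg_small {T m : ℤ} (h1 : m < T) (h2 : -T < m) : Sg T m = sg m := by
  by_cases h : 0 ≤ m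
  · have := Sg_val (T := T) (K := 0) (r := m) ⟨0, by ring⟩ h (by omega)
    rw [show m + 2 * 0 = m by ring] at this
    rw [this]
    unfold sg
    split_ifs <;> first | rfl | omega
  · have := Sg_val (T := T) (K := -T) (r := m + 2 * T) ⟨-1, by ring⟩ (by omega) (by omega)
    rw [show m + 2 * T + 2 * -T = m by ring] at this
    rw [this]
    unfold sg
    split_ifs <;> first | rfl | omega

theorem Sg_per {T : ℤ} (hT : 0 < T) (m : ℤ) : Sg T (m + T) = - Sg T m := by
  obtain ⟨r, K, hK, h0, h1, rfl⟩ := Sg_rep hT m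
  rw [Sg_add hK h0 h1 hT.le le_rfl, Sg_val hK h0 h1]
  split_ifs <;> first | rfl | omega

theorem alt_Sg {T z : ℤ} (hT : 0 < T) (hT2 : Even T) (hz : Even z) :
    Alt T (fun t => Sg T (t - z)) where
  per t := by
    beta_reduce
    rw [← Sg_per hT]; congr 1; ring
  odd t ht := by
    beta_reduce
    obtain ⟨a, ha⟩ := ht
    obtain ⟨b, hb⟩ := hz
    obtain ⟨c, hc⟩ := hT2
    obtain ⟨r, K, hK, h0, h1, hm⟩ := Sg_rep hT (t - z)
    rw [hm, Sg_val hK h0 h1]
    split_ifs
    · omega
    · decide
    · decide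
  mid t1 t2 t3 h1 h2 h3 := by
    beta_reduce
    obtain ⟨r, K, hK, h4, h5, hm⟩ := Sg_rep hT (t1 - z)
    rw [hm, show t2 - z = r + 2 * K + (t2 - t1) by omega,
      show t3 - z = r + 2 * K + (t3 - t1) by omega, Sg_val hK h4 h5,
      Sg_add hK h4 h5 (by omega) (by omega), Sg_add hK h4 h5 (by omega) (by omega)]
    intro h6 h7
    have h8 : r = 0 ∨ T ≤ r := by
      by_contra hcon
      push Not at hcon
      apply h6
      rw [if_neg (by omega), if_pos (by omega)]
    have h9 : r ≠ 0 := by
      rintro rfl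
      apply h7
      rw [if_neg (by omega), if_pos (by omega)]
    have h10 : r + (t3 - t1) ≤ 2 * T := by
      by_contra hcon
      push Not at hcon
      apply h7
      rw [if_neg (by omega), if_neg (by omega), if_neg (by omega), if_neg (by omega)]
    rw [if_neg (by omega), if_neg (by omega), if_pos (by omega)]
  mid' t1 t2 t3 h1 h2 h3 := by
    beta_reduce
    obtain ⟨r, K, hK, h4, h5, hm⟩ := Sg_rep hT (t1 - z)
    rw [hm, show t2 - z = r + 2 * K + (t2 - t1) by omega,
      show t3 - z = r + 2 * K + (t3 - t1) by omega, Sg_val hK h4 h5,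
      Sg_add hK h4 h5 (by omega) (by omega), Sg_add hK h4 h5 (by omega) (by omega)]
    intro h6 h7
    have h8 : r ≤ T := by
      by_contra hcon
      push Not at hcon
      apply h6
      rw [if_neg (by omega), if_neg (by omega)]
    have h9 : r ≠ T := by
      rintro rfl
      apply h7
      rw [if_neg (by omega), if_neg (by omega), if_pos (by omega)]
    have h10 : r + (t3 - t1) ≤ T := by
      by_contra hcon
      push Not at hcon
      apply h7
      rw [if_neg (by omega), if_neg (by omega), if_pos (by omega)]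
    rw [if_neg (by omega), if_pos (by omega)]
  jump t := by
    beta_reduce
    obtain ⟨r, K, hK, h4, h5, hm⟩ := Sg_rep hT (t - z)
    rw [hm, show t + 1 - z = r + 2 * K + 1 by omega, Sg_val hK h4 h5,
      Sg_add hK h4 h5 (by omega) (by omega)]
    intro h6
    have h6 : ¬ (r = 0 ∨ r = T) := fun h => h6 (if_pos h)
    rw [if_neg h6]
    by_cases h7 : r < T
    · rw [if_pos h7]
      split_ifs <;> first | decide | omega
    · rw [if_neg h7]
      split_ifs <;> first | decide | omega

theorem Alt.neg {T : ℤ} {u : ℤ → SignType} (h : Alt T u) : Alt T (fun t => - u t) where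
  per t := by beta_reduce; rw [h.per]
  odd t ht := by
    have := h.odd t ht
    beta_reduce
    revert this
    generalize u t = a
    revert a; decide
  mid t1 t2 t3 h1 h2 h3 := by
    have := h.mid' t1 t2 t3 h1 h2 h3
    beta_reduce
    revert this
    generalize u t1 = a
    generalize u t2 = b
    generalize u t3 = c
    revert a b c; decide
  mid' t1 t2 t3 h1 h2 h3 := by
    have := h.mid t1 t2 t3 h1 h2 h3
    beta_reduce
    revert this
    generalize u t1 = a
    generalize u t2 = b
    generalize u t3 = c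
    revert a b c; decide
  jump t := by
    have := h.jump t
    beta_reduce
    revert this
    generalize u t = a
    generalize u (t + 1) = b
    revert a b; decide

theorem Alt.smul {T : ℤ} {u : ℤ → SignType} (h : Alt T u) {s : SignType} (hs : s ≠ 0) :
    Alt T (fun t => s * u t) := by
  by_cases h1 : s = 1
  · subst h1; simpa only [one_mul] using h
  · have := v2 _ hs h1
    subst this
    simpa only [neg_one_mul] using h.neg

/-- integer value of a sign -/
def si (s : SignType) : ℤ := if s = 1 then 1 else if s = -1 then -1 else 0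

theorem si_neg : ∀ s : SignType, si (-s) = - si s := by decide

/-- hyperfield sum contains zero -/
def zz (a b c : SignType) : Bool :=
  (a == 0 && b == 0 && c == 0) ||
    ((a == 1 || b == 1 || c == 1) && (a == -1 || b == -1 || c == -1))

theorem zz1 : ∀ a b : SignType, zz 1 a (-b) = true → si a ≤ si b := by decide
theorem zz2 : ∀ a b : SignType, zz 0 a (-b) = true → si a = si b := by decide
theorem zz3 : ∀ a b : SignType, zz (-1) a (-b) = true → si b ≤ si a := by decide

theorem score {E : Type*} [Fintype E] [DecidableEq E] (wire : E → Prop) [DecidablePred wire]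
    (ρ : E → E → SignType)
    (h0 : ∀ i, ρ i i = 0) (h1 : ∀ i j, wire i → wire j → ρ j i = - ρ i j)
    (h2 : ∀ i j k, wire i → wire j → wire k → zz (ρ i j) (ρ j k) (ρ k i) = true)
    (i j : E) (hi : wire i) (hj : wire j) :
    sg (2 * (∑ k ∈ Finset.univ.filter wire, si (ρ i k)) -
      2 * (∑ k ∈ Finset.univ.filter wire, si (ρ j k))) = ρ i j := by
  have key : ∀ i j, wire i → wire j → ρ i j = 1 →
      (∑ k ∈ Finset.univ.filter wire, si (ρ j k)) < ∑ k ∈ Finset.univ.filter wire, si (ρ i k) := by
    intro i j hi hj hij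
    apply Finset.sum_lt_sum
    · intro k hk
      have hk := (Finset.mem_filter.1 hk).2
      have := h2 i j k hi hj hk
      rw [hij, h1 i k hi hk] at this
      exact zz1 _ _ this
    · refine ⟨j, Finset.mem_filter.2 ⟨Finset.mem_univ _, hj⟩, ?_⟩
      rw [hij, h0]; decide
  by_cases e1 : ρ i j = 1
  · rw [e1, sg_pos]
    have := key i j hi hj e1
    omega
  · by_cases e2 : ρ i j = -1
    · rw [e2, sg_neg]
      have := key j i hj hi (by rw [h1 i j hi hj, e2, neg_neg])
      omega
    · have e3 := v1 _ e1 e2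
      rw [e3, sg_zero]
      have : (∑ k ∈ Finset.univ.filter wire, si (ρ i k)) =
          ∑ k ∈ Finset.univ.filter wire, si (ρ j k) := by
        apply Finset.sum_congr rfl
        intro k hk
        have hk := (Finset.mem_filter.1 hk).2
        have := h2 i j k hi hj hk
        rw [e3, h1 i k hi hk] at this
        exact (zz2 _ _ this).symm
      omega

/-- three square waves -/
theorem three_aux : ∀ a b p : SignType, zz a (-b) p = true → ∀ c q, zz a (-c) q = true →
    ∀ r, zz b (-c) r = true → zz p (-q) r = true → ∀ s1 s2 s3 : SignType,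
    zz s1 s2 s3 = true → zz 0 (s2 * p) (s3 * q) = true → zz (s1 * -p) 0 (s3 * r) = true →
    zz (s1 * -q) (s2 * -r) 0 = true → zz (s1 * a) (s2 * b) (s3 * c) = true := by
  decide +kernel

theorem zz_sg (a b c : ℤ) (h : a + b + c = 0) : zz (sg a) (sg b) (sg c) = true := by
  unfold sg
  split_ifs <;> first | decide | omega

theorem three {t z1 z2 z3 : ℤ} {s1 s2 s3 : SignType}
    (h0 : zz s1 s2 s3 = true)
    (h1 : zz 0 (s2 * sg (z1 - z2)) (s3 * sg (z1 - z3)) = true)
    (h2 : zz (s1 * sg (z2 - z1)) 0 (s3 * sg (z2 - z3)) = true)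
    (h3 : zz (s1 * sg (z3 - z1)) (s2 * sg (z3 - z2)) 0 = true) :
    zz (s1 * sg (t - z1)) (s2 * sg (t - z2)) (s3 * sg (t - z3)) = true := by
  rw [show z2 - z1 = -(z1 - z2) by ring, sg_opp] at h2
  rw [show z3 - z1 = -(z1 - z3) by ring, sg_opp, show z3 - z2 = -(z2 - z3) by ring, sg_opp] at h3
  refine three_aux _ _ (sg (z1 - z2)) ?_ _ (sg (z1 - z3)) ?_ (sg (z2 - z3)) ?_ ?_ _ _ _ h0 h1 h2 h3
  · rw [← sg_opp]; apply zz_sg; ring
  · rw [← sg_opp]; apply zz_sg; ring
  · rw [← sg_opp]; apply zz_sg; ring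
  · rw [← sg_opp]; apply zz_sg; ring

end Pool.Agent.R138.Om
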