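import Pool.Agent.R138.OmSweep4
import Pool.Agent.R138.OmSg

/-!
Sweep models from numerical data.
-/

namespace Pool.Agent.R138.Om

/-- sign of the difference of two naturals -/
def cs (a b : ℕ) : SignType := if b < a then 1 else if a < b then -1 else 0

theorem cs_eq (a b : ℕ) : sg ((a : ℤ) - b) = cs a b := by
  unfold sg cs
  split_ifs <;> first | rfl | omega

theorem cs_swap (a b : ℕ) : cs a b = - cs b a := by
  rw [← cs_eq, ← cs_eq, ← sg_opp]; congr 1; ring

/-- data of one sweep -/
structure SD where
  T : ℕ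
  Z : ℕ
  P : ℕ
  g : Fin 10
  f : Fin 10
  w : Fin 10

namespace SD

/-- table entry -/
def ent (d : SD) (i j : Fin 10) : ℕ := (d.Z >>> (7 * (10 * i.val + j.val))) % 128

/-- pencil elements -/
def pen (d : SD) (i : Fin 10) : Bool := Nat.ble 64 (d.ent i i)

/-- time of a pencil element -/
def tau (d : SD) (i : Fin 10) : ℕ := d.ent i i % 64

/-- crossing time -/
def z (d : SD) (i j : Fin 10) : ℕ := d.ent i j % 64

/-- sign of crossing -/
def s (d : SD) (i j : Fin 10) : SignType := if 64 ≤ d.ent i j then -1 else 1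

/-- reorientation -/
def ε (d : SD) (i : Fin 10) : SignType := if (d.P >>> i.val) % 2 = 1 then -1 else 1

/-- time of the vertex of wire `i` and element `k` -/
def tm (d : SD) (i k : Fin 10) : ℕ := if d.pen k = true then d.tau k else d.z i k

/-- entries of the vertex vector -/
def vv (d : SD) (i : Fin 10) (t : ℕ) (e : Fin 10) : SignType :=
  if e = i then 0 else if d.pen e = true then cs t (d.tau e) else d.s i e * cs t (d.z i e)

/-- the conditions on a triple of wires -/
def tri (d : SD) (i j k : Fin 10) : Prop :=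
  zz (d.s i j) (d.s j k) (d.s k i) = true ∧
  zz 0 (d.s j k * cs (d.z i j) (d.z j k)) (d.s k i * cs (d.z i j) (d.z k i)) = true ∧
  zz (d.s i j * cs (d.z j k) (d.z i j)) 0 (d.s k i * cs (d.z j k) (d.z k i)) = true ∧
  zz (d.s i j * cs (d.z k i) (d.z i j)) (d.s j k * cs (d.z k i) (d.z j k)) 0 = true

instance (d : SD) (i j k : Fin 10) : Decidable (d.tri i j k) := by unfold tri; infer_instance

/-- the checked properties, part one -/
structure OK1 (d : SD) : Prop where
  T0 : 0 < d.T
  T1 : d.T % 2 = 0
  pc : ∀ c, d.pen c = true → d.tau c % 2 = 0 ∧ d.tau c < d.T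
  wc : ∀ i, d.pen i = false → ∀ j, d.pen j = false → i ≠ j →
    d.z i j % 2 = 0 ∧ d.z i j < d.T ∧ d.z j i = d.z i j ∧ d.s j i = - d.s i j
  tc : ∀ i, d.pen i = false → ∀ j, i < j → d.pen j = false → ∀ k, j < k → d.pen k = false →
    d.tri i j k

/-- the checked properties, part two -/
structure OK2 (χ : Fin 10 → Fin 10 → Fin 10 → SignType) (d : SD) : Prop where
  pg : d.pen d.g = true
  pf : d.pen d.f = true
  gf : d.g ≠ d.f
  tgf : d.tau d.g ≠ d.tau d.f
  pw : d.pen d.w = false
  gen : ∃ j, d.pen j = false ∧ j ≠ d.w ∧ ∃ k, d.pen k = false ∧ k ≠ d.w ∧ d.z d.w j ≠ d.z d.w k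
  vert : ∀ i, d.pen i = false → ∀ k, k ≠ i →
    (∀ e, d.ε e * d.vv i (d.tm i k) e = χ i k e) ∨ (∀ e, d.ε e * d.vv i (d.tm i k) e = - χ i k e)
  pol : ∀ i, d.pen i = true → ∀ k, k ≠ i → d.pen k = true →
    (∀ e, (if d.pen e = true then 0 else d.ε e) = χ i k e) ∨
      (∀ e, (if d.pen e = true then 0 else d.ε e) = - χ i k e)

theorem s_ne (d : SD) (i j : Fin 10) : d.s i j ≠ 0 := by
  unfold s; split_ifs <;> decide

theorem ε_ne (d : SD) (i : Fin 10) : d.ε i ≠ 0 := by
  unfold ε; split_ifs <;> decide

/-- relative position of two wires -/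
def rho (d : SD) (t : ℤ) (i j : Fin 10) : SignType :=
  if i = j then 0 else d.s i j * Sg d.T (t - d.z i j)

theorem zz_p1 : ∀ a b c : SignType, zz a b c = true → zz b c a = true := by decide
theorem zz_p2 : ∀ a b c : SignType, zz a b c = true → zz (-c) (-b) (-a) = true := by decide
theorem zz_0 : ∀ a : SignType, zz 0 a (-a) = true := by decide

theorem T_pos {d : SD} (h : OK1 d) : (0 : ℤ) < d.T := by have := h.T0; omega

theorem T_even {d : SD} (h : OK1 d) : Even (d.T : ℤ) := by
  have := h.T1
  exact ⟨d.T / 2, by omega⟩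

theorem rho_anti {d : SD} (h : OK1 d) (t : ℤ) {i j : Fin 10} (hi : d.pen i = false)
    (hj : d.pen j = false) : d.rho t j i = - d.rho t i j := by
  unfold rho
  by_cases hij : i = j
  · subst hij; rw [if_pos rfl]; rfl
  · rw [if_neg (Ne.symm hij), if_neg hij]
    obtain ⟨_, _, h1, h2⟩ := h.wc i hi j hj hij
    rw [h1, h2, neg_mul]

theorem rho_per {d : SD} (h : OK1 d) (t : ℤ) (i j : Fin 10) :
    d.rho (t + d.T) i j = - d.rho t i j := by
  unfold rho
  split_ifs
  · rfl
  · rw [show t + (d.T : ℤ) - d.z i j = (t - d.z i j) + d.T by ring, Sg_per (T_pos h)]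
    exact q5 _ _

theorem rho_lt {d : SD} (h : OK1 d) {t : ℤ} (h0 : 0 ≤ t) (h1 : t < d.T) {i j : Fin 10}
    (hi : d.pen i = false) (hj : d.pen j = false) (hij : i ≠ j) :
    d.rho t i j = d.s i j * sg (t - d.z i j) := by
  obtain ⟨_, h3, _, _⟩ := h.wc i hi j hj hij
  unfold rho
  rw [if_neg hij, Sg_small (by omega) (by omega)]

theorem rho_tri {d : SD} (h : OK1 d) {t : ℤ} (h0 : 0 ≤ t) (h1 : t < d.T) {i j k : Fin 10}
    (hi : d.pen i = false) (hj : d.pen j = false) (hk : d.pen k = false) (hij : i < j)
    (hjk : j < k) : zz (d.rho t i j) (d.rho t j k) (d.rho t k i) = true := by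
  rw [rho_lt h h0 h1 hi hj hij.ne, rho_lt h h0 h1 hj hk hjk.ne,
    rho_lt h h0 h1 hk hi (hij.trans hjk).ne']
  obtain ⟨a1, a2, a3, a4⟩ := h.tc i hi j hij hj k hjk hk
  rw [← cs_eq, ← cs_eq] at a2 a3 a4
  exact three a1 a2 a3 a4

theorem rho_tri' {d : SD} (h : OK1 d) (t : ℤ) {i j k : Fin 10}
    (hi : d.pen i = false) (hj : d.pen j = false) (hk : d.pen k = false) (hij : i < j)
    (hjk : j < k) : zz (d.rho t i j) (d.rho t j k) (d.rho t k i) = true := by
  have hT := T_pos h
  have key : ∀ n : ℕ, ∀ t : ℤ, 0 ≤ t → t < d.T * (n + 1) →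
      zz (d.rho t i j) (d.rho t j k) (d.rho t k i) = true := by
    intro n
    induction n with
    | zero => intro t h0 h1; exact rho_tri h h0 (by simpa using h1) hi hj hk hij hjk
    | succ n ih =>
      intro t h0 h1
      by_cases h2 : t < d.T
      · exact rho_tri h h0 h2 hi hj hk hij hjk
      · have h3 := ih (t - d.T) (by omega) (by push_cast at h1; linarith)
        have h4 := fun a b => rho_per h (t - d.T) a b
        simp only [sub_add_cancel] at h4
        rw [h4, h4, h4]
        have := zz_p1 _ _ _ (zz_p2 _ _ _ h3)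
        revert h3
        generalize d.rho (t - d.T) i j = a
        generalize d.rho (t - d.T) j k = b
        generalize d.rho (t - d.T) k i = c
        revert a b c; decide
  have key2 : ∀ n : ℕ, ∀ t : ℤ, -(d.T * n) ≤ t →
      zz (d.rho t i j) (d.rho t j k) (d.rho t k i) = true := by
    intro n
    induction n with
    | zero =>
      intro t h0
      have h0 : 0 ≤ t := by simpa using h0
      obtain ⟨m, rfl⟩ := Int.eq_ofNat_of_zero_le h0
      apply key m _ (by omega)
      nlinarith
    | succ n ih =>
      intro t h0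
      have h3 := ih (t + d.T) (by push_cast at h0; linarith)
      rw [rho_per h, rho_per h, rho_per h] at h3
      revert h3
      generalize d.rho t i j = a
      generalize d.rho t j k = b
      generalize d.rho t k i = c
      revert a b c; decide
  rcases le_total 0 t with h0 | h0
  · exact key2 0 t (by simpa using h0)
  · obtain ⟨m, hm⟩ := Int.eq_ofNat_of_zero_le (show 0 ≤ -t by omega)
    apply key2 m
    nlinarith

theorem rho_zz {d : SD} (h : OK1 d) (t : ℤ) {i j k : Fin 10}
    (hi : d.pen i = false) (hj : d.pen j = false) (hk : d.pen k = false) :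
    zz (d.rho t i j) (d.rho t j k) (d.rho t k i) = true := by
  have hself : ∀ i, d.rho t i i = 0 := fun i => if_pos rfl
  rcases lt_trichotomy i j with h1 | h1 | h1
  · rcases lt_trichotomy j k with h2 | h2 | h2
    · exact rho_tri' h t hi hj hk h1 h2
    · subst h2
      rw [hself, rho_anti h t hi hj]
      generalize d.rho t i j = a
      revert a; decide
    · rcases lt_trichotomy i k with h3 | h3 | h3
      · have := rho_tri' h t hi hk hj h3 h2
        rw [rho_anti h t hi hj, rho_anti h t hj hk, rho_anti h t hi hk] at *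
        revert this
        generalize d.rho t i j = a
        generalize d.rho t j k = b
        generalize d.rho t i k = c
        revert a b c; decide
      · subst h3
        rw [hself, rho_anti h t hi hj]
        generalize d.rho t i j = a
        revert a; decide
      · exact zz_p1 _ _ _ (rho_tri' h t hk hi hj h3 h1)
  · subst h1
    rw [hself, rho_anti h t hi hk]
    exact zz_0 _
  · rcases lt_trichotomy j k with h2 | h2 | h2
    · rcases lt_trichotomy i k with h3 | h3 | h3
      · have := rho_tri' h t hj hi hk h1 h3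
        rw [rho_anti h t hi hj, rho_anti h t hj hk, rho_anti h t hi hk] at *
        revert this
        generalize d.rho t i j = a
        generalize d.rho t j k = b
        generalize d.rho t i k = c
        revert a b c; decide
      · subst h3
        rw [hself, rho_anti h t hi hj]
        generalize d.rho t i j = a
        revert a; decide
      · have := rho_tri' h t hj hk hi h2 h3
        exact zz_p1 _ _ _ (zz_p1 _ _ _ this)
    · subst h2
      rw [hself, rho_anti h t hi hj]
      generalize d.rho t i j = a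
      revert a; decide
    · have := rho_tri' h t hk hj hi h2 h1
      rw [rho_anti h t hi hj, rho_anti h t hj hk, rho_anti h t hi hk] at *
      revert this
      generalize d.rho t i j = a
      generalize d.rho t j k = b
      generalize d.rho t i k = c
      revert a b c; decide

/-- heights -/
def ht (d : SD) (t : ℤ) (i : Fin 10) : ℤ :=
  2 * ∑ k ∈ Finset.univ.filter (fun k => d.pen k = false), si (d.rho t i k)

theorem sg_ht {d : SD} (h : OK1 d) (t : ℤ) {i j : Fin 10} (hi : d.pen i = false)
    (hj : d.pen j = false) : sg (d.ht t i - d.ht t j) = d.rho t i j :=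
  score (fun k => d.pen k = false) (d.rho t) (fun i => if_pos rfl)
    (fun i j hi hj => rho_anti h t hi hj) (fun i j k hi hj hk => rho_zz h t hi hj hk) i j hi hj

/-- the model of the data -/
def mdl (d : SD) (h : OK1 d) : Mdl (Fin 10) where
  T := d.T
  pen := d.pen
  p := fun c t => Sg d.T (t - d.tau c)
  h := d.ht
  hT := T_pos h
  hp c hc := by
    obtain ⟨h1, _⟩ := h.pc c hc
    exact alt_Sg (T_pos h) (T_even h) ⟨(d.tau c : ℤ) / 2, by omega⟩
  hh i j hi hj hij := by
    obtain ⟨h1, _⟩ := h.wc i hi j hj hij
    have := (alt_Sg (T_pos h) (T_even h) (z := d.z i j) ⟨(d.z i j : ℤ) / 2, by omega⟩).smul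
      (d.s_ne i j)
    convert this using 1
    funext t
    rw [sg_ht h t hi hj, rho, if_neg hij]
  hanti t i := by
    unfold ht
    rw [← mul_neg, ← Finset.sum_neg_distrib]
    congr 1
    apply Finset.sum_congr rfl
    intro k _
    rw [rho_per h, si_neg]
  heven t i := by
    unfold ht
    exact even_two_mul _

end SD

end Pool.Agent.R138.Om
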