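import Pool.Agent.R138.OmData

/-!
The oriented matroid of a numerical sweep is determined by its vertices.
-/

namespace Pool.Agent.R138.Om

theorem Sg_zero {T m : ℤ} (hT : 0 < T) (h : Sg T m = 0) : ∃ q, m = T * q := by
  obtain ⟨r, K, ⟨q, rfl⟩, h0, h1, rfl⟩ := Sg_rep hT m
  rw [Sg_val ⟨q, rfl⟩ h0 h1] at h
  by_cases h2 : r = 0 ∨ r = T
  · rcases h2 with rfl | rfl
    · exact ⟨2 * q, by ring⟩
    · exact ⟨2 * q + 1, by ring⟩
  · rw [if_neg h2] at h
    split_ifs at h <;> exact absurd h (by decide)

/-- orthogonality up to sign -/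
theorem orth_pm {E : Type*} {X V W : E → SignType} (h : Orth X W)
    (hV : (∀ e, V e = W e) ∨ (∀ e, V e = - W e)) : Orth X V := by
  rcases hV with hV | hV
  · rwa [show V = W from funext hV]
  · rw [show V = fun e => - W e from funext hV]
    exact orth_neg.2 h

/-- the space orthogonal to the vertices -/
def Vset (χ : Fin 10 → Fin 10 → Fin 10 → SignType) : Set (Fin 10 → SignType) :=
  {X | ∀ i k, i ≠ k → Orth X (χ i k)}

theorem q6 : ∀ a x y : SignType, a ≠ 0 → a * x = y → x = a * y := by decide
theorem q7 : ∀ a x y : SignType, a ≠ 0 → a * x = -y → x = -(a * y) := by decide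

namespace Mdl

variable {E : Type*}

theorem cov_q (M : Mdl E) (t : ℤ) (i : E) (q : ℤ) :
    (∀ e, M.cov (t + M.T * q) (M.h (t + M.T * q) i) e = M.cov t (M.h t i) e) ∨
    (∀ e, M.cov (t + M.T * q) (M.h (t + M.T * q) i) e = - M.cov t (M.h t i) e) := by
  have step : ∀ t e, M.cov (t + M.T) (M.h (t + M.T) i) e = - M.cov t (M.h t i) e := by
    intro t e
    rw [M.hanti, M.cov_T]
  induction q using Int.induction_on with
  | zero => left; intro e; simp
  | succ n ih =>
    have : t + M.T * ((n : ℤ) + 1) = (t + M.T * n) + M.T := by ring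
    rw [this]
    rcases ih with ih | ih
    · right; intro e; rw [step, ih]
    · left; intro e; rw [step, ih, neg_neg]
  | pred n ih =>
    have h1 : ∀ e, M.cov (t + M.T * (-(n : ℤ) - 1)) (M.h (t + M.T * (-(n : ℤ) - 1)) i) e =
        - M.cov (t + M.T * (-n)) (M.h (t + M.T * (-n)) i) e := by
      intro e
      have := step (t + M.T * (-(n : ℤ) - 1)) e
      rw [show t + M.T * (-(n : ℤ) - 1) + M.T = t + M.T * (-n) by ring] at this
      rw [this, neg_neg]
    rcases ih with ih | ih
    · right; intro e; rw [h1, ih]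
    · left; intro e; rw [h1, ih, neg_neg]

end Mdl

namespace SD

variable {χ : Fin 10 → Fin 10 → Fin 10 → SignType}

theorem tm_lt {d : SD} (h1 : OK1 d) {i k : Fin 10} (hi : d.pen i = false) (hk : k ≠ i) :
    d.tm i k < d.T := by
  unfold tm
  split_ifs with h
  · exact (h1.pc k h).2
  · rw [Bool.not_eq_true] at h
    exact (h1.wc i hi k h (Ne.symm hk)).2.1

theorem vv_eq {d : SD} (h1 : OK1 d) {i : Fin 10} (hi : d.pen i = false) {t : ℕ} (ht : t < d.T)
    (e : Fin 10) : (d.mdl h1).cov t ((d.mdl h1).h t i) e = d.vv i t e := by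
  unfold vv
  split_ifs with h2 h3
  · subst h2
    rw [(d.mdl h1).cov_wire hi, sub_self]; rfl
  · rw [(d.mdl h1).cov_pen h3]
    have := (h1.pc e h3).2
    change Sg d.T ((t : ℤ) - d.tau e) = _
    rw [Sg_small (by omega) (by omega), cs_eq]
  · rw [Bool.not_eq_true] at h3
    rw [(d.mdl h1).cov_wire h3]
    change sg (d.ht t i - d.ht t e) = _
    rw [sg_ht h1 t hi h3, rho_lt h1 (by omega) (by omega) hi h3 (Ne.symm h2), cs_eq]

theorem vert' {d : SD} (h1 : OK1 d) (h2 : OK2 χ d) {i k : Fin 10} (hi : d.pen i = false)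
    (hk : k ≠ i) :
    (∀ e, χ i k e = d.ε e * (d.mdl h1).cov (d.tm i k) ((d.mdl h1).h (d.tm i k) i) e) ∨
    (∀ e, χ i k e = -(d.ε e * (d.mdl h1).cov (d.tm i k) ((d.mdl h1).h (d.tm i k) i) e)) := by
  rcases h2.vert i hi k hk with h | h
  · left; intro e
    rw [vv_eq h1 hi (tm_lt h1 hi hk), h e]
  · right; intro e
    rw [vv_eq h1 hi (tm_lt h1 hi hk), h e, neg_neg]

/-- `ε • X` -/
theorem mem_reor {d : SD} {L : Set (Fin 10 → SignType)} {X W : Fin 10 → SignType}
    (hW : W ∈ L) (hX : ∀ e, X e = d.ε e * W e) : X ∈ reor d.ε L := by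
  change (fun e => d.ε e * X e) ∈ L
  convert hW using 1
  funext e
  rw [hX e]
  exact q2 _ _ (d.ε_ne e)

theorem D_mem {d : SD} (h1 : OK1 d) (h2 : OK2 χ d) (hχ : ∀ i k e, χ i k e = - χ k i e)
    (i k : Fin 10) (hik : i ≠ k) : χ i k ∈ reor d.ε (d.mdl h1).L := by
  have hL : IsOM (reor d.ε (d.mdl h1).L) := (d.mdl h1).isOM.reor d.ε_ne
  have hneg : ∀ i k, χ i k ∈ reor d.ε (d.mdl h1).L → χ k i ∈ reor d.ε (d.mdl h1).L := by
    intro i k h
    have := hL.neg _ h
    rwa [show (fun e => - χ i k e) = χ k i from funext fun e => (hχ k i e).symm] at this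
  have hw : ∀ i k, d.pen i = false → k ≠ i → χ i k ∈ reor d.ε (d.mdl h1).L := by
    intro i k hi hk
    rcases vert' h1 h2 hi hk with h | h
    · exact mem_reor ((d.mdl h1).cov_mem _ _) h
    · refine mem_reor ((d.mdl h1).neg_mem ((d.mdl h1).cov_mem (d.tm i k)
        ((d.mdl h1).h (d.tm i k) i))) (fun e => ?_)
      rw [h e]
      exact (q5 _ _).symm
  by_cases hi : d.pen i = true
  · by_cases hk : d.pen k = true
    · have hs : ∀ e, (if d.pen e = true then 0 else d.ε e) = d.ε e * (d.mdl h1).spole 1 e := by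
        intro e
        by_cases he : d.pen e = true
        · rw [if_pos he, (d.mdl h1).spole_pen he, mul_zero]
        · rw [if_neg he, (d.mdl h1).spole_wire (by rwa [Bool.not_eq_true] at he), mul_one]
      rcases h2.pol i hi k (Ne.symm hik) hk with h | h
      · exact mem_reor ((d.mdl h1).spole_mem 1) (fun e => by rw [← h e, hs e])
      · apply hneg k i
        exact mem_reor ((d.mdl h1).spole_mem 1) (fun e => by rw [hχ k i, ← h e, hs e])
    · exact hneg _ _ (hw k i (by rwa [Bool.not_eq_true] at hk) hik)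
  · exact hw i k (by rwa [Bool.not_eq_true] at hi) (Ne.symm hik)

theorem pgf {d : SD} (h1 : OK1 d) (h2 : OK2 χ d) (t : ℤ) :
    ¬ ((d.mdl h1).p d.g t = 0 ∧ (d.mdl h1).p d.f t = 0) := by
  rintro ⟨a, b⟩
  obtain ⟨q1, h3⟩ := Sg_zero (T_pos h1) a
  obtain ⟨q2, h4⟩ := Sg_zero (T_pos h1) b
  have h5 := (h1.pc _ h2.pg).2
  have h6 := (h1.pc _ h2.pf).2
  have h7 := h2.tgf
  have h8 : (d.T : ℤ) * (q1 - q2) = d.tau d.f - d.tau d.g := by
    rw [mul_sub, ← h3, ← h4]; ring
  have hT := T_pos h1
  have h9 : q1 - q2 = 0 := by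
    by_contra hne
    rcases lt_or_gt_of_ne hne with hlt | hgt
    · have : (d.T : ℤ) * (q1 - q2) ≤ d.T * (-1) := by
        apply mul_le_mul_of_nonneg_left _ hT.le; omega
      omega
    · have : (d.T : ℤ) * 1 ≤ d.T * (q1 - q2) := by
        apply mul_le_mul_of_nonneg_left _ hT.le; omega
      omega
  rw [h9, mul_zero] at h8
  omega

theorem pgen {d : SD} (h1 : OK1 d) (h2 : OK2 χ d) (t : ℤ) :
    ∃ i j, (d.mdl h1).pen i = false ∧ (d.mdl h1).pen j = false ∧
      (d.mdl h1).h t i ≠ (d.mdl h1).h t j := by
  obtain ⟨j, hj, hjw, k, hk, hkw, hjk⟩ := h2.gen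
  have hw := h2.pw
  by_contra hcon
  push Not at hcon
  have a1 := hcon _ _ hw hj
  have a2 := hcon _ _ hw hk
  have key : ∀ j, d.pen j = false → j ≠ d.w → d.ht t d.w = d.ht t j →
      ∃ q, t - (d.z d.w j : ℤ) = d.T * q := by
    intro j hj hjw h
    have h3 := sg_ht h1 t hw hj
    rw [h, sub_self, rho, if_neg (Ne.symm hjw)] at h3
    exact Sg_zero (T_pos h1) (q1 _ _ (d.s_ne _ _) h3.symm)
  obtain ⟨q1, h3⟩ := key j hj hjw a1
  obtain ⟨q2, h4⟩ := key k hk hkw a2
  have h5 := (h1.wc _ hw _ hj (Ne.symm hjw)).2.1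
  have h6 := (h1.wc _ hw _ hk (Ne.symm hkw)).2.1
  have h8 : (d.T : ℤ) * (q1 - q2) = d.z d.w k - d.z d.w j := by
    rw [mul_sub, ← h3, ← h4]; ring
  have hT := T_pos h1
  have h9 : q1 - q2 = 0 := by
    by_contra hne
    rcases lt_or_gt_of_ne hne with hlt | hgt
    · have : (d.T : ℤ) * (q1 - q2) ≤ d.T * (-1) := by
        apply mul_le_mul_of_nonneg_left _ hT.le; omega
      omega
    · have : (d.T : ℤ) * 1 ≤ d.T * (q1 - q2) := by
        apply mul_le_mul_of_nonneg_left _ hT.le; omega
      omega
  rw [h9, mul_zero] at h8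
  omega

theorem dual_eq {d : SD} (h1 : OK1 d) (h2 : OK2 χ d) (hχ : ∀ i k e, χ i k e = - χ k i e) :
    dual (reor d.ε (d.mdl h1).L) = Vset χ := by
  have hL : IsOM (reor d.ε (d.mdl h1).L) := (d.mdl h1).isOM.reor d.ε_ne
  ext X
  constructor
  · intro hX i k hik
    exact hX _ (D_mem h1 h2 hχ i k hik)
  · intro hX
    apply mem_dual_of_min hL
    intro V hV
    have hVm : (fun e => d.ε e * V e) ∈ (d.mdl h1).L := hV.1
    have hV0 : ∀ e, d.ε e * V e = 0 → V e = 0 := fun e h => q1 _ _ (d.ε_ne e) h
    rcases hVm with ⟨s, hs⟩ | ⟨t, x, hs⟩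
    · -- the pole
      have hs' : ∀ e, d.ε e * V e = (d.mdl h1).spole s e := fun e => congrFun hs e
      have hpol : (∀ e, V e = χ d.g d.f e) ∨ (∀ e, V e = - χ d.g d.f e) := by
        have hs0 : s ≠ 0 := by
          rintro rfl
          obtain ⟨e, he⟩ := hV.2.1
          apply he
          apply hV0
          rw [hs' e]
          unfold Mdl.spole; split_ifs <;> rfl
        have hval : ∀ e, V e = if d.pen e = true then 0 else d.ε e * s := by
          intro e
          by_cases he : d.pen e = true
          · rw [if_pos he]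
            apply hV0
            rw [hs' e, (d.mdl h1).spole_pen he]
          · rw [if_neg he]
            apply q6 _ _ _ (d.ε_ne e)
            rw [hs' e, (d.mdl h1).spole_wire (by rwa [Bool.not_eq_true] at he)]
        have hval1 : s = 1 → ∀ e, V e = if d.pen e = true then 0 else d.ε e := by
          rintro rfl e
          rw [hval e, mul_one]
        have hval2 : s = -1 → ∀ e, V e = - if d.pen e = true then 0 else d.ε e := by
          rintro rfl e
          rw [hval e]
          split_ifs
          · rfl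
          · exact mul_neg_one _
        rcases h2.pol d.g h2.pg d.f (Ne.symm h2.gf) h2.pf with h | h
        · by_cases h3 : s = 1
          · left; intro e; rw [hval1 h3, h e]
          · right; intro e; rw [hval2 (v2 _ hs0 h3), h e]
        · by_cases h3 : s = 1
          · right; intro e; rw [hval1 h3, h e]
          · left; intro e; rw [hval2 (v2 _ hs0 h3), h e, neg_neg]
      exact orth_pm (hX _ _ h2.gf) hpol
    · have hs' : ∀ e, d.ε e * V e = (d.mdl h1).cov t x e := fun e => congrFun hs e
      -- vertices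
      have hvertex : ∀ i k : Fin 10, d.pen i = false → k ≠ i → x = (d.mdl h1).h t i →
          (∃ q : ℤ, t = (d.tm i k : ℤ) + d.T * q) → Orth X V := by
        rintro i k hi hk rfl ⟨q, hq⟩
        have hc := (d.mdl h1).cov_q (d.tm i k) i q
        change (∀ e, (d.mdl h1).cov ((d.tm i k : ℤ) + (d.T : ℤ) * q) ((d.mdl h1).h ((d.tm i k : ℤ) + (d.T : ℤ) * q) i) e = _) ∨
          (∀ e, (d.mdl h1).cov ((d.tm i k : ℤ) + (d.T : ℤ) * q) ((d.mdl h1).h ((d.tm i k : ℤ) + (d.T : ℤ) * q) i) e = _) at hc
        rw [← hq] at hc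
        refine orth_pm (hX i k (Ne.symm hk)) ?_
        rcases hc with hc | hc <;> rcases vert' h1 h2 hi hk with h | h
        · left; intro e
          rw [h e]
          exact q6 _ _ _ (d.ε_ne e) (by rw [hs' e, hc e])
        · right; intro e
          rw [h e, neg_neg]
          exact q6 _ _ _ (d.ε_ne e) (by rw [hs' e, hc e])
        · right; intro e
          rw [h e]
          exact q7 _ _ _ (d.ε_ne e) (by rw [hs' e, hc e])
        · left; intro e
          rw [h e]
          exact q7 _ _ _ (d.ε_ne e) (by rw [hs' e, hc e])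
      by_cases hx : ∃ i, d.pen i = false ∧ x = (d.mdl h1).h t i
      · obtain ⟨i, hi, hxi⟩ := hx
        by_cases hc : ∃ c, d.pen c = true ∧ (d.mdl h1).p c t = 0
        · obtain ⟨c, hc, hc0⟩ := hc
          obtain ⟨q, hq⟩ := Sg_zero (T_pos h1) hc0
          refine hvertex i c hi (by rintro rfl; rw [hi] at hc; exact absurd hc (by decide)) hxi
            ⟨q, ?_⟩
          rw [tm, if_pos hc]; omega
        · by_cases hj : ∃ j, d.pen j = false ∧ j ≠ i ∧ (d.mdl h1).h t i = (d.mdl h1).h t j
          · obtain ⟨j, hj, hji, hij⟩ := hj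
            have h3 := sg_ht h1 t hi hj
            have hij' : d.ht t i = d.ht t j := hij
            rw [hij', sub_self, rho, if_neg (Ne.symm hji)] at h3
            obtain ⟨q, hq⟩ := Sg_zero (T_pos h1) (q1 _ _ (d.s_ne _ _) h3.symm)
            refine hvertex i j hi hji hxi ⟨q, ?_⟩
            rw [tm, if_neg (by rw [hj]; decide)]; omega
          · exfalso
            -- not minimal
            obtain ⟨t0, _, _, ht0⟩ := ((d.mdl h1).hp d.g h2.pg).ivt (t1 := 1) (t2 := 1 + d.T)
              (by have := T_pos h1; omega) (((d.mdl h1).hp d.g h2.pg).odd 1 odd_one)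
              (((d.mdl h1).hp d.g h2.pg).per 1)
            set P : Fin 10 → SignType := fun e =>
              d.ε e * (d.mdl h1).cov t0 ((d.mdl h1).h t0 i) e with hP
            have hPm : P ∈ reor d.ε (d.mdl h1).L :=
              mem_reor ((d.mdl h1).cov_mem _ _) (fun e => rfl)
            have hsupp : ∀ e, V e = 0 → P e = 0 := by
              intro e he
              have h3 := hs' e
              rw [he, mul_zero] at h3
              by_cases hep : d.pen e = true
              · rw [(d.mdl h1).cov_pen hep] at h3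
                exact absurd ⟨e, hep, h3.symm⟩ hc
              · rw [Bool.not_eq_true] at hep
                rw [(d.mdl h1).cov_wire hep] at h3
                have h4 := sg_zero.1 h3.symm
                by_cases hei : e = i
                · subst hei
                  rw [hP]; beta_reduce
                  rw [(d.mdl h1).cov_wire hep, sub_self]
                  exact mul_zero _
                · exact absurd ⟨e, hep, hei, by omega⟩ hj
            have hPg : P d.g = 0 := by
              rw [hP]; beta_reduce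
              rw [(d.mdl h1).cov_pen h2.pg, ht0, mul_zero]
            have hPf : P d.f ≠ 0 := by
              rw [hP]; beta_reduce
              rw [(d.mdl h1).cov_pen h2.pf]
              exact mul_ne_zero (d.ε_ne _) (fun h => pgf h1 h2 t0 ⟨ht0, h⟩)
            have hVg : V d.g = 0 := by
              rcases hV.unique hL hPm hsupp with h | h | h
              · exact absurd (h d.f) hPf
              · rw [← h]; exact hPg
              · have := congrFun h d.g
                rw [hPg] at this
                revert this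
                generalize V d.g = a
                revert a; decide
            have h3 := hs' d.g
            rw [hVg, mul_zero, (d.mdl h1).cov_pen h2.pg] at h3
            exact hc ⟨d.g, h2.pg, h3.symm⟩
      · exfalso
        set P : Fin 10 → SignType := fun e => d.ε e * (d.mdl h1).spole 1 e with hP
        have hPm : P ∈ reor d.ε (d.mdl h1).L :=
          mem_reor ((d.mdl h1).spole_mem 1) (fun e => rfl)
        have hsupp : ∀ e, V e = 0 → P e = 0 := by
          intro e he
          by_cases hep : d.pen e = true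
          · rw [hP]; beta_reduce
            rw [(d.mdl h1).spole_pen hep, mul_zero]
          · rw [Bool.not_eq_true] at hep
            have h3 := hs' e
            rw [he, mul_zero, (d.mdl h1).cov_wire hep] at h3
            exact absurd ⟨e, hep, by have := sg_zero.1 h3.symm; omega⟩ hx
        have hPw : P d.w ≠ 0 := by
          rw [hP]; beta_reduce
          rw [(d.mdl h1).spole_wire h2.pw, mul_one]
          exact d.ε_ne _
        have hVp : ∀ c, d.pen c = true → V c = 0 := by
          intro c hc
          have hPc : P c = 0 := by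
            rw [hP]; beta_reduce
            rw [(d.mdl h1).spole_pen hc, mul_zero]
          rcases hV.unique hL hPm hsupp with h | h | h
          · exact absurd (h d.w) hPw
          · rw [← h]; exact hPc
          · have := congrFun h c
            rw [hPc] at this
            revert this
            generalize V c = a
            revert a; decide
        apply pgf h1 h2 t
        constructor
        · have h3 := hs' d.g
          rw [hVp _ h2.pg, mul_zero, (d.mdl h1).cov_pen h2.pg] at h3
          exact h3.symm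
        · have h3 := hs' d.f
          rw [hVp _ h2.pf, mul_zero, (d.mdl h1).cov_pen h2.pf] at h3
          exact h3.symm

theorem isOM_V {d : SD} (h1 : OK1 d) (h2 : OK2 χ d) (hχ : ∀ i k e, χ i k e = - χ k i e) :
    IsOM (Vset χ) := by
  rw [← dual_eq h1 h2 hχ]
  exact ((d.mdl h1).isOM.reor d.ε_ne).dual

theorem isOM_D {d : SD} (h1 : OK1 d) : IsOM (reor d.ε (d.mdl h1).L) :=
  (d.mdl h1).isOM.reor d.ε_ne

/-- the extension for the pair of the sweep -/
theorem ext_V {d : SD} (h1 : OK1 d) (h2 : OK2 χ d) (hχ : ∀ i k e, χ i k e = - χ k i e)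
    {Y : Fin 10 → SignType} (hY : IsMin (Vset χ) Y) (hYg : Y d.g ≠ 0) (hYf : Y d.f ≠ 0) :
    ∃ N : Set (Option (Fin 10) → SignType), IsOM N ∧
      (∀ X : Fin 10 → SignType, X ∈ Vset χ ↔ ∃ X' ∈ N, ∀ e, X' (some e) = X e) ∧
      (∃ X ∈ N, X none ≠ 0) ∧ (∀ X ∈ N, X (some d.g) = 0 → X (some d.f) = 0 → X none = 0) ∧
      (fun o => Option.elim o 0 Y) ∈ N := by
  have h3 := dual_eq h1 h2 hχ
  rw [← h3] at hY ⊢
  exact (d.mdl h1).euclid d.ε_ne h2.gf h2.pg h2.pf (pgf h1 h2) h2.pw (pgen h1 h2) hY hYg hYf

end SD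

end Pool.Agent.R138.Om
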