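import Pool.Agent.R138.OmTab

/-!
Finite facts about the oriented matroid `Vset chi`.
-/

namespace Pool.Agent.R138.Om

/-- packed positive masks -/
def PMN : ℕ := 2596807825015290267950095009397696595784088100649459253572343638571966951620683795137367094155554011528225402898767165774657382246237086097071272464727396651923459253459112515490178464254403945261148329008333269631291141674683617251393968237182992698518764905019237807073721152169325189240663830528

/-- packed negative masks -/
def NMN : ℕ := 12787678024566065319140460836853078416312780229879850731707523460542601997413510178706871744588638188357074304235554569153291806012123123306558830129599061174817236949548651906986606347884199456116330514661037362867886371180221698988831551178996607583106155602359518542978065756786926321278124032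

/-- packed list of topes -/
def TMN : ℕ := 3283445129553875561847920464483830399598080648175675501765771886622380864848898118460117209757999050640673552239539302663248405560418111265343954431480054911699416651701510552912642164969686000325339638700449986151784185619150817250100437893477364888604405391327751341709404981577941942107035186365548410144

def pm (i k : Fin 10) : ℕ := (PMN >>> (10 * (10 * i.val + k.val))) % 1024
def nm (i k : Fin 10) : ℕ := (NMN >>> (10 * (10 * i.val + k.val))) % 1024

/-- the mask of the elements with `X e = s` -/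
def msk (s : SignType) (X : Fin 10 → SignType) : ℕ := Nat.ofBits (fun e => decide (X e = s))

theorem msk_bit (s : SignType) (X : Fin 10 → SignType) (e : Fin 10) :
    (msk s X).testBit e.val = decide (X e = s) := by
  unfold msk
  rw [Nat.testBit_ofBits_lt _ _ e.isLt]

theorem msk_bit_ge (s : SignType) (X : Fin 10 → SignType) {i : ℕ} (h : 10 ≤ i) :
    (msk s X).testBit i = false := by
  unfold msk
  rw [Nat.testBit_ofBits_ge _ _ h]

theorem msk_lt (s : SignType) (X : Fin 10 → SignType) : msk s X < 1024 :=
  Nat.ofBits_lt_two_pow _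

theorem pm_eq : ∀ i k : Fin 10, msk 1 (chi i k) = pm i k := by decide +kernel
theorem nm_eq : ∀ i k : Fin 10, msk (-1) (chi i k) = nm i k := by decide +kernel

theorem exists_bit (X Y : Fin 10 → SignType) (s s' : SignType) :
    (∃ e, X e = s ∧ Y e = s') ↔ msk s X &&& msk s' Y ≠ 0 := by
  constructor
  · rintro ⟨e, h1, h2⟩ h
    have := congrArg (fun n => n.testBit e.val) h
    simp only [Nat.testBit_and, msk_bit, h1, h2, Nat.zero_testBit] at this
    simp at this
  · intro h
    by_contra hcon
    push Not at hcon
    apply h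
    apply Nat.zero_of_testBit_eq_false
    intro i
    rw [Nat.testBit_and]
    by_cases hi : i < 10
    · have h1 := msk_bit s X ⟨i, hi⟩
      have h2 := msk_bit s' Y ⟨i, hi⟩
      change (msk s X).testBit i = _ at h1
      change (msk s' Y).testBit i = _ at h2
      rw [h1, h2]
      by_cases h3 : X ⟨i, hi⟩ = s
      · simp [hcon _ h3]
      · simp [h3]
    · rw [msk_bit_ge _ _ (by omega)]; rfl

/-- the orthogonality test -/
def ob (p m P M : ℕ) : Bool :=
  (((p &&& P) == 0) && ((m &&& M) == 0)) == (((p &&& M) == 0) && ((m &&& P) == 0))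

theorem prod_one : ∀ a b : SignType, a * b = 1 ↔ (a = 1 ∧ b = 1) ∨ (a = -1 ∧ b = -1) := by decide
theorem prod_neg : ∀ a b : SignType, a * b = -1 ↔ (a = 1 ∧ b = -1) ∨ (a = -1 ∧ b = 1) := by decide

theorem orth_iff (X Y : Fin 10 → SignType) :
    Orth X Y ↔ ob (msk 1 X) (msk (-1) X) (msk 1 Y) (msk (-1) Y) = true := by
  unfold Orth ob
  simp only [prod_one, prod_neg, exists_or, exists_bit]
  generalize msk 1 X &&& msk 1 Y = a
  generalize msk (-1) X &&& msk (-1) Y = b
  generalize msk 1 X &&& msk (-1) Y = c
  generalize msk (-1) X &&& msk 1 Y = d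
  rw [beq_iff_eq, Bool.eq_iff_iff]
  simp only [Bool.and_eq_true, beq_iff_eq]
  tauto

/-- the membership test -/
def inB (p m : ℕ) : Bool :=
  decide (∀ i k : Fin 10, i < k → ob p m (pm i k) (nm i k) = true)

theorem mem_iff (X : Fin 10 → SignType) :
    X ∈ Vset chi ↔ inB (msk 1 X) (msk (-1) X) = true := by
  unfold inB
  rw [decide_eq_true_eq]
  constructor
  · intro h i k hik
    have := (orth_iff _ _).1 (h i k hik.ne)
    rwa [pm_eq, nm_eq] at this
  · intro h i k hik
    rcases lt_or_gt_of_ne hik with h1 | h1
    · rw [orth_iff, pm_eq, nm_eq]; exact h i k h1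
    · have h2 : Orth X (chi k i) := by
        rw [orth_iff, pm_eq, nm_eq]; exact h k i h1
      rw [show chi i k = fun e => - chi k i e from funext fun e => chi_anti i k e]
      exact orth_neg.2 h2

/-- the vector with given masks -/
def sv (p m : ℕ) : Fin 10 → SignType := fun e =>
  if p.testBit e.val = true then 1 else if m.testBit e.val = true then -1 else 0

theorem isOM_chi : IsOM (Vset chi) := SD.isOM_V ok1_0_1 ok2_0_1 chi_anti

theorem chi_self : ∀ a b : Fin 10, chi a b a = 0 ∧ chi a b b = 0 := by decide +kernel

theorem chi_basis : ∀ a b : Fin 10, a ≠ b → ∃ e, chi a b e ≠ 0 := by decide +kernel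

/-- a vector of `Vset chi` cannot meet a cocircuit in one element -/
theorem no_single {X : Fin 10 → SignType} (hX : X ∈ Vset chi) {a b : Fin 10} (hab : a ≠ b)
    {e : Fin 10} (h : ∀ f, f ≠ e → X f ≠ 0 → chi a b f = 0) (he : chi a b e ≠ 0) : X e = 0 := by
  by_contra hXe
  have ho := hX a b hab
  have hall : ∀ f, f ≠ e → X f * chi a b f = 0 := by
    intro f hf
    by_cases h0 : X f = 0
    · rw [h0, zero_mul]
    · rw [h f hf h0, mul_zero]
  have key : ∀ v : SignType, v ≠ 0 → ((∃ f, X f * chi a b f = v) ↔ X e * chi a b e = v) := by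
    intro v hv
    constructor
    · rintro ⟨f, hf⟩
      by_cases hfe : f = e
      · rw [← hfe]; exact hf
      · rw [hall f hfe] at hf
        exact absurd hf.symm hv
    · intro h; exact ⟨e, h⟩
  unfold Orth at ho
  rw [key 1 (by decide), key (-1) (by decide)] at ho
  have := mul_ne_zero hXe he
  revert ho this
  generalize X e * chi a b e = v
  revert v; decide

/-- circuits with uniform support are cocircuits of `Vset chi` -/
theorem isMin_of (X : Fin 10 → SignType) (hX : X ∈ Vset chi) (h0 : ∃ e, X e ≠ 0)
    (h : ∀ a, X a ≠ 0 → ∀ b, X b ≠ 0 → b ≠ a → ∃ c d, c ≠ d ∧ chi c d b ≠ 0 ∧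
      ∀ f, X f ≠ 0 → f ≠ a → f ≠ b → chi c d f = 0) : IsMin (Vset chi) X := by
  refine ⟨hX, h0, ?_⟩
  rintro Z hZ ⟨b, hb⟩ hs a ha
  by_contra hXa
  have hXb : X b ≠ 0 := fun h => hb (hs b h)
  have hba : b ≠ a := by rintro rfl; exact hb ha
  obtain ⟨c, d, hcd, hne, hf⟩ := h a hXa b hXb hba
  apply hb
  refine no_single hZ hcd (fun f hfb hZf => ?_) hne
  exact hf f (fun h => hZf (hs f h)) (by rintro rfl; exact hZf ha) hfb

theorem tope_check : ∀ a b : Fin 32, TMN.testBit (32 * a.val + b.val) =
    inB (32 * a.val + b.val) (1023 ^^^ (32 * a.val + b.val)) := by decide +kernel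

theorem tope_check' {x : ℕ} (hx : x < 1024) : TMN.testBit x = inB x (1023 ^^^ x) := by
  have := tope_check ⟨x / 32, by omega⟩ ⟨x % 32, by omega⟩
  rw [show 32 * (x / 32) + x % 32 = x by omega] at this
  exact this

/-- the walls of a tope, by masks -/
def wl (x : ℕ) : Finset (Fin 10) := Finset.univ.filter (fun e => TMN.testBit (x ^^^ 2 ^ e.val) = true)

theorem mut_check : ∀ a b : Fin 32, TMN.testBit (32 * a.val + b.val) = true →
    (0 : Fin 10) ∈ wl (32 * a.val + b.val) → (wl (32 * a.val + b.val)).card = 7 →
    32 * a.val + b.val ∈ [59, 267, 289, 447, 505, 937] ∨ 1023 ^^^ (32 * a.val + b.val) ∈ [59, 267, 289, 447, 505, 937] := by decide +kernel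

theorem mut_check' {x : ℕ} (hx : x < 1024) (h1 : TMN.testBit x = true) (h2 : (0 : Fin 10) ∈ wl x)
    (h3 : (wl x).card = 7) : x ∈ [59, 267, 289, 447, 505, 937] ∨ 1023 ^^^ x ∈ [59, 267, 289, 447, 505, 937] := by
  have := mut_check ⟨x / 32, by omega⟩ ⟨x % 32, by omega⟩
  rw [show 32 * (x / 32) + x % 32 = x by omega] at this
  exact this h1 h2 h3

end Pool.Agent.R138.Om
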