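import Pool.Agent.R138.OmStar

/-!
Extensions of the dual from line-type extensions of the primal.
-/

namespace Pool.Agent.R138.Om

set_option linter.unusedSectionVars false

variable {E : Type*}

theorem exists_split (g f : E) (hgf : g ≠ f) (p : E → Prop) :
    (∃ e, p e) ↔ (p g ∨ p f ∨ ∃ e, e ≠ g ∧ e ≠ f ∧ p e) := by
  constructor
  · rintro ⟨e, he⟩
    by_cases h1 : e = g
    · left; rw [← h1]; exact he
    · by_cases h2 : e = f
      · right; left; rw [← h2]; exact he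
      · exact Or.inr (Or.inr ⟨e, h1, h2, he⟩)
  · rintro (h | h | ⟨e, _, _, h⟩)
    · exact ⟨g, h⟩
    · exact ⟨f, h⟩
    · exact ⟨e, h⟩

theorem orth_split (g f : E) (hgf : g ≠ f) (X U : E → SignType) : Orth X U ↔
    ((X g * U g = 1 ∨ X f * U f = 1 ∨ ∃ e, e ≠ g ∧ e ≠ f ∧ X e * U e = 1) ↔
      (X g * U g = -1 ∨ X f * U f = -1 ∨ ∃ e, e ≠ g ∧ e ≠ f ∧ X e * U e = -1)) := by
  unfold Orth
  rw [exists_split g f hgf (fun e => X e * U e = 1), exists_split g f hgf (fun e => X e * U e = -1)]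

theorem orth_opt (g f : E) (hgf : g ≠ f) (X U : Option E → SignType) : Orth X U ↔
    ((X none * U none = 1 ∨ X (some g) * U (some g) = 1 ∨ X (some f) * U (some f) = 1 ∨
        ∃ e, e ≠ g ∧ e ≠ f ∧ X (some e) * U (some e) = 1) ↔
      (X none * U none = -1 ∨ X (some g) * U (some g) = -1 ∨ X (some f) * U (some f) = -1 ∨
        ∃ e, e ≠ g ∧ e ≠ f ∧ X (some e) * U (some e) = -1)) := by
  unfold Orth
  rw [Option.exists, Option.exists, exists_split g f hgf (fun e => X (some e) * U (some e) = 1),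
    exists_split g f hgf (fun e => X (some e) * U (some e) = -1)]

theorem orth_some {X U : Option E → SignType} (h : X none * U none = 0) :
    Orth X U ↔ Orth (fun e => X (some e)) (fun e => U (some e)) := by
  unfold Orth
  rw [Option.exists, Option.exists, h]
  have h1 : (0 : SignType) ≠ 1 := by decide
  have h2 : (0 : SignType) ≠ -1 := by decide
  simp only [h1, h2, false_or]

theorem z3_iff (a b c : SignType) : z3 a b c = true ↔
    ((a = 1 ∨ b = 1 ∨ c = 1) ↔ (a = -1 ∨ b = -1 ∨ c = -1)) := by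
  revert a b c; decide

theorem R_iff (a b c x y t : SignType) : R a b c x y t = true ↔
    (z3 a b (-c) = true ∧ z3 a t (-x) = true ∧ z3 b (-t) (-y) = true ∧ z3 x y (-c) = true) := by
  unfold R
  simp only [Bool.and_eq_true]
  tauto

theorem l1 : ∀ a b c x y : SignType, R a b c x y 0 = true → x = a ∧ y = b := by decide
theorem l2 : ∀ a b c : SignType, z3 a b (-c) = true → R a b c a b 0 = true := by decide
theorem l3 : ∀ a b c : SignType, R a b c 0 0 1 = true → a ≠ 0 := by decide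
theorem l4 : R 0 0 0 1 (-1) 1 = true := by decide
theorem l5 : ∀ a : SignType, a * 1 = a := by decide

theorem exists_two {L : Set (E → SignType)} [Finite E] (hL : IsOM L) {g f : E}
    (hgf : g ≠ f) {Y : E → SignType} (hY : IsMin (dual L) Y) (hYg : Y g ≠ 0) (hYf : Y f ≠ 0)
    {Ls : Set (Option E → SignType)} (hLs : IsOM Ls)
    (hdel : ∀ W : E → SignType, W ∈ L ↔ ∃ W' ∈ Ls, ∀ e, W' (some e) = W e)
    (hloop : ∃ W ∈ Ls, W none ≠ 0)
    (hc1 : ∀ W ∈ Ls, W (some g) = 0 → W (some f) = 0 → W none = 0)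
    (hc2 : ∀ W ∈ Ls, (∀ e, e ≠ g → e ≠ f → Y e ≠ 0 → W (some e) = 0) → W none = 0) :
    ∃ γ : SignType, γ ≠ 0 ∧ (∃ U ∈ dual Ls, U (some g) = Y g ∧ U (some f) = Y f ∧ U none = -γ ∧
      ∀ e, e ≠ g → e ≠ f → U (some e) = 0) ∧
      ∃ U ∈ dual Ls, U (some g) = 0 ∧ U (some f) = 0 ∧ U none = γ ∧
      ∀ e, e ≠ g → e ≠ f → U (some e) = Y e := by
  classical
  set σ : Option E → SignType := fun o => if o = none then 1 else 0 with hσ
  have hσn : σ none = 1 := by rw [hσ]; simp
  have hσs : ∀ e, σ (some e) = 0 := by intro e; rw [hσ]; simp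
  have h10 : (1 : SignType) ≠ 0 := by decide
  obtain ⟨Z1, hZ1, hZ1n, hZ1o⟩ := farkas hLs σ {some g, some f} (by
      rintro o (rfl | rfl)
      · exact hσs g
      · exact hσs f) none (by rw [hσn]; exact h10) (by
      rintro ⟨W, hW, hWn, _, hWS⟩
      have := hc1 W hW (hWS _ (by simp)) (hWS _ (by simp))
      rw [this, hσn] at hWn
      exact h10 hWn.symm)
  obtain ⟨Z2, hZ2, hZ2n, hZ2o⟩ := farkas hLs σ {o | ∃ e, o = some e ∧ e ≠ g ∧ e ≠ f ∧ Y e ≠ 0} (by
      rintro o ⟨e, rfl, _⟩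
      exact hσs e) none (by rw [hσn]; exact h10) (by
      rintro ⟨W, hW, hWn, _, hWS⟩
      have := hc2 W hW (fun e h1 h2 h3 => hWS _ ⟨e, rfl, h1, h2, h3⟩)
      rw [this, hσn] at hWn
      exact h10 hWn.symm)
  rw [hσn] at hZ1n hZ2n
  have hZ1e : ∀ e, e ≠ g → e ≠ f → Z1 (some e) = 0 := by
    intro e h1 h2
    rcases hZ1o (some e) (by simp [h1, h2]) with h | h
    · exact h
    · rw [h, hσs]
  have hZ2e : ∀ e, (e = g ∨ e = f ∨ Y e = 0) → Z2 (some e) = 0 := by
    intro e he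
    rcases hZ2o (some e) (by
      rintro ⟨e', h1, h2, h3, h4⟩
      rw [Option.some.injEq] at h1
      subst h1
      rcases he with h | h | h
      · exact h2 h
      · exact h3 h
      · exact h4 h) with h | h
    · exact h
    · rw [h, hσs]
  have hD := hLs.dual
  have hsep : Sep Z1 (fun o => - Z2 o) none := by
    refine ⟨by rw [hZ1n]; exact h10, ?_⟩
    beta_reduce
    rw [hZ1n, hZ2n]; decide
  obtain ⟨Z3, hZ3, hZ3n, hZ3o⟩ := hD.elim Z1 hZ1 _ (hD.neg Z2 hZ2) none hsep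
  have h00 : -(0 : SignType) = 0 := by decide
  have hZ3g : Z3 (some g) = Z1 (some g) := by
    have h0 : Z2 (some g) = 0 := hZ2e g (Or.inl rfl)
    rw [hZ3o (some g) (by
      rintro ⟨h1, h2⟩
      beta_reduce at h2
      rw [h0] at h2
      exact h1 (by rw [h2]; decide)), comp]
    split_ifs with h
    · rw [h, h0]; decide
    · rfl
  have hZ3f : Z3 (some f) = Z1 (some f) := by
    have h0 : Z2 (some f) = 0 := hZ2e f (Or.inr (Or.inl rfl))
    rw [hZ3o (some f) (by
      rintro ⟨h1, h2⟩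
      beta_reduce at h2
      rw [h0] at h2
      exact h1 (by rw [h2]; decide)), comp]
    split_ifs with h
    · rw [h, h0]; decide
    · rfl
  have hZ3e : ∀ e, e ≠ g → e ≠ f → Z3 (some e) = - Z2 (some e) := by
    intro e h1 h2
    rw [hZ3o (some e) (fun h => h.1 (hZ1e e h1 h2)), comp, if_pos (hZ1e e h1 h2)]
  -- restriction of Z3
  have hrest : (fun e => Z3 (some e)) ∈ dual L := by
    intro W hW
    obtain ⟨W', hW', hWe⟩ := (hdel W).1 hW
    have h1 := hZ3 W' hW'
    rw [orth_some (by rw [hZ3n, zero_mul])] at h1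
    simp only [hWe] at h1
    exact h1
  have hsupp : ∀ e, Y e = 0 → Z3 (some e) = 0 := by
    intro e he
    have h1 : e ≠ g := fun h => hYg (h ▸ he)
    have h2 : e ≠ f := fun h => hYf (h ▸ he)
    rw [hZ3e e h1 h2, hZ2e e (Or.inr (Or.inr he))]; decide
  rcases hY.unique hL.dual hrest hsupp with h | h | h
  · exfalso
    obtain ⟨W, hW, hWn⟩ := hloop
    have hZ1all : ∀ e, Z1 (some e) = 0 := by
      intro e
      by_cases h1 : e = g
      · rw [h1, ← hZ3g]; exact h g
      · by_cases h2 : e = f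
        · rw [h2, ← hZ3f]; exact h f
        · exact hZ1e e h1 h2
    have ho := hZ1 W hW
    unfold Orth at ho
    rw [Option.exists, Option.exists] at ho
    have e1 : ¬ ∃ x, Z1 (some x) * W (some x) = 1 := by
      rintro ⟨x, hx⟩
      rw [hZ1all, zero_mul] at hx
      revert hx; decide
    have e2 : ¬ ∃ x, Z1 (some x) * W (some x) = -1 := by
      rintro ⟨x, hx⟩
      rw [hZ1all, zero_mul] at hx
      revert hx; decide
    simp only [e1, e2, or_false, hZ1n, one_mul] at ho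
    revert ho hWn
    generalize W none = w
    revert w; decide
  · -- Z3 = Y
    refine ⟨-1, by decide, ⟨Z1, hZ1, ?_, ?_, ?_, hZ1e⟩, ⟨_, hD.neg Z2 hZ2, ?_, ?_, ?_, ?_⟩⟩
    · rw [← hZ3g]; exact congrFun h g
    · rw [← hZ3f]; exact congrFun h f
    · rw [hZ1n]; decide
    · beta_reduce; rw [hZ2e g (Or.inl rfl)]; decide
    · beta_reduce; rw [hZ2e f (Or.inr (Or.inl rfl))]; decide
    · beta_reduce; rw [hZ2n]
    · intro e h1 h2
      beta_reduce
      rw [← hZ3e e h1 h2]; exact congrFun h e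
  · -- Z3 = -Y
    refine ⟨1, by decide, ⟨_, hD.neg Z1 hZ1, ?_, ?_, ?_, ?_⟩, ⟨Z2, hZ2, ?_, ?_, ?_, ?_⟩⟩
    · beta_reduce
      rw [← hZ3g]
      have := congrFun h g
      beta_reduce at this
      rw [this, neg_neg]
    · beta_reduce
      rw [← hZ3f]
      have := congrFun h f
      beta_reduce at this
      rw [this, neg_neg]
    · beta_reduce; rw [hZ1n]
    · intro e h1 h2
      beta_reduce
      rw [hZ1e e h1 h2]; decide
    · exact hZ2e g (Or.inl rfl)
    · exact hZ2e f (Or.inr (Or.inl rfl))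
    · exact hZ2n
    · intro e h1 h2
      have h3 := hZ3e e h1 h2
      have h4 := congrFun h e
      beta_reduce at h4
      rw [h3] at h4
      have := congrArg (fun x => -x) h4
      simpa using this

theorem l6a : ∀ x y c : SignType, ((x = 1 ∨ y = 1 ∨ -c = 1) ↔ (x = -1 ∨ y = -1 ∨ -c = -1)) →
    ∀ p q : Bool, ((c = 1 ∨ p = true) ↔ (c = -1 ∨ q = true)) →
      ((x = 1 ∨ y = 1 ∨ p = true) ↔ (x = -1 ∨ y = -1 ∨ q = true)) := by decide

theorem l6 (x y c : SignType) (P Q : Prop)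
    (h1 : (x = 1 ∨ y = 1 ∨ -c = 1) ↔ (x = -1 ∨ y = -1 ∨ -c = -1))
    (h2 : (c = 1 ∨ P) ↔ (c = -1 ∨ Q)) :
    (x = 1 ∨ y = 1 ∨ P) ↔ (x = -1 ∨ y = -1 ∨ Q) := by
  classical
  have := l6a x y c h1 (decide P) (decide Q)
  simp only [decide_eq_true_eq] at this
  exact this h2

theorem dual_extension [Finite E] {L : Set (E → SignType)} (hL : IsOM L) {g f : E}
    (hgf : g ≠ f) {Y : E → SignType} (hY : IsMin (dual L) Y) (hYg : Y g ≠ 0) (hYf : Y f ≠ 0)
    {Ls : Set (Option E → SignType)} (hLs : IsOM Ls)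
    (hdel : ∀ W : E → SignType, W ∈ L ↔ ∃ W' ∈ Ls, ∀ e, W' (some e) = W e)
    (hloop : ∃ W ∈ Ls, W none ≠ 0)
    (hc1 : ∀ W ∈ Ls, W (some g) = 0 → W (some f) = 0 → W none = 0)
    (hc2 : ∀ W ∈ Ls, (∀ e, e ≠ g → e ≠ f → Y e ≠ 0 → W (some e) = 0) → W none = 0)
    (hsimple : ∀ W ∈ L, (∀ e, e ≠ g → e ≠ f → W e = 0) → ∀ e, W e = 0) :
    ∃ N : Set (Option E → SignType), IsOM N ∧
      (∀ X : E → SignType, X ∈ dual L ↔ ∃ X' ∈ N, ∀ e, X' (some e) = X e) ∧
      (∃ X ∈ N, X none ≠ 0) ∧ (∀ X ∈ N, X (some g) = 0 → X (some f) = 0 → X none = 0) ∧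
      (fun o => Option.elim o 0 Y) ∈ N := by
  classical
  obtain ⟨γ, hγ, ⟨U1, hU1, hU1g, hU1f, hU1n, hU1e⟩, ⟨U2, hU2, hU2g, hU2f, hU2n, hU2e⟩⟩ :=
    exists_two hL hgf hY hYg hYf hLs hdel hloop hc1 hc2
  have hz : ∀ W ∈ Ls, z3 (Y g * W (some g)) (Y f * W (some f)) (-(γ * W none)) = true := by
    intro W hW
    have ho := hU1 W hW
    rw [orth_opt g f hgf] at ho
    have e1 : ¬ ∃ e, e ≠ g ∧ e ≠ f ∧ U1 (some e) * W (some e) = 1 := by
      rintro ⟨e, h1, h2, h3⟩
      rw [hU1e e h1 h2, zero_mul] at h3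
      revert h3; decide
    have e2 : ¬ ∃ e, e ≠ g ∧ e ≠ f ∧ U1 (some e) * W (some e) = -1 := by
      rintro ⟨e, h1, h2, h3⟩
      rw [hU1e e h1 h2, zero_mul] at h3
      revert h3; decide
    simp only [e1, e2, or_false, hU1n, hU1g, hU1f, neg_mul] at ho
    rw [z3_iff]
    tauto
  have hLt : IsOM (Lt g f (Y g) (Y f) γ Ls) := isOM_Lt hgf hYg hYf hγ hLs hz
  have h00 : (0 : SignType) ≠ 1 := by decide
  refine ⟨dual (Lt g f (Y g) (Y f) γ Ls), hLt.dual, ?_, ?_, ?_, ?_⟩
  · intro X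
    constructor
    · intro hX
      obtain ⟨z, hz'⟩ := extend_one hLt none (fun o => Option.elim o 0 X) (by
        rintro _ ⟨W, hW, x, y, t, hR, rfl⟩ ht
        rw [mk_none] at ht
        subst ht
        obtain ⟨hx, hy⟩ := l1 _ _ _ _ _ hR
        rw [orth_some (by rw [mk_none, mul_zero])]
        have : (fun e => mk g f (Y g) (Y f) W x y 0 (some e)) = fun e => W (some e) := by
          funext e
          by_cases h1 : e = g
          · subst h1; rw [mk_g, hx, d9 _ _ hYg]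
          · by_cases h2 : e = f
            · subst h2; rw [mk_f hgf, hy, d9 _ _ hYf]
            · rw [mk_other h1 h2]
        rw [this]
        exact hX _ ((hdel _).2 ⟨W, hW, fun e => rfl⟩))
      refine ⟨_, fun U hU => hz' U hU, fun e => ?_⟩
      rw [Function.update_of_ne (by simp)]
      rfl
    · rintro ⟨X', hX', hXe⟩ W hW
      obtain ⟨W', hW', hWe⟩ := (hdel W).1 hW
      have hmem : mk g f (Y g) (Y f) W' (Y g * W' (some g)) (Y f * W' (some f)) 0 ∈
          Lt g f (Y g) (Y f) γ Ls := ⟨W', hW', _, _, _, l2 _ _ _ (hz W' hW'), rfl⟩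
      have ho := hX' _ hmem
      rw [orth_some (by rw [mk_none, mul_zero])] at ho
      have : (fun e => mk g f (Y g) (Y f) W' (Y g * W' (some g)) (Y f * W' (some f)) 0 (some e)) =
          W := by
        funext e
        by_cases h1 : e = g
        · subst h1; rw [mk_g, d9 _ _ hYg, hWe]
        · by_cases h2 : e = f
          · subst h2; rw [mk_f hgf, d9 _ _ hYf, hWe]
          · rw [mk_other h1 h2, hWe]
      rw [this] at ho
      simp only [hXe] at ho
      exact ho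
  · set σ : Option E → SignType := fun o => if o = none then 1 else 0 with hσ
    have hσn : σ none = 1 := by rw [hσ]; simp
    have hσs : ∀ e, σ (some e) = 0 := by intro e; rw [hσ]; simp
    obtain ⟨Z, hZ, hZn, _⟩ := farkas hLt σ {o | ∃ e, o = some e} (by
      rintro o ⟨e, rfl⟩; exact hσs e) none (by rw [hσn]; exact h00.symm) (by
      rintro ⟨_, ⟨W, hW, x, y, t, hR, rfl⟩, hn, _, hS⟩
      rw [mk_none, hσn] at hn
      subst hn
      have hx : x = 0 := by
        have := hS (some g) ⟨g, rfl⟩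
        rw [mk_g] at this
        exact d10 _ _ hYg this
      have hy : y = 0 := by
        have := hS (some f) ⟨f, rfl⟩
        rw [mk_f hgf] at this
        exact d10 _ _ hYf this
      subst hx hy
      have h3 := l3 _ _ _ hR
      have h4 := hsimple (fun e => W (some e)) ((hdel _).2 ⟨W, hW, fun e => rfl⟩) (by
        intro e h1 h2
        have := hS (some e) ⟨e, rfl⟩
        rwa [mk_other h1 h2] at this) g
      beta_reduce at h4
      rw [h4, mul_zero] at h3
      exact h3 rfl)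
    exact ⟨Z, hZ, by rw [hZn, hσn]; exact h00.symm⟩
  · intro X hX hg hf
    have hmem : mk g f (Y g) (Y f) (fun _ => 0) 1 (-1) 1 ∈ Lt g f (Y g) (Y f) γ Ls := by
      refine ⟨fun _ => 0, hLs.zero, 1, -1, 1, ?_, rfl⟩
      simp only [mul_zero]; exact l4
    have ho := hX _ hmem
    rw [orth_opt g f hgf] at ho
    have e1 : ¬ ∃ e, e ≠ g ∧ e ≠ f ∧ X (some e) * mk g f (Y g) (Y f) (fun _ => 0) 1 (-1) 1 (some e) = 1 := by
      rintro ⟨e, h1, h2, h3⟩
      rw [mk_other h1 h2, mul_zero] at h3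
      revert h3; decide
    have e2 : ¬ ∃ e, e ≠ g ∧ e ≠ f ∧ X (some e) * mk g f (Y g) (Y f) (fun _ => 0) 1 (-1) 1 (some e) = -1 := by
      rintro ⟨e, h1, h2, h3⟩
      rw [mk_other h1 h2, mul_zero] at h3
      revert h3; decide
    have h1 : (0 : SignType) ≠ -1 := by decide
    simp only [e1, e2, or_false, hg, hf, zero_mul, mk_none, mul_one, h00, h1, false_or] at ho
    revert ho
    generalize X none = x
    revert x; decide
  · rintro _ ⟨W, hW, x, y, t, hR, rfl⟩
    rw [orth_some (by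
      change (0 : SignType) * _ = 0
      rw [zero_mul])]
    rw [orth_split g f hgf]
    simp only [mk_g, mk_f hgf]
    have e1 : ∀ v : SignType, (∃ e, e ≠ g ∧ e ≠ f ∧ Option.elim (some e) 0 Y *
        mk g f (Y g) (Y f) W x y t (some e) = v) ↔ ∃ e, e ≠ g ∧ e ≠ f ∧ Y e * W (some e) = v := by
      intro v
      constructor
      · rintro ⟨e, h1, h2, h3⟩
        rw [mk_other h1 h2] at h3
        exact ⟨e, h1, h2, h3⟩
      · rintro ⟨e, h1, h2, h3⟩
        refine ⟨e, h1, h2, ?_⟩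
        rw [mk_other h1 h2]; exact h3
    rw [e1, e1]
    change (Y g * (Y g * x) = 1 ∨ Y f * (Y f * y) = 1 ∨ _) ↔
      (Y g * (Y g * x) = -1 ∨ Y f * (Y f * y) = -1 ∨ _)
    rw [d9 _ _ hYg, d9 _ _ hYf]
    have ho := hU2 W hW
    rw [orth_opt g f hgf, hU2g, hU2f, hU2n] at ho
    have e3 : ∀ v : SignType, (∃ e, e ≠ g ∧ e ≠ f ∧ U2 (some e) * W (some e) = v) ↔
        ∃ e, e ≠ g ∧ e ≠ f ∧ Y e * W (some e) = v := by
      intro v
      constructor
      · rintro ⟨e, h1, h2, h3⟩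
        rw [hU2e e h1 h2] at h3
        exact ⟨e, h1, h2, h3⟩
      · rintro ⟨e, h1, h2, h3⟩
        refine ⟨e, h1, h2, ?_⟩
        rw [hU2e e h1 h2]; exact h3
    rw [e3, e3] at ho
    have h1 : (0 : SignType) ≠ -1 := by decide
    simp only [zero_mul, h00, h1, false_or] at ho
    have hzz := ((R_iff _ _ _ _ _ _).1 hR).2.2.2
    rw [z3_iff] at hzz
    exact l6 _ _ _ _ _ hzz ho

end Pool.Agent.R138.Om
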