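import Pool.Agent.R138.OmBasic

/-!
Minimal covectors (cocircuits).
-/

namespace Pool.Agent.R138.Om

variable {E : Type*}

theorem t1 : ∀ a b : SignType, a ≠ 0 → b ≠ 0 → a ≠ b → a = -b := by decide
theorem t2 : ∀ a b : SignType, a ≠ -b → b ≠ 0 → a ≠ 0 → a = b := by decide
theorem t3 : ∀ a : SignType, a ≠ 0 → a ≠ -a := by decide

/-- `V` is a cocircuit: a nonzero covector of minimal support -/
def IsMin (L : Set (E → SignType)) (V : E → SignType) : Prop :=
  V ∈ L ∧ (∃ e, V e ≠ 0) ∧ ∀ X ∈ L, (∃ e, X e ≠ 0) → (∀ e, V e = 0 → X e = 0) →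
    ∀ e, X e = 0 → V e = 0

theorem IsMin.unique {L : Set (E → SignType)} (hL : IsOM L) {V X : E → SignType}
    (hV : IsMin L V) (hX : X ∈ L) (hs : ∀ e, V e = 0 → X e = 0) :
    (∀ e, X e = 0) ∨ X = V ∨ X = fun e => - V e := by
  by_cases h0 : ∀ e, X e = 0
  · exact Or.inl h0
  right
  push Not at h0
  have hsupp := hV.2.2 X hX h0 hs
  by_contra hcon
  push Not at hcon
  obtain ⟨hne1, hne2⟩ := hcon
  obtain ⟨f, hf⟩ := Function.ne_iff.1 hne1
  obtain ⟨e, he⟩ := Function.ne_iff.1 hne2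
  have hVf : V f ≠ 0 := by
    intro h
    exact hf (by rw [h, hs f h])
  have hXf : X f ≠ 0 := fun h => hVf (hsupp f h)
  have hVe : V e ≠ 0 := by
    intro h
    apply he
    rw [h, hs e h]; decide
  have hXe : X e ≠ 0 := fun h => hVe (hsupp e h)
  have hXVe : X e = V e := t2 _ _ he hVe hXe
  have hsep : Sep V X f := ⟨hVf, t1 _ _ hVf hXf (Ne.symm hf)⟩
  obtain ⟨Z, hZ, hZf, hZg⟩ := hL.elim V hV.1 X hX f hsep
  have hZe : Z e ≠ 0 := by
    rw [hZg e, comp, if_neg hVe]
    · exact hVe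
    · rintro ⟨_, h2⟩
      rw [hXVe] at h2
      exact t3 _ hVe h2
  have := hV.2.2 Z hZ ⟨e, hZe⟩ (by
    intro g hg
    rw [hZg g (fun h => h.1 hg), comp, if_pos hg, hs g hg]) f hZf
  exact hVf this

/-- conformal: `V ⪯ Z` -/
def Le (V Z : E → SignType) : Prop := ∀ e, V e = 0 ∨ V e = Z e

theorem exists_conformal [Fintype E] [DecidableEq E] {L : Set (E → SignType)} (hL : IsOM L)
    {Z : E → SignType} (hZ : Z ∈ L) {e : E} (he : Z e ≠ 0) :
    ∀ n : ℕ, ∀ W ∈ L, W e = Z e → (∀ f, Z f = 0 → W f = 0) → (∃ g, Z g ≠ 0 ∧ W g = 0) →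
      (Finset.univ.filter (fun f => Z f ≠ 0 ∧ Z f = - W f)).card = n →
      ∃ W ∈ L, W e = Z e ∧ Le W Z ∧ ∃ g, Z g ≠ 0 ∧ W g = 0 := by
  intro n
  induction n using Nat.strong_induction_on with
  | _ n ih =>
    intro W hW hWe hWZ hg hn
    by_cases hS : ∃ f, Sep Z W f
    · obtain ⟨g', hg'⟩ := hS
      obtain ⟨W1, hW1, h1, h2⟩ := hL.elim Z hZ W hW g' hg'
      have hW1f : ∀ f, ¬ Sep Z W f → (W1 f = 0 ∧ Z f = 0) ∨ (Z f ≠ 0 ∧ W1 f = Z f) := by
        intro f hf
        rw [h2 f hf, comp]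
        split_ifs with h0
        · exact Or.inl ⟨hWZ f h0, h0⟩
        · exact Or.inr ⟨h0, rfl⟩
      have heS : ¬ Sep Z W e := by
        rintro ⟨_, h⟩
        rw [hWe] at h
        exact t3 _ he h
      refine ih _ ?_ W1 hW1 ?_ ?_ ⟨g', hg'.1, h1⟩ rfl
      · rw [← hn]
        apply Finset.card_lt_card
        rw [Finset.ssubset_iff_of_subset]
        · refine ⟨g', Finset.mem_filter.2 ⟨Finset.mem_univ _, hg'⟩, ?_⟩
          rw [Finset.mem_filter]
          rintro ⟨_, h3, h4⟩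
          rw [h1] at h4
          exact h3 (by rw [h4]; decide)
        · intro f hf
          rw [Finset.mem_filter] at hf ⊢
          refine ⟨Finset.mem_univ _, ?_⟩
          by_contra hcon
          rcases hW1f f hcon with h3 | h3
          · exact hf.2.1 h3.2
          · have := hf.2.2
            rw [h3.2] at this
            exact t3 _ h3.1 this
      · rcases hW1f e heS with h3 | h3
        · exact absurd h3.2 he
        · exact h3.2
      · intro f hf
        rcases hW1f f (fun h => h.1 hf) with h3 | h3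
        · exact h3.1
        · exact absurd hf h3.1
    · push Not at hS
      refine ⟨W, hW, hWe, ?_, hg⟩
      intro f
      by_cases h0 : W f = 0
      · exact Or.inl h0
      · right
        by_contra hne
        have hZf : Z f ≠ 0 := fun h => h0 (hWZ f h)
        exact hS f ⟨hZf, t1 _ _ hZf h0 (Ne.symm hne)⟩

theorem exists_min [Finite E] {L : Set (E → SignType)} (hL : IsOM L) :
    ∀ n : ℕ, ∀ Z ∈ L, {f | Z f ≠ 0}.ncard = n → ∀ e, Z e ≠ 0 →
      ∃ V, IsMin L V ∧ V e = Z e ∧ Le V Z := by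
  classical
  have : Fintype E := Fintype.ofFinite E
  intro n
  induction n using Nat.strong_induction_on with
  | _ n ih =>
    intro Z hZ hn e he
    by_cases hmin : IsMin L Z
    · exact ⟨Z, hmin, rfl, fun f => Or.inr rfl⟩
    have : ∃ Y ∈ L, (∃ g, Y g ≠ 0) ∧ (∀ f, Z f = 0 → Y f = 0) ∧ ∃ f, Y f = 0 ∧ Z f ≠ 0 := by
      by_contra hcon
      push Not at hcon
      exact hmin ⟨hZ, ⟨e, he⟩, fun X hX hX0 hs f hf => hcon X hX hX0 hs f hf⟩
    obtain ⟨Y, hY, ⟨g, hg⟩, hYZ, f, hf, hZf⟩ := this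
    -- a covector W0
    have hW0 : ∃ W ∈ L, W e = Z e ∧ (∀ f, Z f = 0 → W f = 0) ∧ ∃ g, Z g ≠ 0 ∧ W g = 0 := by
      by_cases hYe : Y e = 0
      · have hZg : Z g ≠ 0 := fun h => hg (hYZ g h)
        have key : ∀ Y ∈ L, (∀ f, Z f = 0 → Y f = 0) → Y e = 0 → Z g = - Y g →
            ∃ W ∈ L, W e = Z e ∧ (∀ f, Z f = 0 → W f = 0) ∧ ∃ g, Z g ≠ 0 ∧ W g = 0 := by
          intro Y hY hYZ hYe hsg
          obtain ⟨W, hW, h1, h2⟩ := hL.elim Z hZ Y hY g ⟨hZg, hsg⟩
          refine ⟨W, hW, ?_, ?_, g, hZg, h1⟩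
          · rw [h2 e, comp, if_neg he]
            rintro ⟨_, h⟩
            rw [hYe] at h
            exact he (by rw [h]; decide)
          · intro f hf
            rw [h2 f (fun h => h.1 hf), comp, if_pos hf, hYZ f hf]
        by_cases hs : Z g = - Y g
        · exact key Y hY hYZ hYe hs
        · refine key _ (hL.neg Y hY) (fun f hf => ?_) ?_ ?_
          · beta_reduce; rw [hYZ f hf]; decide
          · beta_reduce; rw [hYe]; decide
          · beta_reduce
            rw [neg_neg]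
            exact t2 _ _ hs hg hZg
      · by_cases hs : Y e = Z e
        · exact ⟨Y, hY, hs, hYZ, f, hZf, hf⟩
        · refine ⟨_, hL.neg Y hY, ?_, fun f hf => ?_, f, hZf, ?_⟩
          · beta_reduce
            rw [t1 _ _ hYe he hs, neg_neg]
          · beta_reduce; rw [hYZ f hf]; decide
          · beta_reduce; rw [hf]; decide
    obtain ⟨W0, h1, h2, h3, h4⟩ := hW0
    obtain ⟨W, hW, hWe, hWZ, g', hg', hWg'⟩ := exists_conformal hL hZ he _ W0 h1 h2 h3 h4 rfl
    have hlt : {f | W f ≠ 0}.ncard < n := by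
      rw [← hn]
      apply Set.ncard_lt_ncard _ (Set.toFinite _)
      rw [Set.ssubset_iff_of_subset]
      · exact ⟨g', hg', fun h => h hWg'⟩
      · intro f hf h0
        rcases hWZ f with h | h
        · exact hf h
        · exact hf (by rw [h, h0])
    obtain ⟨V, hV, hVe, hVW⟩ := ih _ hlt W hW rfl e (by rw [hWe]; exact he)
    refine ⟨V, hV, by rw [hVe, hWe], fun f => ?_⟩
    rcases hVW f with h | h
    · exact Or.inl h
    · rcases hWZ f with h' | h'
      · left; rw [h, h']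
      · right; rw [h, h']

/-- orthogonality to the cocircuits suffices -/
theorem mem_dual_of_min [Finite E] {L : Set (E → SignType)} (hL : IsOM L) {X : E → SignType}
    (h : ∀ V, IsMin L V → Orth X V) : X ∈ dual L := by
  intro Z hZ
  by_contra hcon
  have key : ∀ Z ∈ L, ¬ Pos X Z := by
    intro Z hZ hp
    obtain ⟨e, he⟩ := hp.2
    have h1 := (st1 _ _).1 he
    have hZe : Z e ≠ 0 := by rw [← h1.2]; exact h1.1
    obtain ⟨V, hV, hVe, hVZ⟩ := exists_min hL _ Z hZ rfl e hZe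
    have hpV : Pos X V := by
      refine ⟨fun f => ?_, e, by rw [hVe]; exact he⟩
      rcases hVZ f with h0 | h0
      · rw [h0, mul_zero]; decide
      · rw [h0]; exact hp.1 f
    exact hpV.not_orth (h V hV)
  rcases not_orth hcon with h1 | h1
  · exact key Z hZ h1
  · exact key _ (hL.neg Z hZ) h1

end Pool.Agent.R138.Om
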