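import Pool.Agent.R138.OmMin
import Pool.Agent.R138.OmBraid2

/-!
Replacing the three collinear elements `g, f, s` by a star (a Delta-Y exchange), in covector form.
-/

namespace Pool.Agent.R138.Om

set_option linter.unusedSectionVars false

variable {E : Type*}

theorem comp_c1 (X Y : E → SignType) (e : E) : comp X Y e = c1 (X e) (Y e) := by
  rw [comp, c1_eq]

theorem sep_s1 (X Y : E → SignType) (e : E) : Sep X Y e ↔ s1 (X e) (Y e) = true := by
  rw [s1_eq]; rfl

theorem d1 : ∀ α x3 x1 x2 : SignType, α ≠ 0 → cm x3 x1 x2 = true →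
    ¬ (s1 (α * x1) (α * x2) = true) → α * x3 = c1 (α * x1) (α * x2) := by decide
theorem d2 : ∀ α w3 w1 w2 : SignType, α ≠ 0 → (¬ (s1 w1 w2 = true) → w3 = c1 w1 w2) →
    cm (α * w3) (α * w1) (α * w2) = true := by decide
theorem d3 : ∀ α a b : SignType, α ≠ 0 → α * c1 a b = c1 (α * a) (α * b) := by decide
theorem d4 : ∀ α a b : SignType, α ≠ 0 → s1 (α * a) (α * b) = true → s1 a b = true := by decide
theorem d5 : ∀ x3 x1 x2 : SignType, cm x3 x1 x2 = true → ¬ (s1 x1 x2 = true) → x3 = c1 x1 x2 := by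
  decide
theorem d6 : ∀ a b : SignType, ¬ (s1 a b = true) → c1 b a = c1 a b := by decide
theorem d7 : ∀ a b : SignType, c1 (c1 a b) a = c1 a b := by decide
theorem d8 : ∀ a b : SignType, c1 (c1 a b) b = c1 a b := by decide
theorem d9 : ∀ α a : SignType, α ≠ 0 → α * (α * a) = a := by decide
theorem d10 : ∀ α a : SignType, α ≠ 0 → α * a = 0 → a = 0 := by decide

section star

variable [DecidableEq E] (g f : E) (α β γ : SignType) (Ls : Set (Option E → SignType))

/-- the sign vector built from a covector `W` and the star signs -/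
def mk (W : Option E → SignType) (x y t : SignType) : Option E → SignType
  | none => t
  | some e => if e = g then α * x else if e = f then β * y else W (some e)

/-- the star oriented matroid -/
def Lt : Set (Option E → SignType) :=
  {U | ∃ W ∈ Ls, ∃ x y t, R (α * W (some g)) (β * W (some f)) (γ * W none) x y t = true ∧
    U = mk g f α β W x y t}

variable {g f α β γ Ls}

theorem mk_g (W : Option E → SignType) (x y t : SignType) : mk g f α β W x y t (some g) = α * x := by
  simp [mk]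

theorem mk_f (hgf : g ≠ f) (W : Option E → SignType) (x y t : SignType) :
    mk g f α β W x y t (some f) = β * y := by
  simp [mk, hgf.symm]

theorem mk_other {e : E} (h1 : e ≠ g) (h2 : e ≠ f) (W : Option E → SignType) (x y t : SignType) :
    mk g f α β W x y t (some e) = W (some e) := by
  simp [mk, h1, h2]

theorem mk_none (W : Option E → SignType) (x y t : SignType) :
    mk g f α β W x y t none = t := rfl

/-- agreement with eliminations -/
def Agree (W3 W1 W2 : Option E → SignType) : Prop := ∀ o, ¬ Sep W1 W2 o → W3 o = comp W1 W2 o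

theorem finish (hgf : g ≠ f) (hα : α ≠ 0) (hβ : β ≠ 0) {W1 W2 W3 : Option E → SignType}
    (hW3 : W3 ∈ Ls) (hA : Agree W3 W1 W2) {x1 y1 t1 x2 y2 t2 x3 y3 t3 : SignType}
    (hR : R (α * W3 (some g)) (β * W3 (some f)) (γ * W3 none) x3 y3 t3 = true)
    (hx : cm x3 x1 x2 = true) (hy : cm y3 y1 y2 = true) (ht : cm t3 t1 t2 = true)
    {o : Option E} (ho : mk g f α β W3 x3 y3 t3 o = 0) :
    ∃ Z ∈ Lt g f α β γ Ls, Z o = 0 ∧ ∀ o', ¬ Sep (mk g f α β W1 x1 y1 t1) (mk g f α β W2 x2 y2 t2) o' →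
      Z o' = comp (mk g f α β W1 x1 y1 t1) (mk g f α β W2 x2 y2 t2) o' := by
  refine ⟨_, ⟨W3, hW3, x3, y3, t3, hR, rfl⟩, ho, ?_⟩
  intro o' ho'
  rw [sep_s1] at ho'
  rw [comp_c1]
  cases o' with
  | none =>
    rw [mk_none, mk_none] at ho'
    rw [mk_none, mk_none, mk_none]
    exact d5 _ _ _ ht ho'
  | some e =>
    by_cases h1 : e = g
    · subst h1
      rw [mk_g, mk_g] at ho'
      rw [mk_g, mk_g, mk_g]
      exact d1 _ _ _ _ hα hx ho'
    · by_cases h2 : e = f
      · subst h2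
        rw [mk_f hgf, mk_f hgf] at ho'
        rw [mk_f hgf, mk_f hgf, mk_f hgf]
        exact d1 _ _ _ _ hβ hy ho'
      · rw [mk_other h1 h2, mk_other h1 h2] at ho'
        rw [mk_other h1 h2, mk_other h1 h2, mk_other h1 h2, ← comp_c1]
        apply hA
        rw [sep_s1]; exact ho'

theorem agree_comp (W1 W2 : Option E → SignType) : Agree (comp W1 W2) W1 W2 := fun _ _ => rfl

theorem agree_comp' (W1 W2 : Option E → SignType) : Agree (comp W2 W1) W1 W2 := by
  intro o ho
  rw [sep_s1] at ho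
  rw [comp_c1, comp_c1]
  exact d6 _ _ ho

theorem Agree.comp1 {W3 W1 W2 : Option E → SignType} (h : Agree W3 W1 W2) :
    Agree (comp W3 W1) W1 W2 := by
  intro o ho
  rw [comp_c1, h o ho, comp_c1]
  exact d7 _ _

theorem Agree.comp2 {W3 W1 W2 : Option E → SignType} (h : Agree W3 W1 W2) :
    Agree (comp W3 W2) W1 W2 := by
  intro o ho
  rw [comp_c1, h o ho, comp_c1]
  exact d8 _ _

theorem Agree.cm {W3 W1 W2 : Option E → SignType} (h : Agree W3 W1 W2) {a : SignType} (ha : a ≠ 0)
    (o : Option E) : Om.cm (a * W3 o) (a * W1 o) (a * W2 o) = true := by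
  apply d2 _ _ _ _ ha
  intro ho
  rw [h o (by rw [sep_s1]; exact ho), comp_c1]

/-- the three special elements -/
def elt (g f : E) : Fin 3 → Option E
  | 0 => some g
  | 1 => some f
  | 2 => none

theorem star_elim (hgf : g ≠ f) (hα : α ≠ 0) (hβ : β ≠ 0) (hγ : γ ≠ 0) (hL : IsOM Ls)
    (hz : ∀ W ∈ Ls, z3 (α * W (some g)) (β * W (some f)) (-(γ * W none)) = true)
    {W1 W2 : Option E → SignType} (hW1 : W1 ∈ Ls) (hW2 : W2 ∈ Ls)
    {x1 y1 t1 x2 y2 t2 : SignType}
    (hR1 : R (α * W1 (some g)) (β * W1 (some f)) (γ * W1 none) x1 y1 t1 = true)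
    (hR2 : R (α * W2 (some g)) (β * W2 (some f)) (γ * W2 none) x2 y2 t2 = true)
    (k : Fin 3) (hs : s1 (sel k (x1, y1, t1)) (sel k (x2, y2, t2)) = true)
    {o : Option E} (ho : ∀ W x y t, sel k (x, y, t) = 0 → mk g f α β W x y t o = 0) :
    ∃ Z ∈ Lt g f α β γ Ls, Z o = 0 ∧ ∀ o', ¬ Sep (mk g f α β W1 x1 y1 t1) (mk g f α β W2 x2 y2 t2) o' →
      Z o' = comp (mk g f α β W1 x1 y1 t1) (mk g f α β W2 x2 y2 t2) o' := by
  -- finishing with a third covector
  have fin : ∀ W3 ∈ Ls, Agree W3 W1 W2 →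
      G k (α * W1 (some g), β * W1 (some f), γ * W1 none, x1, y1, t1)
        (α * W2 (some g), β * W2 (some f), γ * W2 none, x2, y2, t2)
        (α * W3 (some g)) (β * W3 (some f)) (γ * W3 none) →
      ∃ Z ∈ Lt g f α β γ Ls, Z o = 0 ∧ ∀ o', ¬ Sep (mk g f α β W1 x1 y1 t1) (mk g f α β W2 x2 y2 t2) o' →
        Z o' = comp (mk g f α β W1 x1 y1 t1) (mk g f α β W2 x2 y2 t2) o' := by
    rintro W3 hW3 hA ⟨⟨x3, y3, t3⟩, hR, hsel, hcm⟩
    simp only [cmX, Bool.and_eq_true] at hcm
    exact finish hgf hα hβ hW3 hA hR hcm.1.1 hcm.1.2 hcm.2 (ho _ _ _ _ hsel)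
  have tri : ∀ W W' : Option E → SignType, (α * comp W W' (some g) = c1 (α * W (some g)) (α * W' (some g))) ∧
      (β * comp W W' (some f) = c1 (β * W (some f)) (β * W' (some f))) ∧
      (γ * comp W W' none = c1 (γ * W none) (γ * W' none)) := by
    intro W W'
    rw [comp_c1, comp_c1, comp_c1]
    exact ⟨d3 _ _ _ hα, d3 _ _ _ hβ, d3 _ _ _ hγ⟩
  rcases FS2 k (R_mem hR1) (R_mem hR2) hs with h | h | ⟨i, hi, h⟩
  · apply fin (comp W1 W2) (hL.comp _ hW1 _ hW2) (agree_comp W1 W2)
    obtain ⟨e1, e2, e3⟩ := tri W1 W2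
    rw [e1, e2, e3]; exact h
  · apply fin (comp W2 W1) (hL.comp _ hW2 _ hW1) (agree_comp' W1 W2)
    obtain ⟨e1, e2, e3⟩ := tri W2 W1
    rw [e1, e2, e3]; exact h
  · have hsep : Sep W1 W2 (elt g f i) := by
      rw [sep_s1]
      fin_cases i
      · exact d4 _ _ _ hα hi
      · exact d4 _ _ _ hβ hi
      · exact d4 _ _ _ hγ hi
    obtain ⟨W3, hW3, h0, hA⟩ := hL.elim W1 hW1 W2 hW2 _ hsep
    have hA' : Agree W3 W1 W2 := hA
    have hsel : sel i (α * W3 (some g), β * W3 (some f), γ * W3 none) = 0 := by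
      fin_cases i
      · change α * W3 (some g) = 0
        have : W3 (some g) = 0 := h0
        rw [this, mul_zero]
      · change β * W3 (some f) = 0
        have : W3 (some f) = 0 := h0
        rw [this, mul_zero]
      · change γ * W3 none = 0
        have : W3 none = 0 := h0
        rw [this, mul_zero]
    rcases h _ _ _ (hz W3 hW3) hsel (hA'.cm hα _) (hA'.cm hβ _) (hA'.cm hγ _) with h | h | h
    · exact fin W3 hW3 hA' h
    · apply fin (comp W3 W1) (hL.comp _ hW3 _ hW1) hA'.comp1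
      obtain ⟨e1, e2, e3⟩ := tri W3 W1
      rw [e1, e2, e3]; exact h
    · apply fin (comp W3 W2) (hL.comp _ hW3 _ hW2) hA'.comp2
      obtain ⟨e1, e2, e3⟩ := tri W3 W2
      rw [e1, e2, e3]; exact h

theorem isOM_Lt (hgf : g ≠ f) (hα : α ≠ 0) (hβ : β ≠ 0) (hγ : γ ≠ 0) (hL : IsOM Ls)
    (hz : ∀ W ∈ Ls, z3 (α * W (some g)) (β * W (some f)) (-(γ * W none)) = true) :
    IsOM (Lt g f α β γ Ls) := by
  refine ⟨?_, ?_, ?_, ?_⟩
  · refine ⟨fun _ => 0, hL.zero, 0, 0, 0, ?_, ?_⟩
    · simp only [mul_zero]; decide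
    · funext o
      cases o with
      | none => rfl
      | some e =>
        unfold mk
        simp
  · rintro _ ⟨W, hW, x, y, t, hR, rfl⟩
    refine ⟨_, hL.neg W hW, -x, -y, -t, ?_, ?_⟩
    · have := R_neg _ _ _ _ _ _ hR
      simpa only [mul_neg] using this
    · funext o
      cases o with
      | none => rfl
      | some e =>
        change -(mk g f α β W x y t (some e)) = _
        by_cases h1 : e = g
        · subst h1
          rw [mk_g, mk_g, mul_neg]
        · by_cases h2 : e = f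
          · subst h2
            rw [mk_f hgf, mk_f hgf, mul_neg]
          · rw [mk_other h1 h2, mk_other h1 h2]
  · rintro _ ⟨W, hW, x, y, t, hR, rfl⟩ _ ⟨W', hW', x', y', t', hR', rfl⟩
    refine ⟨_, hL.comp W hW W' hW', c1 x x', c1 y y', c1 t t', ?_, ?_⟩
    · rw [comp_c1, comp_c1, comp_c1, d3 _ _ _ hα, d3 _ _ _ hβ, d3 _ _ _ hγ]
      exact R_comp hR hR'
    · funext o
      rw [comp_c1]
      cases o with
      | none => rfl
      | some e =>
        by_cases h1 : e = g
        · subst h1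
          rw [mk_g, mk_g, mk_g, d3 _ _ _ hα]
        · by_cases h2 : e = f
          · subst h2
            rw [mk_f hgf, mk_f hgf, mk_f hgf, d3 _ _ _ hβ]
          · rw [mk_other h1 h2, mk_other h1 h2, mk_other h1 h2, comp_c1]
  · rintro _ ⟨W1, hW1, x1, y1, t1, hR1, rfl⟩ _ ⟨W2, hW2, x2, y2, t2, hR2, rfl⟩ o ho
    rw [sep_s1] at ho
    cases o with
    | none =>
      rw [mk_none, mk_none] at ho
      exact star_elim hgf hα hβ hγ hL hz hW1 hW2 hR1 hR2 2 ho (fun W x y t h => h)
    | some e =>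
      by_cases h1 : e = g
      · subst h1
        rw [mk_g, mk_g] at ho
        refine star_elim hgf hα hβ hγ hL hz hW1 hW2 hR1 hR2 0 (d4 _ _ _ hα ho) (fun W x y t h => ?_)
        rw [mk_g]
        have : x = 0 := h
        rw [this, mul_zero]
      · by_cases h2 : e = f
        · subst h2
          rw [mk_f hgf, mk_f hgf] at ho
          refine star_elim hgf hα hβ hγ hL hz hW1 hW2 hR1 hR2 1 (d4 _ _ _ hβ ho)
            (fun W x y t h => ?_)
          rw [mk_f hgf]
          have : y = 0 := h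
          rw [this, mul_zero]
        · rw [mk_other h1 h2, mk_other h1 h2] at ho
          obtain ⟨W3, hW3, h0, hA⟩ := hL.elim W1 hW1 W2 hW2 (some e) (by rw [sep_s1]; exact ho)
          have hA' : Agree W3 W1 W2 := hA
          obtain ⟨x3, y3, t3, hR, hx, hy, ht⟩ := FS1 hR1 hR2 (hz W3 hW3) (hA'.cm hα _) (hA'.cm hβ _)
            (hA'.cm hγ _)
          exact finish hgf hα hβ hW3 hA' hR hx hy ht (by rw [mk_other h1 h2]; exact h0)

end star

end Pool.Agent.R138.Om
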