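import Pool.Agent.R138.OmMin

/-!
A discrete model of a pseudoline arrangement swept by a pencil, and its covectors.
-/

namespace Pool.Agent.R138.Om

/-- the sign of an integer -/
def sg (x : ℤ) : SignType := if 0 < x then 1 else if x < 0 then -1 else 0

theorem sg_pos {x : ℤ} : sg x = 1 ↔ 0 < x := by
  unfold sg; split_ifs with h1 h2
  · simp [h1]
  · simp [h1]
  · simp [h1]
theorem sg_neg {x : ℤ} : sg x = -1 ↔ x < 0 := by
  unfold sg; split_ifs with h1 h2
  · simp only [show ¬ (1 : SignType) = -1 by decide, false_iff]; omega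
  · simp [h2]
  · simp only [show ¬ (0 : SignType) = -1 by decide, false_iff]; omega
theorem sg_zero {x : ℤ} : sg x = 0 ↔ x = 0 := by
  unfold sg; split_ifs with h1 h2
  · simp only [show ¬ (1 : SignType) = 0 by decide, false_iff]; omega
  · simp only [show ¬ (-1 : SignType) = 0 by decide, false_iff]; omega
  · simp only [true_iff]; omega
theorem sg_opp (x : ℤ) : sg (-x) = - sg x := by
  rcases lt_trichotomy 0 x with h | h | h
  · rw [sg_pos.2 h, sg_neg]; omega
  · subst h; decide
  · rw [sg_neg.2 h, neg_neg, sg_pos]; omega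

theorem v1 : ∀ a : SignType, a ≠ 1 → a ≠ -1 → a = 0 := by decide
theorem v2 : ∀ a : SignType, a ≠ 0 → a ≠ 1 → a = -1 := by decide
theorem v3 : ∀ a : SignType, a ≠ 0 → a ≠ -1 → a = 1 := by decide
theorem v4 : ¬ (1 : SignType) = -1 := by decide
theorem v5 : ¬ (0 : SignType) = -1 := by decide
theorem v6 : ¬ (0 : SignType) = 1 := by decide

/-- alternating functions of half-period `T` with zeros at even times -/
structure Alt (T : ℤ) (u : ℤ → SignType) : Prop where
  per : ∀ t, u (t + T) = - u t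
  odd : ∀ t, Odd t → u t ≠ 0
  mid : ∀ t1 t2 t3, t1 < t2 → t2 < t3 → t3 < t1 + T → u t1 ≠ 1 → u t3 ≠ 1 → u t2 = -1
  mid' : ∀ t1 t2 t3, t1 < t2 → t2 < t3 → t3 < t1 + T → u t1 ≠ -1 → u t3 ≠ -1 → u t2 = 1
  jump : ∀ t, u t ≠ 0 → u (t + 1) ≠ - u t

theorem Alt.rev {T : ℤ} {u : ℤ → SignType} (h : Alt T u) : Alt T (fun t => u (-t)) where
  per t := by
    have := h.per (-t - T)
    rw [show -t - T + T = -t by ring] at this
    beta_reduce
    rw [show -(t + T) = -t - T by ring, this, neg_neg]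
  odd t ht := h.odd _ ht.neg
  mid t1 t2 t3 h1 h2 h3 h4 h5 := h.mid (-t3) (-t2) (-t1) (by omega) (by omega) (by omega) h5 h4
  mid' t1 t2 t3 h1 h2 h3 h4 h5 := h.mid' (-t3) (-t2) (-t1) (by omega) (by omega) (by omega) h5 h4
  jump t h0 := by
    intro h1
    beta_reduce at h0 h1
    have h2 : u (-(t + 1)) ≠ 0 := by
      rw [h1]
      revert h0
      generalize u (-t) = a
      revert a; decide
    apply h.jump _ h2
    rw [show -(t + 1) + 1 = -t by ring, h1, neg_neg]

theorem Alt.two {T : ℤ} {u : ℤ → SignType} (h : Alt T u) {t1 t2 : ℤ} (h1 : t1 < t2)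
    (h2 : t2 < t1 + T) (h3 : u t1 = 0) (h4 : u t2 = 0) : False := by
  by_cases h5 : t2 = t1 + 1
  · rcases Int.even_or_odd t1 with h6 | h6
    · exact h.odd t2 (h5 ▸ h6.add_one) h4
    · exact h.odd t1 h6 h3
  · have a1 := h.mid t1 (t1 + 1) t2 (by omega) (by omega) h2 (by rw [h3]; decide)
      (by rw [h4]; decide)
    have a2 := h.mid' t1 (t1 + 1) t2 (by omega) (by omega) h2 (by rw [h3]; decide)
      (by rw [h4]; decide)
    rw [a1] at a2
    exact absurd a2 (by decide)

theorem Alt.between {T : ℤ} {u : ℤ → SignType} (h : Alt T u) {t1 t t2 : ℤ} (h1 : t1 < t)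
    (h2 : t < t2) (h3 : t2 < t1 + T) (h4 : ¬ (u t1 ≠ 0 ∧ u t1 = - u t2)) :
    u t = if u t1 = 0 then u t2 else u t1 := by
  have key : ∀ a b c : SignType, ¬ (a ≠ 0 ∧ a = -b) → (a ≠ 1 → b ≠ 1 → c = -1) →
      (a ≠ -1 → b ≠ -1 → c = 1) → c = if a = 0 then b else a := by decide
  exact key _ _ _ h4 (h.mid t1 t t2 h1 h2 h3) (h.mid' t1 t t2 h1 h2 h3)

/-- a sign change forces a zero strictly in between -/
theorem Alt.ivt {T : ℤ} {u : ℤ → SignType} (h : Alt T u) {t1 t2 : ℤ} (h1 : t1 < t2)
    (h2 : u t1 ≠ 0) (h3 : u t2 = - u t1) : ∃ t, t1 < t ∧ t < t2 ∧ u t = 0 := by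
  by_contra hcon
  push Not at hcon
  have key : ∀ n : ℕ, t1 + n < t2 → u (t1 + n) = u t1 := by
    intro n
    induction n with
    | zero => intro _; simp
    | succ n ih =>
      intro h4
      push_cast at h4 ⊢
      have h5 := ih (by omega)
      have h6 := h.jump (t1 + n) (by rw [h5]; exact h2)
      rw [h5] at h6
      have h7 := hcon (t1 + (n + 1)) (by omega) h4
      rw [← add_assoc] at h7 ⊢
      revert h2 h6 h7
      generalize u t1 = a
      generalize u (t1 + n + 1) = b
      revert a b; decide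
  obtain ⟨n, hn⟩ : ∃ n : ℕ, t2 = t1 + n + 1 := ⟨(t2 - t1 - 1).toNat, by omega⟩
  have h4 := key n (by omega)
  have h5 := h.jump (t1 + n) (by rw [h4]; exact h2)
  rw [h4, ← hn] at h5
  exact h5 h3

/-- the model -/
structure Mdl (E : Type*) where
  T : ℤ
  pen : E → Bool
  p : E → ℤ → SignType
  h : ℤ → E → ℤ
  hT : 0 < T
  hp : ∀ c, pen c = true → Alt T (p c)
  hh : ∀ i j, pen i = false → pen j = false → i ≠ j → Alt T (fun t => sg (h t i - h t j))
  hanti : ∀ t i, h (t + T) i = - h t i
  heven : ∀ t i, Even (h t i)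

variable {E : Type*}

namespace Mdl

/-- time reversal -/
def rev (M : Mdl E) : Mdl E where
  T := M.T
  pen := M.pen
  p := fun c t => M.p c (-t)
  h := fun t i => M.h (-t) i
  hT := M.hT
  hp c hc := (M.hp c hc).rev
  hh i j hi hj hij := (M.hh i j hi hj hij).rev
  hanti t i := by
    have := M.hanti (-t - M.T) i
    rw [show -t - M.T + M.T = -t by ring] at this
    beta_reduce
    rw [show -(t + M.T) = -t - M.T by ring, this, neg_neg]
  heven t i := M.heven _ i

/-- the covector at time `t` and height `x` -/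
def cov (M : Mdl E) (t x : ℤ) : E → SignType :=
  fun e => if M.pen e = true then M.p e t else sg (x - M.h t e)

/-- signed pole -/
def spole (M : Mdl E) (s : SignType) : E → SignType := fun e => if M.pen e = true then 0 else s

/-- the covectors -/
def L (M : Mdl E) : Set (E → SignType) :=
  {X | (∃ s, X = M.spole s) ∨ ∃ t x, X = M.cov t x}

theorem cov_rev (M : Mdl E) (t x : ℤ) : M.rev.cov t x = M.cov (-t) x := rfl

theorem L_rev (M : Mdl E) : M.rev.L = M.L := by
  ext X
  constructor
  · rintro (h | ⟨t, x, h⟩)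
    · exact Or.inl h
    · exact Or.inr ⟨-t, x, h⟩
  · rintro (h | ⟨t, x, h⟩)
    · exact Or.inl h
    · refine Or.inr ⟨-t, x, ?_⟩
      rw [cov_rev, neg_neg]; exact h

theorem cov_pen (M : Mdl E) {t x : ℤ} {e : E} (he : M.pen e = true) : M.cov t x e = M.p e t := by
  rw [cov, if_pos he]

theorem cov_wire (M : Mdl E) {t x : ℤ} {e : E} (he : M.pen e = false) :
    M.cov t x e = sg (x - M.h t e) := by
  rw [cov, if_neg (by rw [he]; decide)]

theorem spole_pen (M : Mdl E) {s : SignType} {e : E} (he : M.pen e = true) : M.spole s e = 0 := by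
  rw [spole, if_pos he]

theorem spole_wire (M : Mdl E) {s : SignType} {e : E} (he : M.pen e = false) :
    M.spole s e = s := by
  rw [spole, if_neg (by rw [he]; decide)]

theorem cov_T (M : Mdl E) (t x : ℤ) : M.cov (t + M.T) (-x) = fun e => - M.cov t x e := by
  funext e
  by_cases he : M.pen e = true
  · rw [M.cov_pen he, M.cov_pen he, (M.hp e he).per]
  · rw [Bool.not_eq_true] at he
    rw [M.cov_wire he, M.cov_wire he, M.hanti, ← sg_opp]
    congr 1; ring

theorem cov_2T (M : Mdl E) (t x : ℤ) : M.cov (t + 2 * M.T) x = M.cov t x := by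
  have h1 := M.cov_T (t + M.T) (-x)
  rw [neg_neg, show t + M.T + M.T = t + 2 * M.T by ring] at h1
  rw [h1]
  funext e
  rw [M.cov_T, neg_neg]

theorem cov_shift (M : Mdl E) (t x : ℤ) (k : ℤ) : M.cov (t + 2 * M.T * k) x = M.cov t x := by
  have key : ∀ n : ℕ, ∀ t, M.cov (t + 2 * M.T * n) x = M.cov t x := by
    intro n
    induction n with
    | zero => intro t; simp
    | succ n ih =>
      intro t
      have : t + 2 * M.T * ((n + 1 : ℕ) : ℤ) = (t + 2 * M.T * n) + 2 * M.T := by push_cast; ring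
      rw [this, cov_2T, ih]
  rcases le_total 0 k with hk | hk
  · obtain ⟨n, rfl⟩ := Int.eq_ofNat_of_zero_le hk
    exact key n t
  · obtain ⟨n, hn⟩ := Int.eq_ofNat_of_zero_le (show 0 ≤ -k by omega)
    have := key n (t + 2 * M.T * k)
    rw [← this]
    congr 1
    rw [← hn]; ring

theorem neg_spole (M : Mdl E) (s : SignType) : (fun e => - M.spole s e) = M.spole (-s) := by
  funext e
  unfold spole
  split_ifs
  · rfl
  · rfl

theorem neg_mem (M : Mdl E) {X : E → SignType} (hX : X ∈ M.L) : (fun e => - X e) ∈ M.L := by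
  rcases hX with ⟨s, rfl⟩ | ⟨t, x, rfl⟩
  · exact Or.inl ⟨-s, M.neg_spole s⟩
  · exact Or.inr ⟨t + M.T, -x, (M.cov_T t x).symm⟩

theorem zero_mem (M : Mdl E) : (fun _ => 0) ∈ M.L := by
  refine Or.inl ⟨0, ?_⟩
  funext e; unfold spole; split_ifs <;> rfl

theorem spole_mem (M : Mdl E) (s : SignType) : M.spole s ∈ M.L := Or.inl ⟨s, rfl⟩

theorem cov_mem (M : Mdl E) (t x : ℤ) : M.cov t x ∈ M.L := Or.inr ⟨t, x, rfl⟩

/-- existence of a height with prescribed signs -/
theorem level [Finite E] (M : Mdl E) (t : ℤ) (C : E → Prop) (r : E → SignType)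
    (h1 : ∀ f g, M.pen f = false → M.pen g = false → C f → C g → f ≠ g → r f ≠ -1 → r g ≠ 1 →
      M.h t f < M.h t g) :
    ∃ y, ∀ f, M.pen f = false → C f → sg (y - M.h t f) = r f := by
  have hpos : ∀ f g, M.pen f = false → M.pen g = false → C f → C g → r f = 1 → r g ≠ 1 →
      M.h t f < M.h t g := by
    intro f g a b c d e1 e2
    exact h1 f g a b c d (by rintro rfl; exact e2 e1) (by rw [e1]; decide) e2
  have hneg : ∀ f g, M.pen f = false → M.pen g = false → C f → C g → r f ≠ -1 → r g = -1 →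
      M.h t f < M.h t g := by
    intro f g a b c d e1 e2
    exact h1 f g a b c d (by rintro rfl; exact e1 e2) e1 (by rw [e2]; decide)
  by_cases h0 : ∃ a, M.pen a = false ∧ C a ∧ r a = 0
  · obtain ⟨a, ha, hCa, hra⟩ := h0
    refine ⟨M.h t a, fun f hf hCf => ?_⟩
    by_cases e1 : r f = 1
    · rw [e1, sg_pos]
      have := hpos f a hf ha hCf hCa e1 (by rw [hra]; decide)
      omega
    · by_cases e2 : r f = -1
      · rw [e2, sg_neg]
        have := hneg a f ha hf hCa hCf (by rw [hra]; decide) e2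
        omega
      · by_cases hfa : f = a
        · subst hfa; rw [hra, sg_zero]; ring
        · have a1 := h1 f a hf ha hCf hCa hfa e2 (by rw [hra]; decide)
          have a2 := h1 a f ha hf hCa hCf (Ne.symm hfa) (by rw [hra]; decide) e1
          omega
  · have h0' : ∀ a, M.pen a = false → C a → r a = 1 ∨ r a = -1 := by
      intro a ha hC
      by_contra hcon
      push Not at hcon
      exact h0 ⟨a, ha, hC, v1 _ hcon.1 hcon.2⟩
    by_cases h2 : ∃ a, M.pen a = false ∧ C a ∧ r a = 1
    · obtain ⟨a, ⟨ha, hCa, hra⟩, hmax⟩ := Set.exists_max_image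
        {a | M.pen a = false ∧ C a ∧ r a = 1} (M.h t) (Set.toFinite _) h2
      refine ⟨M.h t a + 1, fun f hf hCf => ?_⟩
      rcases h0' f hf hCf with e1 | e1
      · rw [e1, sg_pos]
        have := hmax f ⟨hf, hCf, e1⟩
        omega
      · rw [e1, sg_neg]
        have h3 := hneg a f ha hf hCa hCf (by rw [hra]; decide) e1
        obtain ⟨b1, hb1⟩ := M.heven t a
        obtain ⟨b2, hb2⟩ := M.heven t f
        omega
    · obtain ⟨B, hB⟩ := (Set.finite_range (M.h t)).bddBelow
      refine ⟨B - 1, fun f hf hCf => ?_⟩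
      rcases h0' f hf hCf with e1 | e1
      · exact absurd ⟨f, hf, hCf, e1⟩ h2
      · rw [e1, sg_neg]
        have := hB ⟨f, rfl⟩
        omega

end Mdl

end Pool.Agent.R138.Om
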