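import Pool.Agent.R138.OmSweep

/-!
The covectors of a discrete sweep model form an oriented matroid.
-/

namespace Pool.Agent.R138.Om

variable {E : Type*}

theorem w1 : ∀ a b : SignType, ¬ (a ≠ 0 ∧ a = -b) → (if a = 0 then b else a) ≠ -1 →
    a ≠ -1 ∧ b ≠ -1 := by decide
theorem w2 : ∀ a b : SignType, ¬ (a ≠ 0 ∧ a = -b) → (if a = 0 then b else a) ≠ 1 →
    a ≠ 1 ∧ b ≠ 1 := by decide
theorem w3 : ∀ a b : SignType, (if a = 0 then b else a) ≠ -1 → a = 1 ∨ (a = 0 ∧ b ≠ -1) := by
  decide
theorem w4 : ∀ a b : SignType, (if a = 0 then b else a) ≠ 1 → a = -1 ∨ (a = 0 ∧ b ≠ 1) := by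
  decide
theorem w5 : ∀ a b : SignType, ¬ (a ≠ 0 ∧ a = -b) → ¬ (b ≠ 0 ∧ b = -a) := by decide
theorem w6 : ∀ a b : SignType, ¬ (a ≠ 0 ∧ a = -b) →
    (if a = 0 then b else a) = if b = 0 then a else b := by decide

theorem sg_ne_neg {x : ℤ} : sg x ≠ -1 ↔ 0 ≤ x := by rw [ne_eq, sg_neg]; omega
theorem sg_ne_pos {x : ℤ} : sg x ≠ 1 ↔ x ≤ 0 := by rw [ne_eq, sg_pos]; omega

theorem Alt.step {T : ℤ} {u : ℤ → SignType} (h : Alt T u) {t1 t t2 : ℤ} (ho : Odd t)
    (h1 : t = t1 ∨ t = t1 + 1) (h2 : t ≤ t2) (h3 : t2 < t1 + T) :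
    u t = if u t1 = 0 then u t2 else u t1 := by
  rcases h1 with rfl | rfl
  · rw [if_neg (h.odd _ ho)]
  · split_ifs with h4
    · by_cases h5 : t2 = t1 + 1
      · rw [h5]
      · have := h.between (t1 := t1) (t := t1 + 1) (t2 := t2) (by omega) (by omega) h3
          (fun h6 => h6.1 h4)
        rw [this, if_pos h4]
    · have a1 := h.jump t1 h4
      have a2 := h.odd _ ho
      revert a1 a2 h4
      generalize u t1 = a
      generalize u (t1 + 1) = b
      revert a b; decide

theorem odd_time (t1 : ℤ) : ∃ t, Odd t ∧ (t = t1 ∨ t = t1 + 1) ∧ (t = t1 → Odd t1) := by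
  rcases Int.even_or_odd t1 with h | h
  · exact ⟨t1 + 1, h.add_one, Or.inr rfl, fun h' => by omega⟩
  · exact ⟨t1, h, Or.inl rfl, fun _ => h⟩

namespace Mdl

/-- elimination property -/
def El (M : Mdl E) (X Y : E → SignType) : Prop :=
  ∀ e, Sep X Y e → ∃ Z ∈ M.L, Z e = 0 ∧ ∀ f, ¬ Sep X Y f → Z f = comp X Y f

theorem El.swap {M : Mdl E} {X Y : E → SignType} (h : M.El X Y) : M.El Y X := by
  intro e he
  have hs : ∀ f, Sep Y X f → Sep X Y f := by
    intro f hf
    have := w5 (X f) (Y f)
    unfold Sep at *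
    tauto
  have hs' : ∀ f, Sep X Y f → Sep Y X f := by
    intro f hf
    have := w5 (Y f) (X f)
    unfold Sep at *
    tauto
  obtain ⟨Z, hZ, h1, h2⟩ := h e (hs e he)
  refine ⟨Z, hZ, h1, fun f hf => ?_⟩
  have hf' : ¬ Sep X Y f := fun h' => hf (hs' f h')
  rw [h2 f hf']
  exact w6 _ _ hf'

theorem near (M : Mdl E) (t x : ℤ) (s : SignType) :
    ∃ y, ∀ e, sg (y - M.h t e) = if sg (x - M.h t e) = 0 then s else sg (x - M.h t e) := by
  rcases Int.even_or_odd x with hx | hx
  · obtain ⟨d, hd⟩ : ∃ d : ℤ, -1 ≤ d ∧ d ≤ 1 ∧ sg d = s := by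
      have : ∀ s : SignType, s = 0 ∨ s = 1 ∨ s = -1 := by decide
      rcases this s with rfl | rfl | rfl
      · exact ⟨0, by decide, by decide, by decide⟩
      · exact ⟨1, by decide, by decide, by decide⟩
      · exact ⟨-1, by decide, by decide, by decide⟩
    refine ⟨x + d, fun e => ?_⟩
    obtain ⟨b1, hb1⟩ := M.heven t e
    obtain ⟨b2, hb2⟩ := hx
    split_ifs with h0
    · rw [sg_zero] at h0
      rw [show x + d - M.h t e = d by omega, hd.2.2]
    · rw [sg_zero] at h0
      rcases lt_or_gt_of_ne h0 with h1 | h1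
      · rw [sg_neg.2 h1, sg_neg]; omega
      · rw [sg_pos.2 h1, sg_pos]; omega
  · refine ⟨x, fun e => ?_⟩
    rw [if_neg]
    rw [sg_zero]
    obtain ⟨b1, hb1⟩ := M.heven t e
    obtain ⟨b2, hb2⟩ := hx
    omega

theorem far [Finite E] (M : Mdl E) (t : ℤ) (s : SignType) (hs : s ≠ 0) :
    ∃ y, ∀ e, sg (y - M.h t e) = s := by
  by_cases h : s = 1
  · obtain ⟨B, hB⟩ := (Set.finite_range (M.h t)).bddAbove
    refine ⟨B + 1, fun e => ?_⟩
    have := hB ⟨e, rfl⟩
    rw [h, sg_pos]; omega
  · obtain ⟨B, hB⟩ := (Set.finite_range (M.h t)).bddBelow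
    refine ⟨B - 1, fun e => ?_⟩
    have := hB ⟨e, rfl⟩
    rw [v2 s hs h, sg_neg]; omega

theorem normalize (M : Mdl E) (P : (E → SignType) → (E → SignType) → Prop)
    (hs : ∀ t x1 x2, P (M.cov t x1) (M.cov t x2))
    (ho : ∀ t x1 x2, P (M.cov t x1) (M.cov (t + M.T) x2))
    (hlt : ∀ t1 t2 x1 x2, t1 < t2 → t2 < t1 + M.T → P (M.cov t1 x1) (M.cov t2 x2))
    (hgt : ∀ t1 t2 x1 x2, t1 < t2 → t2 < t1 + M.T → P (M.cov t2 x2) (M.cov t1 x1))
    (t1 t2 x1 x2 : ℤ) : P (M.cov t1 x1) (M.cov t2 x2) := by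
  have hT := M.hT
  obtain ⟨d, q, hd0, hd1, hd⟩ : ∃ d q : ℤ, 0 ≤ d ∧ d < 2 * M.T ∧ t2 = t1 + d + 2 * M.T * q := by
    refine ⟨(t2 - t1) % (2 * M.T), (t2 - t1) / (2 * M.T), Int.emod_nonneg _ (by omega),
      Int.emod_lt_of_pos _ (by omega), ?_⟩
    have := Int.emod_add_mul_ediv (t2 - t1) (2 * M.T)
    omega
  rw [hd, M.cov_shift]
  rcases lt_trichotomy d M.T with h | h | h
  · by_cases h0 : d = 0
    · rw [h0, add_zero]; exact hs _ _ _
    · exact hlt _ _ _ _ (by omega) (by omega)
  · rw [h]; exact ho _ _ _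
  · rw [← M.cov_2T t1]
    exact hgt _ _ _ _ (by omega) (by omega)

theorem comp_lt [Finite E] (M : Mdl E) {t1 t2 x1 x2 : ℤ} (h1 : t1 < t2) (h2 : t2 < t1 + M.T) :
    comp (M.cov t1 x1) (M.cov t2 x2) ∈ M.L := by
  obtain ⟨t, ho, ht, _⟩ := odd_time t1
  have ht2 : t ≤ t2 := by omega
  obtain ⟨y, hy⟩ := M.level t (fun _ => True) (comp (M.cov t1 x1) (M.cov t2 x2)) (by
    intro f g hf hg _ _ hne hrf hrg
    have hA := M.hh f g hf hg hne
    have hst := hA.step ho ht ht2 h2
    beta_reduce at hst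
    rw [comp] at hrf hrg
    rw [M.cov_wire hf, M.cov_wire hf] at hrf
    rw [M.cov_wire hg, M.cov_wire hg] at hrg
    have c1 := w3 _ _ hrf
    have c2 := w4 _ _ hrg
    rw [sg_pos, sg_zero, sg_ne_neg] at c1
    rw [sg_neg, sg_zero, sg_ne_pos] at c2
    have hodd := hA.odd t ho
    beta_reduce at hodd
    by_cases h3 : M.h t1 f < M.h t1 g
    · have h4 : sg (M.h t1 f - M.h t1 g) = -1 := sg_neg.2 (by omega)
      rw [h4, if_neg (by decide)] at hst
      rw [sg_neg] at hst
      omega
    · have h4 : sg (M.h t1 f - M.h t1 g) = 0 := sg_zero.2 (by omega)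
      rw [h4, if_pos rfl] at hst
      have h5 : sg (M.h t2 f - M.h t2 g) ≠ 1 := by rw [sg_ne_pos]; omega
      rw [← hst] at h5
      have := v2 _ hodd h5
      rw [sg_neg] at this
      omega)
  refine Or.inr ⟨t, y, ?_⟩
  funext e
  by_cases he : M.pen e = true
  · rw [comp, M.cov_pen he, M.cov_pen he, M.cov_pen he]
    exact ((M.hp e he).step ho ht ht2 h2).symm
  · rw [Bool.not_eq_true] at he
    rw [M.cov_wire he, hy e he trivial]

theorem comp_same (M : Mdl E) (t x : ℤ) (Y : E → SignType) (s : SignType)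
    (hY : ∀ e, M.pen e = true → M.p e t = 0 → Y e = 0)
    (hY' : ∀ e, M.pen e = false → M.h t e = x → Y e = s) :
    comp (M.cov t x) Y ∈ M.L := by
  obtain ⟨y, hy⟩ := M.near t x s
  refine Or.inr ⟨t, y, ?_⟩
  funext e
  by_cases he : M.pen e = true
  · rw [comp, M.cov_pen he, M.cov_pen he]
    split_ifs with h
    · rw [hY e he h, h]
    · rfl
  · rw [Bool.not_eq_true] at he
    rw [comp, M.cov_wire he, M.cov_wire he, hy]
    split_ifs with h
    · rw [hY' e he (by rw [sg_zero] at h; omega)]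
    · rfl

theorem comp_mem [Finite E] (M : Mdl E) {X Y : E → SignType} (hX : X ∈ M.L) (hY : Y ∈ M.L) :
    comp X Y ∈ M.L := by
  rcases hX with ⟨s, rfl⟩ | ⟨t1, x1, rfl⟩ <;> rcases hY with ⟨s', rfl⟩ | ⟨t2, x2, rfl⟩
  · refine Or.inl ⟨if s = 0 then s' else s, ?_⟩
    funext e
    unfold comp spole
    split_ifs <;> simp_all
  · by_cases hs : s = 0
    · have : comp (M.spole s) (M.cov t2 x2) = M.cov t2 x2 := by
        funext e
        rw [comp, if_pos]
        unfold spole
        split_ifs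
        · rfl
        · exact hs
      rw [this]; exact M.cov_mem _ _
    · obtain ⟨y, hy⟩ := M.far t2 s hs
      refine Or.inr ⟨t2, y, ?_⟩
      funext e
      by_cases he : M.pen e = true
      · rw [comp, M.spole_pen he, if_pos rfl, M.cov_pen he, M.cov_pen he]
      · rw [Bool.not_eq_true] at he
        rw [comp, M.spole_wire he, if_neg hs, M.cov_wire he, hy]
  · exact M.comp_same t1 x1 _ s' (fun e he _ => M.spole_pen he) (fun e he _ => M.spole_wire he)
  · refine M.normalize (fun X Y => comp X Y ∈ M.L) ?_ ?_ ?_ ?_ t1 t2 x1 x2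
    · intro t x1 x2
      exact M.comp_same t x1 _ (sg (x2 - x1)) (fun e he h => by rw [M.cov_pen he, h])
        (fun e he h => by rw [M.cov_wire he, h])
    · intro t x1 x2
      refine M.comp_same t x1 _ (sg (x2 + x1)) (fun e he h => ?_) (fun e he h => ?_)
      · rw [M.cov_pen he, (M.hp e he).per, h]; rfl
      · rw [M.cov_wire he, M.hanti, h]; congr 1; ring
    · intro t1 t2 x1 x2 h1 h2
      exact M.comp_lt h1 h2
    · intro t1 t2 x1 x2 h1 h2
      have := M.rev.comp_lt (t1 := -t2) (t2 := -t1) (x1 := x2) (x2 := x1) (by omega)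
        (by change _ < _ + M.T; omega)
      rw [L_rev, cov_rev, cov_rev, neg_neg, neg_neg] at this
      exact this

theorem el_same (M : Mdl E) (t x1 x2 : ℤ) : M.El (M.cov t x1) (M.cov t x2) := by
  intro e he
  have hew : M.pen e = false := by
    by_contra hcon
    rw [Bool.not_eq_false] at hcon
    unfold Sep at he
    rw [M.cov_pen hcon, M.cov_pen hcon] at he
    exact t3 _ he.1 he.2
  refine ⟨_, M.cov_mem t (M.h t e), ?_, ?_⟩
  · rw [M.cov_wire hew, sub_self]; rfl
  · intro f hf
    by_cases hfp : M.pen f = true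
    · rw [comp, M.cov_pen hfp, M.cov_pen hfp, M.cov_pen hfp]
      split_ifs <;> rfl
    · rw [Bool.not_eq_true] at hfp
      unfold Sep at he hf
      rw [M.cov_wire hew, M.cov_wire hew] at he
      rw [M.cov_wire hfp, M.cov_wire hfp] at hf
      rw [comp, M.cov_wire hfp, M.cov_wire hfp, M.cov_wire hfp]
      by_cases h1 : sg (x1 - M.h t f) = -1 ∨ sg (x2 - M.h t f) = -1
      · have h2 : (if sg (x1 - M.h t f) = 0 then sg (x2 - M.h t f) else sg (x1 - M.h t f)) = -1 := by
          revert hf h1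
          generalize sg (x1 - M.h t f) = a
          generalize sg (x2 - M.h t f) = b
          revert a b; decide
        rw [h2, sg_neg]
        have h3 := w2 _ _ hf (by rw [h2]; decide)
        rw [sg_ne_pos, sg_ne_pos] at h3
        have h4 : (sg (x1 - M.h t e) = 1 ∧ sg (x2 - M.h t e) = -1) ∨
            (sg (x1 - M.h t e) = -1 ∧ sg (x2 - M.h t e) = 1) := by
          revert he
          generalize sg (x1 - M.h t e) = a
          generalize sg (x2 - M.h t e) = b
          revert a b; decide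
        rw [sg_pos, sg_neg, sg_pos, sg_neg] at h4
        omega
      · push Not at h1
        by_cases h2 : sg (x1 - M.h t f) = 1 ∨ sg (x2 - M.h t f) = 1
        · have h2 : (if sg (x1 - M.h t f) = 0 then sg (x2 - M.h t f) else sg (x1 - M.h t f)) = 1 := by
            revert hf h2
            generalize sg (x1 - M.h t f) = a
            generalize sg (x2 - M.h t f) = b
            revert a b; decide
          rw [h2, sg_pos]
          have h3 := w1 _ _ hf (by rw [h2]; decide)
          rw [sg_ne_neg, sg_ne_neg] at h3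
          have h4 : (sg (x1 - M.h t e) = 1 ∧ sg (x2 - M.h t e) = -1) ∨
              (sg (x1 - M.h t e) = -1 ∧ sg (x2 - M.h t e) = 1) := by
            revert he
            generalize sg (x1 - M.h t e) = a
            generalize sg (x2 - M.h t e) = b
            revert a b; decide
          rw [sg_pos, sg_neg, sg_pos, sg_neg] at h4
          omega
        · push Not at h2
          exfalso
          have h3 := v1 _ h2.1 h1.1
          have h4 := v1 _ h2.2 h1.2
          rw [sg_zero] at h3 h4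
          have h5 : x1 = x2 := by omega
          rw [h5] at he
          exact t3 _ he.1 he.2

theorem el_spole (M : Mdl E) (s s' : SignType) : M.El (M.spole s) (M.spole s') := by
  intro e he
  have hew : M.pen e = false := by
    by_contra hcon
    rw [Bool.not_eq_false] at hcon
    unfold Sep at he
    rw [M.spole_pen hcon] at he
    exact he.1 rfl
  refine ⟨_, M.spole_mem 0, ?_, ?_⟩
  · rw [M.spole_wire hew]
  · intro f hf
    by_cases hfp : M.pen f = true
    · rw [comp, M.spole_pen hfp, M.spole_pen hfp, M.spole_pen hfp]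
      split_ifs <;> rfl
    · rw [Bool.not_eq_true] at hfp
      exfalso
      apply hf
      unfold Sep at he ⊢
      rw [M.spole_wire hew, M.spole_wire hew] at he
      rw [M.spole_wire hfp, M.spole_wire hfp]
      exact he

theorem el_spole_cov (M : Mdl E) (s : SignType) (t x : ℤ) : M.El (M.spole s) (M.cov t x) := by
  intro e he
  have hew : M.pen e = false := by
    by_contra hcon
    rw [Bool.not_eq_false] at hcon
    unfold Sep at he
    rw [M.spole_pen hcon] at he
    exact he.1 rfl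
  unfold Sep at he
  rw [M.spole_wire hew, M.cov_wire hew] at he
  refine ⟨_, M.cov_mem t (M.h t e), ?_, ?_⟩
  · rw [M.cov_wire hew, sub_self]; rfl
  · intro f hf
    by_cases hfp : M.pen f = true
    · rw [comp, M.spole_pen hfp, M.cov_pen hfp, M.cov_pen hfp, if_pos rfl]
    · rw [Bool.not_eq_true] at hfp
      unfold Sep at hf
      rw [M.spole_wire hfp, M.cov_wire hfp] at hf
      rw [comp, M.spole_wire hfp, M.cov_wire hfp, if_neg he.1]
      by_cases hs : s = 1
      · subst hs
        have h1 : sg (x - M.h t e) = -1 := by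
          revert he; generalize sg (x - M.h t e) = a; revert a; decide
        have h2 : sg (x - M.h t f) ≠ -1 := by
          revert hf; generalize sg (x - M.h t f) = a; revert a; decide
        rw [sg_neg] at h1
        rw [sg_ne_neg] at h2
        rw [sg_pos]; omega
      · have hs := v2 _ he.1 hs
        subst hs
        have h1 : sg (x - M.h t e) = 1 := by
          revert he; generalize sg (x - M.h t e) = a; revert a; decide
        have h2 : sg (x - M.h t f) ≠ 1 := by
          revert hf; generalize sg (x - M.h t f) = a; revert a; decide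
        rw [sg_pos] at h1
        rw [sg_ne_pos] at h2
        rw [sg_neg]; omega

end Mdl

end Pool.Agent.R138.Om
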