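import Pool.Agent.R138.OmSweep2

/-!
The covectors of a discrete sweep model form an oriented matroid: elimination.
-/

namespace Pool.Agent.R138.Om

variable {E : Type*}

namespace Mdl

/-- the required sign of a wire gives inequalities at both ends -/
theorem ineq1 (M : Mdl E) {t1 t2 x1 x2 : ℤ} {f : E} (hf : M.pen f = false)
    (hs : ¬ Sep (M.cov t1 x1) (M.cov t2 x2) f) (hr : comp (M.cov t1 x1) (M.cov t2 x2) f ≠ -1) :
    M.h t1 f ≤ x1 ∧ M.h t2 f ≤ x2 := by
  unfold Sep at hs
  rw [comp, M.cov_wire hf, M.cov_wire hf] at hr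
  rw [M.cov_wire hf, M.cov_wire hf] at hs
  have := w1 _ _ hs hr
  rw [sg_ne_neg, sg_ne_neg] at this
  omega

theorem ineq2 (M : Mdl E) {t1 t2 x1 x2 : ℤ} {f : E} (hf : M.pen f = false)
    (hs : ¬ Sep (M.cov t1 x1) (M.cov t2 x2) f) (hr : comp (M.cov t1 x1) (M.cov t2 x2) f ≠ 1) :
    x1 ≤ M.h t1 f ∧ x2 ≤ M.h t2 f := by
  unfold Sep at hs
  rw [comp, M.cov_wire hf, M.cov_wire hf] at hr
  rw [M.cov_wire hf, M.cov_wire hf] at hs
  have := w2 _ _ hs hr
  rw [sg_ne_pos, sg_ne_pos] at this
  omega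

theorem lt_mid (M : Mdl E) {t1 t t2 : ℤ} (h1 : t1 < t) (h2 : t < t2) (h3 : t2 < t1 + M.T)
    {f g : E} (hf : M.pen f = false) (hg : M.pen g = false) (hne : f ≠ g)
    (h4 : M.h t1 f ≤ M.h t1 g) (h5 : M.h t2 f ≤ M.h t2 g) : M.h t f < M.h t g := by
  have := (M.hh f g hf hg hne).mid t1 t t2 h1 h2 h3 (by beta_reduce; rw [sg_ne_pos]; omega)
    (by beta_reduce; rw [sg_ne_pos]; omega)
  beta_reduce at this
  rw [sg_neg] at this
  omega

theorem req_lt (M : Mdl E) {t1 t t2 x1 x2 : ℤ} (h1 : t1 < t) (h2 : t < t2) (h3 : t2 < t1 + M.T)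
    {f g : E} (hf : M.pen f = false) (hg : M.pen g = false) (hne : f ≠ g)
    (hsf : ¬ Sep (M.cov t1 x1) (M.cov t2 x2) f) (hsg : ¬ Sep (M.cov t1 x1) (M.cov t2 x2) g)
    (hrf : comp (M.cov t1 x1) (M.cov t2 x2) f ≠ -1)
    (hrg : comp (M.cov t1 x1) (M.cov t2 x2) g ≠ 1) : M.h t f < M.h t g := by
  have a1 := M.ineq1 hf hsf hrf
  have a2 := M.ineq2 hg hsg hrg
  exact M.lt_mid h1 h2 h3 hf hg hne (by omega) (by omega)

theorem pen_mid (M : Mdl E) {t1 t t2 x1 x2 : ℤ} (h1 : t1 < t) (h2 : t < t2) (h3 : t2 < t1 + M.T)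
    {f : E} (hf : M.pen f = true) (hs : ¬ Sep (M.cov t1 x1) (M.cov t2 x2) f) :
    M.p f t = comp (M.cov t1 x1) (M.cov t2 x2) f := by
  unfold Sep at hs
  rw [M.cov_pen hf, M.cov_pen hf] at hs
  rw [comp, M.cov_pen hf, M.cov_pen hf]
  exact (M.hp f hf).between h1 h2 h3 hs

/-- elimination of a pencil element -/
theorem el_pen [Finite E] (M : Mdl E) {t1 t2 x1 x2 : ℤ} (h1 : t1 < t2) (h2 : t2 < t1 + M.T)
    {e : E} (hep : M.pen e = true) (he : Sep (M.cov t1 x1) (M.cov t2 x2) e) :
    ∃ Z ∈ M.L, Z e = 0 ∧ ∀ f, ¬ Sep (M.cov t1 x1) (M.cov t2 x2) f →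
      Z f = comp (M.cov t1 x1) (M.cov t2 x2) f := by
  have he' := he
  unfold Sep at he'
  rw [M.cov_pen hep, M.cov_pen hep] at he'
  obtain ⟨t, ht1, ht2, ht0⟩ := (M.hp e hep).ivt h1 he'.1 (by rw [he'.2, neg_neg])
  obtain ⟨y, hy⟩ := M.level t (fun f => ¬ Sep (M.cov t1 x1) (M.cov t2 x2) f)
    (comp (M.cov t1 x1) (M.cov t2 x2)) (by
      intro f g hf hg hsf hsg hne hrf hrg
      exact M.req_lt ht1 ht2 h2 hf hg hne hsf hsg hrf hrg)
  refine ⟨_, M.cov_mem t y, by rw [M.cov_pen hep, ht0], ?_⟩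
  intro f hf
  by_cases hfp : M.pen f = true
  · rw [M.cov_pen hfp]
    exact M.pen_mid ht1 ht2 h2 hfp hf
  · rw [Bool.not_eq_true] at hfp
    rw [M.cov_wire hfp]
    exact hy f hfp hf

theorem exists_time (t1 t2 : ℤ) (h : t1 ≤ t2) (Q : ℤ → Prop) (hQ : Q t2) :
    ∃ t, t1 ≤ t ∧ t ≤ t2 ∧ Q t ∧ (t = t1 ∨ ¬ Q (t - 1)) := by
  classical
  have key : ∀ n : ℕ, ∀ t2, t2 = t1 + n → Q t2 →
      ∃ t, t1 ≤ t ∧ t ≤ t2 ∧ Q t ∧ (t = t1 ∨ ¬ Q (t - 1)) := by
    intro n
    induction n with
    | zero =>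
      intro t2 h2 hQ
      exact ⟨t2, by omega, le_refl _, hQ, Or.inl (by omega)⟩
    | succ n ih =>
      intro t2 h2 hQ
      by_cases h3 : Q (t2 - 1)
      · obtain ⟨t, a1, a2, a3, a4⟩ := ih (t2 - 1) (by push_cast at h2; omega) h3
        exact ⟨t, a1, by omega, a3, a4⟩
      · exact ⟨t2, by omega, le_refl _, hQ, Or.inr h3⟩
  exact key (t2 - t1).toNat t2 (by omega) hQ

/-- elimination of a wire, positive at the start -/
theorem el_wire (M : Mdl E) {t1 t2 x1 x2 : ℤ} (h1 : t1 < t2) (h2 : t2 < t1 + M.T)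
    {e : E} (hew : M.pen e = false) (he1 : M.cov t1 x1 e = 1) (he2 : M.cov t2 x2 e = -1) :
    ∃ Z ∈ M.L, Z e = 0 ∧ ∀ f, ¬ Sep (M.cov t1 x1) (M.cov t2 x2) f →
      Z f = comp (M.cov t1 x1) (M.cov t2 x2) f := by
  rw [M.cov_wire hew, sg_pos] at he1
  rw [M.cov_wire hew, sg_neg] at he2
  by_cases h0 : ∃ a, M.pen a = false ∧ ¬ Sep (M.cov t1 x1) (M.cov t2 x2) a ∧
      comp (M.cov t1 x1) (M.cov t2 x2) a = 0
  · obtain ⟨a, ha, hsa, hra⟩ := h0
    have a1 := M.ineq1 ha hsa (by rw [hra]; decide)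
    have a2 := M.ineq2 ha hsa (by rw [hra]; decide)
    have hea : e ≠ a := by
      rintro rfl
      omega
    have hA := M.hh e a hew ha hea
    have b1 : sg (M.h t1 e - M.h t1 a) = -1 := by rw [sg_neg]; omega
    have b2 : sg (M.h t2 e - M.h t2 a) = 1 := by rw [sg_pos]; omega
    obtain ⟨t, ht1, ht2, ht0⟩ := hA.ivt h1 (by beta_reduce; rw [b1]; decide)
      (by beta_reduce; rw [b1, b2]; decide)
    beta_reduce at ht0
    rw [sg_zero] at ht0
    refine ⟨_, M.cov_mem t (M.h t a), ?_, ?_⟩
    · rw [M.cov_wire hew, sg_zero]; omega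
    · intro f hf
      by_cases hfp : M.pen f = true
      · rw [M.cov_pen hfp]
        exact M.pen_mid ht1 ht2 h2 hfp hf
      · rw [Bool.not_eq_true] at hfp
        rw [M.cov_wire hfp]
        by_cases hfa : f = a
        · subst hfa
          rw [sub_self, hra]; rfl
        · by_cases hr : comp (M.cov t1 x1) (M.cov t2 x2) f = -1
          · have := M.req_lt ht1 ht2 h2 ha hfp (Ne.symm hfa) hsa hf (by rw [hra]; decide)
              (by rw [hr]; decide)
            rw [hr, sg_neg]; omega
          · have c1 := M.req_lt ht1 ht2 h2 hfp ha hfa hf hsa hr (by rw [hra]; decide)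
            by_cases hr' : comp (M.cov t1 x1) (M.cov t2 x2) f = 1
            · rw [hr', sg_pos]; omega
            · have c2 := M.req_lt ht1 ht2 h2 ha hfp (Ne.symm hfa) hsa hf (by rw [hra]; decide) hr'
              omega
  · -- no wire has to vanish
    have h0' : ∀ a, M.pen a = false → ¬ Sep (M.cov t1 x1) (M.cov t2 x2) a →
        comp (M.cov t1 x1) (M.cov t2 x2) a ≠ 0 := fun a b c d => h0 ⟨a, b, c, d⟩
    set Q : ℤ → Prop := fun t => ∀ f, M.pen f = false → ¬ Sep (M.cov t1 x1) (M.cov t2 x2) f →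
      comp (M.cov t1 x1) (M.cov t2 x2) f = 1 → M.h t f < M.h t e with hQ
    set P : ℤ → Prop := fun t => ∀ g, M.pen g = false → ¬ Sep (M.cov t1 x1) (M.cov t2 x2) g →
      comp (M.cov t1 x1) (M.cov t2 x2) g = -1 → M.h t e < M.h t g with hP
    have hQ2 : Q t2 := by
      intro f hf hsf hrf
      have := M.ineq1 hf hsf (by rw [hrf]; decide)
      omega
    have hP1 : P t1 := by
      intro f hf hsf hrf
      have := M.ineq2 hf hsf (by rw [hrf]; decide)
      omega
    obtain ⟨t, ht1, ht2, hQt, hor⟩ := exists_time t1 t2 h1.le Q hQ2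
    have hgood : ∃ t, t1 ≤ t ∧ t ≤ t2 ∧ Odd t ∧ Q t ∧ P t := by
      by_cases htt : t = t1
      · subst htt
        rcases Int.even_or_odd t with hev | hod
        · have hst : ∀ u, Alt M.T u → u t = -1 → u (t + 1) = -1 := by
            intro u hu h5
            have := hu.step (t1 := t) (t := t + 1) (t2 := t + 1) hev.add_one (Or.inr rfl)
              (le_refl _) (by omega)
            rw [this, h5, if_neg (by decide)]
          refine ⟨t + 1, by omega, by omega, hev.add_one, ?_, ?_⟩
          · intro f hf hsf hrf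
            have h5 := hQt f hf hsf hrf
            have := hst _ (M.hh f e hf hew (by rintro rfl; omega))
              (by beta_reduce; rw [sg_neg]; omega)
            beta_reduce at this
            rw [sg_neg] at this
            omega
          · intro f hf hsf hrf
            have h5 := hP1 f hf hsf hrf
            have := hst _ (M.hh e f hew hf (by rintro rfl; omega))
              (by beta_reduce; rw [sg_neg]; omega)
            beta_reduce at this
            rw [sg_neg] at this
            omega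
        · exact ⟨t, le_refl _, by omega, hod, hQt, hP1⟩
      · rcases hor with h5 | h5
        · exact absurd h5 htt
        have h5' : ∃ f, M.pen f = false ∧ ¬ Sep (M.cov t1 x1) (M.cov t2 x2) f ∧
            comp (M.cov t1 x1) (M.cov t2 x2) f = 1 ∧ M.h (t-1) e ≤ M.h (t-1) f := by
          by_contra hcon
          apply h5
          intro f hf hsf hrf
          by_contra hlt
          exact hcon ⟨f, hf, hsf, hrf, by omega⟩
        obtain ⟨f, hf, hsf, hrf, hle⟩ := h5'
        have h6 := hQt f hf hsf hrf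
        have hne : e ≠ f := by rintro rfl; omega
        have hA := M.hh e f hew hf hne
        have hz : M.h (t-1) e = M.h (t-1) f := by
          by_contra hz
          have h7 : sg (M.h (t-1) e - M.h (t-1) f) = -1 := by rw [sg_neg]; omega
          have h8 := hA.jump (t-1) (by beta_reduce; rw [h7]; decide)
          rw [show t - 1 + 1 = t by ring] at h8
          beta_reduce at h8
          rw [h7, show -(-1 : SignType) = 1 by decide, sg_ne_pos] at h8
          omega
        have hev : ¬ Odd (t-1) := by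
          intro ho
          apply hA.odd _ ho
          beta_reduce
          rw [sg_zero]; omega
        have hod : Odd t := by
          rw [Int.not_odd_iff_even] at hev
          have := hev.add_one
          rwa [show t - 1 + 1 = t by ring] at this
        refine ⟨t, ht1, ht2, hod, hQt, ?_⟩
        intro g hg hsg hrg
        have h7 : M.h (t-1) e < M.h (t-1) g := by
          by_cases h8 : t - 1 = t1
          · rw [h8]; exact hP1 g hg hsg hrg
          · rw [hz]
            exact M.req_lt (by omega) (by omega) h2 hf hg (by rintro rfl; rw [hrf] at hrg; exact absurd hrg (by decide))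
              hsf hsg (by rw [hrf]; decide) (by rw [hrg]; decide)
        have hA' := M.hh e g hew hg (by rintro rfl; omega)
        have h8 : sg (M.h (t-1) e - M.h (t-1) g) = -1 := by rw [sg_neg]; omega
        have h9 := hA'.jump (t-1) (by beta_reduce; rw [h8]; decide)
        have h10 := hA'.odd t hod
        rw [show t - 1 + 1 = t by ring] at h9
        beta_reduce at h9 h10
        rw [h8, show -(-1 : SignType) = 1 by decide] at h9
        have := v2 _ h10 h9
        rw [sg_neg] at this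
        omega
    obtain ⟨t, ht1, ht2, hod, hQt, hPt⟩ := hgood
    refine ⟨_, M.cov_mem t (M.h t e), by rw [M.cov_wire hew, sub_self]; rfl, ?_⟩
    intro f hf
    by_cases hfp : M.pen f = true
    · rw [M.cov_pen hfp]
      by_cases ha : t = t1
      · subst ha
        rw [comp, M.cov_pen hfp, M.cov_pen hfp, if_neg ((M.hp f hfp).odd _ hod)]
      · by_cases hb : t = t2
        · subst hb
          have hne := (M.hp f hfp).odd _ hod
          unfold Sep at hf
          rw [M.cov_pen hfp, M.cov_pen hfp] at hf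
          rw [comp, M.cov_pen hfp, M.cov_pen hfp]
          revert hf hne
          generalize M.p f t1 = a
          generalize M.p f t = b
          revert a b; decide
        · exact M.pen_mid (by omega) (by omega) h2 hfp hf
    · rw [Bool.not_eq_true] at hfp
      rw [M.cov_wire hfp]
      have hne := h0' f hfp hf
      by_cases hr : comp (M.cov t1 x1) (M.cov t2 x2) f = 1
      · rw [hr, sg_pos]
        have := hQt f hfp hf hr
        omega
      · have hr := v2 _ hne hr
        rw [hr, sg_neg]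
        have := hPt f hfp hf hr
        omega

theorem el_lt [Finite E] (M : Mdl E) {t1 t2 x1 x2 : ℤ} (h1 : t1 < t2) (h2 : t2 < t1 + M.T) :
    M.El (M.cov t1 x1) (M.cov t2 x2) := by
  intro e he
  by_cases hep : M.pen e = true
  · exact M.el_pen h1 h2 hep he
  rw [Bool.not_eq_true] at hep
  by_cases he1 : M.cov t1 x1 e = 1
  · refine M.el_wire h1 h2 hep he1 ?_
    have := he.2
    rw [he1] at this
    revert this
    generalize M.cov t2 x2 e = a
    revert a; decide
  · have he1 := v2 _ he.1 he1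
    have he2 : M.cov t2 x2 e = 1 := by
      have := he.2
      rw [he1] at this
      revert this
      generalize M.cov t2 x2 e = a
      revert a; decide
    -- reverse the time
    have hs : ∀ f, Sep (M.rev.cov (-t2) x2) (M.rev.cov (-t1) x1) f ↔
        Sep (M.cov t1 x1) (M.cov t2 x2) f := by
      intro f
      rw [cov_rev, cov_rev, neg_neg, neg_neg]
      have a1 := w5 (M.cov t1 x1 f) (M.cov t2 x2 f)
      have a2 := w5 (M.cov t2 x2 f) (M.cov t1 x1 f)
      unfold Sep
      tauto
    obtain ⟨Z, hZ, hZe, hZf⟩ := M.rev.el_wire (t1 := -t2) (t2 := -t1) (x1 := x2) (x2 := x1)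
      (e := e) (by omega) (by change _ < _ + M.T; omega) hep
      (by rw [cov_rev, neg_neg]; exact he2) (by rw [cov_rev, neg_neg]; exact he1)
    rw [L_rev] at hZ
    refine ⟨Z, hZ, hZe, fun f hf => ?_⟩
    rw [hZf f (fun h => hf ((hs f).1 h)), cov_rev, cov_rev, neg_neg, neg_neg]
    exact (w6 _ _ hf).symm

/-- opposite meridians -/
theorem el_opp (M : Mdl E) (t x1 x2 : ℤ) : M.El (M.cov t x1) (M.cov (t + M.T) x2) := by
  intro e he
  have hpen : ∀ f, M.pen f = true → ¬ Sep (M.cov t x1) (M.cov (t + M.T) x2) f →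
      M.p f t = 0 := by
    intro f hf hs
    unfold Sep at hs
    rw [M.cov_pen hf, M.cov_pen hf, (M.hp f hf).per, neg_neg] at hs
    by_contra hcon
    exact hs ⟨hcon, rfl⟩
  have hpen' : ∀ f, M.pen f = true → ¬ Sep (M.cov t x1) (M.cov (t + M.T) x2) f →
      comp (M.cov t x1) (M.cov (t + M.T) x2) f = 0 := by
    intro f hf hs
    rw [comp, M.cov_pen hf, M.cov_pen hf, (M.hp f hf).per, hpen f hf hs]
    rfl
  have hwire : ∀ f, M.pen f = false → ¬ Sep (M.cov t x1) (M.cov (t + M.T) x2) f →
      comp (M.cov t x1) (M.cov (t + M.T) x2) f = sg (x1 + x2) ∧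
      ((M.h t f ≤ x1 ∧ - x2 ≤ M.h t f) ∨ (x1 ≤ M.h t f ∧ M.h t f ≤ - x2)) := by
    intro f hf hs
    by_cases hr1 : comp (M.cov t x1) (M.cov (t + M.T) x2) f = 1
    · have a1 := M.ineq1 hf hs (by rw [hr1]; decide)
      rw [M.hanti] at a1
      refine ⟨?_, Or.inl (by omega)⟩
      rw [hr1]
      symm
      rw [sg_pos]
      by_contra hcon
      rw [comp, M.cov_wire hf, M.cov_wire hf, M.hanti, show x1 - M.h t f = 0 by omega,
        show x2 - -M.h t f = 0 by omega] at hr1
      revert hr1; decide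
    · by_cases hr2 : comp (M.cov t x1) (M.cov (t + M.T) x2) f = -1
      · have a1 := M.ineq2 hf hs (by rw [hr2]; decide)
        rw [M.hanti] at a1
        refine ⟨?_, Or.inr (by omega)⟩
        rw [hr2]
        symm
        rw [sg_neg]
        by_contra hcon
        rw [comp, M.cov_wire hf, M.cov_wire hf, M.hanti, show x1 - M.h t f = 0 by omega,
          show x2 - -M.h t f = 0 by omega] at hr2
        revert hr2; decide
      · have a1 := M.ineq1 hf hs hr2
        have a2 := M.ineq2 hf hs hr1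
        rw [M.hanti] at a1 a2
        refine ⟨?_, Or.inl (by omega)⟩
        rw [v1 _ hr1 hr2]
        symm
        rw [sg_zero]; omega
  by_cases hep : M.pen e = true
  · refine ⟨_, M.spole_mem (sg (x1 + x2)), M.spole_pen hep, fun f hf => ?_⟩
    by_cases hfp : M.pen f = true
    · rw [M.spole_pen hfp, hpen' f hfp hf]
    · rw [Bool.not_eq_true] at hfp
      rw [M.spole_wire hfp, (hwire f hfp hf).1]
  rw [Bool.not_eq_true] at hep
  have he' : (M.h t e < x1 ∧ M.h t e < -x2) ∨ (x1 < M.h t e ∧ -x2 < M.h t e) := by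
    unfold Sep at he
    rw [M.cov_wire hep, M.cov_wire hep, M.hanti] at he
    by_cases h1 : sg (x1 - M.h t e) = 1
    · have h2 : sg (x2 - -M.h t e) = -1 := by
        rw [h1] at he
        revert he
        generalize sg (x2 - -M.h t e) = a
        revert a; decide
      rw [sg_pos] at h1
      rw [sg_neg] at h2
      omega
    · have h1 := v2 _ he.1 h1
      have h2 : sg (x2 - -M.h t e) = 1 := by
        rw [h1] at he
        revert he
        generalize sg (x2 - -M.h t e) = a
        revert a; decide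
      rw [sg_neg] at h1
      rw [sg_pos] at h2
      omega
  -- choose the sign
  by_cases h0 : x1 + x2 = 0
  · refine ⟨_, M.zero_mem, rfl, fun f hf => ?_⟩
    by_cases hfp : M.pen f = true
    · rw [hpen' f hfp hf]
    · rw [Bool.not_eq_true] at hfp
      rw [(hwire f hfp hf).1, h0]; rfl
  by_cases hc : (0 < x1 + x2 ∧ x1 < M.h t e) ∨ (x1 + x2 < 0 ∧ M.h t e < x1)
  · refine ⟨_, M.cov_mem t (M.h t e), by rw [M.cov_wire hep, sub_self]; rfl, fun f hf => ?_⟩
    by_cases hfp : M.pen f = true
    · rw [M.cov_pen hfp, hpen' f hfp hf, hpen f hfp hf]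
    · rw [Bool.not_eq_true] at hfp
      obtain ⟨a1, a2⟩ := hwire f hfp hf
      rw [M.cov_wire hfp, a1]
      rcases hc with hc | hc
      · rw [sg_pos.2 hc.1, sg_pos]; omega
      · rw [sg_neg.2 hc.1, sg_neg]; omega
  · refine ⟨_, M.neg_mem (M.cov_mem t (M.h t e)), ?_, fun f hf => ?_⟩
    · beta_reduce
      rw [M.cov_wire hep, sub_self]; rfl
    · beta_reduce
      by_cases hfp : M.pen f = true
      · rw [M.cov_pen hfp, hpen' f hfp hf, hpen f hfp hf]; rfl
      · rw [Bool.not_eq_true] at hfp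
        obtain ⟨a1, a2⟩ := hwire f hfp hf
        rw [M.cov_wire hfp, a1, ← sg_opp]
        rcases lt_or_gt_of_ne h0 with hc' | hc'
        · rw [sg_neg.2 hc', sg_neg]; omega
        · rw [sg_pos.2 hc', sg_pos]; omega

theorem el_mem [Finite E] (M : Mdl E) {X Y : E → SignType} (hX : X ∈ M.L) (hY : Y ∈ M.L) :
    M.El X Y := by
  rcases hX with ⟨s, rfl⟩ | ⟨t1, x1, rfl⟩ <;> rcases hY with ⟨s', rfl⟩ | ⟨t2, x2, rfl⟩
  · exact M.el_spole _ _
  · exact M.el_spole_cov _ _ _
  · exact (M.el_spole_cov _ _ _).swap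
  · exact M.normalize M.El (fun t x1 x2 => M.el_same t x1 x2) (fun t x1 x2 => M.el_opp t x1 x2)
      (fun t1 t2 x1 x2 h1 h2 => M.el_lt h1 h2) (fun t1 t2 x1 x2 h1 h2 => (M.el_lt h1 h2).swap)
      t1 t2 x1 x2

theorem isOM [Finite E] (M : Mdl E) : IsOM M.L where
  zero := M.zero_mem
  neg _ hX := M.neg_mem hX
  comp _ hX _ hY := M.comp_mem hX hY
  elim _ hX _ hY e he := M.el_mem hX hY e he

end Mdl

end Pool.Agent.R138.Om
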