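import Pool.Agent.R138.OmSweep3
import Pool.Agent.R138.OmLevi

/-!
Slices of a sweep model give extensions of the dual oriented matroid.
-/

namespace Pool.Agent.R138.Om

variable {E : Type*}

/-- reorientation -/
def reor (ε : E → SignType) (L : Set (E → SignType)) : Set (E → SignType) :=
  {X | (fun e => ε e * X e) ∈ L}

theorem q1 : ∀ a x : SignType, a ≠ 0 → a * x = 0 → x = 0 := by decide
theorem q2 : ∀ a x : SignType, a ≠ 0 → a * (a * x) = x := by decide
theorem q3 : ∀ a x y : SignType, a ≠ 0 → a * x = - (a * y) → x = -y := by decide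
theorem q4 : ∀ a x y : SignType, a * (if x = 0 then y else x) =
    if a * x = 0 then a * y else a * x := by decide
theorem q5 : ∀ a x : SignType, a * -x = -(a * x) := by decide

theorem IsOM.reor {L : Set (E → SignType)} (hL : IsOM L) {ε : E → SignType}
    (hε : ∀ e, ε e ≠ 0) : IsOM (reor ε L) where
  zero := by
    change (fun e => ε e * 0) ∈ L
    simp only [mul_zero]
    exact hL.zero
  neg X hX := by
    have := hL.neg _ hX
    change (fun e => ε e * - X e) ∈ L
    simpa only [q5] using this
  comp X hX Y hY := by
    have := hL.comp _ hX _ hY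
    change (fun e => ε e * Om.comp X Y e) ∈ L
    convert this using 1
    funext e
    exact q4 _ _ _
  elim X hX Y hY e he := by
    have hs : ∀ f, Sep (fun e => ε e * X e) (fun e => ε e * Y e) f ↔ Sep X Y f := by
      intro f
      unfold Sep
      beta_reduce
      have := hε f
      revert this
      generalize ε f = a
      generalize X f = b
      generalize Y f = c
      revert a b c; decide
    obtain ⟨Z, hZ, h1, h2⟩ := hL.elim _ hX _ hY e ((hs e).2 he)
    refine ⟨fun f => ε f * Z f, ?_, ?_, ?_⟩
    · change (fun f => ε f * (ε f * Z f)) ∈ L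
      convert hZ using 1
      funext f
      exact q2 _ _ (hε f)
    · beta_reduce; rw [h1, mul_zero]
    · intro f hf
      beta_reduce
      rw [h2 f (fun h => hf ((hs f).1 h))]
      unfold Om.comp
      beta_reduce
      have := hε f
      revert this
      generalize ε f = a
      generalize X f = b
      generalize Y f = c
      revert a b c; decide

namespace Mdl

/-- adding a pencil element -/
def ext (M : Mdl E) (u : ℤ → SignType) (hu : Alt M.T u) : Mdl (Option E) where
  T := M.T
  pen := fun o => o.elim true M.pen
  p := fun o => o.elim u M.p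
  h := fun t o => o.elim 0 (M.h t)
  hT := M.hT
  hp c hc := by
    cases c with
    | none => exact hu
    | some c => exact M.hp c hc
  hh i j hi hj hij := by
    cases i with
    | none => exact absurd hi (by simp)
    | some i =>
      cases j with
      | none => exact absurd hj (by simp)
      | some j => exact M.hh i j hi hj (fun h => hij (by rw [h]))
  hanti t i := by
    cases i with
    | none => rfl
    | some i => exact M.hanti t i
  heven t i := by
    cases i with
    | none => exact ⟨0, rfl⟩
    | some i => exact M.heven t i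

theorem ext_cov (M : Mdl E) (u : ℤ → SignType) (hu : Alt M.T u) (t x : ℤ) (e : E) :
    (M.ext u hu).cov t x (some e) = M.cov t x e := rfl

theorem ext_cov_none (M : Mdl E) (u : ℤ → SignType) (hu : Alt M.T u) (t x : ℤ) :
    (M.ext u hu).cov t x none = u t := rfl

theorem ext_spole (M : Mdl E) (u : ℤ → SignType) (hu : Alt M.T u) (s : SignType) (e : E) :
    (M.ext u hu).spole s (some e) = M.spole s e := rfl

theorem ext_spole_none (M : Mdl E) (u : ℤ → SignType) (hu : Alt M.T u) (s : SignType) :
    (M.ext u hu).spole s none = 0 := rfl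

theorem ext_del (M : Mdl E) (u : ℤ → SignType) (hu : Alt M.T u) (W : E → SignType) :
    W ∈ M.L ↔ ∃ W' ∈ (M.ext u hu).L, ∀ e, W' (some e) = W e := by
  constructor
  · rintro (⟨s, rfl⟩ | ⟨t, x, rfl⟩)
    · exact ⟨_, (M.ext u hu).spole_mem s, fun e => rfl⟩
    · exact ⟨_, (M.ext u hu).cov_mem t x, fun e => rfl⟩
  · rintro ⟨W', (⟨s, rfl⟩ | ⟨t, x, rfl⟩), h⟩
    · refine Or.inl ⟨s, ?_⟩
      funext e; exact (h e).symm
    · refine Or.inr ⟨t, x, ?_⟩
      funext e; exact (h e).symm

/-- the extension theorem for a sweep through `g`, `f` -/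
theorem euclid [Finite E] (M : Mdl E) {ε : E → SignType} (hε : ∀ e, ε e ≠ 0) {g f : E}
    (hgf : g ≠ f) (hg : M.pen g = true) (hf : M.pen f = true)
    (hgf' : ∀ t, ¬ (M.p g t = 0 ∧ M.p f t = 0)) {w : E} (hw : M.pen w = false)
    (hgen : ∀ t, ∃ i j, M.pen i = false ∧ M.pen j = false ∧ M.h t i ≠ M.h t j)
    {Y : E → SignType} (hY : IsMin (dual (reor ε M.L)) Y) (hYg : Y g ≠ 0) (hYf : Y f ≠ 0) :
    ∃ N : Set (Option E → SignType), IsOM N ∧
      (∀ X : E → SignType, X ∈ dual (reor ε M.L) ↔ ∃ X' ∈ N, ∀ e, X' (some e) = X e) ∧
      (∃ X ∈ N, X none ≠ 0) ∧ (∀ X ∈ N, X (some g) = 0 → X (some f) = 0 → X none = 0) ∧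
      (fun o => Option.elim o 0 Y) ∈ N := by
  classical
  have hL : IsOM (reor ε M.L) := M.isOM.reor hε
  -- the slice
  have hslice : ∃ u : ℤ → SignType, Alt M.T u ∧
      ∀ t x, (∀ e, e ≠ g → e ≠ f → Y e ≠ 0 → M.cov t x e = 0) → u t = 0 := by
    by_cases h1 : ∃ a, a ≠ g ∧ a ≠ f ∧ Y a ≠ 0 ∧ M.pen a = true
    · obtain ⟨a, ha1, ha2, ha3, ha4⟩ := h1
      refine ⟨M.p a, M.hp a ha4, fun t x h => ?_⟩
      have := h a ha1 ha2 ha3
      rwa [M.cov_pen ha4] at this
    · by_cases h2 : ∃ a b, a ≠ b ∧ Y a ≠ 0 ∧ Y b ≠ 0 ∧ M.pen a = false ∧ M.pen b = false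
      · obtain ⟨a, b, hab, ha, hb, hap, hbp⟩ := h2
        refine ⟨fun t => sg (M.h t a - M.h t b), M.hh a b hap hbp hab, fun t x h => ?_⟩
        have e1 := h a (by rintro rfl; rw [hg] at hap; exact absurd hap (by decide))
          (by rintro rfl; rw [hf] at hap; exact absurd hap (by decide)) ha
        have e2 := h b (by rintro rfl; rw [hg] at hbp; exact absurd hbp (by decide))
          (by rintro rfl; rw [hf] at hbp; exact absurd hbp (by decide)) hb
        rw [M.cov_wire hap, sg_zero] at e1
        rw [M.cov_wire hbp, sg_zero] at e2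
        beta_reduce
        rw [sg_zero]; omega
      · exfalso
        -- the support of Y is contained in {g, f, a}
        obtain ⟨a, ha, haY⟩ : ∃ a, M.pen a = false ∧ ∀ b, M.pen b = false → b ≠ a → Y b = 0 := by
          by_cases h3 : ∃ a, M.pen a = false ∧ Y a ≠ 0
          · obtain ⟨a, ha, haY⟩ := h3
            refine ⟨a, ha, fun b hb hba => ?_⟩
            by_contra hbY
            exact h2 ⟨a, b, Ne.symm hba, haY, hbY, ha, hb⟩
          · refine ⟨w, hw, fun b hb _ => ?_⟩
            by_contra hbY
            exact h3 ⟨b, hb, hbY⟩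
        obtain ⟨t, _, _, ht⟩ := (M.hp f hf).ivt (t1 := 1) (t2 := 1 + M.T) (by have := M.hT; omega)
          ((M.hp f hf).odd 1 odd_one) ((M.hp f hf).per 1)
        have hgt : M.p g t ≠ 0 := fun h => hgf' t ⟨h, ht⟩
        set V : E → SignType := fun e => ε e * M.cov t (M.h t a) e with hV
        have hVm : V ∈ reor ε M.L := by
          change (fun e => ε e * V e) ∈ M.L
          have : (fun e => ε e * V e) = M.cov t (M.h t a) := by
            funext e
            exact q2 _ _ (hε e)
          rw [this]; exact M.cov_mem _ _
        have ho := hY.1 V hVm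
        have hall : ∀ e, e ≠ g → Y e * V e = 0 := by
          intro e he
          by_cases hep : M.pen e = true
          · by_cases hef : e = f
            · subst hef
              rw [hV]; beta_reduce
              rw [M.cov_pen hep, ht, mul_zero, mul_zero]
            · have : Y e = 0 := by
                by_contra hc
                exact h1 ⟨e, he, hef, hc, hep⟩
              rw [this, zero_mul]
          · rw [Bool.not_eq_true] at hep
            by_cases hea : e = a
            · subst hea
              rw [hV]; beta_reduce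
              rw [M.cov_wire hep, sub_self]
              change Y e * (ε e * 0) = 0
              rw [mul_zero, mul_zero]
            · rw [haY e hep hea, zero_mul]
        have hg0 : Y g * V g ≠ 0 := by
          rw [hV]; beta_reduce
          rw [M.cov_pen hg]
          exact mul_ne_zero hYg (mul_ne_zero (hε g) hgt)
        unfold Orth at ho
        have key : ∀ v : SignType, v ≠ 0 → ((∃ e, Y e * V e = v) ↔ Y g * V g = v) := by
          intro v hv
          constructor
          · rintro ⟨e, he⟩
            by_cases heg : e = g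
            · rw [← heg]; exact he
            · rw [hall e heg] at he
              exact absurd he.symm hv
          · intro h; exact ⟨g, h⟩
        rw [key 1 (by decide), key (-1) (by decide)] at ho
        revert ho hg0
        generalize Y g * V g = v
        revert v; decide
  obtain ⟨u, hu, hus⟩ := hslice
  set ε' : Option E → SignType := fun o => o.elim 1 ε with hε'
  have hε'0 : ∀ o, ε' o ≠ 0 := by
    intro o
    cases o with
    | none => exact (by decide : (1 : SignType) ≠ 0)
    | some e => exact hε e
  have hLs : IsOM (reor ε' (M.ext u hu).L) := (M.ext u hu).isOM.reor hε'0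
  have hnone : ∀ (W : Option E → SignType), (fun o => ε' o * W o) none = W none := by
    intro W
    change (1 : SignType) * W none = W none
    rw [one_mul]
  refine dual_extension hL hgf hY hYg hYf hLs ?_ ?_ ?_ ?_ ?_
  · intro W
    constructor
    · intro hW
      obtain ⟨W', hW', h⟩ := (M.ext_del u hu _).1 hW
      refine ⟨fun o => ε' o * W' o, ?_, fun e => ?_⟩
      · change (fun o => ε' o * (ε' o * W' o)) ∈ (M.ext u hu).L
        convert hW' using 1
        funext o
        exact q2 _ _ (hε'0 o)
      · beta_reduce
        rw [h e]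
        exact q2 _ _ (hε e)
    · rintro ⟨W', hW', h⟩
      change (fun e => ε e * W e) ∈ M.L
      rw [M.ext_del u hu]
      refine ⟨_, hW', fun e => ?_⟩
      beta_reduce
      rw [h e]
      rfl
  · refine ⟨fun o => ε' o * (M.ext u hu).cov 1 0 o, ?_, ?_⟩
    · change (fun o => ε' o * (ε' o * (M.ext u hu).cov 1 0 o)) ∈ (M.ext u hu).L
      convert (M.ext u hu).cov_mem 1 0 using 1
      funext o
      exact q2 _ _ (hε'0 o)
    · beta_reduce
      rw [ext_cov_none]
      exact mul_ne_zero (hε'0 none) (hu.odd 1 odd_one)
  · intro W hW h1 h2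
    rw [← hnone W]
    have hW' : (fun o => ε' o * W o) ∈ (M.ext u hu).L := hW
    have e1 : (fun o => ε' o * W o) (some g) = 0 := by beta_reduce; rw [h1, mul_zero]
    have e2 : (fun o => ε' o * W o) (some f) = 0 := by beta_reduce; rw [h2, mul_zero]
    rcases hW' with ⟨s, hs⟩ | ⟨t, x, hs⟩
    · rw [hs]; rfl
    · rw [hs] at e1 e2 ⊢
      rw [ext_cov, M.cov_pen hg] at e1
      rw [ext_cov, M.cov_pen hf] at e2
      exact absurd ⟨e1, e2⟩ (hgf' t)
  · intro W hW h1
    rw [← hnone W]
    have hW' : (fun o => ε' o * W o) ∈ (M.ext u hu).L := hW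
    rcases hW' with ⟨s, hs⟩ | ⟨t, x, hs⟩
    · rw [hs]; rfl
    · rw [hs, ext_cov_none]
      apply hus t x
      intro e he1 he2 he3
      have h2 := h1 e he1 he2 he3
      have h3 := congrFun hs (some e)
      beta_reduce at h3
      rw [h2, mul_zero, ext_cov] at h3
      exact h3.symm
  · intro W hW h1 e
    have hW' : (fun o => ε o * W o) ∈ M.L := hW
    rcases hW' with ⟨s, hs⟩ | ⟨t, x, hs⟩
    · have h2 : s = 0 := by
        have := congrFun hs w
        beta_reduce at this
        rw [M.spole_wire hw, h1 w (by rintro rfl; rw [hg] at hw; exact absurd hw (by decide))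
          (by rintro rfl; rw [hf] at hw; exact absurd hw (by decide)), mul_zero] at this
        exact this.symm
      have := congrFun hs e
      beta_reduce at this
      rw [h2] at this
      apply q1 _ _ (hε e)
      rw [this]
      unfold spole
      split_ifs <;> rfl
    · exfalso
      obtain ⟨i, j, hi, hj, hij⟩ := hgen t
      have key : ∀ i, M.pen i = false → x = M.h t i := by
        intro i hi
        have := congrFun hs i
        beta_reduce at this
        rw [M.cov_wire hi, h1 i (by rintro rfl; rw [hg] at hi; exact absurd hi (by decide))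
          (by rintro rfl; rw [hf] at hi; exact absurd hi (by decide)), mul_zero] at this
        have := sg_zero.1 this.symm
        omega
      exact hij (by rw [← key i hi, ← key j hj])

end Mdl

end Pool.Agent.R138.Om
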