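import Pool.Agent.R138.OmChi

/-!
Sweep data, part 2.
-/

namespace Pool.Agent.R138.Om

/-- the sweep through the elements 1 and 8 -/
def d_1_8 : SD := ⟨50, 246751028319957646090780604155564165919404374754363095946598550863311258842179610407244012748486632485267291918217384913461099332581875033888684332616500017530494499698448939074246487724604381607792129114112, 724, 1, 8, 0⟩

theorem ok1_1_8 : d_1_8.OK1 where
  T0 := by decide +kernel
  T1 := by decide +kernel
  pc := by decide +kernel
  wc := by decide +kernel
  tc := by decide +kernel

theorem ok2_1_8 : SD.OK2 chi d_1_8 where
  pg := by decide +kernel
  pf := by decide +kernel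
  gf := by decide +kernel
  tgf := by decide +kernel
  pw := by decide +kernel
  gen := by decide +kernel
  vert := by decide +kernel
  pol := by decide +kernel

/-- the sweep through the elements 1 and 9 -/
def d_1_9 : SD := ⟨50, 4191670796546360138582663882380931427483039695627916508986418343267408555897360481086906597711437531437331908373836325861535124468006810454471882051072366802107687222300045922402402084976576407555616342008692736, 68, 1, 9, 0⟩

theorem ok1_1_9 : d_1_9.OK1 where
  T0 := by decide +kernel
  T1 := by decide +kernel
  pc := by decide +kernel
  wc := by decide +kernel
  tc := by decide +kernel

theorem ok2_1_9 : SD.OK2 chi d_1_9 where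
  pg := by decide +kernel
  pf := by decide +kernel
  gf := by decide +kernel
  tgf := by decide +kernel
  pw := by decide +kernel
  gen := by decide +kernel
  vert := by decide +kernel
  pol := by decide +kernel

/-- the sweep through the elements 2 and 3 -/
def d_2_3 : SD := ⟨42, 29763982545548154072213602276190499111719196122844417618305527345981713445245131058244762037130543171814898906142910991747251781535121758352338924012609772677660577600491511870477862141682344535157037485536000, 1008, 2, 3, 0⟩

theorem ok1_2_3 : d_2_3.OK1 where
  T0 := by decide +kernel
  T1 := by decide +kernel
  pc := by decide +kernel
  wc := by decide +kernel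
  tc := by decide +kernel

theorem ok2_2_3 : SD.OK2 chi d_2_3 where
  pg := by decide +kernel
  pf := by decide +kernel
  gf := by decide +kernel
  tgf := by decide +kernel
  pw := by decide +kernel
  gen := by decide +kernel
  vert := by decide +kernel
  pol := by decide +kernel

/-- the sweep through the elements 2 and 4 -/
def d_2_4 : SD := ⟨48, 11142885160937041085717487447417065277478399942011983334026498770439036273794281458864210421067854572982840871154018663606780619869430343300950950963247610955869488225114285372049281823788381865558665089529600, 704, 2, 4, 0⟩

theorem ok1_2_4 : d_2_4.OK1 where
  T0 := by decide +kernel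
  T1 := by decide +kernel
  pc := by decide +kernel
  wc := by decide +kernel
  tc := by decide +kernel

theorem ok2_2_4 : SD.OK2 chi d_2_4 where
  pg := by decide +kernel
  pf := by decide +kernel
  gf := by decide +kernel
  tgf := by decide +kernel
  pw := by decide +kernel
  gen := by decide +kernel
  vert := by decide +kernel
  pol := by decide +kernel

/-- the sweep through the elements 2 and 5 -/
def d_2_5 : SD := ⟨36, 29116846174339764748889437363737937124895765240111917795342065646262795027408237183186797171517246865030141684110853760660274608900109477677225665525577109387312277657043900040870010559855017517515467317587968, 976, 2, 5, 0⟩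

theorem ok1_2_5 : d_2_5.OK1 where
  T0 := by decide +kernel
  T1 := by decide +kernel
  pc := by decide +kernel
  wc := by decide +kernel
  tc := by decide +kernel

theorem ok2_2_5 : SD.OK2 chi d_2_5 where
  pg := by decide +kernel
  pf := by decide +kernel
  gf := by decide +kernel
  tgf := by decide +kernel
  pw := by decide +kernel
  gen := by decide +kernel
  vert := by decide +kernel
  pol := by decide +kernel

/-- the sweep through the elements 2 and 6 -/
def d_2_6 : SD := ⟨48, 11141552683850183015589749966528937446996057848057363490192276588684603817629559485578746385165625280998154451154302177561788246505135086249183809248431700984171990780053771676472629728831060515041421203355392, 640, 2, 6, 0⟩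

theorem ok1_2_6 : d_2_6.OK1 where
  T0 := by decide +kernel
  T1 := by decide +kernel
  pc := by decide +kernel
  wc := by decide +kernel
  tc := by decide +kernel

theorem ok2_2_6 : SD.OK2 chi d_2_6 where
  pg := by decide +kernel
  pf := by decide +kernel
  gf := by decide +kernel
  tgf := by decide +kernel
  pw := by decide +kernel
  gen := by decide +kernel
  vert := by decide +kernel
  pol := by decide +kernel

/-- the sweep through the elements 2 and 7 -/
def d_2_7 : SD := ⟨50, 11558312027809067860344925570910875443848995715225454785063126576627086920571126074542468522440796198742137214986003522790050668805573003500181900911071745351720432063386597658472856096881559908155186432980992, 512, 2, 7, 0⟩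

theorem ok1_2_7 : d_2_7.OK1 where
  T0 := by decide +kernel
  T1 := by decide +kernel
  pc := by decide +kernel
  wc := by decide +kernel
  tc := by decide +kernel

theorem ok2_2_7 : SD.OK2 chi d_2_7 where
  pg := by decide +kernel
  pf := by decide +kernel
  gf := by decide +kernel
  tgf := by decide +kernel
  pw := by decide +kernel
  gen := by decide +kernel
  vert := by decide +kernel
  pol := by decide +kernel

/-- the sweep through the elements 2 and 8 -/
def d_2_8 : SD := ⟨46, 247142938981456839631784118701975035957576439454367013126316522691802611198213654595328085596802486438267252357005124778335697760196192152116881767444766065883552200875926005331588814222556289700427330500096, 720, 2, 8, 0⟩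

theorem ok1_2_8 : d_2_8.OK1 where
  T0 := by decide +kernel
  T1 := by decide +kernel
  pc := by decide +kernel
  wc := by decide +kernel
  tc := by decide +kernel

theorem ok2_2_8 : SD.OK2 chi d_2_8 where
  pg := by decide +kernel
  pf := by decide +kernel
  gf := by decide +kernel
  tgf := by decide +kernel
  pw := by decide +kernel
  gen := by decide +kernel
  vert := by decide +kernel
  pol := by decide +kernel

/-- the sweep through the elements 2 and 9 -/
def d_2_9 : SD := ⟨40, 3451964185391120114126899623465980469773524308267554904619635477433310488778633930330235959381994328311394263156481612926217569104268664340703726214874377757407245530591034638275693081737669694819331887138353920, 0, 2, 9, 0⟩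

theorem ok1_2_9 : d_2_9.OK1 where
  T0 := by decide +kernel
  T1 := by decide +kernel
  pc := by decide +kernel
  wc := by decide +kernel
  tc := by decide +kernel

theorem ok2_2_9 : SD.OK2 chi d_2_9 where
  pg := by decide +kernel
  pf := by decide +kernel
  gf := by decide +kernel
  tgf := by decide +kernel
  pw := by decide +kernel
  gen := by decide +kernel
  vert := by decide +kernel
  pol := by decide +kernel

/-- the sweep through the elements 3 and 4 -/
def d_3_4 : SD := ⟨52, 10996859247122321592776042320458145113637195700550644621274933503076952095907258919511777792158883221721785378044644516472523834013415130370740258265566555524207482964644239436527605276560844583237014688405504, 582, 3, 4, 0⟩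

theorem ok1_3_4 : d_3_4.OK1 where
  T0 := by decide +kernel
  T1 := by decide +kernel
  pc := by decide +kernel
  wc := by decide +kernel
  tc := by decide +kernel

theorem ok2_3_4 : SD.OK2 chi d_3_4 where
  pg := by decide +kernel
  pf := by decide +kernel
  gf := by decide +kernel
  tgf := by decide +kernel
  pw := by decide +kernel
  gen := by decide +kernel
  vert := by decide +kernel
  pol := by decide +kernel

/-- the sweep through the elements 3 and 5 -/
def d_3_5 : SD := ⟨48, 9702532408695094517611571445332809610031162978203721700050997524908091555256587782714166775807094392233885387788585184890042287978864793916958442976223117522214984779568075216288646551813296590134381369857536, 598, 3, 5, 0⟩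

theorem ok1_3_5 : d_3_5.OK1 where
  T0 := by decide +kernel
  T1 := by decide +kernel
  pc := by decide +kernel
  wc := by decide +kernel
  tc := by decide +kernel

theorem ok2_3_5 : SD.OK2 chi d_3_5 where
  pg := by decide +kernel
  pf := by decide +kernel
  gf := by decide +kernel
  tgf := by decide +kernel
  pw := by decide +kernel
  gen := by decide +kernel
  vert := by decide +kernel
  pol := by decide +kernel

/-- the sweep through the elements 3 and 6 -/
def d_3_6 : SD := ⟨42, 31714053796518011606183237703607702212261614239308200424084484562630217598285743573535587485199288367480308802117813558920302572015350503781070864842532204721179510037772846775588543384268715451241654901084416, 6, 3, 6, 0⟩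

theorem ok1_3_6 : d_3_6.OK1 where
  T0 := by decide +kernel
  T1 := by decide +kernel
  pc := by decide +kernel
  wc := by decide +kernel
  tc := by decide +kernel

theorem ok2_3_6 : SD.OK2 chi d_3_6 where
  pg := by decide +kernel
  pf := by decide +kernel
  gf := by decide +kernel
  tgf := by decide +kernel
  pw := by decide +kernel
  gen := by decide +kernel
  vert := by decide +kernel
  pol := by decide +kernel

/-- the sweep through the elements 3 and 7 -/
def d_3_7 : SD := ⟨50, 10274458052041657597613791426778857851736339157602986937873124152472153584802515383123629534211028386322754714574101797319377459234472882753304985198938789537569253592052694931693901709954316412049444802664192, 630, 3, 7, 0⟩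

theorem ok1_3_7 : d_3_7.OK1 where
  T0 := by decide +kernel
  T1 := by decide +kernel
  pc := by decide +kernel
  wc := by decide +kernel
  tc := by decide +kernel

theorem ok2_3_7 : SD.OK2 chi d_3_7 where
  pg := by decide +kernel
  pf := by decide +kernel
  gf := by decide +kernel
  tgf := by decide +kernel
  pw := by decide +kernel
  gen := by decide +kernel
  vert := by decide +kernel
  pol := by decide +kernel

/-- the sweep through the elements 3 and 8 -/
def d_3_8 : SD := ⟨38, 176095950784155284919448607584337175175675799850989484510164058278861839107063298293156051190467463677077559761747593814121760729489046917433833879401022388436256913150970562007950533110144008244617779155200, 758, 3, 8, 0⟩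

theorem ok1_3_8 : d_3_8.OK1 where
  T0 := by decide +kernel
  T1 := by decide +kernel
  pc := by decide +kernel
  wc := by decide +kernel
  tc := by decide +kernel

theorem ok2_3_8 : SD.OK2 chi d_3_8 where
  pg := by decide +kernel
  pf := by decide +kernel
  gf := by decide +kernel
  tgf := by decide +kernel
  pw := by decide +kernel
  gen := by decide +kernel
  vert := by decide +kernel
  pol := by decide +kernel

/-- the sweep through the elements 3 and 9 -/
def d_3_9 : SD := ⟨50, 4273860420008053474633304353569230045608564406170499541472584715353356438152972664118562047338508559012169648469545794640023291583204162034792528467983218215932148982359984070865815940139789499627136163747993344, 70, 3, 9, 0⟩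

theorem ok1_3_9 : d_3_9.OK1 where
  T0 := by decide +kernel
  T1 := by decide +kernel
  pc := by decide +kernel
  wc := by decide +kernel
  tc := by decide +kernel

theorem ok2_3_9 : SD.OK2 chi d_3_9 where
  pg := by decide +kernel
  pf := by decide +kernel
  gf := by decide +kernel
  tgf := by decide +kernel
  pw := by decide +kernel
  gen := by decide +kernel
  vert := by decide +kernel
  pol := by decide +kernel

end Pool.Agent.R138.Om
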