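import Pool.Agent.R138.OmChi

/-!
Sweep data, part 3.
-/

namespace Pool.Agent.R138.Om

/-- the sweep through the elements 4 and 5 -/
def d_4_5 : SD := ⟨40, 24586280414087715283978909374347044114615280476236482233528334483163376340489215652028869685868999719499826746595375484349703631179846662440016946385483523219990824426279855469126852594557158859674023191980288, 960, 4, 5, 0⟩

theorem ok1_4_5 : d_4_5.OK1 where
  T0 := by decide +kernel
  T1 := by decide +kernel
  pc := by decide +kernel
  wc := by decide +kernel
  tc := by decide +kernel

theorem ok2_4_5 : SD.OK2 chi d_4_5 where
  pg := by decide +kernel
  pf := by decide +kernel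
  gf := by decide +kernel
  tgf := by decide +kernel
  pw := by decide +kernel
  gen := by decide +kernel
  vert := by decide +kernel
  pol := by decide +kernel

/-- the sweep through the elements 4 and 6 -/
def d_4_6 : SD := ⟨44, 26537068104869432119763348740007587098598436809402089994077177298775376872962984475726925576675936139387421396229272357169334444314245860156362966675644593806626741684456601043606848709499873643057176639768832, 14, 4, 6, 0⟩

theorem ok1_4_6 : d_4_6.OK1 where
  T0 := by decide +kernel
  T1 := by decide +kernel
  pc := by decide +kernel
  wc := by decide +kernel
  tc := by decide +kernel

theorem ok2_4_6 : SD.OK2 chi d_4_6 where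
  pg := by decide +kernel
  pf := by decide +kernel
  gf := by decide +kernel
  tgf := by decide +kernel
  pw := by decide +kernel
  gen := by decide +kernel
  vert := by decide +kernel
  pol := by decide +kernel

/-- the sweep through the elements 4 and 7 -/
def d_4_7 : SD := ⟨36, 5137283487544952243251917140062457531912560713830654425121486915246665560679579233634655877306498695549987627997473770805075325822301553492173301372356311165118560001021536952788348407457743729466142408212480, 582, 4, 7, 0⟩

theorem ok1_4_7 : d_4_7.OK1 where
  T0 := by decide +kernel
  T1 := by decide +kernel
  pc := by decide +kernel
  wc := by decide +kernel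
  tc := by decide +kernel

theorem ok2_4_7 : SD.OK2 chi d_4_7 where
  pg := by decide +kernel
  pf := by decide +kernel
  gf := by decide +kernel
  tgf := by decide +kernel
  pw := by decide +kernel
  gen := by decide +kernel
  vert := by decide +kernel
  pol := by decide +kernel

/-- the sweep through the elements 4 and 8 -/
def d_4_8 : SD := ⟨46, 196387353714313609591774867972670923284654451783237602596317329015939765704622804274160565741486356191175090802754870929169796321985316381715143673226509007480129759101199744011408111921156180189669823523840, 704, 4, 8, 0⟩

theorem ok1_4_8 : d_4_8.OK1 where
  T0 := by decide +kernel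
  T1 := by decide +kernel
  pc := by decide +kernel
  wc := by decide +kernel
  tc := by decide +kernel

theorem ok2_4_8 : SD.OK2 chi d_4_8 where
  pg := by decide +kernel
  pf := by decide +kernel
  gf := by decide +kernel
  tgf := by decide +kernel
  pw := by decide +kernel
  gen := by decide +kernel
  vert := by decide +kernel
  pol := by decide +kernel

/-- the sweep through the elements 4 and 9 -/
def d_4_9 : SD := ⟨54, 3534153808852813450177540112762242735039017057738571514586185879998379892530933028688898091694866640159289316429982551542511120542151925446491396754273899557552748121775678798673272227397524941624712938819915264, 78, 4, 9, 0⟩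

theorem ok1_4_9 : d_4_9.OK1 where
  T0 := by decide +kernel
  T1 := by decide +kernel
  pc := by decide +kernel
  wc := by decide +kernel
  tc := by decide +kernel

theorem ok2_4_9 : SD.OK2 chi d_4_9 where
  pg := by decide +kernel
  pf := by decide +kernel
  gf := by decide +kernel
  tgf := by decide +kernel
  pw := by decide +kernel
  gen := by decide +kernel
  vert := by decide +kernel
  pol := by decide +kernel

/-- the sweep through the elements 5 and 6 -/
def d_5_6 : SD := ⟨46, 31066915261173806999979666728596932636590905633975602404222334918692521687750565374460698674205898633147998133614900031458407943687010900530780746962855987581376930173039513487995860576238536534486434512932864, 30, 5, 6, 0⟩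

theorem ok1_5_6 : d_5_6.OK1 where
  T0 := by decide +kernel
  T1 := by decide +kernel
  pc := by decide +kernel
  wc := by decide +kernel
  tc := by decide +kernel

theorem ok2_5_6 : SD.OK2 chi d_5_6 where
  pg := by decide +kernel
  pf := by decide +kernel
  gf := by decide +kernel
  tgf := by decide +kernel
  pw := by decide +kernel
  gen := by decide +kernel
  vert := by decide +kernel
  pol := by decide +kernel

/-- the sweep through the elements 5 and 7 -/
def d_5_7 : SD := ⟨50, 5137282621685131516333325312352001105371282424534064111384334487457886854246693494949160550614923643475303750439508572837845621233376376424720806898277401039988257607601409430035230033158680526912850256989952, 598, 5, 7, 0⟩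

theorem ok1_5_7 : d_5_7.OK1 where
  T0 := by decide +kernel
  T1 := by decide +kernel
  pc := by decide +kernel
  wc := by decide +kernel
  tc := by decide +kernel

theorem ok2_5_7 : SD.OK2 chi d_5_7 where
  pg := by decide +kernel
  pf := by decide +kernel
  gf := by decide +kernel
  tgf := by decide +kernel
  pw := by decide +kernel
  gen := by decide +kernel
  vert := by decide +kernel
  pol := by decide +kernel

/-- the sweep through the elements 5 and 8 -/
def d_5_8 : SD := ⟨46, 170912289718437967541691286298630150786853952104144005651699212299982845545046630396418250589203711785007572807024035713894032087486052910818006342539569193524180672511453255499183902985647418660429580668160, 726, 5, 8, 0⟩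

theorem ok1_5_8 : d_5_8.OK1 where
  T0 := by decide +kernel
  T1 := by decide +kernel
  pc := by decide +kernel
  wc := by decide +kernel
  tc := by decide +kernel

theorem ok2_5_8 : SD.OK2 chi d_5_8 where
  pg := by decide +kernel
  pf := by decide +kernel
  gf := by decide +kernel
  tgf := by decide +kernel
  pw := by decide +kernel
  gen := by decide +kernel
  vert := by decide +kernel
  pol := by decide +kernel

/-- the sweep through the elements 5 and 9 -/
def d_5_9 : SD := ⟨42, 3534153808852813450177540112748049690840749693914131793898000796897366460980686355140780126441545388170405698376116972323466524648998468284091014868953178753390394836405456144307167661175889956157616611480014336, 94, 5, 9, 0⟩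

theorem ok1_5_9 : d_5_9.OK1 where
  T0 := by decide +kernel
  T1 := by decide +kernel
  pc := by decide +kernel
  wc := by decide +kernel
  tc := by decide +kernel

theorem ok2_5_9 : SD.OK2 chi d_5_9 where
  pg := by decide +kernel
  pf := by decide +kernel
  gf := by decide +kernel
  tgf := by decide +kernel
  pw := by decide +kernel
  gen := by decide +kernel
  vert := by decide +kernel
  pol := by decide +kernel

/-- the sweep through the elements 6 and 7 -/
def d_6_7 : SD := ⟨50, 5136852698291596485227553663505268942997743160744235390268839015664227620383345179776084489942327758501839876357941234213038330970075399349906152240012017002028537302437173483019122011487832601391556400262656, 516, 6, 7, 0⟩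

theorem ok1_6_7 : d_6_7.OK1 where
  T0 := by decide +kernel
  T1 := by decide +kernel
  pc := by decide +kernel
  wc := by decide +kernel
  tc := by decide +kernel

theorem ok2_6_7 : SD.OK2 chi d_6_7 where
  pg := by decide +kernel
  pf := by decide +kernel
  gf := by decide +kernel
  tgf := by decide +kernel
  pw := by decide +kernel
  gen := by decide +kernel
  vert := by decide +kernel
  pol := by decide +kernel

/-- the sweep through the elements 6 and 8 -/
def d_6_8 : SD := ⟨36, 200659492345835671131121097434499142587303389001427216074729826087069856348233413671395061170921899850615576162589870531038223413913847801474354614658274511046785383576138783535971828822222613790922691259648, 640, 6, 8, 0⟩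

theorem ok1_6_8 : d_6_8.OK1 where
  T0 := by decide +kernel
  T1 := by decide +kernel
  pc := by decide +kernel
  wc := by decide +kernel
  tc := by decide +kernel

theorem ok2_6_8 : SD.OK2 chi d_6_8 where
  pg := by decide +kernel
  pf := by decide +kernel
  gf := by decide +kernel
  tgf := by decide +kernel
  pw := by decide +kernel
  gen := by decide +kernel
  vert := by decide +kernel
  pol := by decide +kernel

/-- the sweep through the elements 6 and 9 -/
def d_6_9 : SD := ⟨50, 3041016068082653433873697284549282784518694169442074488579224399890594901720158335399810810100517289343838068760727050055858309471428991100551888404823762608750171877500018729614214357532169556582395468516437504, 4, 6, 9, 0⟩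

theorem ok1_6_9 : d_6_9.OK1 where
  T0 := by decide +kernel
  T1 := by decide +kernel
  pc := by decide +kernel
  wc := by decide +kernel
  tc := by decide +kernel

theorem ok2_6_9 : SD.OK2 chi d_6_9 where
  pg := by decide +kernel
  pf := by decide +kernel
  gf := by decide +kernel
  tgf := by decide +kernel
  pw := by decide +kernel
  gen := by decide +kernel
  vert := by decide +kernel
  pol := by decide +kernel

/-- the sweep through the elements 7 and 8 -/
def d_7_8 : SD := ⟨44, 1897215496157935125902965037964899013418879838173333391367581837480532803448556215493144212360449617966168495856028051540444175421630801867246369833191121862961341498079537461553967537944623450788453393920, 512, 7, 8, 0⟩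

theorem ok1_7_8 : d_7_8.OK1 where
  T0 := by decide +kernel
  T1 := by decide +kernel
  pc := by decide +kernel
  wc := by decide +kernel
  tc := by decide +kernel

theorem ok2_7_8 : SD.OK2 chi d_7_8 where
  pg := by decide +kernel
  pf := by decide +kernel
  gf := by decide +kernel
  tgf := by decide +kernel
  pw := by decide +kernel
  gen := by decide +kernel
  vert := by decide +kernel
  pol := by decide +kernel

/-- the sweep through the elements 7 and 9 -/
def d_7_9 : SD := ⟨40, 2876636821159266761772416342801266052349493631160193080228422926366514296158496863936028959330315198948669801757165155876335160348154704750463817945949460222468400635515917876541646703442531716844001290101163520, 126, 7, 9, 0⟩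

theorem ok1_7_9 : d_7_9.OK1 where
  T0 := by decide +kernel
  T1 := by decide +kernel
  pc := by decide +kernel
  wc := by decide +kernel
  tc := by decide +kernel

theorem ok2_7_9 : SD.OK2 chi d_7_9 where
  pg := by decide +kernel
  pf := by decide +kernel
  gf := by decide +kernel
  tgf := by decide +kernel
  pw := by decide +kernel
  gen := by decide +kernel
  vert := by decide +kernel
  pol := by decide +kernel

/-- the sweep through the elements 8 and 9 -/
def d_8_9 : SD := ⟨42, 3451964185391120114126917014969833056591700356029173956148911897702753253849670110870151576235966801524073638713502026736965131525715889171680045530078019797180825772989459905087936337734556138896142698268790016, 254, 8, 9, 0⟩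

theorem ok1_8_9 : d_8_9.OK1 where
  T0 := by decide +kernel
  T1 := by decide +kernel
  pc := by decide +kernel
  wc := by decide +kernel
  tc := by decide +kernel

theorem ok2_8_9 : SD.OK2 chi d_8_9 where
  pg := by decide +kernel
  pf := by decide +kernel
  gf := by decide +kernel
  tgf := by decide +kernel
  pw := by decide +kernel
  gen := by decide +kernel
  vert := by decide +kernel
  pol := by decide +kernel

end Pool.Agent.R138.Om
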