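import Pool.Agent.R138.OmTab1
import Pool.Agent.R138.OmTab2
import Pool.Agent.R138.OmTab3

/-!
Every pair of elements has a sweep.
-/

namespace Pool.Agent.R138.Om

theorem sweeps : ∀ g f : Fin 10, g < f → ∃ d : SD, d.OK1 ∧ SD.OK2 chi d ∧ d.g = g ∧ d.f = f := by
  intro g f h
  fin_cases g <;> fin_cases f <;> first | exact absurd h (by decide) | skip
  · exact ⟨d_0_1, ok1_0_1, ok2_0_1, rfl, rfl⟩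
  · exact ⟨d_0_2, ok1_0_2, ok2_0_2, rfl, rfl⟩
  · exact ⟨d_0_3, ok1_0_3, ok2_0_3, rfl, rfl⟩
  · exact ⟨d_0_4, ok1_0_4, ok2_0_4, rfl, rfl⟩
  · exact ⟨d_0_5, ok1_0_5, ok2_0_5, rfl, rfl⟩
  · exact ⟨d_0_6, ok1_0_6, ok2_0_6, rfl, rfl⟩
  · exact ⟨d_0_7, ok1_0_7, ok2_0_7, rfl, rfl⟩
  · exact ⟨d_0_8, ok1_0_8, ok2_0_8, rfl, rfl⟩
  · exact ⟨d_0_9, ok1_0_9, ok2_0_9, rfl, rfl⟩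
  · exact ⟨d_1_2, ok1_1_2, ok2_1_2, rfl, rfl⟩
  · exact ⟨d_1_3, ok1_1_3, ok2_1_3, rfl, rfl⟩
  · exact ⟨d_1_4, ok1_1_4, ok2_1_4, rfl, rfl⟩
  · exact ⟨d_1_5, ok1_1_5, ok2_1_5, rfl, rfl⟩
  · exact ⟨d_1_6, ok1_1_6, ok2_1_6, rfl, rfl⟩
  · exact ⟨d_1_7, ok1_1_7, ok2_1_7, rfl, rfl⟩
  · exact ⟨d_1_8, ok1_1_8, ok2_1_8, rfl, rfl⟩
  · exact ⟨d_1_9, ok1_1_9, ok2_1_9, rfl, rfl⟩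
  · exact ⟨d_2_3, ok1_2_3, ok2_2_3, rfl, rfl⟩
  · exact ⟨d_2_4, ok1_2_4, ok2_2_4, rfl, rfl⟩
  · exact ⟨d_2_5, ok1_2_5, ok2_2_5, rfl, rfl⟩
  · exact ⟨d_2_6, ok1_2_6, ok2_2_6, rfl, rfl⟩
  · exact ⟨d_2_7, ok1_2_7, ok2_2_7, rfl, rfl⟩
  · exact ⟨d_2_8, ok1_2_8, ok2_2_8, rfl, rfl⟩
  · exact ⟨d_2_9, ok1_2_9, ok2_2_9, rfl, rfl⟩
  · exact ⟨d_3_4, ok1_3_4, ok2_3_4, rfl, rfl⟩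
  · exact ⟨d_3_5, ok1_3_5, ok2_3_5, rfl, rfl⟩
  · exact ⟨d_3_6, ok1_3_6, ok2_3_6, rfl, rfl⟩
  · exact ⟨d_3_7, ok1_3_7, ok2_3_7, rfl, rfl⟩
  · exact ⟨d_3_8, ok1_3_8, ok2_3_8, rfl, rfl⟩
  · exact ⟨d_3_9, ok1_3_9, ok2_3_9, rfl, rfl⟩
  · exact ⟨d_4_5, ok1_4_5, ok2_4_5, rfl, rfl⟩
  · exact ⟨d_4_6, ok1_4_6, ok2_4_6, rfl, rfl⟩
  · exact ⟨d_4_7, ok1_4_7, ok2_4_7, rfl, rfl⟩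
  · exact ⟨d_4_8, ok1_4_8, ok2_4_8, rfl, rfl⟩
  · exact ⟨d_4_9, ok1_4_9, ok2_4_9, rfl, rfl⟩
  · exact ⟨d_5_6, ok1_5_6, ok2_5_6, rfl, rfl⟩
  · exact ⟨d_5_7, ok1_5_7, ok2_5_7, rfl, rfl⟩
  · exact ⟨d_5_8, ok1_5_8, ok2_5_8, rfl, rfl⟩
  · exact ⟨d_5_9, ok1_5_9, ok2_5_9, rfl, rfl⟩
  · exact ⟨d_6_7, ok1_6_7, ok2_6_7, rfl, rfl⟩
  · exact ⟨d_6_8, ok1_6_8, ok2_6_8, rfl, rfl⟩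
  · exact ⟨d_6_9, ok1_6_9, ok2_6_9, rfl, rfl⟩
  · exact ⟨d_7_8, ok1_7_8, ok2_7_8, rfl, rfl⟩
  · exact ⟨d_7_9, ok1_7_9, ok2_7_9, rfl, rfl⟩
  · exact ⟨d_8_9, ok1_8_9, ok2_8_9, rfl, rfl⟩

end Pool.Agent.R138.Om
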