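import Pool.Agent.R138.OmChi

/-!
Sweep data, part 1.
-/

namespace Pool.Agent.R138.Om

/-- the sweep through the elements 0 and 1 -/
def d_0_1 : SD := ⟨42, 652610567316617505903064247500663427233975028250531968434294776223378019323737843990791954906754134979960421196232715355011843466443551923169458580673769204191610620134540252770328155429377600075797572354112, 0, 0, 1, 2⟩

theorem ok1_0_1 : d_0_1.OK1 where
  T0 := by decide +kernel
  T1 := by decide +kernel
  pc := by decide +kernel
  wc := by decide +kernel
  tc := by decide +kernel

theorem ok2_0_1 : SD.OK2 chi d_0_1 where
  pg := by decide +kernel
  pf := by decide +kernel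
  gf := by decide +kernel
  tgf := by decide +kernel
  pw := by decide +kernel
  gen := by decide +kernel
  vert := by decide +kernel
  pol := by decide +kernel

/-- the sweep through the elements 0 and 2 -/
def d_0_2 : SD := ⟨44, 652767331580713033631222683049659081821915521577146637577881557775047715325627120924968367254363854145259112808892570316665896049603304993127801949533909653478890420212441129652613618794502768206019920134208, 2, 0, 2, 1⟩

theorem ok1_0_2 : d_0_2.OK1 where
  T0 := by decide +kernel
  T1 := by decide +kernel
  pc := by decide +kernel
  wc := by decide +kernel
  tc := by decide +kernel

theorem ok2_0_2 : SD.OK2 chi d_0_2 where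
  pg := by decide +kernel
  pf := by decide +kernel
  gf := by decide +kernel
  tgf := by decide +kernel
  pw := by decide +kernel
  gen := by decide +kernel
  vert := by decide +kernel
  pol := by decide +kernel

/-- the sweep through the elements 0 and 3 -/
def d_0_3 : SD := ⟨38, 652649758294968958621784632026046928468283619798129569851460559880686083997576508628569486355964267053188983314475363867556806677662519827451373002485845763172331820887489713365336693931981941633690938376256, 6, 0, 3, 1⟩

theorem ok1_0_3 : d_0_3.OK1 where
  T0 := by decide +kernel
  T1 := by decide +kernel
  pc := by decide +kernel
  wc := by decide +kernel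
  tc := by decide +kernel

theorem ok2_0_3 : SD.OK2 chi d_0_3 where
  pg := by decide +kernel
  pf := by decide +kernel
  gf := by decide +kernel
  tgf := by decide +kernel
  pw := by decide +kernel
  gen := by decide +kernel
  vert := by decide +kernel
  pol := by decide +kernel

/-- the sweep through the elements 0 and 4 -/
def d_0_4 : SD := ⟨42, 652728131682363585263341557721062529181030572535787807155634391097637699487300047916064051155404813875308193228402412915348799823943676177022772897706392430220942705292736063588177080984876930189928515502144, 14, 0, 4, 1⟩

theorem ok1_0_4 : d_0_4.OK1 where
  T0 := by decide +kernel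
  T1 := by decide +kernel
  pc := by decide +kernel
  wc := by decide +kernel
  tc := by decide +kernel

theorem ok2_0_4 : SD.OK2 chi d_0_4 where
  pg := by decide +kernel
  pf := by decide +kernel
  gf := by decide +kernel
  tgf := by decide +kernel
  pw := by decide +kernel
  gen := by decide +kernel
  vert := by decide +kernel
  pol := by decide +kernel

/-- the sweep through the elements 0 and 5 -/
def d_0_5 : SD := ⟨44, 652766509476509118634674739580851239645024776513485783328825364072091566281494013303971529452972442072199259209084191596254124147135439433413390592627027905555059956149616428600542907902040389672576644808768, 30, 0, 5, 1⟩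

theorem ok1_0_5 : d_0_5.OK1 where
  T0 := by decide +kernel
  T1 := by decide +kernel
  pc := by decide +kernel
  wc := by decide +kernel
  tc := by decide +kernel

theorem ok2_0_5 : SD.OK2 chi d_0_5 where
  pg := by decide +kernel
  pf := by decide +kernel
  gf := by decide +kernel
  tgf := by decide +kernel
  pw := by decide +kernel
  gen := by decide +kernel
  vert := by decide +kernel
  pol := by decide +kernel

/-- the sweep through the elements 0 and 6 -/
def d_0_6 : SD := ⟨36, 652151391029508949764021812363784866551349923080212965576153763095732757987622993191111561829137564012777909745590927750773492756606754615682714293630151204689276833571787894788359322557812314472062929338432, 62, 0, 6, 1⟩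

theorem ok1_0_6 : d_0_6.OK1 where
  T0 := by decide +kernel
  T1 := by decide +kernel
  pc := by decide +kernel
  wc := by decide +kernel
  tc := by decide +kernel

theorem ok2_0_6 : SD.OK2 chi d_0_6 where
  pg := by decide +kernel
  pf := by decide +kernel
  gf := by decide +kernel
  tgf := by decide +kernel
  pw := by decide +kernel
  gen := by decide +kernel
  vert := by decide +kernel
  pol := by decide +kernel

/-- the sweep through the elements 0 and 7 -/
def d_0_7 : SD := ⟨42, 644001184923199238291830195838603945478759642120301590057308101941658880493782920621038958623627059726859892163050956141063104064353929277315115505835884408088345274669863760652872685860911123506966015508544, 126, 0, 7, 1⟩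

theorem ok1_0_7 : d_0_7.OK1 where
  T0 := by decide +kernel
  T1 := by decide +kernel
  pc := by decide +kernel
  wc := by decide +kernel
  tc := by decide +kernel

theorem ok2_0_7 : SD.OK2 chi d_0_7 where
  pg := by decide +kernel
  pf := by decide +kernel
  gf := by decide +kernel
  tgf := by decide +kernel
  pw := by decide +kernel
  gen := by decide +kernel
  vert := by decide +kernel
  pol := by decide +kernel

/-- the sweep through the elements 0 and 8 -/
def d_0_8 : SD := ⟨44, 222658337731257205792533108846210383201617614513787970409642199470198965702216657511327037228687644063906119947819250509572548077612046346156311602339023764856818467219272209785575850196229042226773710864448, 254, 0, 8, 1⟩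

theorem ok1_0_8 : d_0_8.OK1 where
  T0 := by decide +kernel
  T1 := by decide +kernel
  pc := by decide +kernel
  wc := by decide +kernel
  tc := by decide +kernel

theorem ok2_0_8 : SD.OK2 chi d_0_8 where
  pg := by decide +kernel
  pf := by decide +kernel
  gf := by decide +kernel
  tgf := by decide +kernel
  pw := by decide +kernel
  gen := by decide +kernel
  vert := by decide +kernel
  pol := by decide +kernel

/-- the sweep through the elements 0 and 9 -/
def d_0_9 : SD := ⟨38, 3780722679237893458329461482637150928034327735512300166308410254688755141372317152571674867421643797681180023406160654667995434859361062180852381711950640153677535924894465047602392154726273563550043560866742336, 510, 0, 9, 1⟩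

theorem ok1_0_9 : d_0_9.OK1 where
  T0 := by decide +kernel
  T1 := by decide +kernel
  pc := by decide +kernel
  wc := by decide +kernel
  tc := by decide +kernel

theorem ok2_0_9 : SD.OK2 chi d_0_9 where
  pg := by decide +kernel
  pf := by decide +kernel
  gf := by decide +kernel
  tgf := by decide +kernel
  pw := by decide +kernel
  gen := by decide +kernel
  vert := by decide +kernel
  pol := by decide +kernel

/-- the sweep through the elements 1 and 2 -/
def d_1_2 : SD := ⟨44, 28478476996590735441459398942747577593583972585286370429095404615356232116202696983551077969751711404038653027333919055155916219115963496089085750092242425416271280404818716024529279202341545132888932629872640, 0, 1, 2, 0⟩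

theorem ok1_1_2 : d_1_2.OK1 where
  T0 := by decide +kernel
  T1 := by decide +kernel
  pc := by decide +kernel
  wc := by decide +kernel
  tc := by decide +kernel

theorem ok2_1_2 : SD.OK2 chi d_1_2 where
  pg := by decide +kernel
  pf := by decide +kernel
  gf := by decide +kernel
  tgf := by decide +kernel
  pw := by decide +kernel
  gen := by decide +kernel
  vert := by decide +kernel
  pol := by decide +kernel

/-- the sweep through the elements 1 and 3 -/
def d_1_3 : SD := ⟨40, 25233532290915673907443734967862174845630314817086307994259015686444123892539628174916038937799150798384402878529748579675165448219302905166057963338504034381007350742469139009621735597731683773991678370676736, 1012, 1, 3, 0⟩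

theorem ok1_1_3 : d_1_3.OK1 where
  T0 := by decide +kernel
  T1 := by decide +kernel
  pc := by decide +kernel
  wc := by decide +kernel
  tc := by decide +kernel

theorem ok2_1_3 : SD.OK2 chi d_1_3 where
  pg := by decide +kernel
  pf := by decide +kernel
  gf := by decide +kernel
  tgf := by decide +kernel
  pw := by decide +kernel
  gen := by decide +kernel
  vert := by decide +kernel
  pol := by decide +kernel

/-- the sweep through the elements 1 and 4 -/
def d_1_4 : SD := ⟨36, 8990159069970595164178122432058201261424004742933395260103138458395132101078918862806460614983562260508762802919914035165612164059225027270012733990440022466567329461946646456666760381977782400526162376818688, 580, 1, 4, 0⟩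

theorem ok1_1_4 : d_1_4.OK1 where
  T0 := by decide +kernel
  T1 := by decide +kernel
  pc := by decide +kernel
  wc := by decide +kernel
  tc := by decide +kernel

theorem ok2_1_4 : SD.OK2 chi d_1_4 where
  pg := by decide +kernel
  pf := by decide +kernel
  gf := by decide +kernel
  tgf := by decide +kernel
  pw := by decide +kernel
  gen := by decide +kernel
  vert := by decide +kernel
  pol := by decide +kernel

/-- the sweep through the elements 1 and 5 -/
def d_1_5 : SD := ⟨48, 29116415072611634298509174356141320744426181561622057136081443666822581716924358900522659320608534895238431940201601976294058044607663214466795186555974782693941482897210330952288960644884176026716716416401408, 980, 1, 5, 0⟩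

theorem ok1_1_5 : d_1_5.OK1 where
  T0 := by decide +kernel
  T1 := by decide +kernel
  pc := by decide +kernel
  wc := by decide +kernel
  tc := by decide +kernel

theorem ok2_1_5 : SD.OK2 chi d_1_5 where
  pg := by decide +kernel
  pf := by decide +kernel
  gf := by decide +kernel
  tgf := by decide +kernel
  pw := by decide +kernel
  gen := by decide +kernel
  vert := by decide +kernel
  pol := by decide +kernel

/-- the sweep through the elements 1 and 6 -/
def d_1_6 : SD := ⟨52, 31066930599112753518778683558730853418050465694045901215204640215142297353763044363644629262959060568873944448041775936438759430635899613190585912270371472168365814459635583302068679257707708121879976011137024, 4, 1, 6, 0⟩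

theorem ok1_1_6 : d_1_6.OK1 where
  T0 := by decide +kernel
  T1 := by decide +kernel
  pc := by decide +kernel
  wc := by decide +kernel
  tc := by decide +kernel

theorem ok2_1_6 : SD.OK2 chi d_1_6 where
  pg := by decide +kernel
  pf := by decide +kernel
  gf := by decide +kernel
  tgf := by decide +kernel
  pw := by decide +kernel
  gen := by decide +kernel
  vert := by decide +kernel
  pol := by decide +kernel

/-- the sweep through the elements 1 and 7 -/
def d_1_7 : SD := ⟨36, 8990159069970595164178122432058201261424004742933395260103138458395132101078918862806460614983562260508762802919914035165612164059225027270012733990440022466567329461946646456666760381977782400526162376818688, 580, 1, 7, 0⟩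

theorem ok1_1_7 : d_1_7.OK1 where
  T0 := by decide +kernel
  T1 := by decide +kernel
  pc := by decide +kernel
  wc := by decide +kernel
  tc := by decide +kernel

theorem ok2_1_7 : SD.OK2 chi d_1_7 where
  pg := by decide +kernel
  pf := by decide +kernel
  gf := by decide +kernel
  tgf := by decide +kernel
  pw := by decide +kernel
  gen := by decide +kernel
  vert := by decide +kernel
  pol := by decide +kernel

end Pool.Agent.R138.Om
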