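import Pool.Agent.R138.PgPoly

namespace Pool.Agent.R138.Pg

open Finset

set_option linter.unusedSectionVars false

variable {α : Type*} [Fintype α] [DecidableEq α]
variable {r : ℕ} {N M : Finset α → Prop} {I : Finset α} {S : Set (Finset α → Prop)}

theorem comb4 {P : Set (α → ℝ)} (hP : Convex ℝ P) {x1 x2 x3 x4 : α → ℝ} (h1 : x1 ∈ P)
    (h2 : x2 ∈ P) (h3 : x3 ∈ P) (h4 : x4 ∈ P) (w1 w2 w3 w4 : ℝ) (p1 : 0 ≤ w1) (p2 : 0 ≤ w2)
    (p3 : 0 ≤ w3) (p4 : 0 ≤ w4) (hs : w1 + w2 + w3 + w4 = 1) :
    (fun e => w1 * x1 e + w2 * x2 e + w3 * x3 e + w4 * x4 e) ∈ P := by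
  have := hP.sum_mem (t := (univ : Finset (Fin 4))) (w := ![w1, w2, w3, w4])
    (z := ![x1, x2, x3, x4]) ?_ ?_ ?_
  · convert this using 1
    funext e
    simp [Fin.sum_univ_four, Finset.sum_apply]
  · intro i _
    fin_cases i <;> simpa
  · simp [Fin.sum_univ_four, hs]
  · intro i _
    fin_cases i <;> simpa

theorem convex_fpoly (N : Finset α → Prop) : Convex ℝ (fpoly N) := convex_convexHull ℝ _

/-- replacing an element of a quadruple by a parallel one -/
theorem Sub.P1 (hS : Sub r M S) (hI : I.card + 2 = r) {a a' b c d : α} (hT : T S I a b c d)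
    (hF : Full M I a b c d) (hF' : Full M I a' b c d) (hp : ¬ D M I a a') :
    T S I a' b c d := by
  by_cases haa : a = a'
  · rw [← haa]; exact hT
  obtain ⟨nab, na, nb⟩ := hF.ab.spec hS.bfM hI
  obtain ⟨nac, _, nc⟩ := hF.ac.spec hS.bfM hI
  obtain ⟨nad, _, nd⟩ := hF.ad.spec hS.bfM hI
  have nbc := (hF.bc.spec hS.bfM hI).1
  have nbd := (hF.bd.spec hS.bfM hI).1
  have ncd := (hF.cd.spec hS.bfM hI).1
  obtain ⟨nab', na', _⟩ := hF'.ab.spec hS.bfM hI
  have nac' := (hF'.ac.spec hS.bfM hI).1
  have nad' := (hF'.ad.spec hS.bfM hI).1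
  have hx := comb4 (convex_fpoly M) (ind_mem hF.cd) (ind_mem hF.ac) (ind_mem hF'.ac)
    (ind_mem hF.bd) (1/5) (1/5) (1/5) (2/5) (by norm_num) (by norm_num) (by norm_num)
    (by norm_num) (by norm_num)
  set x : α → ℝ := fun e => 1/5 * ind (insert c (insert d I)) e + 1/5 * ind (insert a (insert c I)) e
    + 1/5 * ind (insert a' (insert c I)) e + 2/5 * ind (insert b (insert d I)) e with hxdef
  have hxe : ∀ e, x e = 1/5 * ((if e = c then 1 else 0) + (if e = d then 1 else 0) +
      (if e ∈ I then 1 else 0)) + 1/5 * ((if e = a then 1 else 0) + (if e = c then 1 else 0) +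
      (if e ∈ I then 1 else 0)) + 1/5 * ((if e = a' then 1 else 0) + (if e = c then 1 else 0) +
      (if e ∈ I then 1 else 0)) + 2/5 * ((if e = b then 1 else 0) + (if e = d then 1 else 0) +
      (if e ∈ I then 1 else 0)) := by
    intro e
    rw [← ind_insert_insert ncd nc nd, ← ind_insert_insert nac na nc,
      ← ind_insert_insert nac' na' nc, ← ind_insert_insert nbd nb nd]
  clear_value x
  obtain ⟨N, hN, hxN⟩ := hS.cover x hx
  have hNB := hS.bf N hN
  have hI1 : ∀ e ∈ I, x e = 1 := by
    intro e he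
    have e1 : e ≠ a := fun h => na (h ▸ he)
    have e2 : e ≠ a' := fun h => na' (h ▸ he)
    have e3 : e ≠ b := fun h => nb (h ▸ he)
    have e4 : e ≠ c := fun h => nc (h ▸ he)
    have e5 : e ≠ d := fun h => nd (h ▸ he)
    rw [hxe]; simp [e1, e2, e3, e4, e5, he]; norm_num
  have xa : x a = 1/5 := by
    rw [hxe]; simp [haa, nab, nac, nad, na]
  have xa' : x a' = 1/5 := by
    rw [hxe]; simp [Ne.symm haa, nab', nac', nad', na']
  have xb : x b = 2/5 := by
    rw [hxe]; simp [nab.symm, nab'.symm, nbc, nbd, nb]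
  have xc : x c = 3/5 := by
    rw [hxe]; simp [nac.symm, nac'.symm, nbc.symm, ncd, nc]; norm_num
  have xd : x d = 3/5 := by
    rw [hxe]; simp [nad.symm, nad'.symm, nbd.symm, ncd.symm, nd]; norm_num
  have hcd : D N I c d := by
    obtain ⟨u, hu, v, hv, huv⟩ := pair_of_sum hNB hI hxN hI1 (K := {c, d})
      (by simp [nc, nd]) (by rw [sum_pair ncd, xc, xd]; norm_num)
    simp only [mem_insert, mem_singleton] at hu hv
    rcases hu with rfl | rfl <;> rcases hv with rfl | rfl
    · exact absurd huv (not_D_self hNB hI _)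
    · exact huv
    · exact huv.symm
    · exact absurd huv (not_D_self hNB hI _)
  have hab : ¬ D N I a b := fun h => hT N hN h hcd
  have hNa : NL N I a := nl_of_pos hNB hI hxN hI1 na (by rw [xa]; norm_num)
  have hNa' : NL N I a' := nl_of_pos hNB hI hxN hI1 na' (by rw [xa']; norm_num)
  have hNb : NL N I b := nl_of_pos hNB hI hxN hI1 nb (by rw [xb]; norm_num)
  have haa' : ¬ D N I a a' := fun h => hp (hS.sub N hN _ h)
  have hab' : ¬ D N I a' b := by
    intro h
    rcases hNa.exch hNB hI h with h | h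
    · exact haa' h
    · exact hab h
  have key : ∀ z, z ∉ I → a ≠ z → a' ≠ z → b ≠ z → 3/5 ≤ x z →
      D N I a z ∨ D N I a' z ∨ D N I b z := by
    intro z hz z1 z2 z3 hxz
    obtain ⟨u, hu, v, hv, huv⟩ := pair_of_sum hNB hI hxN hI1 (K := {a, a', b, z})
      (by simp [na, na', nb, hz]) (by
        rw [sum_insert (by simp [haa, nab, z1]), sum_insert (by simp [nab', z2]), sum_pair z3,
          xa, xa', xb]
        linarith)
    simp only [mem_insert, mem_singleton] at hu hv
    rcases hu with rfl | rfl | rfl | rfl <;> rcases hv with rfl | rfl | rfl | rfl <;>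
      first
      | exact absurd huv (not_D_self hNB hI _)
      | exact absurd huv haa'
      | exact absurd huv.symm haa'
      | exact absurd huv hab
      | exact absurd huv.symm hab
      | exact absurd huv hab'
      | exact absurd huv.symm hab'
      | exact Or.inl huv
      | exact Or.inl huv.symm
      | exact Or.inr (Or.inl huv)
      | exact Or.inr (Or.inl huv.symm)
      | exact Or.inr (Or.inr huv)
      | exact Or.inr (Or.inr huv.symm)
  have hac' : D N I a' c := by
    rcases key c nc nac nac' nbc (by rw [xc]) with h | h | h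
    · rcases hNa'.exch hNB hI h with h | h
      · exact absurd h.symm haa'
      · exact h
    · exact h
    · rcases hNa'.exch hNB hI h with h | h
      · exact absurd h hab'
      · exact h
  have hbd : D N I b d := by
    rcases key d nd nad nad' nbd (by rw [xd]) with h | h | h
    · rcases hNb.exch hNB hI h with h | h
      · exact absurd h.symm hab
      · exact h
    · rcases hNb.exch hNB hI h with h | h
      · exact absurd h.symm hab'
      · exact h
    · exact h
  exact hS.T_of hI hN hac' hbd hab'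

/-- full quadruples without a cell containing both base pairs `ab` and `cd` -/
structure FT (M : Finset α → Prop) (S : Set (Finset α → Prop)) (I : Finset α) (a b c d : α) :
    Prop where
  full : Full M I a b c d
  t : T S I a b c d

theorem FT.symm1 {a b c d : α} (h : FT M S I a b c d) : FT M S I b a c d :=
  ⟨h.full.symm1, h.t.symm1⟩
theorem FT.symm2 {a b c d : α} (h : FT M S I a b c d) : FT M S I a b d c :=
  ⟨h.full.symm2, h.t.symm2⟩
theorem FT.symm3 {a b c d : α} (h : FT M S I a b c d) : FT M S I c d a b :=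
  ⟨h.full.symm3, h.t.symm3⟩

theorem par_D (hM : BF r M) (hI : I.card + 2 = r) {a a' z : α} (hp : ¬ D M I a a')
    (h1 : D M I a z) (h2 : NL M I a') : D M I a' z := by
  rcases h2.exch hM hI h1 with h | h
  · exact absurd h.symm hp
  · exact h

theorem Sub.P1F (hS : Sub r M S) (hI : I.card + 2 = r) {a a' b c d : α} (hF : FT M S I a b c d)
    (hp : ¬ D M I a a') (hn : NL M I a') : FT M S I a' b c d := by
  have hF' : Full M I a' b c d :=
    ⟨par_D hS.bfM hI hp hF.full.ab hn, par_D hS.bfM hI hp hF.full.ac hn,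
      par_D hS.bfM hI hp hF.full.ad hn, hF.full.bc, hF.full.bd, hF.full.cd⟩
  exact ⟨hF', hS.P1 hI hF.t hF.full hF' hp⟩

/-- all four elements at once -/
theorem Sub.P1F4 (hS : Sub r M S) (hI : I.card + 2 = r) {a a' b b' c c' d d' : α}
    (hF : FT M S I a b c d)
    (pa : ¬ D M I a a') (ha : NL M I a') (pb : ¬ D M I b b') (hb : NL M I b')
    (pc : ¬ D M I c c') (hc : NL M I c') (pd : ¬ D M I d d') (hd : NL M I d') :
    FT M S I a' b' c' d' := by
  have h1 := hS.P1F hI hF pa ha
  have h2 := (hS.P1F hI h1.symm1 pb hb).symm1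
  have h3 := (hS.P1F hI h2.symm3 pc hc).symm3
  exact (hS.P1F hI h3.symm3.symm1 pd hd).symm1.symm3

end Pool.Agent.R138.Pg
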