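import Pool.Agent.R138.PgCell

namespace Pool.Agent.R138.Pg

open Finset

set_option linter.unusedSectionVars false

variable {α : Type*} [Fintype α] [DecidableEq α]
variable {r : ℕ} {N M : Finset α → Prop} {I : Finset α} {S : Set (Finset α → Prop)}

theorem card_inter2 (B : Finset α) {p q : α} (h : p ≠ q) :
    (B ∩ {p, q}).card = (if p ∈ B then 1 else 0) + (if q ∈ B then 1 else 0) := by
  rw [inter_comm, ← filter_mem_eq_inter, card_filter, sum_pair h]

theorem card_inter4 (B : Finset α) {a b c d : α} (hab : a ≠ b) (hac : a ≠ c) (had : a ≠ d)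
    (hbc : b ≠ c) (hbd : b ≠ d) (hcd : c ≠ d) :
    (B ∩ {a, b, c, d}).card = (if a ∈ B then 1 else 0) + ((if b ∈ B then 1 else 0) +
      ((if c ∈ B then 1 else 0) + (if d ∈ B then 1 else 0))) := by
  rw [inter_comm, ← filter_mem_eq_inter, card_filter, sum_insert (by simp [hab, hac, had]),
    sum_insert (by simp [hbc, hbd]), sum_pair hcd]

theorem ind_insert3 {a b p : α} {J : Finset α} (hab : a ≠ b) (ha : a ∉ insert p J)
    (hb : b ∉ insert p J) (hp : p ∉ J) (e : α) :
    ind (insert a (insert b (insert p J))) e = (if e = a then 1 else 0) + (if e = b then 1 else 0) +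
      ((if e = p then 1 else 0) + (if e ∈ J then 1 else 0)) := by
  rw [ind_insert_insert hab ha hb]
  congr 1
  by_cases h : e = p
  · subst h; simp [hp]
  · simp [h]

/-- changing the center -/
theorem Sub.P2 (hS : Sub r M S) {J : Finset α} (hJ : J.card + 3 = r) {p p' a b c d : α}
    (hpp : p ≠ p') (hF : FT M S (insert p J) a b c d) (hF' : Full M (insert p' J) a b c d)
    (hcol : ∀ x ∈ ({a, b, c, d} : Finset α), ∀ y ∈ ({a, b, c, d} : Finset α),
      ∀ z ∈ ({a, b, c, d} : Finset α), ¬ M (insert x (insert y (insert z J)))) :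
    FT M S (insert p' J) a b c d := by
  refine ⟨hF', ?_⟩
  have hpJ : p ∉ J := by
    intro h
    have h1 := hS.bfM.card _ hF.full.ab
    have h2 := card_insert_le b (insert p J)
    have h3 := card_insert_le a (insert b (insert p J))
    rw [insert_eq_of_mem h] at h1 h2 h3
    omega
  have hpJ' : p' ∉ J := by
    intro h
    have h1 := hS.bfM.card _ hF'.ab
    have h2 := card_insert_le b (insert p' J)
    have h3 := card_insert_le a (insert b (insert p' J))
    rw [insert_eq_of_mem h] at h1 h2 h3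
    omega
  have hI : (insert p J).card + 2 = r := by rw [card_insert_of_notMem hpJ]; omega
  have hI' : (insert p' J).card + 2 = r := by rw [card_insert_of_notMem hpJ']; omega
  obtain ⟨nab, na, nb⟩ := hF.full.ab.spec hS.bfM hI
  obtain ⟨nac, _, nc⟩ := hF.full.ac.spec hS.bfM hI
  obtain ⟨nad, _, nd⟩ := hF.full.ad.spec hS.bfM hI
  have nbc := (hF.full.bc.spec hS.bfM hI).1
  have nbd := (hF.full.bd.spec hS.bfM hI).1
  have ncd := (hF.full.cd.spec hS.bfM hI).1
  obtain ⟨_, na', nb'⟩ := hF'.ab.spec hS.bfM hI'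
  obtain ⟨_, nc', nd'⟩ := hF'.cd.spec hS.bfM hI'
  have ha1 : a ≠ p ∧ a ∉ J := by simpa using na
  have hb1 : b ≠ p ∧ b ∉ J := by simpa using nb
  have hc1 : c ≠ p ∧ c ∉ J := by simpa using nc
  have hd1 : d ≠ p ∧ d ∉ J := by simpa using nd
  have ha2 : a ≠ p' ∧ a ∉ J := by simpa using na'
  have hb2 : b ≠ p' ∧ b ∉ J := by simpa using nb'
  have hc2 : c ≠ p' ∧ c ∉ J := by simpa using nc'
  have hd2 : d ≠ p' ∧ d ∉ J := by simpa using nd'
  have hy1 := comb4 (convex_fpoly M) (ind_mem hF.full.cd) (ind_mem hF.full.ac)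
    (ind_mem hF.full.bd) (ind_mem hF.full.bd) (1/5) (2/5) (1/5) (1/5) (by norm_num) (by norm_num)
    (by norm_num) (by norm_num) (by norm_num)
  have hy2 := comb4 (convex_fpoly M) (ind_mem hF'.cd) (ind_mem hF'.ac)
    (ind_mem hF'.bd) (ind_mem hF'.bd) (1/5) (2/5) (1/5) (1/5) (by norm_num) (by norm_num)
    (by norm_num) (by norm_num) (by norm_num)
  have hx := comb4 (convex_fpoly M) hy1 hy1 hy2 hy2 (1/4) (1/4) (1/4) (1/4) (by norm_num)
    (by norm_num) (by norm_num) (by norm_num) (by norm_num)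
  obtain ⟨x, hxM, hxe⟩ : ∃ x ∈ fpoly M, ∀ e, x e = 2/5 * (if e = a then 1 else 0) +
      2/5 * (if e = b then 1 else 0) + 3/5 * (if e = c then 1 else 0) +
      3/5 * (if e = d then 1 else 0) + 1/2 * (if e = p then 1 else 0) +
      1/2 * (if e = p' then 1 else 0) + (if e ∈ J then 1 else 0) := by
    refine ⟨_, hx, fun e => ?_⟩
    rw [ind_insert3 ncd nc nd hpJ, ind_insert3 nac na nc hpJ, ind_insert3 nbd nb nd hpJ,
      ind_insert3 ncd nc' nd' hpJ', ind_insert3 nac na' nc' hpJ', ind_insert3 nbd nb' nd' hpJ']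
    ring
  clear hx hy1 hy2
  have hI1 : ∀ e ∈ J, x e = 1 := by
    intro e he
    have e1 : e ≠ a := fun h => ha1.2 (h ▸ he)
    have e3 : e ≠ b := fun h => hb1.2 (h ▸ he)
    have e4 : e ≠ c := fun h => hc1.2 (h ▸ he)
    have e5 : e ≠ d := fun h => hd1.2 (h ▸ he)
    have e6 : e ≠ p := fun h => hpJ (h ▸ he)
    have e7 : e ≠ p' := fun h => hpJ' (h ▸ he)
    rw [hxe]; simp [e1, e3, e4, e5, e6, e7, he]
  have xa : x a = 2/5 := by
    rw [hxe]; simp [nab, nac, nad, ha1, ha2]
  have xb : x b = 2/5 := by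
    rw [hxe]; simp [nab.symm, nbc, nbd, hb1, hb2]
  have xc : x c = 3/5 := by
    rw [hxe]; simp [nac.symm, nbc.symm, ncd, hc1, hc2]
  have xd : x d = 3/5 := by
    rw [hxe]; simp [nad.symm, nbd.symm, ncd.symm, hd1, hd2]
  have xp : x p = 1/2 := by
    rw [hxe]; simp [hpp, ha1.1.symm, hb1.1.symm, hc1.1.symm, hd1.1.symm, hpJ]
  have xp' : x p' = 1/2 := by
    rw [hxe]; simp [hpp.symm, ha2.1.symm, hb2.1.symm, hc2.1.symm, hd2.1.symm, hpJ']
  have hout : ∀ e, e ∉ J → e ≠ a → e ≠ b → e ≠ c → e ≠ d → e ≠ p → e ≠ p' → x e = 0 := by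
    intro e h1 h2 h3 h4 h5 h6 h7
    rw [hxe]; simp [h1, h2, h3, h4, h5, h6, h7]
  clear hxe
  obtain ⟨N, hN, hxN⟩ := hS.cover x hxM
  have hNB := hS.bf N hN
  obtain ⟨w, w0, wN, w1, wx⟩ := mem_fpoly.1 hxN
  have hJB : ∀ B, w B ≠ 0 → J ⊆ B := fun B hB e he => mem_of_one w0 w1 wx (hI1 e he) hB
  have hBS : ∀ B, w B ≠ 0 → ∀ e ∈ B, e ∈ J ∨ e ∈ ({a, b, c, d} : Finset α) ∨ e = p ∨ e = p' := by
    intro B hB e he
    by_contra hcon
    simp only [mem_insert, mem_singleton, not_or] at hcon
    exact notMem_of_zero w0 wx (hout e hcon.1 hcon.2.1.1 hcon.2.1.2.1 hcon.2.1.2.2.1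
      hcon.2.1.2.2.2 hcon.2.2.1 hcon.2.2.2) hB he
  have hcardB : ∀ B, w B ≠ 0 → B.card = J.card + 3 := fun B hB => by
    rw [hNB.card B (wN B hB)]; omega
  -- triples
  have htrip : ∀ B, w B ≠ 0 → ∀ s ∈ ({a, b, c, d} : Finset α), ∀ t ∈ ({a, b, c, d} : Finset α),
      ∀ u ∈ ({a, b, c, d} : Finset α), s ≠ t → s ≠ u → t ≠ u → s ∈ B → t ∈ B → u ∈ B → False := by
    intro B hB s hs t ht u hu st su tu sB tB uB
    have hQJ : ∀ e ∈ ({a, b, c, d} : Finset α), e ∉ J := by
      intro e he
      simp only [mem_insert, mem_singleton] at he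
      rcases he with rfl | rfl | rfl | rfl
      · exact ha1.2
      · exact hb1.2
      · exact hc1.2
      · exact hd1.2
    have : insert s (insert t (insert u J)) = B := by
      apply eq_of_subset_of_card_le
        (insert_subset sB (insert_subset tB (insert_subset uB (hJB B hB))))
      rw [card_insert_of_notMem, card_insert_of_notMem, card_insert_of_notMem (hQJ u hu),
        hcardB B hB]
      · simp [tu, hQJ t ht]
      · simp [st, su, hQJ s hs]
    exact hcol s hs t ht u hu (by rw [this]; exact hS.sub N hN B (wN B hB))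
  have hle : ∀ B, w B ≠ 0 → (B ∩ {a, b, c, d}).card ≤ 2 := by
    intro B hB
    rw [card_inter4 B nab nac nad nbc nbd ncd]
    have t1 := htrip B hB a (by simp) b (by simp) c (by simp) nab nac nbc
    have t2 := htrip B hB a (by simp) b (by simp) d (by simp) nab nad nbd
    have t3 := htrip B hB a (by simp) c (by simp) d (by simp) nac nad ncd
    have t4 := htrip B hB b (by simp) c (by simp) d (by simp) nbc nbd ncd
    split_ifs with h1 h2 h3 h4 h4 h3 h4 h4 h2 h3 h4 h4 h3 h4 h4 <;>
      first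
      | omega
      | exact absurd (t1 ‹_› ‹_› ‹_›) id
      | exact absurd (t2 ‹_› ‹_› ‹_›) id
      | exact absurd (t3 ‹_› ‹_› ‹_›) id
      | exact absurd (t4 ‹_› ‹_› ‹_›) id
  have hQ2 : ∀ B, w B ≠ 0 → (B ∩ {a, b, c, d}).card = 2 := by
    apply card_eq_of_max w0 w1 wx _ _ hle
    rw [sum_insert (by simp [nab, nac, nad]), sum_insert (by simp [nbc, nbd]), sum_pair ncd,
      xa, xb, xc, xd]
    norm_num
  have hpB : ∀ B, w B ≠ 0 → (p ∈ B ∧ p' ∉ B) ∨ (p ∉ B ∧ p' ∈ B) := by
    intro B hB
    have hBeq : B = J ∪ (B ∩ {a, b, c, d}) ∪ (B ∩ {p, p'}) := by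
      ext e
      simp only [mem_union, mem_inter]
      constructor
      · intro he
        rcases hBS B hB e he with h | h | h | h
        · exact Or.inl (Or.inl h)
        · exact Or.inl (Or.inr ⟨he, h⟩)
        · exact Or.inr ⟨he, by simp [h]⟩
        · exact Or.inr ⟨he, by simp [h]⟩
      · rintro ((h | h) | h)
        · exact hJB B hB h
        · exact h.1
        · exact h.1
    have hd1' : Disjoint J (B ∩ {a, b, c, d}) := by
      rw [disjoint_left]
      intro e he he2
      simp only [mem_inter, mem_insert, mem_singleton] at he2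
      rcases he2.2 with rfl | rfl | rfl | rfl
      · exact ha1.2 he
      · exact hb1.2 he
      · exact hc1.2 he
      · exact hd1.2 he
    have hd2' : Disjoint (J ∪ (B ∩ {a, b, c, d})) (B ∩ {p, p'}) := by
      rw [disjoint_left]
      intro e he he2
      simp only [mem_union, mem_inter, mem_insert, mem_singleton] at he he2
      rcases he2.2 with rfl | rfl
      · rcases he with he | ⟨_, rfl | rfl | rfl | rfl⟩
        · exact hpJ he
        · exact ha1.1 rfl
        · exact hb1.1 rfl
        · exact hc1.1 rfl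
        · exact hd1.1 rfl
      · rcases he with he | ⟨_, rfl | rfl | rfl | rfl⟩
        · exact hpJ' he
        · exact ha2.1 rfl
        · exact hb2.1 rfl
        · exact hc2.1 rfl
        · exact hd2.1 rfl
    have hc := congrArg Finset.card hBeq
    rw [card_union_of_disjoint hd2', card_union_of_disjoint hd1', hQ2 B hB, hcardB B hB,
      card_inter2 B hpp] at hc
    by_cases h1 : p ∈ B <;> by_cases h2 : p' ∈ B
    · rw [if_pos h1, if_pos h2] at hc; omega
    · exact Or.inl ⟨h1, h2⟩
    · exact Or.inr ⟨h1, h2⟩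
    · rw [if_neg h1, if_neg h2] at hc; omega
  have hQJ : ∀ e ∈ ({a, b, c, d} : Finset α), e ∉ J ∧ e ≠ p ∧ e ≠ p' := by
    intro e he
    simp only [mem_insert, mem_singleton] at he
    rcases he with rfl | rfl | rfl | rfl
    · exact ⟨ha1.2, ha1.1, ha2.1⟩
    · exact ⟨hb1.2, hb1.1, hb2.1⟩
    · exact ⟨hc1.2, hc1.1, hc2.1⟩
    · exact ⟨hd1.2, hd1.1, hd2.1⟩
  -- from supporting bases to relations
  have hrel : ∀ B, w B ≠ 0 → ∀ q, q ∉ J → (∀ e ∈ ({a, b, c, d} : Finset α), e ≠ q) → q ∈ B →
      ∀ u ∈ ({a, b, c, d} : Finset α), ∀ v ∈ ({a, b, c, d} : Finset α), u ≠ v → u ∈ B → v ∈ B →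
      D N (insert q J) u v := by
    intro B hB q hqJ hq hqB u hu v hv huv huB hvB
    have : insert u (insert v (insert q J)) = B := by
      apply eq_of_subset_of_card_le
        (insert_subset huB (insert_subset hvB (insert_subset hqB (hJB B hB))))
      rw [card_insert_of_notMem, card_insert_of_notMem, card_insert_of_notMem hqJ,
        hcardB B hB]
      · simp [hq v hv, (hQJ v hv).1]
      · simp [huv, hq u hu, (hQJ u hu).1]
    unfold D
    rw [this]; exact wN B hB
  -- conversion
  have hconv : ∀ q q', q ∉ J → (∀ e ∈ ({a, b, c, d} : Finset α), e ≠ q) →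
      (∀ B, w B ≠ 0 → ∀ e ∈ B, e ∈ J ∨ e ∈ ({a, b, c, d} : Finset α) ∨ e = q ∨ e = q') →
      (∃ B, w B ≠ 0 ∧ q' ∈ B ∧ q ∉ B) →
      ∀ u ∈ ({a, b, c, d} : Finset α), ∀ v ∈ ({a, b, c, d} : Finset α),
      D N (insert q J) u v → D N (insert q' J) u v := by
    rintro q q' hqJ hq hBS' ⟨B', hB', hq'B', hqB'⟩ u hu v hv huv
    obtain ⟨f, hf, hf2, hf3⟩ := hNB.exch _ _ huv (wN B' hB') q (by simp) hqB'
    have huv' : u ≠ v := by
      have := (huv.spec hNB (I := insert q J) (by rw [card_insert_of_notMem hqJ]; omega)).1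
      exact this
    have he : (insert u (insert v (insert q J))).erase q = insert u (insert v J) := by
      rw [erase_insert_of_ne (hq u hu), erase_insert_of_ne (hq v hv), erase_insert hqJ]
    rw [he] at hf3
    simp only [mem_insert, not_or] at hf2
    rcases hBS' B' hB' f hf with h | h | h | h
    · exact absurd h hf2.2.2.2
    · exact absurd (hS.sub N hN _ hf3) (hcol f h u hu v hv)
    · exact absurd h hf2.2.2.1
    · subst h
      unfold D
      have : insert u (insert v (insert f J)) = insert f (insert u (insert v J)) := by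
        ext e; simp only [mem_insert]; tauto
      rw [this]; exact hf3
  have hexp' : ∃ B, w B ≠ 0 ∧ p' ∈ B ∧ p ∉ B := by
    obtain ⟨B, hB, hB2⟩ := exists_gt w0 w1 wx {p'} 0 (by rw [sum_singleton, xp']; norm_num)
    have : p' ∈ B := by
      rw [card_pos] at hB2
      obtain ⟨t, ht⟩ := hB2
      simp only [mem_inter, mem_singleton] at ht
      rw [← ht.2]; exact ht.1
    rcases hpB B hB with h | h
    · exact absurd this h.2
    · exact ⟨B, hB, h.2, h.1⟩
  have hexp : ∃ B, w B ≠ 0 ∧ p ∈ B ∧ p' ∉ B := by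
    obtain ⟨B, hB, hB2⟩ := exists_gt w0 w1 wx {p} 0 (by rw [sum_singleton, xp]; norm_num)
    have : p ∈ B := by
      rw [card_pos] at hB2
      obtain ⟨t, ht⟩ := hB2
      simp only [mem_inter, mem_singleton] at ht
      rw [← ht.2]; exact ht.1
    rcases hpB B hB with h | h
    · exact ⟨B, hB, h.1, h.2⟩
    · exact absurd this h.1
  have c1 : ∀ u ∈ ({a, b, c, d} : Finset α), ∀ v ∈ ({a, b, c, d} : Finset α),
      D N (insert p J) u v → D N (insert p' J) u v :=
    hconv p p' hpJ (fun e he => (hQJ e he).2.1) hBS hexp'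
  have c2 : ∀ u ∈ ({a, b, c, d} : Finset α), ∀ v ∈ ({a, b, c, d} : Finset α),
      D N (insert p' J) u v → D N (insert p J) u v :=
    hconv p' p hpJ' (fun e he => (hQJ e he).2.2) (fun B hB e he => by
      rcases hBS B hB e he with h | h | h | h
      · exact Or.inl h
      · exact Or.inr (Or.inl h)
      · exact Or.inr (Or.inr (Or.inr h))
      · exact Or.inr (Or.inr (Or.inl h))) hexp
  have hsupp : ∀ B, w B ≠ 0 → ∀ u ∈ ({a, b, c, d} : Finset α), ∀ v ∈ ({a, b, c, d} : Finset α),
      u ≠ v → u ∈ B → v ∈ B → D N (insert p J) u v := by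
    intro B hB u hu v hv huv huB hvB
    rcases hpB B hB with h | h
    · exact hrel B hB p hpJ (fun e he => (hQJ e he).2.1) h.1 u hu v hv huv huB hvB
    · exact c2 u hu v hv (hrel B hB p' hpJ' (fun e he => (hQJ e he).2.2) h.2 u hu v hv huv huB hvB)
  have hsum : ∀ K ⊆ ({a, b, c, d} : Finset α), 1 < ∑ e ∈ K, x e →
      ∃ u ∈ K, ∃ v ∈ K, D N (insert p J) u v := by
    intro K hK hs
    obtain ⟨B, hB, hB2⟩ := exists_gt w0 w1 wx K 1 (by exact_mod_cast hs)
    obtain ⟨u, hu, v, hv, huv⟩ := one_lt_card.1 hB2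
    rw [mem_inter] at hu hv
    exact ⟨u, hu.2, v, hv.2, hsupp B hB u (hK hu.2) v (hK hv.2) huv hu.1 hv.1⟩
  have hnl : ∀ u ∈ ({a, b, c, d} : Finset α), 0 < x u → NL N (insert p J) u := by
    intro u hu hxu
    obtain ⟨B, hB, hB2⟩ := exists_gt w0 w1 wx {u} 0 (by simpa using hxu)
    have huB : u ∈ B := by
      rw [card_pos] at hB2
      obtain ⟨t, ht⟩ := hB2
      simp only [mem_inter, mem_singleton] at ht
      rw [← ht.2]; exact ht.1
    have h1 : 1 < (B ∩ {a, b, c, d}).card := by rw [hQ2 B hB]; norm_num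
    obtain ⟨v, hv, hvu⟩ := exists_mem_ne h1 u
    rw [mem_inter] at hv
    exact ⟨v, hsupp B hB u hu v hv.2 hvu.symm huB hv.1⟩
  have hcd : D N (insert p J) c d := by
    obtain ⟨u, hu, v, hv, huv⟩ := hsum {c, d} (by intro e; simp; tauto)
      (by rw [sum_pair ncd, xc, xd]; norm_num)
    simp only [mem_insert, mem_singleton] at hu hv
    rcases hu with rfl | rfl <;> rcases hv with rfl | rfl
    · exact absurd huv (not_D_self hNB hI _)
    · exact huv
    · exact huv.symm
    · exact absurd huv (not_D_self hNB hI _)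
  have hab : ¬ D N (insert p J) a b := fun h => hF.t N hN h hcd
  have hNa : NL N (insert p J) a := hnl a (by simp) (by rw [xa]; norm_num)
  have hNb : NL N (insert p J) b := hnl b (by simp) (by rw [xb]; norm_num)
  have key : ∀ z ∈ ({a, b, c, d} : Finset α), a ≠ z → b ≠ z → 3/5 ≤ x z →
      D N (insert p J) a z ∨ D N (insert p J) b z := by
    intro z hz z1 z3 hxz
    obtain ⟨u, hu, v, hv, huv⟩ := hsum {a, b, z} (by
        intro e he; simp only [mem_insert, mem_singleton] at he ⊢
        rcases he with rfl | rfl | rfl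
        · simp
        · simp
        · simpa using hz) (by
        rw [sum_insert (by simp [nab, z1]), sum_pair z3, xa, xb]
        linarith)
    simp only [mem_insert, mem_singleton] at hu hv
    rcases hu with rfl | rfl | rfl <;> rcases hv with rfl | rfl | rfl <;>
      first
      | exact absurd huv (not_D_self hNB hI _)
      | exact absurd huv hab
      | exact absurd huv.symm hab
      | exact Or.inl huv
      | exact Or.inl huv.symm
      | exact Or.inr huv
      | exact Or.inr huv.symm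
  have hac' : D N (insert p J) a c := by
    rcases key c (by simp) nac nbc (by rw [xc]) with h | h
    · exact h
    · rcases hNa.exch hNB hI h with h | h
      · exact absurd h hab
      · exact h
  have hbd : D N (insert p J) b d := by
    rcases key d (by simp) nad nbd (by rw [xd]) with h | h
    · rcases hNb.exch hNB hI h with h | h
      · exact absurd h.symm hab
      · exact h
    · exact h
  exact hS.T_of hI' hN (c1 a (by simp) c (by simp) hac') (c1 b (by simp) d (by simp) hbd)
    (fun h => hab (c2 a (by simp) b (by simp) h))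

end Pool.Agent.R138.Pg
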