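import Pool.Agent.R138.PgCell

namespace Pool.Agent.R138.Pg

open Finset

set_option linter.unusedSectionVars false

variable {α : Type*} [Fintype α] [DecidableEq α]
variable {r : ℕ} {N M : Finset α → Prop} {I : Finset α} {S : Set (Finset α → Prop)}

theorem exists_pos_point (hM : BF r M) (hI : I.card + 2 = r) {R : Finset α}
    (hR : ∀ u ∈ R, ∀ v ∈ R, u ≠ v → D M I u v) {a b : α} (ha : a ∈ R) (hb : b ∈ R) (hab : a ≠ b) :
    ∃ z ∈ fpoly M, (∀ e, 0 ≤ z e) ∧ (∀ e ∈ I, z e = 1) ∧ ∀ e ∈ R, 0 < z e := by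
  have hne : (R.erase a).Nonempty := ⟨b, mem_erase.2 ⟨hab.symm, hb⟩⟩
  have hpos : (0 : ℝ) < (R.erase a).card := by exact_mod_cast hne.card_pos
  have hnn : ∀ (B : Finset α) e, 0 ≤ ind B e := by
    intro B e; unfold ind; split_ifs <;> norm_num
  refine ⟨∑ u ∈ R.erase a, ((R.erase a).card : ℝ)⁻¹ • ind (insert a (insert u I)), ?_, ?_, ?_, ?_⟩
  · apply (convex_fpoly M).sum_mem
    · intro i _; positivity
    · rw [sum_const, nsmul_eq_mul]; field_simp
    · intro u hu
      rw [mem_erase] at hu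
      exact ind_mem (hR a ha u hu.2 hu.1.symm)
  · intro e
    rw [Finset.sum_apply]
    apply sum_nonneg
    intro u _
    simp only [Pi.smul_apply, smul_eq_mul]
    exact mul_nonneg (by positivity) (hnn _ _)
  · intro e he
    rw [Finset.sum_apply]
    have : ∀ u ∈ R.erase a, (((R.erase a).card : ℝ)⁻¹ • ind (insert a (insert u I))) e =
        ((R.erase a).card : ℝ)⁻¹ := by
      intro u _
      simp [ind, he]
    rw [sum_congr rfl this, sum_const, nsmul_eq_mul]
    field_simp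
  · intro e he
    rw [Finset.sum_apply]
    have hnn2 : ∀ u ∈ R.erase a, 0 ≤ (((R.erase a).card : ℝ)⁻¹ • ind (insert a (insert u I))) e := by
      intro u _
      simp only [Pi.smul_apply, smul_eq_mul]
      exact mul_nonneg (by positivity) (hnn _ _)
    by_cases hea : e = a
    · have : 0 < (((R.erase a).card : ℝ)⁻¹ • ind (insert a (insert b I))) e := by
        simp [ind, hea, hpos]
      exact sum_pos' hnn2 ⟨b, mem_erase.2 ⟨hab.symm, hb⟩, this⟩
    · have : 0 < (((R.erase a).card : ℝ)⁻¹ • ind (insert a (insert e I))) e := by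
        simp [ind, hpos]
      exact sum_pos' hnn2 ⟨e, mem_erase.2 ⟨hea, he⟩, this⟩

theorem Sub.cluster_of_T (hS : Sub r M S) (hI : I.card + 2 = r) {R : Finset α}
    (hR : ∀ u ∈ R, ∀ v ∈ R, u ≠ v → D M I u v) {a y b c : α} (ha : a ∈ R) (hy : y ∈ R)
    (hb : b ∈ R) (hc : c ∈ R) (nay : a ≠ y) (nab : a ≠ b) (nac : a ≠ c) (nyb : y ≠ b)
    (nyc : y ≠ c) (nbc : b ≠ c) (hT : T S I a y b c) :
    ∃ N ∈ S, (∀ u ∈ R, NL N I u) ∧ ¬ D N I a y ∧ D N I a b ∧ D N I a c ∧ D N I b c := by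
  obtain ⟨z, hz, z0, zI, zR⟩ := exists_pos_point hS.bfM hI hR ha hb nab
  have hx := comb4 (convex_fpoly M) (ind_mem (hR b hb c hc nbc)) (ind_mem (hR a ha b hb nab))
    (ind_mem (hR y hy c hc nyc)) hz (9/50) (18/50) (18/50) (1/10) (by norm_num) (by norm_num)
    (by norm_num) (by norm_num) (by norm_num)
  obtain ⟨_, na, nb⟩ := (hR a ha b hb nab).spec hS.bfM hI
  obtain ⟨_, ny, nc⟩ := (hR y hy c hc nyc).spec hS.bfM hI
  obtain ⟨x, hxM, hxe⟩ : ∃ x ∈ fpoly M, ∀ e, x e =
      9/50 * ((if e = b then 1 else 0) + (if e = c then 1 else 0) + (if e ∈ I then 1 else 0)) +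
      18/50 * ((if e = a then 1 else 0) + (if e = b then 1 else 0) + (if e ∈ I then 1 else 0)) +
      18/50 * ((if e = y then 1 else 0) + (if e = c then 1 else 0) + (if e ∈ I then 1 else 0)) +
      1/10 * z e := by
    refine ⟨_, hx, fun e => ?_⟩
    rw [ind_insert_insert nbc nb nc, ind_insert_insert nab na nb, ind_insert_insert nyc ny nc]
  obtain ⟨N, hN, hxN⟩ := hS.cover x hxM
  have hNB := hS.bf N hN
  have hI1 : ∀ e ∈ I, x e = 1 := by
    intro e he
    have e1 : e ≠ a := fun h => na (h ▸ he)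
    have e2 : e ≠ y := fun h => ny (h ▸ he)
    have e3 : e ≠ b := fun h => nb (h ▸ he)
    have e4 : e ≠ c := fun h => nc (h ▸ he)
    rw [hxe, zI e he]; simp [e1, e2, e3, e4, he]; norm_num
  have xa : 18/50 ≤ x a := by
    rw [hxe]; simp [nab, nac, nay, na]; exact z0 a
  have xy : 18/50 ≤ x y := by
    rw [hxe]; simp [nay.symm, nyb, nyc, ny]; exact z0 y
  have xb : 27/50 ≤ x b := by
    rw [hxe]; simp [nab.symm, nbc, nyb.symm, nb]
    have := z0 b
    linarith
  have xc : 27/50 ≤ x c := by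
    rw [hxe]; simp [nac.symm, nbc.symm, nyc.symm, nc]
    have := z0 c
    linarith
  have hxnn : ∀ e, 1/10 * z e ≤ x e := by
    intro e
    rw [hxe]
    have h1 : ∀ p : Prop, ∀ [Decidable p], (0 : ℝ) ≤ (if p then 1 else 0) := by
      intro p _; split_ifs <;> norm_num
    have := h1 (e = a)
    have := h1 (e = b)
    have := h1 (e = c)
    have := h1 (e = y)
    have := h1 (e ∈ I)
    linarith
  have hRI : ∀ e ∈ R, e ∉ I := by
    intro e he
    by_cases h : e = a
    · rw [h]; exact na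
    · exact ((hR e he a ha h).spec hS.bfM hI).2.1
  have hNL : ∀ u ∈ R, NL N I u := by
    intro u hu
    apply nl_of_pos hNB hI hxN hI1 (hRI u hu)
    have := hxnn u
    have := zR u hu
    linarith
  have hbc : D N I b c := by
    obtain ⟨u, hu, v, hv, huv⟩ := pair_of_sum hNB hI hxN hI1 (K := {b, c})
      (by simp [nb, nc]) (by rw [sum_pair nbc]; linarith)
    simp only [mem_insert, mem_singleton] at hu hv
    rcases hu with rfl | rfl <;> rcases hv with rfl | rfl
    · exact absurd huv (not_D_self hNB hI _)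
    · exact huv
    · exact huv.symm
    · exact absurd huv (not_D_self hNB hI _)
  have hay : ¬ D N I a y := fun h => hT N hN h hbc
  have key : ∀ t ∈ R, a ≠ t → y ≠ t → 27/50 ≤ x t → D N I a t := by
    intro t ht z1 z3 hxz
    obtain ⟨u, hu, v, hv, huv⟩ := pair_of_sum hNB hI hxN hI1 (K := {a, y, t})
      (by simp [na, ny, hRI t ht]) (by
        rw [sum_insert (by simp [nay, z1]), sum_pair z3]
        linarith)
    simp only [mem_insert, mem_singleton] at hu hv
    have hyt : D N I y t → D N I a t := by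
      intro h
      rcases (hNL a ha).exch hNB hI h with h | h
      · exact absurd h hay
      · exact h
    rcases hu with rfl | rfl | rfl <;> rcases hv with rfl | rfl | rfl <;>
      first
      | exact absurd huv (not_D_self hNB hI _)
      | exact absurd huv hay
      | exact absurd huv.symm hay
      | exact huv
      | exact huv.symm
      | exact hyt huv
      | exact hyt huv.symm
  exact ⟨N, hN, hNL, hay, key b hb nab nyb xb, key c hc nac nyc xc, hbc⟩

open scoped Classical in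
theorem Sub.no_cluster (hS : Sub r M S) (hI : I.card + 2 = r) {R : Finset α}
    (hR : ∀ u ∈ R, ∀ v ∈ R, u ≠ v → D M I u v)
    (hswap : ∀ a ∈ R, ∀ b ∈ R, ∀ c ∈ R, ∀ d ∈ R, a ≠ b → a ≠ c → a ≠ d → b ≠ c → b ≠ d → c ≠ d →
      T S I a b c d → ∃ y ∈ R, y ≠ a ∧ y ≠ b ∧ y ≠ c ∧ T S I a y b c) :
    ∀ n : ℕ, ∀ N ∈ S, ∀ a ∈ R, (∀ u ∈ R, NL N I u) →
      (R.filter (fun u => ¬ D N I a u)).card = n → (∃ b ∈ R, b ≠ a ∧ ¬ D N I a b) →
      (∃ b ∈ R, ∃ c ∈ R, D N I a b ∧ D N I a c ∧ D N I b c) → False := by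
  intro n
  induction n using Nat.strong_induction_on with
  | _ n ih =>
    rintro N hN a ha hNL hn ⟨b, hb, hba, nDab⟩ ⟨c, hc, d, hd, Dac, Dad, Dcd⟩
    have hNB := hS.bf N hN
    have nac := (Dac.spec hNB hI).1
    have nad := (Dad.spec hNB hI).1
    have ncd := (Dcd.spec hNB hI).1
    have Dbc : D N I b c := by
      rcases (hNL b hb).exch hNB hI Dac with h | h
      · exact absurd h.symm nDab
      · exact h
    have Dbd : D N I b d := by
      rcases (hNL b hb).exch hNB hI Dad with h | h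
      · exact absurd h.symm nDab
      · exact h
    have nbc := (Dbc.spec hNB hI).1
    have nbd := (Dbd.spec hNB hI).1
    have hT : T S I a b c d := hS.T_of hI hN Dac Dbd nDab
    obtain ⟨y, hy, nya, nyb, nyc, hT'⟩ := hswap a ha b hb c hc d hd hba.symm nac nad nbc nbd ncd hT
    obtain ⟨N', hN', hNL', nDay, Dab', Dac', Dbc'⟩ := hS.cluster_of_T hI hR ha hy hb hc
      nya.symm hba.symm nac nyb nyc nbc hT'
    have hNB' := hS.bf N' hN'
    have hsub : R.filter (fun u => ¬ D N' I a u) ⊂ R.filter (fun u => ¬ D N I a u) := by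
      rw [ssubset_iff_of_subset]
      · refine ⟨b, ?_, ?_⟩
        · simp [hb, nDab]
        · simp [Dab']
      · intro z hz
        rw [mem_filter] at hz ⊢
        refine ⟨hz.1, fun Daz => ?_⟩
        have Dzc' : D N' I z c := by
          rcases (hNL' z hz.1).exch hNB' hI Dac' with h | h
          · exact absurd h.symm hz.2
          · exact h
        exact hS.T_of hI hN' Dab' Dzc' hz.2 N hN Daz Dbc
    have hlt := card_lt_card hsub
    rw [hn] at hlt
    exact ih _ hlt N' hN' a ha hNL' rfl ⟨y, hy, nya, nDay⟩ ⟨b, hb, c, hc, Dab', Dac', Dbc'⟩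

theorem Sub.no_T (hS : Sub r M S) (hI : I.card + 2 = r) {R : Finset α}
    (hR : ∀ u ∈ R, ∀ v ∈ R, u ≠ v → D M I u v)
    (hswap : ∀ a ∈ R, ∀ b ∈ R, ∀ c ∈ R, ∀ d ∈ R, a ≠ b → a ≠ c → a ≠ d → b ≠ c → b ≠ d → c ≠ d →
      T S I a b c d → ∃ y ∈ R, y ≠ a ∧ y ≠ b ∧ y ≠ c ∧ T S I a y b c)
    {a b c d : α} (ha : a ∈ R) (hb : b ∈ R) (hc : c ∈ R) (hd : d ∈ R) (nab : a ≠ b) (nac : a ≠ c)
    (nad : a ≠ d) (nbc : b ≠ c) (nbd : b ≠ d) (ncd : c ≠ d) : ¬ T S I a b c d := by
  intro hT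
  obtain ⟨N, hN, hNL, nDab, Dac, Dad, Dcd⟩ := hS.cluster_of_T hI hR ha hb hc hd nab nac nad nbc
    nbd ncd hT
  exact hS.no_cluster hI hR hswap _ N hN a ha hNL rfl ⟨b, hb, nab.symm, nDab⟩
    ⟨c, hc, d, hd, Dac, Dad, Dcd⟩

end Pool.Agent.R138.Pg
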