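import Pool.Agent.R138.PgPoly

namespace Pool.Agent.R138.Pg

open Finset

set_option linter.unusedSectionVars false

variable {α : Type*} [Fintype α] [DecidableEq α]
variable {r : ℕ} {N M : Finset α → Prop} {I : Finset α}

theorem sum_ind (B A : Finset α) : ∑ e ∈ A, ind B e = ((B ∩ A).card : ℝ) := by
  simp only [ind]
  rw [sum_ite_mem, inter_comm]
  simp

theorem exists_generic_aux (hne : ∃ B, M B)
    (hconn : ∀ A : Finset α, A.Nonempty → A ≠ univ →
      ∃ B1 B2, M B1 ∧ M B2 ∧ (B1 ∩ A).card ≠ (B2 ∩ A).card) (Q : Finset (Finset α)) :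
    (∀ A ∈ Q, A.Nonempty ∧ A ≠ univ) → ∃ x ∈ fpoly M, ∀ A ∈ Q, ∀ k : ℤ, ∑ e ∈ A, x e ≠ k := by
  induction Q using Finset.induction_on with
  | empty =>
    intro _
    obtain ⟨B, hB⟩ := hne
    exact ⟨ind B, ind_mem hB, by simp⟩
  | insert A0 Q hA0 ih =>
    intro hQ
    obtain ⟨x, hx, hxQ⟩ := ih (fun A hA => hQ A (mem_insert_of_mem hA))
    obtain ⟨B, hB, hB2⟩ : ∃ B, M B ∧ ((B ∩ A0).card : ℝ) ≠ ∑ e ∈ A0, x e := by
      obtain ⟨B1, B2, h1, h2, h3⟩ := hconn A0 (hQ A0 (mem_insert_self _ _)).1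
        (hQ A0 (mem_insert_self _ _)).2
      by_cases h : ((B1 ∩ A0).card : ℝ) = ∑ e ∈ A0, x e
      · refine ⟨B2, h2, fun h' => h3 ?_⟩
        have : ((B1 ∩ A0).card : ℝ) = (B2 ∩ A0).card := by rw [h, h']
        exact_mod_cast this
      · exact ⟨B1, h1, h⟩
    set C : Set ℝ := ⋃ A ∈ insert A0 Q, Set.range (fun k : ℤ =>
      ((k : ℝ) - ∑ e ∈ A, x e) / (((B ∩ A).card : ℝ) - ∑ e ∈ A, x e)) with hC
    have hCc : C.Countable := by
      rw [hC]
      exact Set.Countable.biUnion (Finset.countable_toSet _) (fun A _ => Set.countable_range _)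
    obtain ⟨t, ht, ht0, ht1⟩ := (Set.Countable.dense_compl ℝ hCc).exists_between
      (show (0 : ℝ) < 1 by norm_num)
    refine ⟨fun e => (1 - t) * x e + t * ind B e, ?_, ?_⟩
    · have hc : Convex ℝ (fpoly M) := convex_convexHull ℝ _
      have := hc hx (ind_mem hB) (a := 1 - t) (b := t) (by linarith) (by linarith) (by ring)
      convert this using 1
      funext e
      simp
    · intro A hA k hk
      rw [sum_add_distrib, ← mul_sum, ← mul_sum, sum_ind] at hk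
      have hne : ((B ∩ A).card : ℝ) - ∑ e ∈ A, x e ≠ 0 := by
        intro h0
        rcases mem_insert.1 hA with rfl | hA
        · exact hB2 (by linarith)
        · exact hxQ A hA ((B ∩ A).card : ℤ) (by push_cast; linarith)
      apply ht
      rw [hC]
      simp only [Set.mem_iUnion, Set.mem_range]
      refine ⟨A, hA, k, ?_⟩
      rw [div_eq_iff hne, ← hk]
      ring

theorem exists_generic (hne : ∃ B, M B)
    (hconn : ∀ A : Finset α, A.Nonempty → A ≠ univ →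
      ∃ B1 B2, M B1 ∧ M B2 ∧ (B1 ∩ A).card ≠ (B2 ∩ A).card) :
    ∃ x ∈ fpoly M, ∀ A : Finset α, A.Nonempty → A ≠ univ → ∀ k : ℤ, ∑ e ∈ A, x e ≠ k := by
  obtain ⟨x, hx, hx2⟩ := exists_generic_aux hne hconn
    (univ.filter (fun A : Finset α => A.Nonempty ∧ A ≠ univ)) (by simp)
  exact ⟨x, hx, fun A h1 h2 => hx2 A (by simp [h1, h2])⟩

theorem conn_of_generic {x : α → ℝ} (hx : x ∈ fpoly N)
    (hgen : ∀ A : Finset α, A.Nonempty → A ≠ univ → ∀ k : ℤ, ∑ e ∈ A, x e ≠ k)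
    {A : Finset α} (h1 : A.Nonempty) (h2 : A ≠ univ) :
    ∃ B1 B2, N B1 ∧ N B2 ∧ (B1 ∩ A).card ≠ (B2 ∩ A).card := by
  by_contra hcon
  push Not at hcon
  obtain ⟨w, a, b, c, d⟩ := mem_fpoly.1 hx
  obtain ⟨C, hC⟩ : ∃ C, w C ≠ 0 := by
    by_contra h
    push Not at h
    simp [h] at c
  apply hgen A h1 h2 ((C ∩ A).card : ℤ)
  rw [sum_weights d]
  have : ∀ B, w B * ((B ∩ A).card : ℝ) = w B * ((C ∩ A).card : ℝ) := by
    intro B
    by_cases h : w B = 0
    · simp [h]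
    · rw [hcon B C (b B h) (b C hC)]
  simp only [this]
  rw [← sum_mul, c]
  push_cast; ring

end Pool.Agent.R138.Pg
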