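import Pool.Agent.R138.PgPoly

namespace Pool.Agent.R138.Pg

open Finset Module

set_option linter.unusedSectionVars false

variable {α : Type*} [Fintype α] [DecidableEq α]
variable {F V : Type*} [Field F] [AddCommGroup V] [Module F V]

/-- bases of the vector matroid of `v` in dimension `r` -/
def LB (F : Type*) {V : Type*} [Field F] [AddCommGroup V] [Module F V] (v : α → V) (r : ℕ)
    (B : Finset α) : Prop := B.card = r ∧ LinearIndepOn F v (B : Set α)

theorem LB_iff_span [FiniteDimensional F V] {v : α → V} {r : ℕ} (hr : finrank F V = r)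
    {B : Finset α} (hB : B.card ≤ r) :
    LB F v r B ↔ Submodule.span F (v '' (B : Set α)) = ⊤ := by
  have himg : v '' (B : Set α) = Set.range (fun i : (B : Set α) => v i) := Set.image_eq_range _ _
  constructor
  · rintro ⟨h1, h2⟩
    have h3 : LinearIndependent F (fun i : (B : Set α) => v i) := h2
    rw [himg]
    by_cases hne : Nonempty (B : Set α)
    · apply h3.span_eq_top_of_card_eq_finrank
      rw [hr, ← h1]; simp
    · have hB0 : B = ∅ := by
        rw [not_nonempty_iff] at hne
        by_contra hB0
        obtain ⟨x, hx⟩ := nonempty_iff_ne_empty.2 hB0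
        exact hne.false ⟨x, hx⟩
      subst hB0
      simp only [card_empty] at h1
      have h4 : finrank F V = 0 := by omega
      have : Subsingleton V := finrank_zero_iff.1 h4
      exact Subsingleton.elim _ _
  · intro h
    have h1 : r ≤ B.card := by
      have : finrank F (Submodule.span F (v '' (B : Set α))) ≤ B.card := by
        rw [himg]
        have := finrank_range_le_card (R := F) (fun i : (B : Set α) => v i)
        simpa [Set.finrank] using this
      rw [h, finrank_top, hr] at this
      exact this
    have h2 : B.card = r := le_antisymm hB h1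
    refine ⟨h2, ?_⟩
    have h3 : LinearIndependent F (fun i : (B : Set α) => v i) := by
      apply linearIndependent_of_top_le_span_of_card_eq_finrank
      · rw [← himg, h]
      · rw [hr, ← h2]; simp
    exact h3

/-- coordinates modulo the span of `J` -/
theorem exists_coords [FiniteDimensional F V] {v : α → V} {r : ℕ} (hr : finrank F V = r)
    {J : Finset α} (hJ : J.card + 3 = r) {a c p : α}
    (hB : LB F v r (insert a (insert c (insert p J)))) :
    ∃ κ : V →ₗ[F] (Fin 3 → F), (∀ j ∈ J, κ (v j) = 0) ∧
      (∀ x, κ x = 0 → x ∈ Submodule.span F (v '' (J : Set α))) ∧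
      κ (v a) = ![1, 0, 0] ∧ κ (v c) = ![0, 1, 0] ∧ κ (v p) = ![0, 0, 1] := by
  have hcard := hB.1
  have c1 := card_insert_le p J
  have c2 := card_insert_le c (insert p J)
  have c3 := card_insert_le a (insert c (insert p J))
  have hpJ : p ∉ J := fun h => by rw [insert_eq_of_mem h] at c1 c2 c3 hcard; omega
  have hc : c ∉ insert p J := fun h => by rw [insert_eq_of_mem h] at c2 c3 hcard; omega
  have ha : a ∉ insert c (insert p J) := fun h => by rw [insert_eq_of_mem h] at c3 hcard; omega
  simp only [mem_insert, not_or] at hc ha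
  set B := insert a (insert c (insert p J)) with hBdef
  have hspan := (LB_iff_span hr (by rw [hcard])).1 hB
  have hli : LinearIndependent F (fun i : (B : Set α) => v i) := hB.2
  have himg : v '' (B : Set α) = Set.range (fun i : (B : Set α) => v i) := Set.image_eq_range _ _
  let b : Basis (B : Set α) F V := Basis.mk hli (by rw [← himg, hspan])
  have hb : ∀ i : (B : Set α), b i = v i := fun i => by
    simp [b]
  have ma : a ∈ (B : Set α) := by simp [hBdef]
  have mc : c ∈ (B : Set α) := by simp [hBdef]
  have mp : p ∈ (B : Set α) := by simp [hBdef]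
  have hco : ∀ (s t : α) (hs : s ∈ (B : Set α)) (ht : t ∈ (B : Set α)),
      b.coord ⟨s, hs⟩ (v t) = if s = t then 1 else 0 := by
    intro s t hs ht
    have : v t = b ⟨t, ht⟩ := (hb ⟨t, ht⟩).symm
    rw [this, Basis.coord_apply, Basis.repr_self, Finsupp.single_apply]
    by_cases h : s = t
    · subst h; simp
    · rw [if_neg h, if_neg]
      intro h'
      exact h (congrArg Subtype.val h').symm
  refine ⟨LinearMap.pi ![b.coord ⟨a, ma⟩, b.coord ⟨c, mc⟩, b.coord ⟨p, mp⟩], ?_, ?_, ?_, ?_, ?_⟩
  · intro j hj
    have mj : j ∈ (B : Set α) := by simp [hBdef, hj]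
    have e1 : a ≠ j := fun h => ha.2.2 (h ▸ hj)
    have e2 : c ≠ j := fun h => hc.2 (h ▸ hj)
    have e3 : p ≠ j := fun h => hpJ (h ▸ hj)
    funext i
    fin_cases i
    · simp [LinearMap.pi_apply, hco a j ma mj, e1]
    · simp [LinearMap.pi_apply, hco c j mc mj, e2]
    · simp [LinearMap.pi_apply, hco p j mp mj, e3]
  · intro x hx
    have x0 : b.coord ⟨a, ma⟩ x = 0 := by simpa using congrFun hx 0
    have x1 : b.coord ⟨c, mc⟩ x = 0 := by simpa using congrFun hx 1
    have x2 : b.coord ⟨p, mp⟩ x = 0 := by simpa using congrFun hx 2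
    rw [← b.sum_repr x]
    apply Submodule.sum_mem
    rintro ⟨i, hi⟩ _
    have hi' : i ∈ B := hi
    rw [hBdef] at hi'
    simp only [mem_insert] at hi'
    rcases hi' with rfl | rfl | rfl | h
    · rw [Basis.coord_apply] at x0
      rw [x0, zero_smul]; exact Submodule.zero_mem _
    · rw [Basis.coord_apply] at x1
      rw [x1, zero_smul]; exact Submodule.zero_mem _
    · rw [Basis.coord_apply] at x2
      rw [x2, zero_smul]; exact Submodule.zero_mem _
    · rw [hb]
      exact Submodule.smul_mem _ _ (Submodule.subset_span ⟨i, by exact_mod_cast h, rfl⟩)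
  · funext i
    fin_cases i
    · simp [LinearMap.pi_apply, hco a a ma ma]
    · simp [LinearMap.pi_apply, hco c a mc ma, Ne.symm ha.1]
    · simp [LinearMap.pi_apply, hco p a mp ma, Ne.symm ha.2.1]
  · funext i
    fin_cases i
    · simp [LinearMap.pi_apply, hco a c ma mc, ha.1]
    · simp [LinearMap.pi_apply, hco c c mc mc]
    · simp [LinearMap.pi_apply, hco p c mp mc, Ne.symm hc.1]
  · funext i
    fin_cases i
    · simp [LinearMap.pi_apply, hco a p ma mp, ha.2.1]
    · simp [LinearMap.pi_apply, hco c p mc mp, hc.1]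
    · simp [LinearMap.pi_apply, hco p p mp mp]

/-- three by three determinant -/
def det3 (x y z : Fin 3 → F) : F :=
  x 0 * (y 1 * z 2 - y 2 * z 1) - x 1 * (y 0 * z 2 - y 2 * z 0) + x 2 * (y 0 * z 1 - y 1 * z 0)

theorem span_iff_det3 (x y z : Fin 3 → F) :
    Submodule.span F ({x, y, z} : Set (Fin 3 → F)) = ⊤ ↔ det3 x y z ≠ 0 := by
  have hdet : (Matrix.of ![x, y, z]).det = det3 x y z := by
    rw [Matrix.det_fin_three]
    simp [det3]
    ring
  have hrange : ({x, y, z} : Set (Fin 3 → F)) = Set.range (![x, y, z] : Fin 3 → (Fin 3 → F)) := by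
    ext t
    constructor
    · rintro (rfl | rfl | rfl)
      · exact ⟨0, rfl⟩
      · exact ⟨1, rfl⟩
      · exact ⟨2, rfl⟩
    · rintro ⟨i, rfl⟩
      fin_cases i
      · exact Or.inl rfl
      · exact Or.inr (Or.inl rfl)
      · exact Or.inr (Or.inr rfl)
  rw [hrange, ← hdet]
  have h1 : Submodule.span F (Set.range (![x, y, z] : Fin 3 → (Fin 3 → F))) = ⊤ ↔
      LinearIndependent F (![x, y, z] : Fin 3 → (Fin 3 → F)) := by
    constructor
    · intro h
      exact linearIndependent_of_top_le_span_of_card_eq_finrank (by rw [h]) (by simp)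
    · intro h
      exact h.span_eq_top_of_card_eq_finrank (by simp)
  rw [h1]
  have h2 : LinearIndependent F (![x, y, z] : Fin 3 → (Fin 3 → F)) ↔
      IsUnit (Matrix.of ![x, y, z]) := by
    rw [← Matrix.linearIndependent_rows_iff_isUnit]
    rfl
  rw [h2, Matrix.isUnit_iff_isUnit_det, isUnit_iff_ne_zero]

theorem crit [FiniteDimensional F V] {v : α → V} {r : ℕ} (hr : finrank F V = r)
    {J : Finset α} (hJ : J.card + 3 = r) {κ : V →ₗ[F] (Fin 3 → F)}
    (h0 : ∀ j ∈ J, κ (v j) = 0)
    (hk : ∀ x, κ x = 0 → x ∈ Submodule.span F (v '' (J : Set α)))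
    (hsurj : Function.Surjective κ) (x y z : α) :
    LB F v r (insert x (insert y (insert z J))) ↔ det3 (κ (v x)) (κ (v y)) (κ (v z)) ≠ 0 := by
  have c1 := card_insert_le z J
  have c2 := card_insert_le y (insert z J)
  have c3 := card_insert_le x (insert y (insert z J))
  rw [LB_iff_span hr (by omega), ← span_iff_det3]
  set P := Submodule.span F (v '' ((insert x (insert y (insert z J)) : Finset α) : Set α)) with hP
  have hker : LinearMap.ker κ ≤ P := by
    intro t ht
    rw [LinearMap.mem_ker] at ht
    refine Submodule.span_mono ?_ (hk t ht)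
    apply Set.image_mono
    intro j hj
    have : j ∈ J := by exact_mod_cast hj
    simp [this]
  have hmap : Submodule.map κ P = Submodule.span F ({κ (v x), κ (v y), κ (v z)} : Set _) := by
    rw [hP, Submodule.map_span]
    apply le_antisymm
    · rw [Submodule.span_le]
      rintro _ ⟨_, ⟨j, hj, rfl⟩, rfl⟩
      have hj' : j ∈ insert x (insert y (insert z J)) := by exact_mod_cast hj
      simp only [mem_insert] at hj'
      rcases hj' with rfl | rfl | rfl | h
      · exact Submodule.subset_span (by simp)
      · exact Submodule.subset_span (by simp)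
      · exact Submodule.subset_span (by simp)
      · rw [h0 j h]; exact Submodule.zero_mem _
    · apply Submodule.span_mono
      rintro _ (rfl | rfl | rfl)
      · exact ⟨v x, ⟨x, by simp, rfl⟩, rfl⟩
      · exact ⟨v y, ⟨y, by simp, rfl⟩, rfl⟩
      · exact ⟨v z, ⟨z, by simp, rfl⟩, rfl⟩
  rw [← hmap]
  constructor
  · intro h
    rw [h, Submodule.map_top, LinearMap.range_eq_top]
    exact hsurj
  · intro h
    have := Submodule.comap_map_eq_self hker
    rw [h, Submodule.comap_top] at this
    exact this.symm

end Pool.Agent.R138.Pg
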