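import Pool.Agent.R138.PgPoly

namespace Pool.Agent.R138.Pg

open Finset

set_option linter.unusedSectionVars false

variable {α : Type*} [Fintype α] [DecidableEq α]
variable {r : ℕ} {N M : Finset α → Prop} {I : Finset α}

/-- adjacency in the fundamental graph of the base `B` -/
def adj (N : Finset α → Prop) (B : Finset α) (e f : α) : Prop :=
  e ∈ B ∧ f ∉ B ∧ N (insert f (B.erase e))

/-- alternating walks in the fundamental graph -/
def Wk (N : Finset α → Prop) (B : Finset α) : ℕ → α → α → Prop
  | 0, e, f => adj N B e f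
  | n + 1, e, f => ∃ f1 e1, adj N B e f1 ∧ adj N B e1 f1 ∧ Wk N B n e1 f

/-- a base of `M` adjacent to a base of `N` but not a base of `N` -/
def Bad (N M : Finset α → Prop) (B : Finset α) (e f : α) : Prop :=
  N B ∧ e ∈ B ∧ f ∉ B ∧ M (insert f (B.erase e)) ∧ ¬ N (insert f (B.erase e))

theorem erase_erase_facts {B : Finset α} {e g : α} (he : e ∈ B) (hg : g ∈ B) (h : e ≠ g) :
    B = insert e (insert g ((B.erase e).erase g)) ∧ B.erase e = insert g ((B.erase e).erase g) ∧
      B.erase g = insert e ((B.erase e).erase g) ∧ ((B.erase e).erase g).card + 2 = B.card := by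
  have h1 : B.erase e = insert g ((B.erase e).erase g) :=
    (insert_erase (mem_erase.2 ⟨h.symm, hg⟩)).symm
  have h2 : B.erase g = insert e ((B.erase e).erase g) := by
    rw [erase_right_comm]
    exact (insert_erase (mem_erase.2 ⟨h, he⟩)).symm
  refine ⟨?_, h1, h2, ?_⟩
  · rw [← h1, insert_erase he]
  · have c1 := card_erase_add_one he
    have c2 := card_erase_add_one (s := B.erase e) (a := g) (mem_erase.2 ⟨h.symm, hg⟩)
    omega

theorem adj_persist (hN : BF r N) {B : Finset α} (hB : N B) {e1 f1 g h : α}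
    (h1 : adj N B e1 f1) (hgh : adj N B g h) (hgf : ¬ adj N B g f1) :
    adj N (insert f1 (B.erase e1)) g h := by
  obtain ⟨he1, hf1, hN1⟩ := h1
  obtain ⟨hg, hh, hN2⟩ := hgh
  have nge : e1 ≠ g := by
    rintro rfl
    exact hgf ⟨he1, hf1, hN1⟩
  have nhf : h ≠ f1 := by
    rintro rfl
    exact hgf ⟨hg, hh, hN2⟩
  obtain ⟨b1, b2, b3, b4⟩ := erase_erase_facts he1 hg nge
  set I := (B.erase e1).erase g with hIdef
  have hI : I.card + 2 = r := by rw [b4]; exact hN.card B hB
  have d1 : D N I f1 g := by unfold D; rw [← b2]; exact hN1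
  have d2 : D N I h e1 := by unfold D; rw [← b3]; exact hN2
  have d3 : ¬ D N I f1 e1 := by
    intro hd
    apply hgf
    refine ⟨hg, hf1, ?_⟩
    rw [b3]; exact hd
  have d4 : D N I f1 h := by
    rcases d1.nl.exch hN hI d2 with h | h
    · exact h
    · exact absurd h d3
  refine ⟨?_, ?_, ?_⟩
  · exact mem_insert_of_mem (mem_erase.2 ⟨nge.symm, hg⟩)
  · simp only [mem_insert, mem_erase, not_or, not_and]
    exact ⟨nhf, fun _ => hh⟩
  · have : (insert f1 (B.erase e1)).erase g = insert f1 I := by
      rw [erase_insert_of_ne (show f1 ≠ g from fun h => hf1 (by rw [h]; exact hg))]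
    rw [this]
    exact d4.symm

/-- no shortcuts: local agreement forces equality -/
theorem no_bad (hN : BF r N) (hM : BF r M) (hsub : ∀ B, N B → M B)
    (H : ∀ (I : Finset α) (a b c d : α), I.card + 2 = r → Full M I a b c d → D N I a c →
      D N I b d → D N I a b) :
    ∀ n : ℕ, ∀ B e f, Bad N M B e f → ¬ Wk N B n e f := by
  intro n
  induction n using Nat.strong_induction_on with
  | _ n ih =>
    rintro B e f ⟨hB, he, hf, hMf, hNf⟩ hW
    rcases n with _ | _ | m
    · exact hNf hW.2.2
    · obtain ⟨f1, e1, a1, a2, a3⟩ := hW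
      have a3' : adj N B e1 f := a3
      have nee : e ≠ e1 := by
        rintro rfl
        exact hNf a3'.2.2
      obtain ⟨b1, b2, b3, b4⟩ := erase_erase_facts he a2.1 nee
      set I := (B.erase e).erase e1 with hIdef
      have hI : I.card + 2 = r := by rw [b4]; exact hN.card B hB
      have d0 : D N I e e1 := by unfold D; rw [← b1]; exact hB
      have d1 : D N I f1 e1 := by unfold D; rw [← b2]; exact a1.2.2
      have d2 : D N I f1 e := by unfold D; rw [← b3]; exact a2.2.2
      have d3 : D N I f e := by unfold D; rw [← b3]; exact a3'.2.2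
      have d4 : D M I f e1 := by unfold D; rw [← b2]; exact hMf
      have d5 : ¬ D N I f e1 := by unfold D; rw [← b2]; exact hNf
      have d6 : D N I f f1 := by
        rcases d3.nl.exch hN hI d1 with h | h
        · exact h
        · exact absurd h d5
      have hs : ∀ {u v : α}, D N I u v → D M I u v := fun h => hsub _ h
      have := H I e1 f e f1 hI
        ⟨d4.symm, (hs d0).symm, (hs d1).symm, hs d3, hs d6, (hs d2).symm⟩ d0.symm d6
      exact d5 this.symm
    · obtain ⟨f1, e1, a1, a2, f2, e2, a3, a4, hW2⟩ := hW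
      have hbad : Bad N M B e f := ⟨hB, he, hf, hMf, hNf⟩
      have i1 : ¬ adj N B e f2 := fun h => ih (m + 1) (by omega) B e f hbad ⟨f2, e2, h, a4, hW2⟩
      have i2 : ¬ adj N B e1 f := fun h => ih 1 (by omega) B e f hbad ⟨f1, e1, a1, a2, h⟩
      have i3 : ∀ k ≤ m, ∀ g, Wk N B k g f → ¬ adj N B g f1 := fun k hk g hg h =>
        ih (k + 1) (by omega) B e f hbad ⟨f1, g, a1, h, hg⟩
      have nee : e ≠ e1 := by
        rintro rfl
        exact i1 a3
      obtain ⟨b1, b2, b3, b4⟩ := erase_erase_facts he a2.1 nee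
      set I := (B.erase e).erase e1 with hIdef
      have hI : I.card + 2 = r := by rw [b4]; exact hN.card B hB
      have hs : ∀ {u v : α}, D N I u v → D M I u v := fun h => hsub _ h
      have d0 : D N I e e1 := by unfold D; rw [← b1]; exact hB
      have d1 : D N I f1 e1 := by unfold D; rw [← b2]; exact a1.2.2
      have d2 : D N I f1 e := by unfold D; rw [← b3]; exact a2.2.2
      have d3 : D N I f2 e := by unfold D; rw [← b3]; exact a3.2.2
      have d4 : D M I f e1 := by unfold D; rw [← b2]; exact hMf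
      have d5 : ¬ D N I f e1 := by unfold D; rw [← b2]; exact hNf
      by_cases hM2 : M (insert f (B.erase e1))
      · refine ih (m + 1) (by omega) B e1 f ⟨hB, a2.1, hf, hM2, fun h => i2 ⟨a2.1, hf, h⟩⟩
          ⟨f2, e2, a3, a4, hW2⟩
      · have d6 : ¬ D M I f e := by unfold D; rw [← b3]; exact hM2
        have d7 : D M I f f1 := by
          rcases d4.nl.exch hM hI (hs d2) with h | h
          · exact h
          · exact absurd h d6
        have d8 : ¬ D N I f f1 := by
          intro h
          rcases h.nl.exch hN hI d0 with h | h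
          · exact d6 (hs h)
          · exact d5 h
        have hee : (insert f1 (B.erase e1)).erase e = insert f1 I := by
          rw [erase_insert_of_ne (show f1 ≠ e from fun h => a1.2.1 (by rw [h]; exact he)),
            erase_right_comm]
        have hbad' : Bad N M (insert f1 (B.erase e1)) e f := by
          refine ⟨a2.2.2, mem_insert_of_mem (mem_erase.2 ⟨nee, he⟩), ?_, ?_, ?_⟩
          · simp only [mem_insert, mem_erase, not_or, not_and]
            exact ⟨(d7.spec hM hI).1, fun _ => hf⟩
          · rw [hee]; exact d7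
          · rw [hee]; exact d8
        have d9 : D N I f2 f1 := by
          rcases d3.nl.exch hN hI d1 with h | h
          · exact h
          · exfalso
            apply i1
            refine ⟨he, a3.2.1, ?_⟩
            rw [b2]; exact h
        have q1 : adj N (insert f1 (B.erase e1)) e f2 := by
          refine ⟨mem_insert_of_mem (mem_erase.2 ⟨nee, he⟩), ?_, ?_⟩
          · simp only [mem_insert, mem_erase, not_or, not_and]
            exact ⟨(d9.spec hN hI).1, fun _ => a3.2.1⟩
          · rw [hee]; exact d9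
        have q2 : adj N (insert f1 (B.erase e1)) e2 f2 :=
          adj_persist hN hB a2 a4 (i3 m le_rfl e2 hW2)
        have q3 : ∀ k ≤ m, ∀ g, Wk N B k g f → Wk N (insert f1 (B.erase e1)) k g f := by
          intro k
          induction k with
          | zero =>
            intro _ g hg
            exact adj_persist hN hB a2 hg (i3 0 (by omega) g hg)
          | succ k ihk =>
            rintro hk g ⟨f3, e3, h1, h2, h3⟩
            exact ⟨f3, e3, adj_persist hN hB a2 h1 (i3 (k + 1) hk g ⟨f3, e3, h1, h2, h3⟩),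
              adj_persist hN hB a2 h2 (i3 k (by omega) e3 h3), ihk (by omega) e3 h3⟩
        exact ih (m + 1) (by omega) _ e f hbad' ⟨f2, e2, q1, q2, q3 m le_rfl e2 hW2⟩

theorem eq_of_no_bad (hN : BF r N) (hM : BF r M) (hsub : ∀ B, N B → M B)
    (hno : ∀ B e f, ¬ Bad N M B e f) : ∀ B, M B → N B := by
  obtain ⟨B0, hB0⟩ := hN.ne
  suffices h : ∀ n : ℕ, ∀ B1, M B1 → (B1 \ B0).card = n → N B1 from fun B hB => h _ B hB rfl
  intro n
  induction n with
  | zero =>
    intro B1 hB1 h0
    rw [card_eq_zero, sdiff_eq_empty_iff_subset] at h0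
    have : B1 = B0 := eq_of_subset_of_card_le h0 (by rw [hM.card B1 hB1, hN.card B0 hB0])
    rw [this]; exact hB0
  | succ n ih =>
    intro B1 hB1 hcard
    obtain ⟨e, he⟩ : (B1 \ B0).Nonempty := by rw [← card_pos]; omega
    have he' := mem_sdiff.1 he
    obtain ⟨f, hf, hf2, hf3⟩ := hM.exch B1 B0 hB1 (hsub _ hB0) e he'.1 he'.2
    have h1 : insert f (B1.erase e) \ B0 = (B1 \ B0).erase e := by
      ext t
      simp only [mem_sdiff, mem_insert, mem_erase]
      constructor
      · rintro ⟨rfl | ⟨h1, h2⟩, h3⟩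
        · exact absurd hf h3
        · exact ⟨h1, h2, h3⟩
      · rintro ⟨h1, h2, h3⟩
        exact ⟨Or.inr ⟨h1, h2⟩, h3⟩
    have h2 : (insert f (B1.erase e) \ B0).card = n := by
      rw [h1, card_erase_of_mem he]; omega
    have h3 := ih _ hf3 h2
    have hef : e ≠ f := by
      rintro rfl
      exact hf2 he'.1
    have h4 : insert e ((insert f (B1.erase e)).erase f) = B1 := by
      rw [erase_insert, insert_erase he'.1]
      simp only [mem_erase, not_and]
      exact fun _ => hf2
    by_contra hcon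
    apply hno (insert f (B1.erase e)) f e
    refine ⟨h3, mem_insert_self _ _, ?_, ?_, ?_⟩
    · simp [hef]
    · rw [h4]; exact hB1
    · rw [h4]; exact hcon

theorem Wk_snoc {B : Finset α} : ∀ n e f1 g h, Wk N B n e f1 → adj N B g f1 → adj N B g h →
    Wk N B (n + 1) e h := by
  intro n
  induction n with
  | zero => intro e f1 g h h1 h2 h3; exact ⟨f1, g, h1, h2, h3⟩
  | succ n ih =>
    rintro e f1 g h ⟨f', e', h1, h2, h3⟩ h4 h5
    exact ⟨f', e', h1, h2, ih e' f1 g h h3 h4 h5⟩


/-- The walks reach everything when the family is connected. -/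
theorem exists_Wk {B : Finset α} (hB : N B)
    (hclosed : ∀ A : Finset α, (∀ e ∈ B, ∀ f, f ∉ B → N (insert f (B.erase e)) → (e ∈ A ↔ f ∈ A)) →
      ∀ B', N B' → (B' ∩ A).card = (B ∩ A).card)
    (hconn : ∀ A : Finset α, A.Nonempty → A ≠ univ →
      ∃ B1 B2, N B1 ∧ N B2 ∧ (B1 ∩ A).card ≠ (B2 ∩ A).card)
    {e f : α} (he : e ∈ B) (hf : f ∉ B) : ∃ n, Wk N B n e f := by
  classical
  set A : Finset α := univ.filter (fun x => x = e ∨ (x ∉ B ∧ ∃ n, Wk N B n e x) ∨
    (x ∈ B ∧ ∃ n f1, Wk N B n e f1 ∧ adj N B x f1)) with hA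
  have hAc : ∀ g ∈ B, ∀ h, h ∉ B → N (insert h (B.erase g)) → (g ∈ A ↔ h ∈ A) := by
    intro g hg h hh hN1
    have hadj : adj N B g h := ⟨hg, hh, hN1⟩
    constructor
    · intro hgA
      rw [hA, mem_filter] at hgA ⊢
      refine ⟨mem_univ _, Or.inr (Or.inl ⟨hh, ?_⟩)⟩
      rcases hgA.2 with h1 | h1 | ⟨h1, n, f1, h2, h3⟩
      · subst h1; exact ⟨0, hadj⟩
      · exact absurd hg h1.1
      · exact ⟨n + 1, Wk_snoc n e f1 g h h2 h3 hadj⟩
    · intro hhA
      rw [hA, mem_filter] at hhA ⊢
      refine ⟨mem_univ _, Or.inr (Or.inr ⟨hg, ?_⟩)⟩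
      rcases hhA.2 with h1 | ⟨_, n, h1⟩ | h1
      · exact absurd (h1 ▸ he) hh
      · exact ⟨n, h, h1, hadj⟩
      · exact absurd h1.1 hh
  have hconst := hclosed A hAc
  have heA : e ∈ A := by rw [hA]; simp
  have hAu : A = univ := by
    by_contra hne
    obtain ⟨B1, B2, h1, h2, h3⟩ := hconn A ⟨e, heA⟩ hne
    exact h3 (by rw [hconst B1 h1, hconst B2 h2])
  have hfA : f ∈ A := by rw [hAu]; exact mem_univ _
  rw [hA, mem_filter] at hfA
  rcases hfA.2 with h1 | h1 | h1
  · exact absurd (h1 ▸ he) hf
  · exact h1.2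
  · exact absurd h1.1 hf

/-- In a matroid, a set closed under exchanges at a base `B` meets all bases equally. -/
theorem inter_le_of_closed (N : Matroid α) {B : Finset α} (hB : N.IsBase ↑B) {A : Set α}
    (hA : ∀ e ∈ B, ∀ f, f ∉ B → N.IsBase ↑(insert f (B.erase e)) → (e ∈ A ↔ f ∈ A))
    {B' : Finset α} (hB' : N.IsBase ↑B') :
    ((B' : Set α) ∩ A).encard ≤ ((B : Set α) ∩ A).encard := by
  by_contra hcon
  push Not at hcon
  have i1 : N.Indep ((B : Set α) ∩ A) := hB.indep.subset Set.inter_subset_left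
  have i2 : N.Indep ((B' : Set α) ∩ A) := hB'.indep.subset Set.inter_subset_left
  obtain ⟨f, hf, hfi⟩ := i1.augment i2 hcon
  have hfA : f ∈ A := hf.1.2
  have hfB : f ∉ B := fun h => hf.2 ⟨by exact_mod_cast h, hfA⟩
  obtain ⟨C, hC, hIC, hCs⟩ := hfi.exists_isBase_subset_union_isBase hB
  have hCf : C.Finite := Set.toFinite _
  obtain ⟨C', rfl⟩ := hCf.exists_finset_coe
  have hfC : f ∈ C' := by exact_mod_cast hIC (Set.mem_insert _ _)
  have hCsub : C' ⊆ insert f B := by
    intro t ht
    have := hCs (by exact_mod_cast ht : t ∈ (C' : Set α))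
    rcases this with (h | h) | h
    · rw [h]; exact mem_insert_self _ _
    · exact mem_insert_of_mem (by exact_mod_cast h.1)
    · exact mem_insert_of_mem (by exact_mod_cast h)
  have hcard : C'.card = B.card := by
    have := hC.encard_eq_encard_of_isBase hB
    rw [Set.encard_coe_eq_coe_finsetCard, Set.encard_coe_eq_coe_finsetCard] at this
    exact_mod_cast this
  have hlt : C'.card < (insert f B).card := by rw [card_insert_of_notMem hfB]; omega
  obtain ⟨e, he, heC⟩ := exists_mem_notMem_of_card_lt_card hlt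
  have hef : e ≠ f := by rintro rfl; exact heC hfC
  have heB : e ∈ B := by
    rcases mem_insert.1 he with h | h
    · exact absurd h hef
    · exact h
  have hCeq : C' = insert f (B.erase e) := by
    apply eq_of_subset_of_card_le
    · intro t ht
      rcases mem_insert.1 (hCsub ht) with h | h
      · rw [h]; exact mem_insert_self _ _
      · refine mem_insert_of_mem (mem_erase.2 ⟨?_, h⟩)
        rintro rfl; exact heC ht
    · rw [card_insert_of_notMem (fun h => hfB (mem_of_mem_erase h)), card_erase_of_mem heB,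
        hcard]
      have := card_pos.2 ⟨e, heB⟩
      omega
  have heA : e ∉ A := by
    intro h
    apply heC
    have : e ∈ (C' : Set α) := hIC (Set.mem_insert_of_mem _ ⟨by exact_mod_cast heB, h⟩)
    exact_mod_cast this
  rw [hCeq] at hC
  exact heA ((hA e heB f hfB hC).2 hfA)

theorem inter_eq_of_closed (N : Matroid α) {B : Finset α} (hB : N.IsBase ↑B) (A : Finset α)
    (hA : ∀ e ∈ B, ∀ f, f ∉ B → N.IsBase ↑(insert f (B.erase e)) → (e ∈ A ↔ f ∈ A))
    {B' : Finset α} (hB' : N.IsBase ↑B') : (B' ∩ A).card = (B ∩ A).card := by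
  have h1 := inter_le_of_closed N hB (A := (A : Set α)) (by simpa using hA) hB'
  have h2 := inter_le_of_closed N hB (A := ((Aᶜ : Finset α) : Set α)) (by
    intro e he f hf h
    have := hA e he f hf h
    simp only [mem_coe, mem_compl]
    tauto) hB'
  have hcard : B'.card = B.card := by
    have := hB'.encard_eq_encard_of_isBase hB
    rw [Set.encard_coe_eq_coe_finsetCard, Set.encard_coe_eq_coe_finsetCard] at this
    exact_mod_cast this
  rw [← coe_inter, ← coe_inter, Set.encard_coe_eq_coe_finsetCard,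
    Set.encard_coe_eq_coe_finsetCard] at h1 h2
  have h1' : (B' ∩ A).card ≤ (B ∩ A).card := by exact_mod_cast h1
  have h2' : (B' ∩ Aᶜ).card ≤ (B ∩ Aᶜ).card := by exact_mod_cast h2
  have e1 : (B' ∩ A).card + (B' ∩ Aᶜ).card = B'.card := by
    rw [← sdiff_eq_inter_compl]; exact card_inter_add_card_sdiff _ _
  have e2 : (B ∩ A).card + (B ∩ Aᶜ).card = B.card := by
    rw [← sdiff_eq_inter_compl]; exact card_inter_add_card_sdiff _ _
  omega

end Pool.Agent.R138.Pg
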