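import Pool.Agent.R138.PgSwap

namespace Pool.Agent.R138.Pg

open Finset Module

set_option linter.unusedSectionVars false

variable {α : Type*} [Fintype α] [DecidableEq α]
variable {F V : Type*} [Field F] [AddCommGroup V] [Module F V]
variable {r : ℕ} {S : Set (Finset α → Prop)}

theorem Sub.no_FT [FiniteDimensional F V] {v : α → V} (hr : finrank F V = r) (h3 : 3 ≤ r)
    (hfull : ∀ x : V, x ≠ 0 → ∃ P : α, ∃ l : F, l ≠ 0 ∧ v P = l • x)
    (hS : Sub r (LB F v r) S) {I : Finset α} (hI : I.card + 2 = r) {a b c d : α} :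
    ¬ FT (LB F v r) S I a b c d := by
  classical
  intro hF
  obtain ⟨p, hp⟩ : I.Nonempty := by rw [← card_pos]; omega
  obtain ⟨J, hJI, hJ⟩ : ∃ J : Finset α, I = insert p J ∧ J.card + 3 = r := by
    refine ⟨I.erase p, (insert_erase hp).symm, ?_⟩
    have := card_erase_add_one hp
    omega
  have hM := hS.bfM
  have nab := (hF.full.ab.spec hM hI).1
  have nac := (hF.full.ac.spec hM hI).1
  have nad := (hF.full.ad.spec hM hI).1
  have nbc := (hF.full.bc.spec hM hI).1
  have nbd := (hF.full.bd.spec hM hI).1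
  have ncd := (hF.full.cd.spec hM hI).1
  -- a maximal family of pairwise nonparallel points
  obtain ⟨R, hR, hmax⟩ := exists_max_image (univ.filter (fun R : Finset α =>
      ({a, b, c, d} : Finset α) ⊆ R ∧ ∀ u ∈ R, ∀ w ∈ R, u ≠ w → D (LB F v r) I u w)) Finset.card
    ⟨{a, b, c, d}, by
      rw [mem_filter]
      refine ⟨mem_univ _, Subset.rfl, ?_⟩
      intro u hu w hw huw
      simp only [mem_insert, mem_singleton] at hu hw
      rcases hu with rfl | rfl | rfl | rfl <;> rcases hw with rfl | rfl | rfl | rfl <;>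
        first
        | exact absurd rfl huw
        | exact hF.full.ab
        | exact hF.full.ac
        | exact hF.full.ad
        | exact hF.full.bc
        | exact hF.full.bd
        | exact hF.full.cd
        | exact hF.full.ab.symm
        | exact hF.full.ac.symm
        | exact hF.full.ad.symm
        | exact hF.full.bc.symm
        | exact hF.full.bd.symm
        | exact hF.full.cd.symm⟩
  rw [mem_filter] at hR
  obtain ⟨_, hsub, hRD⟩ := hR
  have hrep : ∀ z, ∃ y ∈ R, ¬ D (LB F v r) I z y := by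
    intro z
    by_cases hz : z ∈ R
    · exact ⟨z, hz, not_D_self hM hI z⟩
    · by_contra hcon
      push Not at hcon
      have := hmax (insert z R) (by
        rw [mem_filter]
        refine ⟨mem_univ _, hsub.trans (subset_insert _ _), ?_⟩
        intro u hu w hw huw
        rcases mem_insert.1 hu with hu' | hu'
        · rcases mem_insert.1 hw with hw' | hw'
          · exact absurd (hu'.trans hw'.symm) huw
          · rw [hu']; exact hcon w hw'
        · rcases mem_insert.1 hw with hw' | hw'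
          · rw [hw']; exact (hcon u hu').symm
          · exact hRD u hu' w hw' huw)
      rw [card_insert_of_notMem hz] at this
      omega
  have hswap : ∀ a ∈ R, ∀ b ∈ R, ∀ c ∈ R, ∀ d ∈ R, a ≠ b → a ≠ c → a ≠ d → b ≠ c → b ≠ d →
      c ≠ d → T S I a b c d → ∃ y ∈ R, y ≠ a ∧ y ≠ b ∧ y ≠ c ∧ T S I a y b c := by
    intro a ha b hb c hc d hd nab nac nad nbc nbd ncd hT
    have hFT : FT (LB F v r) S (insert p J) a b c d := by
      rw [← hJI]
      exact ⟨⟨hRD a ha b hb nab, hRD a ha c hc nac, hRD a ha d hd nad, hRD b hb c hc nbc,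
        hRD b hb d hd nbd, hRD c hc d hd ncd⟩, hT⟩
    obtain ⟨y', hy'⟩ := Sub.swap hr hfull hS hJ hFT
    rw [← hJI] at hy'
    obtain ⟨y, hy, hyp⟩ := hrep y'
    have hnl : NL (LB F v r) I y := by
      by_cases h : y = a
      · exact ⟨b, hRD y hy b hb (by rw [h]; exact nab)⟩
      · exact ⟨a, hRD y hy a ha h⟩
    have hF' := (hS.P1F hI hy'.symm1 hyp hnl).symm1
    refine ⟨y, hy, ?_, ?_, ?_, hF'.t⟩
    · exact (hF'.full.ab.spec hM hI).1.symm
    · exact (hF'.full.bc.spec hM hI).1
    · exact (hF'.full.bd.spec hM hI).1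
  exact hS.no_T hI hRD hswap (hsub (by simp)) (hsub (by simp)) (hsub (by simp)) (hsub (by simp))
    nab nac nad nbc nbd ncd hF.t

/-- a cell that meets every proper set in different ways is everything -/
theorem Sub.cell_eq [FiniteDimensional F V] {v : α → V} (hr : finrank F V = r) (h3 : 3 ≤ r)
    (hfull : ∀ x : V, x ≠ 0 → ∃ P : α, ∃ l : F, l ≠ 0 ∧ v P = l • x)
    (hS : Sub r (LB F v r) S) {N : Finset α → Prop} (hN : N ∈ S)
    (hclosed : ∀ B, N B → ∀ A : Finset α,
      (∀ e ∈ B, ∀ f, f ∉ B → N (insert f (B.erase e)) → (e ∈ A ↔ f ∈ A)) →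
      ∀ B', N B' → (B' ∩ A).card = (B ∩ A).card)
    (hconn : ∀ A : Finset α, A.Nonempty → A ≠ univ →
      ∃ B1 B2, N B1 ∧ N B2 ∧ (B1 ∩ A).card ≠ (B2 ∩ A).card) :
    ∀ B, LB F v r B → N B := by
  apply eq_of_no_bad (hS.bf N hN) hS.bfM (hS.sub N hN)
  intro B e f hbad
  obtain ⟨n, hn⟩ := exists_Wk hbad.1 (hclosed B hbad.1) hconn hbad.2.1 hbad.2.2.1
  refine no_bad (hS.bf N hN) hS.bfM (hS.sub N hN) ?_ n B e f hbad hn
  intro I a b c d hI hfl h1 h2
  by_contra hcon
  exact hS.no_FT hr h3 hfull hI ⟨hfl, hS.T_of hI hN h1 h2 hcon⟩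

end Pool.Agent.R138.Pg
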