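import Mathlib

/-!
Matroid polytopes given by families of finite sets; weights and supports.
-/

namespace Pool.Agent.R138.Pg

open Finset

set_option linter.unusedSectionVars false

variable {α : Type*} [Fintype α] [DecidableEq α]

/-- indicator vector of a finite set -/
def ind (B : Finset α) : α → ℝ := fun e => if e ∈ B then 1 else 0

/-- convex hull of the indicator vectors of the members of a family -/
def fpoly (N : Finset α → Prop) : Set (α → ℝ) := convexHull ℝ {x | ∃ B, N B ∧ x = ind B}

theorem mem_fpoly {N : Finset α → Prop} {x : α → ℝ} :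
    x ∈ fpoly N ↔ ∃ w : Finset α → ℝ, (∀ B, 0 ≤ w B) ∧ (∀ B, w B ≠ 0 → N B) ∧ ∑ B, w B = 1 ∧
      ∀ e, ∑ B, w B * ind B e = x e := by
  constructor
  · intro hx
    have hsub : fpoly N ⊆ {x : α → ℝ | ∃ w : Finset α → ℝ, (∀ B, 0 ≤ w B) ∧
        (∀ B, w B ≠ 0 → N B) ∧ ∑ B, w B = 1 ∧ ∀ e, ∑ B, w B * ind B e = x e} := by
      apply convexHull_min
      · rintro x ⟨B, hB, rfl⟩
        refine ⟨fun C => if C = B then 1 else 0, ?_, ?_, ?_, ?_⟩
        · intro C; beta_reduce; split_ifs <;> norm_num
        · intro C hC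
          by_cases h : C = B
          · rw [h]; exact hB
          · simp [h] at hC
        · simp
        · intro e; simp
      · rintro x ⟨w1, a1, b1, c1, d1⟩ y ⟨w2, a2, b2, c2, d2⟩ s t hs ht hst
        refine ⟨fun B => s * w1 B + t * w2 B, ?_, ?_, ?_, ?_⟩
        · intro B
          have := a1 B
          have := a2 B
          positivity
        · intro B hB
          by_cases h : w1 B = 0
          · by_cases h' : w2 B = 0
            · simp [h, h'] at hB
            · exact b2 B h'
          · exact b1 B h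
        · rw [sum_add_distrib, ← mul_sum, ← mul_sum, c1, c2]; linarith
        · intro e
          have : ∀ B, (s * w1 B + t * w2 B) * ind B e = s * (w1 B * ind B e) + t * (w2 B * ind B e) :=
            fun B => by ring
          simp only [this]
          rw [sum_add_distrib, ← mul_sum, ← mul_sum, d1, d2]
          simp
    exact hsub hx
  · rintro ⟨w, a, b, c, d⟩
    have hx : x = ∑ B ∈ univ.filter (fun B => w B ≠ 0), w B • ind B := by
      funext e
      rw [← d e, sum_filter_of_ne]
      · simp [Finset.sum_apply]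
      · intro B _ h h'
        apply h
        simp [h']
    rw [hx]
    apply (convex_convexHull ℝ _).sum_mem
    · intro B _; exact a B
    · rw [← c, sum_filter_of_ne]
      intro B _ h; exact h
    · intro B hB
      apply subset_convexHull
      exact ⟨B, b B (mem_filter.1 hB).2, rfl⟩

theorem ind_mem {N : Finset α → Prop} {B : Finset α} (h : N B) : ind B ∈ fpoly N :=
  subset_convexHull ℝ _ ⟨B, h, rfl⟩

theorem fpoly_mono {N M : Finset α → Prop} (h : ∀ B, N B → M B) : fpoly N ⊆ fpoly M := by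
  apply convexHull_mono
  rintro x ⟨B, hB, rfl⟩
  exact ⟨B, h B hB, rfl⟩

/-- sums over a set and weights -/
theorem sum_weights {w : Finset α → ℝ} {x : α → ℝ} (hx : ∀ e, ∑ B, w B * ind B e = x e)
    (K : Finset α) : ∑ e ∈ K, x e = ∑ B, w B * ((B ∩ K).card : ℝ) := by
  simp only [← hx]
  rw [sum_comm]
  apply sum_congr rfl
  intro B _
  rw [← mul_sum]
  congr 1
  simp only [ind]
  rw [sum_ite_mem, inter_comm]
  simp

theorem exists_gt {w : Finset α → ℝ} {x : α → ℝ} (h0 : ∀ B, 0 ≤ w B) (h1 : ∑ B, w B = 1)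
    (hx : ∀ e, ∑ B, w B * ind B e = x e) (K : Finset α) (k : ℕ) (hk : (k : ℝ) < ∑ e ∈ K, x e) :
    ∃ B, w B ≠ 0 ∧ k < (B ∩ K).card := by
  by_contra hcon
  push Not at hcon
  rw [sum_weights hx] at hk
  have : ∑ B, w B * ((B ∩ K).card : ℝ) ≤ ∑ B, w B * (k : ℝ) := by
    apply sum_le_sum
    intro B _
    by_cases h : w B = 0
    · simp [h]
    · have := hcon B h
      have h2 : ((B ∩ K).card : ℝ) ≤ k := by exact_mod_cast this
      exact mul_le_mul_of_nonneg_left h2 (h0 B)
  rw [← sum_mul, h1, one_mul] at this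
  linarith

theorem card_eq_of_max {w : Finset α → ℝ} {x : α → ℝ} (h0 : ∀ B, 0 ≤ w B) (h1 : ∑ B, w B = 1)
    (hx : ∀ e, ∑ B, w B * ind B e = x e) (K : Finset α) (k : ℕ)
    (hle : ∀ B, w B ≠ 0 → (B ∩ K).card ≤ k) (hk : ∑ e ∈ K, x e = k) :
    ∀ B, w B ≠ 0 → (B ∩ K).card = k := by
  rw [sum_weights hx] at hk
  have hz : ∑ B, w B * ((k : ℝ) - (B ∩ K).card) = 0 := by
    simp only [mul_sub]
    rw [sum_sub_distrib, ← sum_mul, h1, hk]; ring
  have hnn : ∀ B ∈ (univ : Finset (Finset α)), 0 ≤ w B * ((k : ℝ) - (B ∩ K).card) := by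
    intro B _
    by_cases h : w B = 0
    · simp [h]
    · have := hle B h
      have h2 : ((B ∩ K).card : ℝ) ≤ k := by exact_mod_cast this
      exact mul_nonneg (h0 B) (by linarith)
  rw [sum_eq_zero_iff_of_nonneg hnn] at hz
  intro B hB
  have := hz B (mem_univ _)
  rcases mul_eq_zero.1 this with h | h
  · exact absurd h hB
  · have : ((B ∩ K).card : ℝ) = k := by linarith
    exact_mod_cast this

theorem mem_of_one {w : Finset α → ℝ} {x : α → ℝ} (h0 : ∀ B, 0 ≤ w B) (h1 : ∑ B, w B = 1)
    (hx : ∀ e, ∑ B, w B * ind B e = x e) {e : α} (he : x e = 1) {B : Finset α} (hB : w B ≠ 0) :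
    e ∈ B := by
  have := card_eq_of_max h0 h1 hx {e} 1 (fun B _ => (card_le_card inter_subset_right).trans
    (by simp)) (by simp [he]) B hB
  by_contra hcon
  have h2 : B ∩ {e} = ∅ := by
    ext t; simp only [mem_inter, mem_singleton, notMem_empty, iff_false, not_and]
    rintro h rfl; exact hcon h
  rw [h2] at this
  simp at this

theorem notMem_of_zero {w : Finset α → ℝ} {x : α → ℝ} (h0 : ∀ B, 0 ≤ w B)
    (hx : ∀ e, ∑ B, w B * ind B e = x e) {e : α} (he : x e = 0) {B : Finset α} (hB : w B ≠ 0) :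
    e ∉ B := by
  intro heB
  have h := hx e
  rw [he] at h
  have hnn : ∀ B ∈ (univ : Finset (Finset α)), 0 ≤ w B * ind B e := by
    intro B _
    apply mul_nonneg (h0 B)
    unfold ind; split_ifs <;> norm_num
  rw [sum_eq_zero_iff_of_nonneg hnn] at h
  have := h B (mem_univ _)
  simp [ind, heB, hB] at this

/-- family of bases of a matroid of rank `r` -/
structure BF (r : ℕ) (N : Finset α → Prop) : Prop where
  card : ∀ B, N B → B.card = r
  ne : ∃ B, N B
  exch : ∀ A B, N A → N B → ∀ e ∈ A, e ∉ B → ∃ f ∈ B, f ∉ A ∧ N (insert f (A.erase e))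

theorem ind_mem_iff {N : Finset α → Prop} {B : Finset α} :
    ind B ∈ fpoly N ↔ N B := by
  constructor
  · intro h
    obtain ⟨w, a, b, c, d⟩ := mem_fpoly.1 h
    obtain ⟨C, hC⟩ : ∃ C, w C ≠ 0 := by
      by_contra hcon
      push Not at hcon
      simp [hcon] at c
    have : C = B := by
      ext e
      constructor
      · intro he
        by_contra hcon
        exact notMem_of_zero a d (e := e) (by simp [ind, hcon]) hC he
      · intro he
        exact mem_of_one a c d (e := e) (by simp [ind, he]) hC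
    rw [← this]; exact b C hC
  · exact ind_mem


/-! ### The rank-two contraction relation -/

/-- `u, v` together with `I` form a base of `N` -/
def D (N : Finset α → Prop) (I : Finset α) (u v : α) : Prop := N (insert u (insert v I))

variable {r : ℕ} {N M : Finset α → Prop} {I : Finset α}

theorem D.symm {u v : α} (h : D N I u v) : D N I v u := by
  unfold D at *
  rwa [Finset.insert_comm]

theorem D_comm {u v : α} : D N I u v ↔ D N I v u := ⟨D.symm, D.symm⟩

theorem D.spec (hN : BF r N) (hI : I.card + 2 = r) {u v : α} (h : D N I u v) :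
    u ≠ v ∧ u ∉ I ∧ v ∉ I := by
  have h1 := hN.card _ h
  have h2 := card_insert_le v I
  have h3 := card_insert_le u (insert v I)
  refine ⟨?_, ?_, ?_⟩
  · rintro rfl
    simp only [mem_insert, true_or, insert_eq_of_mem] at h1
    omega
  · intro hu
    rw [insert_eq_of_mem (mem_insert_of_mem hu)] at h1
    omega
  · intro hv
    rw [insert_eq_of_mem hv] at h1
    have h4 := card_insert_le u I
    omega

theorem not_D_self (hN : BF r N) (hI : I.card + 2 = r) (u : α) : ¬ D N I u u :=
  fun h => (h.spec hN hI).1 rfl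

/-- exchange in rank two -/
theorem D.exch (hN : BF r N) (hI : I.card + 2 = r) {u v w z : α} (h1 : D N I u v)
    (h2 : D N I w z) : D N I u w ∨ D N I u z := by
  obtain ⟨huv, hu, hv⟩ := h1.spec hN hI
  obtain ⟨hwz, hw, hz⟩ := h2.spec hN hI
  by_cases hvm : v ∈ insert w (insert z I)
  · simp only [mem_insert, hv, or_false] at hvm
    rcases hvm with rfl | rfl
    · exact Or.inl h1
    · exact Or.inr h1
  · obtain ⟨f, hf, hf2, hf3⟩ := hN.exch _ _ h1 h2 v (by simp) hvm
    have he : (insert u (insert v I)).erase v = insert u I := by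
      rw [erase_insert_of_ne huv, erase_insert hv]
    rw [he] at hf3
    simp only [mem_insert, not_or] at hf2 hf
    rcases hf with rfl | rfl | hf
    · left; unfold D; rwa [Finset.insert_comm]
    · right; unfold D; rwa [Finset.insert_comm]
    · exact absurd hf hf2.2.2

/-- non-loops of the contraction -/
def NL (N : Finset α → Prop) (I : Finset α) (u : α) : Prop := ∃ v, D N I u v

theorem NL.exch (hN : BF r N) (hI : I.card + 2 = r) {u w z : α} (h1 : NL N I u)
    (h2 : D N I w z) : D N I u w ∨ D N I u z := by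
  obtain ⟨v, hv⟩ := h1
  exact hv.exch hN hI h2

theorem D.nl {u v : α} (h : D N I u v) : NL N I u := ⟨v, h⟩
theorem D.nl' {u v : α} (h : D N I u v) : NL N I v := ⟨u, h.symm⟩

/-- a positive coordinate is a non-loop -/
theorem nl_of_pos (hN : BF r N) (hI : I.card + 2 = r) {x : α → ℝ} (hx : x ∈ fpoly N)
    (hI1 : ∀ e ∈ I, x e = 1) {u : α} (huI : u ∉ I) (hu : 0 < x u) : NL N I u := by
  obtain ⟨w, a, b, c, d⟩ := mem_fpoly.1 hx
  obtain ⟨B, hB, hB2⟩ := exists_gt a c d {u} 0 (by simpa using hu)
  have huB : u ∈ B := by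
    rw [card_pos] at hB2
    obtain ⟨t, ht⟩ := hB2
    simp only [mem_inter, mem_singleton] at ht
    rw [← ht.2]; exact ht.1
  have hIB : I ⊆ B := fun e he => mem_of_one a c d (hI1 e he) hB
  have hNB := b B hB
  have hcard := hN.card B hNB
  have h1 : insert u I ⊆ B := insert_subset huB hIB
  have h2 : (insert u I).card < B.card := by
    rw [card_insert_of_notMem huI]; omega
  obtain ⟨v, hv, hv2⟩ := exists_mem_notMem_of_card_lt_card h2
  refine ⟨v, ?_⟩
  have h3 : insert v (insert u I) = B := by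
    apply eq_of_subset_of_card_le (insert_subset hv h1)
    rw [card_insert_of_notMem hv2, card_insert_of_notMem huI]; omega
  unfold D
  rw [Finset.insert_comm, h3]; exact hNB

/-- coordinates with sum above one contain a base pair -/
theorem pair_of_sum (hN : BF r N) (hI : I.card + 2 = r) {x : α → ℝ} (hx : x ∈ fpoly N)
    (hI1 : ∀ e ∈ I, x e = 1) {K : Finset α} (hK : ∀ e ∈ K, e ∉ I) (hs : 1 < ∑ e ∈ K, x e) :
    ∃ u ∈ K, ∃ v ∈ K, D N I u v := by
  obtain ⟨w, a, b, c, d⟩ := mem_fpoly.1 hx
  obtain ⟨B, hB, hB2⟩ := exists_gt a c d K 1 (by exact_mod_cast hs)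
  obtain ⟨u, hu, v, hv, huv⟩ := one_lt_card.1 hB2
  rw [mem_inter] at hu hv
  have hIB : I ⊆ B := fun e he => mem_of_one a c d (hI1 e he) hB
  have hNB := b B hB
  have hcard := hN.card B hNB
  refine ⟨u, hu.2, v, hv.2, ?_⟩
  have h3 : insert u (insert v I) = B := by
    apply eq_of_subset_of_card_le (insert_subset hu.1 (insert_subset hv.1 hIB))
    rw [card_insert_of_notMem, card_insert_of_notMem (hK v hv.2)]
    · omega
    · simp only [mem_insert, not_or]
      exact ⟨huv, hK u hu.2⟩
  unfold D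
  rw [h3]; exact hNB

/-! ### Subdivisions -/

/-- a family of cells subdividing `fpoly M` -/
structure Sub (r : ℕ) (M : Finset α → Prop) (S : Set (Finset α → Prop)) : Prop where
  bfM : BF r M
  bf : ∀ N ∈ S, BF r N
  sub : ∀ N ∈ S, ∀ B, N B → M B
  cover : ∀ x ∈ fpoly M, ∃ N ∈ S, x ∈ fpoly N
  face : ∀ N ∈ S, ∀ N' ∈ S, ∀ x ∈ fpoly N, ∀ y ∈ fpoly N, ∀ z ∈ openSegment ℝ x y,
    z ∈ fpoly N' → x ∈ fpoly N'

variable {S : Set (Finset α → Prop)}

theorem ind_insert_insert {a b : α} (hab : a ≠ b) (ha : a ∉ I) (hb : b ∉ I) (e : α) :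
    ind (insert a (insert b I)) e = (if e = a then 1 else 0) + (if e = b then 1 else 0) +
      (if e ∈ I then 1 else 0) := by
  unfold ind
  by_cases h1 : e = a
  · subst h1; simp [hab, ha]
  · by_cases h2 : e = b
    · subst h2; simp [h1, hb]
    · simp [h1, h2]

theorem Sub.face_pair (hS : Sub r M S) (hI : I.card + 2 = r) {N N' : Finset α → Prop}
    (hN : N ∈ S) (hN' : N' ∈ S) {a b c d : α} (h1 : D N I a c) (h2 : D N I b d)
    (h3 : D N' I a b) (h4 : D N' I c d) : D N I a b := by
  have s1 := h1.spec (hS.bf N hN) hI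
  have s2 := h2.spec (hS.bf N hN) hI
  have s3 := h3.spec (hS.bf N' hN') hI
  have s4 := h4.spec (hS.bf N' hN') hI
  have hz : (fun e => (1/2 : ℝ) * ind (insert a (insert b I)) e +
      1/2 * ind (insert c (insert d I)) e) ∈ fpoly N := by
    have hc : Convex ℝ (fpoly N) := convex_convexHull ℝ _
    have := hc (ind_mem h1) (ind_mem h2) (a := 1/2) (b := 1/2) (by norm_num) (by norm_num)
      (by norm_num)
    convert this using 1
    funext e
    simp only [Pi.add_apply, Pi.smul_apply, smul_eq_mul]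
    rw [ind_insert_insert s3.1 s3.2.1 s3.2.2, ind_insert_insert s4.1 s4.2.1 s4.2.2,
      ind_insert_insert s1.1 s1.2.1 s1.2.2, ind_insert_insert s2.1 s2.2.1 s2.2.2]
    ring
  have := hS.face N' hN' N hN _ (ind_mem h3) _ (ind_mem h4) _ ?_ hz
  · exact ind_mem_iff.1 this
  · refine ⟨1/2, 1/2, by norm_num, by norm_num, by norm_num, ?_⟩
    funext e
    simp

/-- no cell contains both base pairs -/
def T (S : Set (Finset α → Prop)) (I : Finset α) (a b c d : α) : Prop :=
  ∀ N ∈ S, D N I a b → ¬ D N I c d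

theorem T.symm1 {a b c d : α} (h : T S I a b c d) : T S I b a c d :=
  fun N hN h1 => h N hN h1.symm
theorem T.symm2 {a b c d : α} (h : T S I a b c d) : T S I a b d c :=
  fun N hN h1 h2 => h N hN h1 h2.symm
theorem T.symm3 {a b c d : α} (h : T S I a b c d) : T S I c d a b :=
  fun N hN h1 h2 => h N hN h2 h1

theorem Sub.T_of (hS : Sub r M S) (hI : I.card + 2 = r) {N : Finset α → Prop}
    (hN : N ∈ S) {a b c d : α} (h1 : D N I a c) (h2 : D N I b d) (h3 : ¬ D N I a b) :
    T S I a b c d :=
  fun _ hN' h4 h5 => h3 (hS.face_pair hI hN hN' h1 h2 h4 h5)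

/-- all six pairs are base pairs of `M` -/
structure Full (M : Finset α → Prop) (I : Finset α) (a b c d : α) : Prop where
  ab : D M I a b
  ac : D M I a c
  ad : D M I a d
  bc : D M I b c
  bd : D M I b d
  cd : D M I c d

theorem Full.symm1 {a b c d : α} (h : Full M I a b c d) : Full M I b a c d :=
  ⟨h.ab.symm, h.bc, h.bd, h.ac, h.ad, h.cd⟩
theorem Full.symm2 {a b c d : α} (h : Full M I a b c d) : Full M I a b d c :=
  ⟨h.ab, h.ad, h.ac, h.bd, h.bc, h.cd.symm⟩
theorem Full.symm3 {a b c d : α} (h : Full M I a b c d) : Full M I c d a b :=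
  ⟨h.cd, h.ac.symm, h.bc.symm, h.ad.symm, h.bd.symm, h.ab⟩

end Pool.Agent.R138.Pg
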