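import Pool.Agent.R138.PgCenter
import Pool.Agent.R138.PgCluster
import Pool.Agent.R138.PgLocal
import Pool.Agent.R138.PgGeneric
import Pool.Agent.R138.PgLin

namespace Pool.Agent.R138.Pg

open Finset Module

set_option linter.unusedSectionVars false

variable {α : Type*} [Fintype α] [DecidableEq α]
variable {F V : Type*} [Field F] [AddCommGroup V] [Module F V]

/-- the element `P` has coordinates proportional to `u` -/
def Co (κ : V →ₗ[F] (Fin 3 → F)) (v : α → V) (P : α) (u : Fin 3 → F) : Prop :=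
  ∃ l : F, l ≠ 0 ∧ κ (v P) = l • u

theorem det3_smul (x y z : Fin 3 → F) (a b c : F) :
    det3 (a • x) (b • y) (c • z) = a * b * c * det3 x y z := by
  simp only [det3, Pi.smul_apply, smul_eq_mul]; ring

theorem Co.det {κ : V →ₗ[F] (Fin 3 → F)} {v : α → V} {x y z : α} {a b c : Fin 3 → F}
    (hx : Co κ v x a) (hy : Co κ v y b) (hz : Co κ v z c) :
    det3 (κ (v x)) (κ (v y)) (κ (v z)) ≠ 0 ↔ det3 a b c ≠ 0 := by
  obtain ⟨l, hl, h1⟩ := hx
  obtain ⟨m, hm, h2⟩ := hy
  obtain ⟨n, hn, h3⟩ := hz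
  rw [h1, h2, h3, det3_smul]
  constructor
  · intro h h'
    apply h; rw [h', mul_zero]
  · intro h
    exact mul_ne_zero (mul_ne_zero (mul_ne_zero hl hm) hn) h

theorem exists_co [FiniteDimensional F V] {v : α → V}
    (hfull : ∀ x : V, x ≠ 0 → ∃ P : α, ∃ l : F, l ≠ 0 ∧ v P = l • x)
    {κ : V →ₗ[F] (Fin 3 → F)} (hsurj : Function.Surjective κ) {u : Fin 3 → F} (hu : u ≠ 0) :
    ∃ P : α, Co κ v P u := by
  obtain ⟨x, hx⟩ := hsurj u
  have hx0 : x ≠ 0 := by
    rintro rfl
    rw [map_zero] at hx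
    exact hu hx.symm
  obtain ⟨P, l, hl, hP⟩ := hfull x hx0
  exact ⟨P, l, hl, by rw [hP, map_smul, hx]⟩

variable {r : ℕ} {S : Set (Finset α → Prop)}

/-- the swap of `a` and `c` fixing `b` -/
theorem Sub.swap [FiniteDimensional F V] {v : α → V} (hr : finrank F V = r)
    (hfull : ∀ x : V, x ≠ 0 → ∃ P : α, ∃ l : F, l ≠ 0 ∧ v P = l • x)
    (hS : Sub r (LB F v r) S) {J : Finset α} (hJ : J.card + 3 = r) {p a b c d : α}
    (hF : FT (LB F v r) S (insert p J) a b c d) :
    ∃ y, FT (LB F v r) S (insert p J) a y b c := by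
  -- coordinates
  obtain ⟨κ0, k0, kk0, ka0, kc0, kp0⟩ := exists_coords hr hJ hF.full.ac
  have hsurj0 : Function.Surjective κ0 := by
    intro u
    refine ⟨u 0 • v a + u 1 • v c + u 2 • v p, ?_⟩
    rw [map_add, map_add, map_smul, map_smul, map_smul, ka0, kc0, kp0]
    funext i
    fin_cases i <;> simp
  set s1 : F := κ0 (v b) 0 with hs1
  set s2 : F := κ0 (v b) 1 with hs2
  have hs1' : s1 ≠ 0 := by
    have := (crit hr hJ k0 kk0 hsurj0 b c p).1 hF.full.bc
    rw [kc0, kp0] at this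
    intro h
    apply this
    simp [det3, ← hs1, h]
  have hs2' : s2 ≠ 0 := by
    have := (crit hr hJ k0 kk0 hsurj0 a b p).1 hF.full.ab
    rw [ka0, kp0] at this
    intro h
    apply this
    simp [det3, ← hs2, h]
  let dg : (Fin 3 → F) →ₗ[F] (Fin 3 → F) :=
    LinearMap.pi ![s1⁻¹ • LinearMap.proj 0, s2⁻¹ • LinearMap.proj 1, LinearMap.proj 2]
  have hdg : ∀ x : Fin 3 → F, dg x = ![s1⁻¹ * x 0, s2⁻¹ * x 1, x 2] := by
    intro x
    funext i
    fin_cases i <;> simp [dg]
  obtain ⟨κ, hκ⟩ : ∃ κ : V →ₗ[F] (Fin 3 → F), ∀ x, κ x = ![s1⁻¹ * κ0 x 0, s2⁻¹ * κ0 x 1, κ0 x 2] :=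
    ⟨dg.comp κ0, fun x => by rw [LinearMap.comp_apply, hdg]⟩
  have k1 : ∀ j ∈ J, κ (v j) = 0 := by
    intro j hj
    rw [hκ, k0 j hj]
    funext i
    fin_cases i <;> simp
  have kk1 : ∀ x, κ x = 0 → x ∈ Submodule.span F (v '' (J : Set α)) := by
    intro x hx
    apply kk0
    rw [hκ] at hx
    have e0 := congrFun hx 0
    have e1 := congrFun hx 1
    have e2 := congrFun hx 2
    simp [hs1', hs2'] at e0 e1 e2
    funext i
    fin_cases i
    · simpa using e0
    · simpa using e1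
    · simpa using e2
  have hsurj : Function.Surjective κ := by
    intro u
    refine ⟨(s1 * u 0) • v a + (s2 * u 1) • v c + u 2 • v p, ?_⟩
    rw [hκ, map_add, map_add, map_smul, map_smul, map_smul, ka0, kc0, kp0]
    funext i
    fin_cases i <;> simp [hs1', hs2']
  have hcrit := crit hr hJ k1 kk1 hsurj
  have hca : Co κ v a ![1, 0, 0] := by
    refine ⟨s1⁻¹, inv_ne_zero hs1', ?_⟩
    rw [hκ, ka0]
    funext i
    fin_cases i <;> simp
  have hcc : Co κ v c ![0, 1, 0] := by
    refine ⟨s2⁻¹, inv_ne_zero hs2', ?_⟩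
    rw [hκ, kc0]
    funext i
    fin_cases i <;> simp
  have hcp : Co κ v p ![0, 0, 1] := by
    refine ⟨1, one_ne_zero, ?_⟩
    rw [hκ, kp0]
    funext i
    fin_cases i <;> simp
  obtain ⟨w, hcb⟩ : ∃ w : F, Co κ v b ![1, 1, w] := by
    refine ⟨κ0 (v b) 2, 1, one_ne_zero, ?_⟩
    rw [hκ, ← hs1, ← hs2]
    funext i
    fin_cases i <;> simp [hs1', hs2']
  obtain ⟨s, t, w', hcd⟩ : ∃ s t w' : F, Co κ v d ![s, t, w'] := by
    refine ⟨κ (v d) 0, κ (v d) 1, κ (v d) 2, 1, one_ne_zero, ?_⟩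
    funext i
    fin_cases i <;> simp
  have key : ∀ {x y z : α} {a b c : Fin 3 → F}, Co κ v x a → Co κ v y b → Co κ v z c →
      (D (LB F v r) (insert z J) x y ↔ det3 a b c ≠ 0) := by
    intro x y z a b c hx hy hz
    unfold D
    rw [hcrit x y z]
    exact Co.det hx hy hz
  have ht : t ≠ 0 := by
    have := (key hca hcd hcp).1 hF.full.ad
    intro h
    apply this
    simp [det3, h]
  have hs : s ≠ 0 := by
    have := (key hcc hcd hcp).1 hF.full.cd
    intro h
    apply this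
    simp [det3, h]
  have hst : t - s ≠ 0 := by
    have := (key hcb hcd hcp).1 hF.full.bd
    intro h
    apply this
    simp [det3]
    linear_combination h
  obtain ⟨a1, ha1⟩ := exists_co (α := α) hfull hsurj (u := ![1, 0, 1])
    (fun h => one_ne_zero (α := F) (by simpa using congrFun h 0))
  obtain ⟨b1, hb1⟩ := exists_co (α := α) hfull hsurj (u := ![1, 1, 0])
    (fun h => one_ne_zero (α := F) (by simpa using congrFun h 0))
  obtain ⟨c1, hc1⟩ := exists_co (α := α) hfull hsurj (u := ![0, 1, -1])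
    (fun h => one_ne_zero (α := F) (by simpa using congrFun h 1))
  obtain ⟨d1, hd1⟩ := exists_co (α := α) hfull hsurj (u := ![s, t, s - t])
    (fun h => hs (by simpa using congrFun h 0))
  obtain ⟨q, hq⟩ := exists_co (α := α) hfull hsurj (u := ![1, -1, 1])
    (fun h => one_ne_zero (α := F) (by simpa using congrFun h 0))
  obtain ⟨y, hy⟩ := exists_co (α := α) hfull hsurj (u := ![t, s, 0])
    (fun h => ht (by simpa using congrFun h 0))
  have hpJc : (insert p J).card + 2 = r := by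
    have h1 := hF.full.ab.1
    have h2 := card_insert_le b (insert p J)
    have h3 := card_insert_le a (insert b (insert p J))
    have h4 := card_insert_le p J
    omega
  -- step 1
  have F1 : FT (LB F v r) S (insert p J) a1 b1 c1 d1 := by
    apply hS.P1F4 hpJc hF
    · rw [key hca ha1 hcp]; simp [det3]
    · exact ⟨c, by rw [key ha1 hcc hcp]; simp [det3]⟩
    · rw [key hcb hb1 hcp]; simp [det3]
    · exact ⟨c, by rw [key hb1 hcc hcp]; simp [det3]⟩
    · rw [key hcc hc1 hcp]; simp [det3]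
    · exact ⟨a, by rw [key hc1 hca hcp]; simp [det3]⟩
    · rw [key hcd hd1 hcp, not_not]; simp [det3]; ring
    · exact ⟨a, by rw [key hd1 hca hcp]; simp [det3, ht]⟩
  have hpq : p ≠ q := by
    rintro rfl
    obtain ⟨l, hl, h1⟩ := hcp
    obtain ⟨m, hm, h2⟩ := hq
    rw [h1] at h2
    have := congrFun h2 0
    simp at this
    exact hm this.symm
  -- step 2
  have G2 : Full (LB F v r) (insert q J) a1 b1 c1 d1 := by
    refine ⟨?_, ?_, ?_, ?_, ?_, ?_⟩
    · rw [key ha1 hb1 hq]; simp [det3]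
    · rw [key ha1 hc1 hq]; simp [det3]
    · rw [key ha1 hd1 hq]
      have : det3 (![1, 0, 1] : Fin 3 → F) ![s, t, s - t] ![1, -1, 1] = -t := by
        simp [det3]; ring
      rw [this]; exact neg_ne_zero.2 ht
    · rw [key hb1 hc1 hq]
      have : det3 (![1, 1, 0] : Fin 3 → F) ![0, 1, -1] ![1, -1, 1] = -1 := by
        simp [det3]
      rw [this]; simp
    · rw [key hb1 hd1 hq]
      have : det3 (![1, 1, 0] : Fin 3 → F) ![s, t, s - t] ![1, -1, 1] = -(t - s) := by
        simp [det3]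
      rw [this]; exact neg_ne_zero.2 hst
    · rw [key hc1 hd1 hq]
      have : det3 (![0, 1, -1] : Fin 3 → F) ![s, t, s - t] ![1, -1, 1] = s := by
        simp [det3]
      rw [this]; exact hs
  have hplane : ∀ x ∈ ({a1, b1, c1, d1} : Finset α), ∃ u : Fin 3 → F, Co κ v x u ∧
      u 2 = u 0 - u 1 := by
    intro x hx
    simp only [mem_insert, mem_singleton] at hx
    rcases hx with rfl | rfl | rfl | rfl
    · exact ⟨_, ha1, by simp⟩
    · exact ⟨_, hb1, by simp⟩
    · exact ⟨_, hc1, by simp⟩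
    · exact ⟨_, hd1, by simp⟩
  have F2 : FT (LB F v r) S (insert q J) a1 b1 c1 d1 := by
    apply hS.P2 hJ hpq F1 G2
    intro x hx y' hy' z hz
    obtain ⟨u1, e1, f1⟩ := hplane x hx
    obtain ⟨u2, e2, f2⟩ := hplane y' hy'
    obtain ⟨u3, e3, f3⟩ := hplane z hz
    rw [hcrit x y' z, Co.det e1 e2 e3, not_not]
    simp only [det3, f1, f2, f3]; ring
  have hqJc : (insert q J).card + 2 = r := by
    have h1 := G2.ab.1
    have h2 := card_insert_le b1 (insert q J)
    have h3 := card_insert_le a1 (insert b1 (insert q J))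
    have h4 := card_insert_le q J
    omega
  -- step 3
  have F3 : FT (LB F v r) S (insert q J) c b1 a y := by
    apply hS.P1F4 hqJc F2
    · rw [key ha1 hcc hq]; simp [det3]
    · exact ⟨a, by rw [key hcc hca hq]; simp [det3]⟩
    · rw [key hb1 hb1 hq]; simp [det3]
    · exact ⟨c, by rw [key hb1 hcc hq]; simp [det3]⟩
    · rw [key hc1 hca hq]; simp [det3]
    · exact ⟨c, by rw [key hca hcc hq]; simp [det3]⟩
    · rw [key hd1 hy hq, not_not]; simp [det3]; ring
    · exact ⟨c, by rw [key hy hcc hq]; simp [det3, ht]⟩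
  -- step 4
  have G4 : Full (LB F v r) (insert p J) c b1 a y := by
    refine ⟨?_, ?_, ?_, ?_, ?_, ?_⟩
    · rw [key hcc hb1 hcp]; simp [det3]
    · rw [key hcc hca hcp]; simp [det3]
    · rw [key hcc hy hcp]; simp [det3, ht]
    · rw [key hb1 hca hcp]; simp [det3]
    · rw [key hb1 hy hcp]
      have : det3 (![1, 1, 0] : Fin 3 → F) ![t, s, 0] ![0, 0, 1] = -(t - s) := by
        simp [det3]
      rw [this]; exact neg_ne_zero.2 hst
    · rw [key hca hy hcp]; simp [det3, hs]
  have hplane' : ∀ x ∈ ({c, b1, a, y} : Finset α), ∃ u : Fin 3 → F, Co κ v x u ∧ u 2 = 0 := by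
    intro x hx
    simp only [mem_insert, mem_singleton] at hx
    rcases hx with rfl | rfl | rfl | rfl
    · exact ⟨_, hcc, by simp⟩
    · exact ⟨_, hb1, by simp⟩
    · exact ⟨_, hca, by simp⟩
    · exact ⟨_, hy, by simp⟩
  have F4 : FT (LB F v r) S (insert p J) c b1 a y := by
    apply hS.P2 hJ hpq.symm F3 G4
    intro x hx y' hy' z hz
    obtain ⟨u1, e1, f1⟩ := hplane' x hx
    obtain ⟨u2, e2, f2⟩ := hplane' y' hy'
    obtain ⟨u3, e3, f3⟩ := hplane' z hz
    rw [hcrit x y' z, Co.det e1 e2 e3, not_not]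
    simp only [det3, f1, f2, f3]; ring
  -- step 5
  have F5 : FT (LB F v r) S (insert p J) b c a y := by
    apply hS.P1F hpJc F4.symm1
    · rw [key hb1 hcb hcp]; simp [det3]
    · exact ⟨c, by rw [key hcb hcc hcp]; simp [det3]⟩
  exact ⟨y, F5.symm3⟩

end Pool.Agent.R138.Pg
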