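import Mathlib

/-!
Rank functions on finite sets; the combinatorial core of strong pigeonhole bounds for
matroids that are transversal and cotransversal.
-/

namespace Pool.Agent.R138.Pigeon

variable {α ι κ : Type*} [DecidableEq α] [DecidableEq ι] [DecidableEq κ]

/-- rank function axioms -/
structure RF (r : Finset α → ℕ) : Prop where
  le_card : ∀ S, r S ≤ S.card
  mono : ∀ S T, S ⊆ T → r S ≤ r T
  sub : ∀ S T, r (S ∪ T) + r (S ∩ T) ≤ r S + r T

/-- no coloops -/
def Cyc (r : Finset α → ℕ) (S : Finset α) : Prop := ∀ e ∈ S, r S ≤ r (S.erase e)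

theorem RF.sub_union {r : Finset α → ℕ} (h : RF r) (S T : Finset α) : r (S ∪ T) ≤ r S + r T :=
  le_trans (Nat.le_add_right _ _) (h.sub S T)

theorem RF.removal {r : Finset α → ℕ} (h : RF r) (S T : Finset α) :
    r S ≤ r (S \ T) + T.card := by
  calc r S ≤ r ((S \ T) ∪ T) := h.mono _ _ (by
        intro x hx
        by_cases hT : x ∈ T
        · exact Finset.mem_union_right _ hT
        · exact Finset.mem_union_left _ (Finset.mem_sdiff.2 ⟨hx, hT⟩))
    _ ≤ r (S \ T) + r T := h.sub_union _ _
    _ ≤ r (S \ T) + T.card := Nat.add_le_add_left (h.le_card T) _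

/-- the elements that are not coloops -/
def cyc (r : Finset α → ℕ) (S : Finset α) : Finset α := S.filter (fun e => r S ≤ r (S.erase e))

theorem cyc_sub (r : Finset α → ℕ) (S : Finset α) : cyc r S ⊆ S := Finset.filter_subset _ _

theorem RF.coloops {r : Finset α → ℕ} (h : RF r) (S : Finset α) :
    ∀ T : Finset α, T ⊆ S \ cyc r S → r (S \ T) + T.card = r S := by
  intro T
  induction T using Finset.induction_on with
  | empty => intro _; simp
  | insert e T he ih =>
    intro hT
    have h1 := ih (fun x hx => hT (Finset.mem_insert_of_mem hx))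
    have heS := hT (Finset.mem_insert_self e T)
    rw [Finset.mem_sdiff, cyc, Finset.mem_filter] at heS
    have h2 : r (S.erase e) < r S := by
      by_contra hcon
      exact heS.2 ⟨heS.1, by omega⟩
    have h3 := h.sub (S.erase e) (S \ T)
    have e1 : S.erase e ∪ S \ T = S := by
      ext x
      simp only [Finset.mem_union, Finset.mem_erase, Finset.mem_sdiff]
      constructor
      · rintro (h | h)
        · exact h.2
        · exact h.1
      · intro hx
        by_cases hxe : x = e
        · subst hxe; exact Or.inr ⟨hx, he⟩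
        · exact Or.inl ⟨hxe, hx⟩
    have e2 : S.erase e ∩ (S \ T) = S \ insert e T := by
      ext x
      simp only [Finset.mem_inter, Finset.mem_erase, Finset.mem_sdiff, Finset.mem_insert]
      tauto
    rw [e1, e2] at h3
    have h4 := h.removal (S \ T) {e}
    have e3 : (S \ T) \ {e} = S \ insert e T := by
      ext x
      simp only [Finset.mem_sdiff, Finset.mem_insert, Finset.mem_singleton]
      tauto
    rw [e3, Finset.card_singleton] at h4
    rw [Finset.card_insert_of_notMem he]
    omega

theorem RF.cyc_rank {r : Finset α → ℕ} (h : RF r) (S : Finset α) :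
    r (cyc r S) + (S \ cyc r S).card = r S := by
  have := h.coloops S _ (Finset.Subset.refl _)
  rwa [Finset.sdiff_sdiff_eq_self (cyc_sub r S)] at this

theorem RF.cyc_cyc {r : Finset α → ℕ} (h : RF r) (S : Finset α) : Cyc r (cyc r S) := by
  intro e he
  have he' := he
  rw [cyc, Finset.mem_filter] at he'
  have h1 := h.removal (S.erase e) (S \ cyc r S)
  have e1 : (S.erase e) \ (S \ cyc r S) = (cyc r S).erase e := by
    ext x
    simp only [Finset.mem_sdiff, Finset.mem_erase]
    have := @cyc_sub α _ r S x
    tauto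
  rw [e1] at h1
  have h2 := h.cyc_rank S
  omega

/-- neighbourhood -/
def nb (N : α → Finset ι) (S : Finset α) : Finset ι := S.biUnion N

theorem nb_mono (N : α → Finset ι) {S T : Finset α} (h : S ⊆ T) : nb N S ⊆ nb N T :=
  Finset.biUnion_subset_biUnion_of_subset_left N h

theorem nb_union (N : α → Finset ι) (S T : Finset α) : nb N (S ∪ T) = nb N S ∪ nb N T := by
  unfold nb; rw [Finset.union_biUnion]

theorem mem_nb {N : α → Finset ι} {S : Finset α} {i : ι} :
    i ∈ nb N S ↔ ∃ e ∈ S, i ∈ N e := Finset.mem_biUnion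

theorem nb_subset {N : α → Finset ι} {S : Finset α} {P : Finset ι} :
    nb N S ⊆ P ↔ ∀ e ∈ S, N e ⊆ P := Finset.biUnion_subset

/-- transversal data -/
structure TD (r : Finset α → ℕ) (N : α → Finset ι) : Prop where
  le : ∀ S, r S ≤ (nb N S).card
  cyc : ∀ S, Cyc r S → (nb N S).card ≤ r S

theorem TD.eq {r : Finset α → ℕ} {N : α → Finset ι} (h : TD r N) {S : Finset α}
    (hS : Cyc r S) : r S = (nb N S).card := le_antisymm (h.le S) (h.cyc S hS)

/-- local connectivity is monotone -/
theorem RF.conn {r : Finset α → ℕ} (h : RF r) {S T U V : Finset α} (hSU : S ⊆ U) (hTV : T ⊆ V) :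
    r S + r T + r (U ∪ V) ≤ r U + r V + r (S ∪ T) := by
  have h1 := h.sub U (S ∪ T)
  have h2 : r S ≤ r (U ∩ (S ∪ T)) := h.mono _ _ (by
    intro x hx
    exact Finset.mem_inter.2 ⟨hSU hx, Finset.mem_union_left _ hx⟩)
  have h3 := h.sub V (U ∪ (S ∪ T))
  have h4 : r T ≤ r (V ∩ (U ∪ (S ∪ T))) := h.mono _ _ (by
    intro x hx
    exact Finset.mem_inter.2 ⟨hTV hx, Finset.mem_union_right _ (Finset.mem_union_right _ hx)⟩)
  have h5 : r (U ∪ V) ≤ r (V ∪ (U ∪ (S ∪ T))) := h.mono _ _ (by
    intro x hx
    rcases Finset.mem_union.1 hx with h | h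
    · exact Finset.mem_union_right _ (Finset.mem_union_left _ h)
    · exact Finset.mem_union_left _ h)
  omega

/-- cyclic flat inside `E` -/
def CF (r : Finset α → ℕ) (E F : Finset α) : Prop :=
  F ⊆ E ∧ Cyc r F ∧ ∀ e ∈ E, e ∉ F → r F < r (insert e F)

/-- a dependent set is dependent in a cyclic flat -/
theorem RF.exists_CF {r : Finset α → ℕ} (h : RF r) {E I : Finset α} (hI : I ⊆ E)
    (hd : r I < I.card) : ∃ F, CF r E F ∧ r F < (I ∩ F).card := by
  classical
  -- minimal dependent subset
  obtain ⟨C, hC, hmin⟩ := Finset.exists_min_image (I.powerset.filter (fun C => r C < C.card))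
    Finset.card ⟨I, Finset.mem_filter.2 ⟨Finset.mem_powerset_self I, hd⟩⟩
  rw [Finset.mem_filter, Finset.mem_powerset] at hC
  have hCerase : ∀ e ∈ C, r C ≤ r (C.erase e) := by
    intro e he
    by_contra hcon
    have h1 : (C.erase e).card ≤ r (C.erase e) := by
      by_contra h2
      have := hmin (C.erase e) (Finset.mem_filter.2 ⟨Finset.mem_powerset.2
        ((Finset.erase_subset _ _).trans hC.1), by omega⟩)
      rw [Finset.card_erase_of_mem he] at this
      have := Finset.card_pos.2 ⟨e, he⟩
      omega
    rw [Finset.card_erase_of_mem he] at h1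
    have := Finset.card_pos.2 ⟨e, he⟩
    omega
  -- its closure
  set F := E.filter (fun e => r (insert e C) ≤ r C) with hF
  have hCF : C ⊆ F := by
    intro e he
    rw [hF, Finset.mem_filter]
    exact ⟨hI (hC.1 he), by rw [Finset.insert_eq_of_mem he]⟩
  have hrF : r F ≤ r C := by
    have key : ∀ T : Finset α, T ⊆ F → r (C ∪ T) ≤ r C := by
      intro T
      induction T using Finset.induction_on with
      | empty => intro _; simp
      | insert e T he ih =>
        intro hT
        have h1 := ih (fun x hx => hT (Finset.mem_insert_of_mem hx))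
        have h2 := h.sub (C ∪ T) (insert e C)
        have h3 : r C ≤ r ((C ∪ T) ∩ insert e C) := h.mono _ _ (by
          intro x hx
          exact Finset.mem_inter.2 ⟨Finset.mem_union_left _ hx, Finset.mem_insert_of_mem hx⟩)
        have h4 := hT (Finset.mem_insert_self e T)
        rw [hF, Finset.mem_filter] at h4
        have e1 : C ∪ T ∪ insert e C = C ∪ insert e T := by
          ext x
          simp only [Finset.mem_union, Finset.mem_insert]
          tauto
        rw [e1] at h2
        omega
    have := key F (Finset.Subset.refl _)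
    rwa [Finset.union_eq_right.2 hCF] at this
  refine ⟨F, ⟨Finset.filter_subset _ _, ?_, ?_⟩, ?_⟩
  · intro e he
    by_cases heC : e ∈ C
    · calc r F ≤ r C := hrF
        _ ≤ r (C.erase e) := hCerase e heC
        _ ≤ r (F.erase e) := h.mono _ _ (Finset.erase_subset_erase e hCF)
    · calc r F ≤ r C := hrF
        _ ≤ r (F.erase e) := h.mono _ _ (by
            intro x hx
            exact Finset.mem_erase.2 ⟨fun h => heC (h ▸ hx), hCF hx⟩)
  · intro e heE heF
    have h1 : ¬ r (insert e C) ≤ r C := fun h => heF (Finset.mem_filter.2 ⟨heE, h⟩)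
    have h2 : r (insert e C) ≤ r (insert e F) := h.mono _ _ (Finset.insert_subset_insert e hCF)
    omega
  · have h1 : C.card ≤ (I ∩ F).card := Finset.card_le_card (by
      intro x hx
      exact Finset.mem_inter.2 ⟨hC.1 hx, hCF hx⟩)
    omega

end Pool.Agent.R138.Pigeon
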