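import Pool.Agent.R138.Pigeon

/-!
The signature of a subset of `U`.
-/

namespace Pool.Agent.R138.Pigeon

variable {α ι κ : Type*} [DecidableEq α] [DecidableEq ι] [DecidableEq κ]

/-- members of `S` with neighbourhood inside `P` -/
def FP (N : α → Finset ι) (P : Finset ι) (S : Finset α) : Finset α := S.filter (fun e => N e ⊆ P)

/-- admissible sets -/
def val (A G NH G1 : Finset ι) : Finset (Finset ι) :=
  A.powerset.filter (fun P => P ∩ G = G1 ∧ NH ∩ A ⊆ P)

/-- the value of an admissible set -/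
def fval (N : α → Finset ι) (Y H : Finset α) (A P : Finset ι) (X : Finset α) : ℕ :=
  (FP N P (X ∩ Y)).card + (X ∩ H).card + (A \ P).card

/-- the maximal value -/
def ff (N : α → Finset ι) (Y : Finset α) (A G : Finset ι) (τ : Finset α × Finset ι)
    (X : Finset α) : ℕ :=
  (val A G (nb N τ.1) τ.2).sup (fun P => fval N Y τ.1 A P X)

theorem RF.indep_sub {r : Finset α → ℕ} (h : RF r) {S I : Finset α} (hS : S ⊆ I)
    (hI : r I = I.card) : r S = S.card := by
  have h1 := h.removal I (I \ S)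
  rw [Finset.sdiff_sdiff_eq_self hS, Finset.card_sdiff_of_subset hS] at h1
  have h2 := h.le_card S
  have h3 := Finset.card_le_card hS
  omega

section main

variable {r : Finset α → ℕ} {N : α → Finset ι}

/-- upper bound -/
theorem ub (hr : RF r) (hN : TD r N) {E U V : Finset α} (hUV : Disjoint U V)
    {l : ℕ} {X Z : Finset α} (hX : X ⊆ U) (hZ : Z ⊆ V)
    (hb : ∀ S T, S ⊆ X → T ⊆ Z → S.card + T.card ≤ r (S ∪ T) + l)
    {τ : Finset α × Finset ι} (hτ : τ.1 ⊆ (U \ cyc r U) ∪ (V \ cyc r V))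
    {P Q : Finset ι}
    (hP : P ∈ val (nb N (cyc r U)) (nb N (cyc r U) ∩ nb N (cyc r V)) (nb N τ.1) τ.2)
    (hQ : Q ∈ val (nb N (cyc r V)) (nb N (cyc r U) ∩ nb N (cyc r V)) (nb N τ.1) τ.2) :
    fval N (cyc r U) τ.1 (nb N (cyc r U)) P X + fval N (cyc r V) τ.1 (nb N (cyc r V)) Q Z +
      τ.2.card ≤ (nb N (cyc r U)).card + (nb N (cyc r V)).card +
        (nb N τ.1 \ (nb N (cyc r U) ∪ nb N (cyc r V))).card + l := by
  set A := nb N (cyc r U) with hA
  set B := nb N (cyc r V) with hB
  set D := nb N τ.1 \ (A ∪ B) with hD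
  rw [val, Finset.mem_filter, Finset.mem_powerset] at hP hQ
  obtain ⟨hPA, hPG, hPN⟩ := hP
  obtain ⟨hQB, hQG, hQN⟩ := hQ
  set N' := P ∪ Q ∪ D with hN'
  have hH : nb N τ.1 ⊆ N' := by
    intro i hi
    by_cases h1 : i ∈ A
    · exact Finset.mem_union_left _ (Finset.mem_union_left _ (hPN (Finset.mem_inter.2 ⟨hi, h1⟩)))
    · by_cases h2 : i ∈ B
      · exact Finset.mem_union_left _ (Finset.mem_union_right _ (hQN (Finset.mem_inter.2 ⟨hi, h2⟩)))
      · exact Finset.mem_union_right _ (Finset.mem_sdiff.2 ⟨hi, by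
          rw [Finset.mem_union]; tauto⟩)
  have hHe : ∀ e ∈ τ.1, N e ⊆ N' := nb_subset.1 hH
  have hS : (FP N P (X ∩ cyc r U)).card + (X ∩ τ.1).card ≤ (FP N N' X).card := by
    rw [← Finset.card_union_of_disjoint]
    · apply Finset.card_le_card
      intro e he
      rw [FP, Finset.mem_filter]
      rcases Finset.mem_union.1 he with h | h
      · rw [FP, Finset.mem_filter, Finset.mem_inter] at h
        exact ⟨h.1.1, h.2.trans (fun i hi => Finset.mem_union_left _ (Finset.mem_union_left _ hi))⟩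
      · rw [Finset.mem_inter] at h
        exact ⟨h.1, hHe e h.2⟩
    · rw [Finset.disjoint_left]
      intro e h1 h2
      rw [FP, Finset.mem_filter, Finset.mem_inter] at h1
      rw [Finset.mem_inter] at h2
      rcases Finset.mem_union.1 (hτ h2.2) with h | h
      · exact (Finset.mem_sdiff.1 h).2 h1.1.2
      · exact Finset.disjoint_left.1 hUV (hX h1.1.1) (Finset.mem_sdiff.1 h).1
  have hT : (FP N Q (Z ∩ cyc r V)).card + (Z ∩ τ.1).card ≤ (FP N N' Z).card := by
    rw [← Finset.card_union_of_disjoint]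
    · apply Finset.card_le_card
      intro e he
      rw [FP, Finset.mem_filter]
      rcases Finset.mem_union.1 he with h | h
      · rw [FP, Finset.mem_filter, Finset.mem_inter] at h
        exact ⟨h.1.1, h.2.trans (fun i hi => Finset.mem_union_left _ (Finset.mem_union_right _ hi))⟩
      · rw [Finset.mem_inter] at h
        exact ⟨h.1, hHe e h.2⟩
    · rw [Finset.disjoint_left]
      intro e h1 h2
      rw [FP, Finset.mem_filter, Finset.mem_inter] at h1
      rw [Finset.mem_inter] at h2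
      rcases Finset.mem_union.1 (hτ h2.2) with h | h
      · exact Finset.disjoint_left.1 hUV (Finset.mem_sdiff.1 h).1 (hZ h1.1.1)
      · exact (Finset.mem_sdiff.1 h).2 h1.1.2
  have h1 := hb (FP N N' X) (FP N N' Z) (Finset.filter_subset _ _) (Finset.filter_subset _ _)
  have h2 : r (FP N N' X ∪ FP N N' Z) ≤ N'.card := by
    refine (hN.le _).trans (Finset.card_le_card ?_)
    rw [nb_subset]
    intro e he
    rcases Finset.mem_union.1 he with h | h
    · exact (Finset.mem_filter.1 h).2
    · exact (Finset.mem_filter.1 h).2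
  have h3 : N'.card ≤ (P ∪ Q).card + D.card := Finset.card_union_le _ _
  have h4 := Finset.card_union_add_card_inter P Q
  have h5 : P ∩ Q = τ.2 := by
    apply Finset.Subset.antisymm
    · intro i hi
      rw [← hPG]
      rw [Finset.mem_inter] at hi ⊢
      exact ⟨hi.1, Finset.mem_inter.2 ⟨hPA hi.1, hQB hi.2⟩⟩
    · intro i hi
      have h6 := hi
      have h7 := hi
      rw [← hPG] at h6
      rw [← hQG] at h7
      exact Finset.mem_inter.2 ⟨(Finset.mem_inter.1 h6).1, (Finset.mem_inter.1 h7).1⟩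
  rw [h5] at h4
  have h8 : (A \ P).card + P.card = A.card := Finset.card_sdiff_add_card_eq_card hPA
  have h9 : (B \ Q).card + Q.card = B.card := Finset.card_sdiff_add_card_eq_card hQB
  unfold fval
  omega

/-- the type of a cyclic flat -/
def typ (r : Finset α → ℕ) (N : α → Finset ι) (U V F : Finset α) : Finset α × Finset ι :=
  (((U \ cyc r U) ∪ (V \ cyc r V)) ∩ F, (nb N (cyc r U) ∩ nb N (cyc r V)) ∩ nb N F)

theorem typ_val1 (U V F : Finset α) :
    nb N (cyc r U) ∩ nb N F ∈ val (nb N (cyc r U)) (nb N (cyc r U) ∩ nb N (cyc r V))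
      (nb N (typ r N U V F).1) (typ r N U V F).2 := by
  rw [val, Finset.mem_filter, Finset.mem_powerset]
  refine ⟨Finset.inter_subset_left, ?_, ?_⟩
  · unfold typ
    ext i
    simp only [Finset.mem_inter]
    tauto
  · intro i hi
    rw [Finset.mem_inter] at hi ⊢
    refine ⟨hi.2, nb_mono N ?_ hi.1⟩
    exact Finset.inter_subset_right

theorem typ_val2 (U V F : Finset α) :
    nb N (cyc r V) ∩ nb N F ∈ val (nb N (cyc r V)) (nb N (cyc r U) ∩ nb N (cyc r V))
      (nb N (typ r N U V F).1) (typ r N U V F).2 := by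
  rw [val, Finset.mem_filter, Finset.mem_powerset]
  refine ⟨Finset.inter_subset_left, ?_, ?_⟩
  · unfold typ
    ext i
    simp only [Finset.mem_inter]
    tauto
  · intro i hi
    rw [Finset.mem_inter] at hi ⊢
    refine ⟨hi.2, nb_mono N ?_ hi.1⟩
    exact Finset.inter_subset_right

/-- lower bound: a violated cyclic flat -/
theorem lb (hN : TD r N) {E U V : Finset α}
    {X Z F : Finset α} (hX : X ⊆ U) (hZ : Z ⊆ V) (hF : CF r E F) (hv : r F < ((X ∪ Z) ∩ F).card) :
    (nb N (cyc r U)).card + (nb N (cyc r V)).card +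
      (nb N (typ r N U V F).1 \ (nb N (cyc r U) ∪ nb N (cyc r V))).card <
    fval N (cyc r U) (typ r N U V F).1 (nb N (cyc r U)) (nb N (cyc r U) ∩ nb N F) X +
      fval N (cyc r V) (typ r N U V F).1 (nb N (cyc r V)) (nb N (cyc r V) ∩ nb N F) Z +
      (typ r N U V F).2.card := by
  set A := nb N (cyc r U) with hA
  set B := nb N (cyc r V) with hB
  set τ := typ r N U V F with hτ
  have hτ1 : τ.1 = ((U \ cyc r U) ∪ (V \ cyc r V)) ∩ F := rfl
  have hτ2 : τ.2 = (A ∩ B) ∩ nb N F := rfl
  have h1 : (X ∩ F).card ≤ (FP N (A ∩ nb N F) (X ∩ cyc r U)).card + (X ∩ τ.1).card := by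
    refine le_trans (Finset.card_le_card ?_) (Finset.card_union_le _ _)
    intro e he
    rw [Finset.mem_inter] at he
    by_cases hc : e ∈ cyc r U
    · refine Finset.mem_union_left _ (Finset.mem_filter.2 ⟨Finset.mem_inter.2 ⟨he.1, hc⟩, ?_⟩)
      intro i hi
      exact Finset.mem_inter.2 ⟨mem_nb.2 ⟨e, hc, hi⟩, mem_nb.2 ⟨e, he.2, hi⟩⟩
    · refine Finset.mem_union_right _ (Finset.mem_inter.2 ⟨he.1, ?_⟩)
      rw [hτ1, Finset.mem_inter]
      exact ⟨Finset.mem_union_left _ (Finset.mem_sdiff.2 ⟨hX he.1, hc⟩), he.2⟩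
  have h2 : (Z ∩ F).card ≤ (FP N (B ∩ nb N F) (Z ∩ cyc r V)).card + (Z ∩ τ.1).card := by
    refine le_trans (Finset.card_le_card ?_) (Finset.card_union_le _ _)
    intro e he
    rw [Finset.mem_inter] at he
    by_cases hc : e ∈ cyc r V
    · refine Finset.mem_union_left _ (Finset.mem_filter.2 ⟨Finset.mem_inter.2 ⟨he.1, hc⟩, ?_⟩)
      intro i hi
      exact Finset.mem_inter.2 ⟨mem_nb.2 ⟨e, hc, hi⟩, mem_nb.2 ⟨e, he.2, hi⟩⟩
    · refine Finset.mem_union_right _ (Finset.mem_inter.2 ⟨he.1, ?_⟩)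
      rw [hτ1, Finset.mem_inter]
      exact ⟨Finset.mem_union_right _ (Finset.mem_sdiff.2 ⟨hZ he.1, hc⟩), he.2⟩
  have h3 : ((X ∪ Z) ∩ F).card ≤ (X ∩ F).card + (Z ∩ F).card := by
    rw [Finset.union_inter_distrib_right]
    exact Finset.card_union_le _ _
  have h4 : r F = (nb N F).card := hN.eq hF.2.1
  have h5 : ((A ∩ nb N F) ∪ (B ∩ nb N F)).card + (nb N τ.1 \ (A ∪ B)).card ≤ (nb N F).card := by
    rw [← Finset.card_union_of_disjoint]
    · apply Finset.card_le_card
      intro i hi
      rcases Finset.mem_union.1 hi with h | h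
      · rcases Finset.mem_union.1 h with h | h
        · exact (Finset.mem_inter.1 h).2
        · exact (Finset.mem_inter.1 h).2
      · exact nb_mono N Finset.inter_subset_right (Finset.mem_sdiff.1 h).1
    · rw [Finset.disjoint_left]
      intro i h6 h7
      apply (Finset.mem_sdiff.1 h7).2
      rcases Finset.mem_union.1 h6 with h | h
      · exact Finset.mem_union_left _ (Finset.mem_inter.1 h).1
      · exact Finset.mem_union_right _ (Finset.mem_inter.1 h).1
  have h6 := Finset.card_union_add_card_inter (A ∩ nb N F) (B ∩ nb N F)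
  have h7 : (A ∩ nb N F) ∩ (B ∩ nb N F) = τ.2 := by
    rw [hτ2]
    ext i
    simp only [Finset.mem_inter]
    tauto
  rw [h7] at h6
  have h8 : (A \ (A ∩ nb N F)).card + (A ∩ nb N F).card = A.card :=
    Finset.card_sdiff_add_card_eq_card Finset.inter_subset_left
  have h9 : (B \ (B ∩ nb N F)).card + (B ∩ nb N F).card = B.card :=
    Finset.card_sdiff_add_card_eq_card Finset.inter_subset_left
  unfold fval
  omega

end main

end Pool.Agent.R138.Pigeon
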