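import Pool.Agent.R138.Pigeon2

/-!
Counting the types of cyclic flats and the signatures.
-/

namespace Pool.Agent.R138.Pigeon

variable {α ι κ : Type*} [DecidableEq α] [DecidableEq ι] [DecidableEq κ]

/-- the complement of a cyclic flat is cyclic in the dual -/
theorem dual_cyc {r rs : Finset α → ℕ} {E F : Finset α}
    (hd : ∀ S ⊆ E, rs S + r E = S.card + r (E \ S)) (hF : CF r E F) : Cyc rs (E \ F) := by
  intro e he
  have heE := (Finset.mem_sdiff.1 he).1
  have heF := (Finset.mem_sdiff.1 he).2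
  have h1 := hd (E \ F) Finset.sdiff_subset
  have h2 := hd ((E \ F).erase e) ((Finset.erase_subset _ _).trans Finset.sdiff_subset)
  rw [Finset.sdiff_sdiff_eq_self hF.1] at h1
  have e1 : E \ ((E \ F).erase e) = insert e F := by
    ext x
    simp only [Finset.mem_sdiff, Finset.mem_erase, Finset.mem_insert]
    have := @hF.1 x
    by_cases hx : x = e
    · subst hx; tauto
    · tauto
  rw [e1, Finset.card_erase_of_mem he] at h2
  have h3 := hF.2.2 e heE heF
  have := Finset.card_pos.2 ⟨e, he⟩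
  omega

/-- the complement of a cyclic flat is closed in the dual -/
theorem dual_flat {r rs : Finset α → ℕ} {E F : Finset α}
    (hd : ∀ S ⊆ E, rs S + r E = S.card + r (E \ S)) (hF : CF r E F) {e : α} (he : e ∈ F) :
    rs (E \ F) < rs (insert e (E \ F)) := by
  have h1 := hd (E \ F) Finset.sdiff_subset
  have h2 := hd (insert e (E \ F)) (Finset.insert_subset (hF.1 he) Finset.sdiff_subset)
  rw [Finset.sdiff_sdiff_eq_self hF.1] at h1
  have e1 : E \ (insert e (E \ F)) = F.erase e := by
    ext x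
    simp only [Finset.mem_sdiff, Finset.mem_erase, Finset.mem_insert]
    have := @hF.1 x
    tauto
  rw [e1, Finset.card_insert_of_notMem (by
    rw [Finset.mem_sdiff]; exact fun h => h.2 he)] at h2
  have h3 := hF.2.1 e he
  omega

/-- membership in the complement of a cyclic flat is seen by the dual neighbourhoods -/
theorem dual_mem {r rs : Finset α → ℕ} {Ns : α → Finset κ} (hNs : TD rs Ns) {E F : Finset α}
    (hd : ∀ S ⊆ E, rs S + r E = S.card + r (E \ S)) (hF : CF r E F) {e : α} (he : e ∈ E) :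
    e ∉ F ↔ Ns e ⊆ nb Ns (E \ F) := by
  constructor
  · intro h i hi
    exact mem_nb.2 ⟨e, Finset.mem_sdiff.2 ⟨he, h⟩, hi⟩
  · intro h heF
    have h1 := dual_flat hd hF heF
    have h2 := hNs.le (insert e (E \ F))
    have h3 := hNs.cyc _ (dual_cyc hd hF)
    have h4 : nb Ns (insert e (E \ F)) = nb Ns (E \ F) := by
      apply Finset.Subset.antisymm
      · rw [nb_subset]
        intro x hx
        rcases Finset.mem_insert.1 hx with rfl | hx
        · exact h
        · exact fun i hi => mem_nb.2 ⟨x, hx, hi⟩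
      · exact nb_mono _ (Finset.subset_insert _ _)
    rw [h4] at h2
    omega

/-- the traces of the cyclic flats on a set of small dual rank -/
theorem trace_card {r rs : Finset α → ℕ} {Ns : α → Finset κ} (hrs : RF rs) (hNs : TD rs Ns)
    {E : Finset α} (hd : ∀ S ⊆ E, rs S + r E = S.card + r (E \ S)) {P : Finset α} (hP : P ⊆ E)
    (𝓕 : Finset (Finset α)) (h𝓕 : ∀ F ∈ 𝓕, CF r E F) :
    (𝓕.image (fun F => P ∩ F)).card ≤ 2 ^ rs P := by
  classical
  set Q := cyc rs P with hQ
  have hsub : 𝓕.image (fun F => P ∩ F) ⊆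
      ((nb Ns Q).powerset ×ˢ (P \ Q).powerset).image
        (fun p => Q.filter (fun e => ¬ Ns e ⊆ p.1) ∪ p.2) := by
    intro S hS
    obtain ⟨F, hF, rfl⟩ := Finset.mem_image.1 hS
    rw [Finset.mem_image]
    refine ⟨(nb Ns (E \ F) ∩ nb Ns Q, (P \ Q) ∩ F), ?_, ?_⟩
    · rw [Finset.mem_product, Finset.mem_powerset, Finset.mem_powerset]
      exact ⟨Finset.inter_subset_right, Finset.inter_subset_left⟩
    · ext e
      simp only [Finset.mem_union, Finset.mem_filter, Finset.mem_inter, Finset.mem_sdiff]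
      by_cases heP : e ∈ P
      · have h1 := dual_mem hNs hd (h𝓕 F hF) (hP heP)
        by_cases heQ : e ∈ Q
        · have h2 : Ns e ⊆ nb Ns (E \ F) ∩ nb Ns Q ↔ Ns e ⊆ nb Ns (E \ F) := by
            constructor
            · exact fun h => h.trans Finset.inter_subset_left
            · exact fun h i hi => Finset.mem_inter.2 ⟨h hi, mem_nb.2 ⟨e, heQ, hi⟩⟩
          rw [h2, ← h1]
          tauto
        · tauto
      · have : e ∉ Q := fun h => heP (cyc_sub _ _ h)
        tauto
  calc (𝓕.image (fun F => P ∩ F)).card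
      ≤ (((nb Ns Q).powerset ×ˢ (P \ Q).powerset).image
        (fun p => Q.filter (fun e => ¬ Ns e ⊆ p.1) ∪ p.2)).card := Finset.card_le_card hsub
    _ ≤ ((nb Ns Q).powerset ×ˢ (P \ Q).powerset).card := Finset.card_image_le
    _ = 2 ^ (nb Ns Q).card * 2 ^ (P \ Q).card := by
        rw [Finset.card_product, Finset.card_powerset, Finset.card_powerset]
    _ = 2 ^ ((nb Ns Q).card + (P \ Q).card) := by rw [pow_add]
    _ ≤ 2 ^ rs P := by
        apply Nat.pow_le_pow_right (by norm_num)
        have h1 := hNs.cyc _ (hrs.cyc_cyc P)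
        have h2 := hrs.cyc_rank P
        rw [← hQ] at h1 h2
        omega

/-- the types of the cyclic flats -/
noncomputable def types (r : Finset α → ℕ) (N : α → Finset ι) (E U V : Finset α) :
    Finset (Finset α × Finset ι) := by
  classical
  exact (E.powerset.filter (fun F => CF r E F)).image (fun F => typ r N U V F)

theorem mem_types {r : Finset α → ℕ} {N : α → Finset ι} {E U V : Finset α}
    {τ : Finset α × Finset ι} : τ ∈ types r N E U V ↔ ∃ F, CF r E F ∧ typ r N U V F = τ := by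
  classical
  unfold types
  rw [Finset.mem_image]
  constructor
  · rintro ⟨F, hF, h⟩
    exact ⟨F, (Finset.mem_filter.1 hF).2, h⟩
  · rintro ⟨F, hF, h⟩
    exact ⟨F, Finset.mem_filter.2 ⟨Finset.mem_powerset.2 hF.1, hF⟩, h⟩

theorem types_card {r rs : Finset α → ℕ} {N : α → Finset ι} {Ns : α → Finset κ}
    (hr : RF r) (hN : TD r N) (hrs : RF rs) (hNs : TD rs Ns)
    {E U V : Finset α} (hd : ∀ S ⊆ E, rs S + r E = S.card + r (E \ S))
    (hUV : Disjoint U V) (hE : U ∪ V = E) {l : ℕ} (hl : r U + r V ≤ r E + l) :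
    (types r N E U V).card ≤ 4 ^ l := by
  classical
  have hUE : U ⊆ E := hE ▸ Finset.subset_union_left
  have hVE : V ⊆ E := hE ▸ Finset.subset_union_right
  set W := U \ cyc r U with hW
  set W' := V \ cyc r V with hW'
  set A := nb N (cyc r U) with hA
  set B := nb N (cyc r V) with hB
  have a1 := hr.cyc_rank U
  have a2 := hr.cyc_rank V
  rw [← hW] at a1
  rw [← hW'] at a2
  have a3 := hN.eq (hr.cyc_cyc U)
  have a4 := hN.eq (hr.cyc_cyc V)
  rw [← hA] at a3
  rw [← hB] at a4
  -- the intersection of the two faces is small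
  have hG : (A ∩ B).card ≤ l := by
    have h1 := hr.conn (cyc_sub r U) (cyc_sub r V)
    rw [hE] at h1
    have h2 := hN.le (cyc r U ∪ cyc r V)
    rw [nb_union, ← hA, ← hB] at h2
    have h3 := Finset.card_union_add_card_inter A B
    omega
  -- the dual rank of the coloops is small
  have hP : rs (W ∪ W') ≤ l := by
    have hWE : W ∪ W' ⊆ E := Finset.union_subset (Finset.sdiff_subset.trans hUE)
      (Finset.sdiff_subset.trans hVE)
    have h1 := hd (W ∪ W') hWE
    have h2 : r (E \ (W ∪ W')) ≤ r (cyc r U) + r (cyc r V) := by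
      refine (hr.mono _ _ ?_).trans (hr.sub_union _ _)
      intro e he
      rw [Finset.mem_sdiff, ← hE, Finset.mem_union, Finset.mem_union] at he
      rw [Finset.mem_union]
      by_contra hcon
      push Not at hcon
      apply he.2
      rcases he.1 with h | h
      · exact Or.inl (Finset.mem_sdiff.2 ⟨h, hcon.1⟩)
      · exact Or.inr (Finset.mem_sdiff.2 ⟨h, hcon.2⟩)
    have h3 : (W ∪ W').card ≤ W.card + W'.card := Finset.card_union_le _ _
    omega
  have hWE : W ∪ W' ⊆ E := Finset.union_subset (Finset.sdiff_subset.trans hUE)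
    (Finset.sdiff_subset.trans hVE)
  set 𝓕 := E.powerset.filter (fun F => CF r E F) with h𝓕
  have h1 := trace_card hrs hNs hd hWE 𝓕 (fun F hF => (Finset.mem_filter.1 hF).2)
  have hsub : types r N E U V ⊆ (𝓕.image (fun F => (W ∪ W') ∩ F)) ×ˢ (A ∩ B).powerset := by
    intro τ hτ
    obtain ⟨F, hF, rfl⟩ := mem_types.1 hτ
    rw [Finset.mem_product]
    refine ⟨Finset.mem_image.2 ⟨F, Finset.mem_filter.2 ⟨Finset.mem_powerset.2 hF.1, hF⟩, rfl⟩, ?_⟩
    rw [Finset.mem_powerset]
    exact Finset.inter_subset_left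
  calc (types r N E U V).card ≤ _ := Finset.card_le_card hsub
    _ = (𝓕.image (fun F => (W ∪ W') ∩ F)).card * 2 ^ (A ∩ B).card := by
        rw [Finset.card_product, Finset.card_powerset]
    _ ≤ 2 ^ l * 2 ^ l := by
        apply Nat.mul_le_mul
        · exact h1.trans (Nat.pow_le_pow_right (by norm_num) hP)
        · exact Nat.pow_le_pow_right (by norm_num) hG
    _ = 4 ^ l := by rw [← Nat.mul_pow]

/-- the largest value on the other side -/
noncomputable def gmax (r : Finset α → ℕ) (N : α → Finset ι) (U V : Finset α)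
    (τ : Finset α × Finset ι) : ℕ :=
  (V.powerset.filter (fun Z => r Z = Z.card)).sup
    (fun Z => ff N (cyc r V) (nb N (cyc r V)) (nb N (cyc r U) ∩ nb N (cyc r V)) τ Z)

/-- the signature -/
noncomputable def sig (r : Finset α → ℕ) (N : α → Finset ι) (U V : Finset α) (X : Finset α)
    (τ : Finset α × Finset ι) : ℕ :=
  (ff N (cyc r U) (nb N (cyc r U)) (nb N (cyc r U) ∩ nb N (cyc r V)) τ X + gmax r N U V τ +
    τ.2.card) - ((nb N (cyc r U)).card + (nb N (cyc r V)).card +
      (nb N τ.1 \ (nb N (cyc r U) ∪ nb N (cyc r V))).card)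

theorem exists_ff {N : α → Finset ι} {Y : Finset α} {A G : Finset ι} {τ : Finset α × Finset ι}
    (hne : (val A G (nb N τ.1) τ.2).Nonempty) (X : Finset α) :
    ∃ P ∈ val A G (nb N τ.1) τ.2, ff N Y A G τ X = fval N Y τ.1 A P X := by
  unfold ff
  exact Finset.exists_mem_eq_sup _ hne _

theorem le_ff {N : α → Finset ι} {Y : Finset α} {A G : Finset ι} {τ : Finset α × Finset ι}
    {P : Finset ι} (hP : P ∈ val A G (nb N τ.1) τ.2) (X : Finset α) :
    fval N Y τ.1 A P X ≤ ff N Y A G τ X := by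
  unfold ff
  exact Finset.le_sup (f := fun P => fval N Y τ.1 A P X) hP

theorem ub' {r : Finset α → ℕ} {N : α → Finset ι} (hr : RF r) (hN : TD r N) {E U V : Finset α}
    (hUV : Disjoint U V) {l : ℕ} {X Z : Finset α} (hX : X ⊆ U) (hZ : Z ⊆ V)
    (hb : ∀ S T, S ⊆ X → T ⊆ Z → S.card + T.card ≤ r (S ∪ T) + l)
    {τ : Finset α × Finset ι} (hτ : τ ∈ types r N E U V) :
    ff N (cyc r U) (nb N (cyc r U)) (nb N (cyc r U) ∩ nb N (cyc r V)) τ X +
      ff N (cyc r V) (nb N (cyc r V)) (nb N (cyc r U) ∩ nb N (cyc r V)) τ Z + τ.2.card ≤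
      (nb N (cyc r U)).card + (nb N (cyc r V)).card +
        (nb N τ.1 \ (nb N (cyc r U) ∪ nb N (cyc r V))).card + l := by
  obtain ⟨F, hF, rfl⟩ := mem_types.1 hτ
  obtain ⟨P, hP, h1⟩ := exists_ff (N := N) (Y := cyc r U) (τ := typ r N U V F)
    ⟨_, typ_val1 U V F⟩ X
  obtain ⟨Q, hQ, h2⟩ := exists_ff (N := N) (Y := cyc r V) (τ := typ r N U V F)
    ⟨_, typ_val2 U V F⟩ Z
  rw [h1, h2]
  exact ub (E := E) hr hN hUV hX hZ hb Finset.inter_subset_left hP hQ

theorem sig_le {r : Finset α → ℕ} {N : α → Finset ι} (hr : RF r) (hN : TD r N)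
    {E U V : Finset α} (hUV : Disjoint U V) (hE : U ∪ V = E) {l : ℕ} (hl : r U + r V ≤ r E + l)
    {X : Finset α} (hX : X ⊆ U) (hXi : r X = X.card) {τ : Finset α × Finset ι}
    (hτ : τ ∈ types r N E U V) : sig r N U V X τ ≤ l := by
  obtain ⟨Z, hZ, h1⟩ := Finset.exists_mem_eq_sup (V.powerset.filter (fun Z => r Z = Z.card))
    ⟨∅, Finset.mem_filter.2 ⟨Finset.empty_mem_powerset _, by
      have := hr.le_card ∅
      rw [Finset.card_empty] at this ⊢
      omega⟩⟩
    (fun Z => ff N (cyc r V) (nb N (cyc r V)) (nb N (cyc r U) ∩ nb N (cyc r V)) τ Z)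
  rw [Finset.mem_filter, Finset.mem_powerset] at hZ
  have h2 := ub' (E := E) hr hN hUV (l := l) hX hZ.1 (by
    intro S T hS hT
    have h3 := hr.conn (hS.trans hX) (hT.trans hZ.1)
    rw [hE] at h3
    have h4 := hr.indep_sub hS hXi
    have h5 := hr.indep_sub hT hZ.2
    omega) hτ
  unfold sig gmax
  rw [h1]
  omega

/-- equal signatures: equivalent -/
theorem equiv_of_sig {r : Finset α → ℕ} {N : α → Finset ι} (hr : RF r) (hN : TD r N)
    {E U V : Finset α} (hUV : Disjoint U V) (hE : U ∪ V = E)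
    {X X' : Finset α} (hX : X ⊆ U) (hX' : X' ⊆ U)
    (hs : ∀ τ ∈ types r N E U V, sig r N U V X τ = sig r N U V X' τ)
    {Z : Finset α} (hZ : Z ⊆ V) (hi : r (X ∪ Z) = (X ∪ Z).card) :
    r (X' ∪ Z) = (X' ∪ Z).card := by
  by_contra hcon
  have h0 := hr.le_card (X' ∪ Z)
  have hsub : X' ∪ Z ⊆ E := hE ▸ Finset.union_subset_union hX' hZ
  obtain ⟨F, hF, hv⟩ := hr.exists_CF hsub (by omega)
  have hτ : typ r N U V F ∈ types r N E U V := mem_types.2 ⟨F, hF, rfl⟩
  have h1 := lb hN hX' hZ hF hv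
  have h2 := le_ff (N := N) (Y := cyc r U) (τ := typ r N U V F)
    (typ_val1 (r := r) (N := N) U V F) X'
  have h3 := le_ff (N := N) (Y := cyc r V) (τ := typ r N U V F)
    (typ_val2 (r := r) (N := N) U V F) Z
  have hd : Disjoint X Z := Finset.disjoint_of_subset_left hX (Finset.disjoint_of_subset_right hZ hUV)
  have h4 := ub' (E := E) hr hN hUV (l := 0) hX hZ (by
    intro S T hS hT
    have h5 : S ∪ T ⊆ X ∪ Z := Finset.union_subset_union hS hT
    have h6 := hr.indep_sub h5 hi
    rw [h6, Finset.card_union_of_disjoint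
      (Finset.disjoint_of_subset_left hS (Finset.disjoint_of_subset_right hT hd))]
    omega) hτ
  have hZi : r Z = Z.card := hr.indep_sub Finset.subset_union_right hi
  have h5 : ff N (cyc r V) (nb N (cyc r V)) (nb N (cyc r U) ∩ nb N (cyc r V)) (typ r N U V F) Z ≤
      gmax r N U V (typ r N U V F) := by
    unfold gmax
    exact Finset.le_sup (f := fun Z => ff N (cyc r V) (nb N (cyc r V))
      (nb N (cyc r U) ∩ nb N (cyc r V)) (typ r N U V F) Z)
      (Finset.mem_filter.2 ⟨Finset.mem_powerset.2 hZ, hZi⟩)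
  have h6 := hs _ hτ
  unfold sig at h6
  omega

end Pool.Agent.R138.Pigeon
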