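import Pool.Agent.R138.Pigeon3

/-!
Transversal matroids give transversal data (deficiency version of Hall's theorem).
-/

namespace Pool.Agent.R138.Pigeon

variable {α ι : Type*} [DecidableEq α] [DecidableEq ι]

theorem hall_part {N : α → Finset ι} {S : Finset α} {m : ℕ}
    (h : ∀ T ⊆ S, T.card ≤ (nb N T).card + m) :
    ∃ I ⊆ S, S.card ≤ I.card + m ∧
      ∃ f : {x // x ∈ I} → ι, Function.Injective f ∧ ∀ e : {x // x ∈ I}, f e ∈ N e := by
  classical
  obtain ⟨F, hF, hFt⟩ := (Finset.all_card_le_biUnion_card_iff_exists_injective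
    (fun e : {x // x ∈ S} => (N e).disjSum (Finset.univ : Finset (Fin m)))).1 (by
      intro T
      rcases T.eq_empty_or_nonempty with rfl | ⟨e0, he0⟩
      · simp
      · have h1 := h (T.map (Function.Embedding.subtype _)) (by
          intro x hx
          obtain ⟨y, _, rfl⟩ := Finset.mem_map.1 hx
          exact y.2)
        rw [Finset.card_map] at h1
        refine h1.trans ?_
        have h2 : (nb N (T.map (Function.Embedding.subtype _))).disjSum
            (Finset.univ : Finset (Fin m)) ⊆
            T.biUnion (fun e => (N e).disjSum (Finset.univ : Finset (Fin m))) := by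
          intro x hx
          rw [Finset.mem_biUnion]
          rcases Finset.mem_disjSum.1 hx with ⟨i, hi, rfl⟩ | ⟨j, _, rfl⟩
          · obtain ⟨e, he, hie⟩ := mem_nb.1 hi
            obtain ⟨y, hy, rfl⟩ := Finset.mem_map.1 he
            exact ⟨y, hy, Finset.mem_disjSum.2 (Or.inl ⟨i, hie, rfl⟩)⟩
          · exact ⟨e0, he0, Finset.mem_disjSum.2 (Or.inr ⟨j, Finset.mem_univ _, rfl⟩)⟩
        have h3 := Finset.card_le_card h2
        rw [Finset.card_disjSum, Finset.card_univ, Fintype.card_fin] at h3
        exact h3)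
  set I := S.filter (fun e => ∃ (h : e ∈ S) (i : ι), F ⟨e, h⟩ = Sum.inl i) with hI
  have hIS : I ⊆ S := Finset.filter_subset _ _
  have hsp : ∀ e : {x // x ∈ I}, ∃ i : ι, F ⟨e.1, hIS e.2⟩ = Sum.inl i := by
    rintro ⟨e, he⟩
    obtain ⟨_, h2, i, h3⟩ := Finset.mem_filter.1 he
    exact ⟨i, h3⟩
  choose f hf using hsp
  refine ⟨I, hIS, ?_, f, ?_, ?_⟩
  · have h1 : (S \ I).card ≤ m := by
      have hsp2 : ∀ e : {x // x ∈ S \ I}, ∃ j : Fin m,
          F ⟨e.1, (Finset.mem_sdiff.1 e.2).1⟩ = Sum.inr j := by
        rintro ⟨e, he⟩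
        obtain ⟨h1, h2⟩ := Finset.mem_sdiff.1 he
        rcases hc : F ⟨e, h1⟩ with i | j
        · exact absurd (Finset.mem_filter.2 ⟨h1, h1, i, hc⟩) h2
        · exact ⟨j, rfl⟩
      choose g hg using hsp2
      have hginj : Function.Injective g := by
        intro a b hab
        have h1 := hg a
        have h2 := hg b
        rw [hab, ← h2] at h1
        have := hF h1
        exact Subtype.ext (by simpa using congrArg (fun x => x.1) this)
      have := Fintype.card_le_of_injective g hginj
      rwa [Fintype.card_coe, Fintype.card_fin] at this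
    have h2 := Finset.card_sdiff_add_card_eq_card hIS
    omega
  · intro a b hab
    have h1 := hf a
    have h2 := hf b
    rw [hab, ← h2] at h1
    have := hF h1
    exact Subtype.ext (by simpa using congrArg (fun x => x.1) this)
  · intro e
    have h1 := hFt ⟨e.1, hIS e.2⟩
    rw [hf e] at h1
    simpa using h1

theorem td_of {r : Finset α → ℕ} (hr : RF r)
    (hb : ∀ S, ∃ I ⊆ S, r I = I.card ∧ r S = I.card) (N : α → Finset ι)
    (hN : ∀ I : Finset α, r I = I.card ↔
      ∃ f : {x // x ∈ I} → ι, Function.Injective f ∧ ∀ e : {x // x ∈ I}, f e ∈ N e) :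
    TD r N := by
  constructor
  · intro S
    obtain ⟨I, hIS, hI, hSI⟩ := hb S
    obtain ⟨f, hf, hfN⟩ := (hN I).1 hI
    rw [hSI]
    have h1 : Finset.univ.image f ⊆ nb N S := by
      intro i hi
      obtain ⟨e, _, rfl⟩ := Finset.mem_image.1 hi
      exact mem_nb.2 ⟨e.1, hIS e.2, hfN e⟩
    have h2 := Finset.card_le_card h1
    rwa [Finset.card_image_of_injective _ hf, Finset.card_univ, Fintype.card_coe] at h2
  · intro S hS
    obtain ⟨S0, hS0, hmin⟩ := Finset.exists_min_image S.powerset
      (fun T => (nb N T).card + (S \ T).card) ⟨S, Finset.mem_powerset_self S⟩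
    rw [Finset.mem_powerset] at hS0
    have h0 := hmin ∅ (Finset.empty_mem_powerset _)
    have hnb0 : nb N (∅ : Finset α) = ∅ := rfl
    rw [hnb0, Finset.card_empty, Finset.sdiff_empty] at h0
    obtain ⟨I, hIS, hIc, f, hf, hfN⟩ := hall_part (N := N) (S := S)
      (m := S.card - ((nb N S0).card + (S \ S0).card)) (by
        intro T hT
        have h1 := hmin T (Finset.mem_powerset.2 hT)
        beta_reduce at h1
        have h2 := Finset.card_sdiff_add_card_eq_card hT
        omega)
    have hI : r I = I.card := (hN I).2 ⟨f, hf, hfN⟩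
    have hrS : (nb N S0).card + (S \ S0).card ≤ r S := by
      have h1 := hr.mono _ _ hIS
      omega
    by_cases hS0S : S0 = S
    · rw [hS0S, Finset.sdiff_self, Finset.card_empty] at hrS
      omega
    · exfalso
      obtain ⟨e, heS, heS0⟩ : ∃ e ∈ S, e ∉ S0 := by
        by_contra hcon
        push Not at hcon
        exact hS0S (Finset.Subset.antisymm hS0 hcon)
      have h1 := hS e heS
      -- rank of S0
      have h2 : r S0 ≤ (nb N S0).card := by
        obtain ⟨J, hJS, hJ, hSJ⟩ := hb S0
        obtain ⟨g, hg, hgN⟩ := (hN J).1 hJ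
        rw [hSJ]
        have h1 : Finset.univ.image g ⊆ nb N S0 := by
          intro i hi
          obtain ⟨e, _, rfl⟩ := Finset.mem_image.1 hi
          exact mem_nb.2 ⟨e.1, hJS e.2, hgN e⟩
        have h2 := Finset.card_le_card h1
        rwa [Finset.card_image_of_injective _ hg, Finset.card_univ, Fintype.card_coe] at h2
      have h3 := hr.removal (S.erase e) ((S.erase e) \ S0)
      have h4 : (S.erase e) \ ((S.erase e) \ S0) = S0 := by
        apply Finset.sdiff_sdiff_eq_self
        intro x hx
        exact Finset.mem_erase.2 ⟨fun h => heS0 (h ▸ hx), hS0 hx⟩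
      rw [h4] at h3
      have h5 : ((S.erase e) \ S0).card < (S \ S0).card := by
        apply Finset.card_lt_card
        rw [Finset.ssubset_iff_of_subset (Finset.sdiff_subset_sdiff (Finset.erase_subset _ _)
          (Finset.Subset.refl _))]
        exact ⟨e, Finset.mem_sdiff.2 ⟨heS, heS0⟩, by simp⟩
      omega

end Pool.Agent.R138.Pigeon
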