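import Mathlib

/-! Bounds for the number of nonbases of a paving matroid, in terms of set systems. -/

namespace Pool.Agent.R138.Rel

open Finset

variable {α : Type*} [DecidableEq α]

/-- The system `N` of nonbases of a paving matroid of rank `r` on `E`. -/
structure Sys (E : Finset α) (r : ℕ) (N : Finset (Finset α)) : Prop where
  /-- members are subsets of the ground set -/
  sub : ∀ A ∈ N, A ⊆ E
  /-- members have `r` elements -/
  card : ∀ A ∈ N, A.card = r
  /-- the exchange property -/
  ex : ∀ A ∈ N, ∀ B ∈ N, (A ∪ B).card = r + 1 → ∀ C ⊆ A ∪ B, C.card = r → C ∈ N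

/-- no coloops -/
def NC (E : Finset α) (r : ℕ) (N : Finset (Finset α)) : Prop :=
  ∀ e ∈ E, ∃ C ⊆ E.erase e, C.card = r ∧ C ∉ N

theorem count_le {E : Finset α} {k : ℕ} {N : Finset (Finset α)} (hsub : ∀ A ∈ N, A ⊆ E)
    (hcard : ∀ A ∈ N, A.card = k)
    (hpair : ∀ A ∈ N, ∀ B ∈ N, A ≠ B → (A ∪ B).card ≠ k + 1) :
    (E.card - k) * N.card ≤ E.card.choose (k + 1) := by
  have h1 : (N.sigma (fun A => E \ A)).card = N.card * (E.card - k) := by
    rw [Finset.card_sigma, Finset.sum_const_nat]
    intro A hA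
    rw [Finset.card_sdiff_of_subset (hsub A hA), hcard A hA]
  rw [mul_comm, ← h1, ← Finset.card_powersetCard]
  apply Finset.card_le_card_of_injOn (fun p : (_ : Finset α) × α => insert p.2 p.1)
  · rintro ⟨A, x⟩ hp
    rw [Finset.mem_coe, Finset.mem_sigma, mem_sdiff] at hp
    obtain ⟨hA, hxE, hxA⟩ := hp
    rw [Finset.mem_coe, mem_powersetCard]
    refine ⟨insert_subset hxE (hsub A hA), ?_⟩
    beta_reduce
    rw [card_insert_of_notMem hxA, hcard A hA]
  · rintro ⟨A, x⟩ hp ⟨B, y⟩ hp' heq
    rw [Finset.mem_coe, Finset.mem_sigma, mem_sdiff] at hp hp'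
    obtain ⟨hA, hxE, hxA⟩ := hp
    obtain ⟨hB, hyE, hyB⟩ := hp'
    beta_reduce at heq
    simp only at hA hxE hxA hB hyE hyB heq
    have hAB : A = B := by
      by_contra hne
      apply hpair A hA B hB hne
      have h2 : A ∪ B ⊆ insert x A :=
        union_subset (subset_insert _ _) (heq ▸ subset_insert _ _)
      have h3 := card_le_card h2
      rw [card_insert_of_notMem hxA, hcard A hA] at h3
      have h4 : k < (A ∪ B).card := by
        by_contra hc
        rw [not_lt] at hc
        have h5 : A = A ∪ B :=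
          Finset.eq_of_subset_of_card_le subset_union_left (by rw [hcard A hA]; exact hc)
        have h6 : B = A ∪ B :=
          Finset.eq_of_subset_of_card_le subset_union_right (by rw [hcard B hB]; exact hc)
        exact hne (h5.trans h6.symm)
      omega
    subst hAB
    have h7 : x ∈ insert y A := heq ▸ mem_insert_self x A
    rw [mem_insert] at h7
    rcases h7 with h7 | h7
    · rw [h7]
    · exact absurd h7 hxA

theorem extend {E : Finset α} {r : ℕ} {N : Finset (Finset α)} (S : Sys E r N) {X : Finset α}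
    (hXN : ∀ C ⊆ X, C.card = r → C ∈ N) {x : α} (hxX : x ∉ X) {J : Finset α} (hJ : J ⊆ X)
    (hJc : J.card + 1 = r) (hA : insert x J ∈ N) : ∀ C ⊆ insert x X, C.card = r → C ∈ N := by
  have key : ∀ (n : ℕ) (J' : Finset α), J' ⊆ X → J'.card + 1 = r → ∀ J : Finset α, J ⊆ X →
      J.card + 1 = r → insert x J ∈ N → (J' \ J).card = n → insert x J' ∈ N := by
    intro n J' hJ' hJ'c
    induction n with
    | zero =>
      intro J hJ hJc hA hn
      rw [Finset.card_eq_zero, sdiff_eq_empty_iff_subset] at hn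
      have : J' = J := Finset.eq_of_subset_of_card_le hn (by omega)
      rw [this]
      exact hA
    | succ n ih =>
      intro J hJ hJc hA hn
      have h1 : (J' \ J).Nonempty := by
        rw [← Finset.card_pos]
        omega
      obtain ⟨a, ha⟩ := h1
      rw [mem_sdiff] at ha
      have h2 : (J \ J').Nonempty := by
        rw [← Finset.card_pos]
        have e1 := card_sdiff_add_card_inter J' J
        have e2 := card_sdiff_add_card_inter J J'
        rw [inter_comm] at e2
        omega
      obtain ⟨b, hb⟩ := h2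
      rw [mem_sdiff] at hb
      have hxJ : x ∉ J := fun h => hxX (hJ h)
      have haX : a ∈ X := hJ' ha.1
      have hxa : x ≠ a := fun h => hxX (h ▸ haX)
      have hab : a ≠ b := fun h => ha.2 (h ▸ hb.1)
      have haJ : insert a J ∈ N :=
        hXN _ (insert_subset haX hJ) (by rw [card_insert_of_notMem ha.2]; exact hJc)
      have hU : (insert x J ∪ insert a J).card = r + 1 := by
        have : insert x J ∪ insert a J = insert x (insert a J) := by
          ext y
          simp only [mem_union, mem_insert]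
          tauto
        rw [this, card_insert_of_notMem, card_insert_of_notMem ha.2, hJc]
        rw [mem_insert]
        tauto
      have hJ1c : (insert a (J.erase b)).card + 1 = r := by
        rw [card_insert_of_notMem, card_erase_of_mem hb.1]
        · have : 0 < J.card := card_pos.2 ⟨b, hb.1⟩
          omega
        · intro h
          exact ha.2 (mem_of_mem_erase h)
      have hJ1X : insert a (J.erase b) ⊆ X :=
        insert_subset haX ((erase_subset _ _).trans hJ)
      have hJ1 : insert x (insert a (J.erase b)) ∈ N := by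
        apply S.ex _ hA _ haJ hU
        · intro y hy
          rw [mem_insert, mem_insert, mem_erase] at hy
          rw [mem_union, mem_insert, mem_insert]
          tauto
        · rw [card_insert_of_notMem (fun h => hxX (hJ1X h))]
          exact hJ1c
      refine ih (insert a (J.erase b)) hJ1X hJ1c hJ1 ?_
      have h3 : J' \ insert a (J.erase b) = (J' \ J).erase a := by
        ext y
        simp only [mem_sdiff, mem_insert, mem_erase, not_or, not_and]
        constructor
        · rintro ⟨h4, h5, h6⟩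
          refine ⟨h5, h4, fun h7 => ?_⟩
          by_cases hyb : y = b
          · exact hb.2 (hyb ▸ h4)
          · exact h6 hyb h7
        · rintro ⟨h4, h5, h6⟩
          exact ⟨h5, h4, fun _ => h6⟩
      rw [h3, card_erase_of_mem (mem_sdiff.2 ha), hn]
      rfl
  intro C hC hCr
  by_cases hx : x ∈ C
  · have h1 : C.erase x ⊆ X := by
      intro y hy
      rw [mem_erase] at hy
      have := hC hy.2
      rw [mem_insert] at this
      tauto
    have h2 : (C.erase x).card + 1 = r := by
      rw [card_erase_add_one hx, hCr]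
    have := key _ (C.erase x) h1 h2 J hJ hJc hA rfl
    rwa [insert_erase hx] at this
  · apply hXN C _ hCr
    intro y hy
    have := hC hy
    rw [mem_insert] at this
    rcases this with rfl | h
    · exact absurd hy hx
    · exact h

theorem mem_of_mem {E : Finset α} {r : ℕ} {N : Finset (Finset α)} (S : Sys E r N)
    (hNC : NC E r N) {x y : α} (hy : y ∈ E) (hxy : x ≠ y) {X : Finset α}
    (hX : ∀ z, z ∈ X ↔ z ∈ E ∧ z ≠ x ∧ z ≠ y) (hXN : ∀ C ⊆ X, C.card = r → C ∈ N) {A : Finset α}
    (hA : A ∈ N) (hxA : x ∈ A) : y ∈ A := by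
  by_contra hyA
  have hJ : A.erase x ⊆ X := by
    intro z hz
    rw [mem_erase] at hz
    rw [hX]
    refine ⟨S.sub A hA hz.2, hz.1, ?_⟩
    rintro rfl
    exact hyA hz.2
  have h1 := extend S hXN (x := x) (by rw [hX]; tauto) hJ
    (by rw [card_erase_add_one hxA]; exact S.card A hA) (by rw [insert_erase hxA]; exact hA)
  obtain ⟨C, hC, hCr, hCN⟩ := hNC y hy
  apply hCN
  apply h1 C _ hCr
  intro z hz
  have := hC hz
  rw [mem_erase] at this
  rw [mem_insert, hX]
  tauto

/-- Case of a flat with `m - 2` elements. -/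
theorem case_one {E : Finset α} {r : ℕ} {N : Finset (Finset α)} (S : Sys E r N)
    (hNC : NC E r N) (hr : 2 ≤ r) {x y : α} (hx : x ∈ E) (hy : y ∈ E) (hxy : x ≠ y)
    (hXN : ∀ C ⊆ (E.erase x).erase y, C.card = r → C ∈ N) :
    ∃ s, N.card = (E.card - 2).choose r + s ∧
      (E.card - r) * s ≤ (E.card - 2).choose (r - 1) ∧ (r = 3 → s ≤ 1) := by
  set X := (E.erase x).erase y with hXdef
  have hX : ∀ z, z ∈ X ↔ z ∈ E ∧ z ≠ x ∧ z ≠ y := by
    intro z
    rw [hXdef, mem_erase, mem_erase]
    tauto
  have hX' : ∀ z, z ∈ X ↔ z ∈ E ∧ z ≠ y ∧ z ≠ x := by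
    intro z
    rw [hX]
    tauto
  have hXc : X.card = E.card - 2 := by
    rw [hXdef, card_erase_of_mem, card_erase_of_mem hx]
    · omega
    · rw [mem_erase]
      exact ⟨hxy.symm, hy⟩
  have hboth : ∀ A ∈ N, ¬ A ⊆ X → x ∈ A ∧ y ∈ A := by
    intro A hA hAX
    obtain ⟨z, hz, hzX⟩ := Finset.not_subset.1 hAX
    have hzE := S.sub A hA hz
    rw [hX] at hzX
    by_cases hzx : z = x
    · have hxA : x ∈ A := hzx ▸ hz
      exact ⟨hxA, mem_of_mem S hNC hy hxy hX hXN hA hxA⟩
    · have hzy : z = y := by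
        by_contra h
        exact hzX ⟨hzE, hzx, h⟩
      have hyA : y ∈ A := hzy ▸ hz
      exact ⟨mem_of_mem S hNC hx hxy.symm hX' hXN hA hyA, hyA⟩
  set M := N.filter (fun A => ¬ A ⊆ X) with hM
  have hinj : Set.InjOn (fun A : Finset α => (A.erase x).erase y) (M : Set (Finset α)) := by
    intro A hA B hB heq
    rw [Finset.mem_coe, hM, mem_filter] at hA hB
    obtain ⟨hxA, hyA⟩ := hboth A hA.1 hA.2
    obtain ⟨hxB, hyB⟩ := hboth B hB.1 hB.2
    have h1 : A = insert x (insert y ((A.erase x).erase y)) := by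
      rw [insert_erase (mem_erase.2 ⟨hxy.symm, hyA⟩), insert_erase hxA]
    have h2 : B = insert x (insert y ((B.erase x).erase y)) := by
      rw [insert_erase (mem_erase.2 ⟨hxy.symm, hyB⟩), insert_erase hxB]
    beta_reduce at heq
    rw [h1, heq, ← h2]
  set M' := M.image (fun A => (A.erase x).erase y) with hM'
  have hM'c : M'.card = M.card := Finset.card_image_of_injOn hinj
  have hM'mem : ∀ A' ∈ M', A' ⊆ X ∧ A'.card = r - 2 ∧ insert x (insert y A') ∈ N := by
    intro A' hA'
    rw [hM', mem_image] at hA'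
    obtain ⟨A, hA, rfl⟩ := hA'
    rw [hM, mem_filter] at hA
    obtain ⟨hxA, hyA⟩ := hboth A hA.1 hA.2
    refine ⟨?_, ?_, ?_⟩
    · intro z hz
      rw [mem_erase, mem_erase] at hz
      rw [hX]
      exact ⟨S.sub A hA.1 hz.2.2, hz.2.1, hz.1⟩
    · rw [card_erase_of_mem (mem_erase.2 ⟨hxy.symm, hyA⟩), card_erase_of_mem hxA, S.card A hA.1]
      omega
    · rw [insert_erase (mem_erase.2 ⟨hxy.symm, hyA⟩), insert_erase hxA]
      exact hA.1
  have hpair : ∀ A ∈ M', ∀ B ∈ M', A ≠ B → (A ∪ B).card ≠ (r - 2) + 1 := by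
    intro A hA B hB hne hc
    obtain ⟨hAX, hAc, hAN⟩ := hM'mem A hA
    obtain ⟨hBX, hBc, hBN⟩ := hM'mem B hB
    have hUX : A ∪ B ⊆ X := union_subset hAX hBX
    have hxU : x ∉ A ∪ B := fun h => ((hX x).1 (hUX h)).2.1 rfl
    have hyU : y ∉ A ∪ B := fun h => ((hX y).1 (hUX h)).2.2 rfl
    have h1 : insert x (insert y A) ∪ insert x (insert y B) = insert x (insert y (A ∪ B)) := by
      ext z
      simp only [mem_union, mem_insert]
      tauto
    have h2 : (insert x (insert y A) ∪ insert x (insert y B)).card = r + 1 := by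
      rw [h1, card_insert_of_notMem, card_insert_of_notMem hyU, hc]
      · omega
      · rw [mem_insert]
        tauto
    have h3 : insert x (A ∪ B) ∈ N := by
      apply S.ex _ hAN _ hBN h2
      · rw [h1]
        intro z hz
        rw [mem_insert] at hz
        rw [mem_insert, mem_insert]
        tauto
      · rw [card_insert_of_notMem hxU, hc]
        omega
    have h4 := mem_of_mem S hNC hy hxy hX hXN h3 (mem_insert_self _ _)
    rw [mem_insert] at h4
    rcases h4 with h4 | h4
    · exact hxy h4.symm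
    · exact hyU h4
  have hN1 : N.filter (fun A => A ⊆ X) = powersetCard r X := by
    ext A
    rw [mem_filter, mem_powersetCard]
    constructor
    · rintro ⟨h1, h2⟩
      exact ⟨h2, S.card A h1⟩
    · rintro ⟨h1, h2⟩
      exact ⟨hXN A h1 h2, h1⟩
  refine ⟨M.card, ?_, ?_, ?_⟩
  · rw [← Finset.card_filter_add_card_filter_not (s := N) (fun A => A ⊆ X), hN1,
      card_powersetCard, hXc]
  · have h1 := count_le (E := X) (k := r - 2) (N := M') (fun A hA => (hM'mem A hA).1)
      (fun A hA => (hM'mem A hA).2.1) hpair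
    rw [hM'c, hXc] at h1
    have e1 : E.card - 2 - (r - 2) = E.card - r := by omega
    have e2 : r - 2 + 1 = r - 1 := by omega
    rw [e1, e2] at h1
    exact h1
  · intro hr3
    rw [← hM'c, Finset.card_le_one]
    intro A hA B hB
    by_contra hne
    apply hpair A hA B hB hne
    obtain ⟨a, ha⟩ := Finset.card_eq_one.1 (show A.card = 1 by rw [(hM'mem A hA).2.1, hr3])
    obtain ⟨b, hb⟩ := Finset.card_eq_one.1 (show B.card = 1 by rw [(hM'mem B hB).2.1, hr3])
    rw [ha, hb, hr3]
    have hab : a ≠ b := by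
      rintro rfl
      exact hne (ha.trans hb.symm)
    have : ({a} ∪ {b} : Finset α) = {a, b} := rfl
    rw [this, Finset.card_pair hab]

/-- Averaging over deletions. -/
theorem sum_delete {E : Finset α} {r : ℕ} {N : Finset (Finset α)} (S : Sys E r N) :
    ∑ x ∈ E, (N.filter (fun A => x ∉ A)).card = (E.card - r) * N.card := by
  have h1 : ∀ x ∈ E, (N.filter (fun A => x ∉ A)).card = ∑ A ∈ N, if x ∉ A then 1 else 0 := by
    intro x _
    rw [Finset.card_filter]
  rw [Finset.sum_congr rfl h1, Finset.sum_comm]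
  have h2 : ∀ A ∈ N, (∑ x ∈ E, if x ∉ A then 1 else 0) = E.card - r := by
    intro A hA
    rw [← Finset.card_filter]
    have : E.filter (fun x => x ∉ A) = E \ A := by
      ext x
      rw [mem_filter, mem_sdiff]
    rw [this, card_sdiff_of_subset (S.sub A hA), S.card A hA]
  rw [Finset.sum_congr rfl h2, Finset.sum_const, smul_eq_mul, mul_comm]

theorem Sys.delete {E : Finset α} {r : ℕ} {N : Finset (Finset α)} (S : Sys E r N) (x : α) :
    Sys (E.erase x) r (N.filter (fun A => x ∉ A)) where
  sub A hA := by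
    rw [mem_filter] at hA
    intro z hz
    rw [mem_erase]
    exact ⟨fun h => hA.2 (h ▸ hz), S.sub A hA.1 hz⟩
  card A hA := S.card A (mem_filter.1 hA).1
  ex A hA B hB hc C hC hCr := by
    rw [mem_filter] at hA hB ⊢
    refine ⟨S.ex A hA.1 B hB.1 hc C hC hCr, fun h => ?_⟩
    have := hC h
    rw [mem_union] at this
    tauto

theorem pairwise_of_no_pair {E : Finset α} {r : ℕ} {N : Finset (Finset α)} (S : Sys E r N)
    (hno : ∀ X ⊆ E, X.card = r + 1 → ∃ C ⊆ X, C.card = r ∧ C ∉ N) :
    ∀ A ∈ N, ∀ B ∈ N, A ≠ B → (A ∪ B).card ≠ r + 1 := by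
  intro A hA B hB _ hc
  obtain ⟨C, hC, hCr, hCN⟩ := hno (A ∪ B) (union_subset (S.sub A hA) (S.sub B hB)) hc
  exact hCN (S.ex A hA B hB hc C hC hCr)

/-- The induction over the corank. -/
theorem induct {r : ℕ} (hr : 2 ≤ r) (Bd : ℕ → ℕ)
    (h1 : ∀ d s, (d + 3) * s ≤ (r + d + 1).choose (r - 1) → (r = 3 → s ≤ 1) →
      2 * ((r + d + 1).choose r + s) ≤ Bd d)
    (h2 : ∀ n, 3 * n ≤ (r + 3).choose (r + 1) → 2 * n ≤ Bd 0)
    (h3 : ∀ d n, (d + 4) * (2 * n) ≤ (r + d + 4) * Bd d → 2 * n ≤ Bd (d + 1)) :
    ∀ (d : ℕ) (E : Finset α) (N : Finset (Finset α)), E.card = r + d + 3 → Sys E r N →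
      NC E r N → 2 * N.card ≤ Bd d := by
  intro d
  induction d with
  | zero =>
    intro E N hE S hNC
    by_cases hpair : ∃ x ∈ E, ∃ y ∈ E, x ≠ y ∧ ∀ C ⊆ (E.erase x).erase y, C.card = r → C ∈ N
    · obtain ⟨x, hx, y, hy, hxy, hXN⟩ := hpair
      obtain ⟨s, hs1, hs2, hs3⟩ := case_one S hNC hr hx hy hxy hXN
      rw [hE] at hs1 hs2
      rw [hs1]
      have e1 : r + 0 + 3 - 2 = r + 0 + 1 := by omega
      have e2 : r + 0 + 3 - r = 0 + 3 := by omega
      rw [e1, e2] at hs2
      rw [e1]
      exact h1 0 s hs2 hs3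
    · push Not at hpair
      apply h2
      have := count_le S.sub S.card (pairwise_of_no_pair S (by
        intro X hX hXc
        have hsd : (E \ X).card = 2 := by
          rw [card_sdiff_of_subset hX, hE, hXc]
          omega
        obtain ⟨x, y, hxy, hxyE⟩ := Finset.card_eq_two.1 hsd
        have hx : x ∈ E \ X := by rw [hxyE]; simp
        have hy : y ∈ E \ X := by rw [hxyE]; simp
        rw [mem_sdiff] at hx hy
        obtain ⟨C, hC, hCr, hCN⟩ := hpair x hx.1 y hy.1 hxy
        refine ⟨C, ?_, hCr, hCN⟩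
        intro z hz
        have h4 := hC hz
        rw [mem_erase, mem_erase] at h4
        by_contra hzX
        have h5 : z ∈ E \ X := mem_sdiff.2 ⟨h4.2.2, hzX⟩
        rw [hxyE, mem_insert, mem_singleton] at h5
        rcases h5 with h5 | h5
        · exact h4.2.1 h5
        · exact h4.1 h5))
      rw [hE] at this
      have e1 : r + 0 + 3 - r = 3 := by omega
      rw [e1] at this
      exact this
  | succ d ih =>
    intro E N hE S hNC
    by_cases hpair : ∃ x ∈ E, ∃ y ∈ E, x ≠ y ∧ ∀ C ⊆ (E.erase x).erase y, C.card = r → C ∈ N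
    · obtain ⟨x, hx, y, hy, hxy, hXN⟩ := hpair
      obtain ⟨s, hs1, hs2, hs3⟩ := case_one S hNC hr hx hy hxy hXN
      rw [hE] at hs1 hs2
      rw [hs1]
      have e1 : r + (d + 1) + 3 - 2 = r + (d + 1) + 1 := by omega
      have e2 : r + (d + 1) + 3 - r = (d + 1) + 3 := by omega
      rw [e1, e2] at hs2
      rw [e1]
      exact h1 (d + 1) s hs2 hs3
    · push Not at hpair
      apply h3
      have h4 := sum_delete S
      rw [hE] at h4
      have e1 : r + (d + 1) + 3 - r = d + 4 := by omega
      rw [e1] at h4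
      have h5 : ∀ x ∈ E, 2 * (N.filter (fun A => x ∉ A)).card ≤ Bd d := by
        intro x hx
        apply ih (E.erase x)
        · rw [card_erase_of_mem hx, hE]
          omega
        · exact S.delete x
        · intro e he
          rw [mem_erase] at he
          obtain ⟨C, hC, hCr, hCN⟩ := hpair x hx e he.2 he.1.symm
          refine ⟨C, hC, hCr, fun h => hCN ?_⟩
          rw [mem_filter] at h
          exact h.1
      calc (d + 4) * (2 * N.card) = 2 * ((d + 4) * N.card) := by ring
        _ = ∑ x ∈ E, 2 * (N.filter (fun A => x ∉ A)).card := by rw [← h4, Finset.mul_sum]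
        _ ≤ ∑ x ∈ E, Bd d := Finset.sum_le_sum h5
        _ = (r + d + 4) * Bd d := by
          rw [Finset.sum_const, smul_eq_mul, hE]
          ring

/-- corank two -/
theorem corank_two {E : Finset α} {r : ℕ} {N : Finset (Finset α)} (S : Sys E r N)
    (hNC : NC E r N) (hE : E.card = r + 2) : 2 * N.card ≤ r + 2 := by
  have := count_le S.sub S.card (pairwise_of_no_pair S (by
    intro X hX hXc
    have hsd : (E \ X).card = 1 := by
      rw [card_sdiff_of_subset hX, hE, hXc]
      omega
    obtain ⟨x, hxE⟩ := Finset.card_eq_one.1 hsd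
    have hx : x ∈ E \ X := by rw [hxE]; simp
    rw [mem_sdiff] at hx
    obtain ⟨C, hC, hCr, hCN⟩ := hNC x hx.1
    refine ⟨C, ?_, hCr, hCN⟩
    intro z hz
    have h4 := hC hz
    rw [mem_erase] at h4
    by_contra hzX
    have h5 : z ∈ E \ X := mem_sdiff.2 ⟨h4.2, hzX⟩
    rw [hxE, mem_singleton] at h5
    exact h4.1 h5))
  rw [hE] at this
  have e1 : r + 2 - r = 2 := by omega
  rw [e1, Nat.choose_succ_self_right] at this
  exact this

/-- corank one -/
theorem corank_one {E : Finset α} {r : ℕ} {N : Finset (Finset α)} (S : Sys E r N)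
    (hNC : NC E r N) (hE : E.card = r + 1) : N.card = 0 := by
  rw [Finset.card_eq_zero]
  by_contra hne
  obtain ⟨A, hA⟩ := Finset.nonempty_iff_ne_empty.2 hne
  have hsd : (E \ A).card = 1 := by
    rw [card_sdiff_of_subset (S.sub A hA), hE, S.card A hA]
    omega
  obtain ⟨x, hxE⟩ := Finset.card_eq_one.1 hsd
  have hx : x ∈ E \ A := by rw [hxE]; simp
  rw [mem_sdiff] at hx
  obtain ⟨C, hC, hCr, hCN⟩ := hNC x hx.1
  apply hCN
  have h1 : C ⊆ A := by
    intro z hz
    have h4 := hC hz
    rw [mem_erase] at h4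
    by_contra hzX
    have h5 : z ∈ E \ A := mem_sdiff.2 ⟨h4.2, hzX⟩
    rw [hxE, mem_singleton] at h5
    exact h4.1 h5
  rw [Finset.eq_of_subset_of_card_le h1 (by rw [hCr, S.card A hA])]
  exact hA

/-- with a coloop -/
theorem coloop {E : Finset α} {r : ℕ} {N : Finset (Finset α)} (S : Sys E r N)
    (hNC : ¬ NC E r N) (hB : ∃ B ⊆ E, B.card = r ∧ B ∉ N) :
    N.card = (E.card - 1).choose r := by
  rw [NC] at hNC
  push Not at hNC
  obtain ⟨e, he, hall⟩ := hNC
  have : N = powersetCard r (E.erase e) := by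
    ext A
    rw [mem_powersetCard]
    constructor
    · intro hA
      refine ⟨?_, S.card A hA⟩
      intro z hz
      rw [mem_erase]
      refine ⟨?_, S.sub A hA hz⟩
      rintro rfl
      obtain ⟨B, hBE, hBr, hBN⟩ := hB
      apply hBN
      have h1 := extend S (X := E.erase z) hall (x := z) (by simp) (J := A.erase z)
        (erase_subset_erase _ (S.sub A hA)) (by rw [card_erase_add_one hz]; exact S.card A hA)
        (by rw [insert_erase hz]; exact hA)
      rw [insert_erase he] at h1
      exact h1 B hBE hBr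
    · rintro ⟨h1, h2⟩
      exact hall A h1 h2
  rw [this, card_powersetCard, card_erase_of_mem he]

end Pool.Agent.R138.Rel
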