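import Pool.Agent.R138.RelComb

/-! Numerical part of the bound for the number of nonbases. -/

namespace Pool.Agent.R138.Rel

open Finset

/-- the bound for rank `t + 3` and corank `d + 3` -/
def Bd (t d : ℕ) : ℕ := 2 * (t + d + 4).choose (t + 3) + (t + d + 3).choose (t + 1)

theorem num_one (t d s : ℕ) (h : (d + 3) * s ≤ (t + 3 + d + 1).choose (t + 3 - 1))
    (h' : t + 3 = 3 → s ≤ 1) : 2 * ((t + 3 + d + 1).choose (t + 3) + s) ≤ Bd t d := by
  have e0 : t + 3 + d + 1 = t + d + 4 := by ring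
  have e1 : t + 3 - 1 = t + 2 := by omega
  rw [e0, e1] at h
  rw [e0, Bd, Nat.mul_add]
  apply Nat.add_le_add_left
  -- `2 s ≤ Y`
  have hY := Nat.add_one_mul_choose_eq (t + d + 3) (t + 1)
  have e2 : t + d + 3 + 1 = t + d + 4 := rfl
  have e3 : t + 1 + 1 = t + 2 := rfl
  rw [e2, e3] at hY
  set Y := (t + d + 3).choose (t + 1) with hYdef
  by_cases ht : t = 0
  · subst ht
    have hs := h' rfl
    have hY' : Y = d + 3 := by
      rw [hYdef]
      simp
    omega
  · by_contra hcon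
    rw [not_le] at hcon
    have h1 : (d + 3) * s * (t + 2) ≤ (t + d + 4) * Y := by
      rw [hY]
      exact Nat.mul_le_mul_right _ h
    have h2 : (d + 3) * (Y + 1) * (t + 2) ≤ (d + 3) * (2 * s) * (t + 2) :=
      Nat.mul_le_mul_right _ (Nat.mul_le_mul_left _ (by omega))
    have h3 : (d + 3) * (Y + 1) * (t + 2) ≤ 2 * ((t + d + 4) * Y) := by
      calc _ ≤ (d + 3) * (2 * s) * (t + 2) := h2
        _ = 2 * ((d + 3) * s * (t + 2)) := by ring
        _ ≤ _ := Nat.mul_le_mul_left _ h1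
    obtain ⟨u, rfl⟩ : ∃ u, t = u + 1 := ⟨t - 1, by omega⟩
    by_cases hdu : d = 0 ∧ u = 0
    · obtain ⟨rfl, rfl⟩ := hdu
      have : Y = 6 := by rw [hYdef]; rfl
      rw [this] at h3
      omega
    · have h4 : 1 ≤ d ∨ 1 ≤ u := by omega
      have h5 : 0 ≤ ((d : ℤ) * u + d + u - 1) * Y := by
        apply mul_nonneg _ (by positivity)
        rcases h4 with h4 | h4
        · have : (1 : ℤ) ≤ d := by exact_mod_cast h4
          have h6 : (0 : ℤ) ≤ (d : ℤ) * u := by positivity
          have h7 : (0 : ℤ) ≤ u := by positivity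
          linarith
        · have : (1 : ℤ) ≤ u := by exact_mod_cast h4
          have h6 : (0 : ℤ) ≤ (d : ℤ) * u := by positivity
          have h7 : (0 : ℤ) ≤ d := by positivity
          linarith
      have h8 : ((d : ℤ) + 3) * (Y + 1) * (u + 1 + 2) ≤ 2 * ((u + 1 + d + 4) * Y) := by
        exact_mod_cast h3
      have h9 : ((d : ℤ) + 3) * (Y + 1) * (u + 1 + 2) - 2 * ((u + 1 + d + 4) * Y) =
          (d * u + d + u - 1) * Y + (d + 3) * (u + 3) := by ring
      have h10 : (0 : ℤ) < (d + 3) * (u + 3) := by positivity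
      linarith

theorem num_two (t n : ℕ) (h : 3 * n ≤ (t + 3 + 3).choose (t + 3 + 1)) : 2 * n ≤ Bd t 0 := by
  have e1 : (t + 3 + 3).choose (t + 3 + 1) = (t + 6).choose 2 := by
    have := Nat.choose_symm_add (a := t + 4) (b := 2)
    exact this
  have e2 : (t + 0 + 4).choose (t + 3) = t + 4 := by
    rw [add_zero]
    exact Nat.choose_succ_self_right (t + 3)
  have e3 : (t + 0 + 3).choose (t + 1) = (t + 3).choose 2 := by
    rw [add_zero]
    have := Nat.choose_symm_add (a := t + 1) (b := 2)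
    exact this
  rw [e1, Nat.choose_two_right] at h
  rw [Bd, e2, e3, Nat.choose_two_right]
  have e4 : t + 6 - 1 = t + 5 := by omega
  have e5 : t + 3 - 1 = t + 2 := by omega
  rw [e4] at h
  rw [e5]
  have h1 : 2 * ((t + 6) * (t + 5) / 2) ≤ (t + 6) * (t + 5) := Nat.mul_div_le _ _
  have h2 : (t + 3) * (t + 2) ≤ 2 * ((t + 3) * (t + 2) / 2) + 1 := by omega
  have h3 : 6 * n ≤ (t + 6) * (t + 5) := by omega
  -- `12 n ≤ 2 (t^2 + 11 t + 30) ≤ ...`
  have heven : 2 ∣ (t + 3) * (t + 2) := by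
    rw [mul_comm]
    exact even_iff_two_dvd.1 (Nat.even_mul_succ_self (t + 2))
  have h4 : 2 * ((t + 3) * (t + 2) / 2) = (t + 3) * (t + 2) := Nat.mul_div_cancel' heven
  nlinarith

theorem num_three (t d n : ℕ) (h : (d + 4) * (2 * n) ≤ (t + 3 + d + 4) * Bd t d) :
    2 * n ≤ Bd t (d + 1) := by
  -- relations
  have hX := Nat.choose_mul_succ_eq (t + d + 3) (t + 1)
  have hP1 := Nat.choose_succ_right_eq (t + d + 4) (t + 1)
  have hP2 := Nat.choose_succ_right_eq (t + d + 4) (t + 2)
  have hQ := Nat.choose_mul_succ_eq (t + d + 4) (t + 3)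
  have a1 : t + d + 3 + 1 = t + d + 4 := rfl
  have a2 : t + d + 4 - (t + 1) = d + 3 := by omega
  have a3 : t + 1 + 1 = t + 2 := rfl
  have a4 : t + 2 + 1 = t + 3 := rfl
  have a5 : t + d + 4 - (t + 2) = d + 2 := by omega
  have a6 : t + d + 4 + 1 = t + d + 5 := rfl
  have a7 : t + d + 5 - (t + 3) = d + 2 := by omega
  rw [a1, a2] at hX
  rw [a3, a2] at hP1
  rw [a4, a5] at hP2
  rw [a6, a7] at hQ
  have b1 : t + (d + 1) + 4 = t + d + 5 := by ring
  have b2 : t + (d + 1) + 3 = t + d + 4 := by ring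
  rw [Bd, b1, b2]
  rw [Bd] at h
  set Y := (t + d + 4).choose (t + 1)
  set X := (t + d + 3).choose (t + 1)
  set Z := (t + d + 4).choose (t + 2)
  set P := (t + d + 4).choose (t + 3)
  set Q := (t + d + 5).choose (t + 3)
  -- hX : X (t+d+4) = Y (d+3); hP1 : Z (t+2) = Y (d+3); hP2 : P (t+3) = Z (d+2)
  -- hQ : P (t+d+5) = Q (d+2)
  have hP : P * ((t + 2) * (t + 3)) = Y * ((d + 3) * (d + 2)) := by
    calc P * ((t + 2) * (t + 3)) = (P * (t + 3)) * (t + 2) := by ring
      _ = (Z * (t + 2)) * (d + 2) := by rw [hP2]; ring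
      _ = _ := by rw [hP1]; ring
  have hQ' : Q * ((t + 2) * (t + 3)) = Y * ((d + 3) * (t + d + 5)) := by
    have h1 : Q * ((t + 2) * (t + 3)) * (d + 2) = Y * ((d + 3) * (t + d + 5)) * (d + 2) := by
      calc Q * ((t + 2) * (t + 3)) * (d + 2) = (Q * (d + 2)) * ((t + 2) * (t + 3)) := by ring
        _ = (P * ((t + 2) * (t + 3))) * (t + d + 5) := by rw [← hQ]; ring
        _ = _ := by rw [hP]; ring
    exact Nat.eq_of_mul_eq_mul_right (by omega) h1
  have hR : 0 < (t + 2) * (t + 3) * (t + d + 4) := by positivity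
  have hkey : (t + 3 + d + 4) * (2 * P + X) ≤ (d + 4) * (2 * Q + Y) := by
    refine Nat.le_of_mul_le_mul_right ?_ hR
    have l1 : (t + 3 + d + 4) * (2 * P + X) * ((t + 2) * (t + 3) * (t + d + 4)) =
        (t + d + 7) * (2 * (P * ((t + 2) * (t + 3))) * (t + d + 4) +
          (X * (t + d + 4)) * ((t + 2) * (t + 3))) := by ring
    have l2 : (d + 4) * (2 * Q + Y) * ((t + 2) * (t + 3) * (t + d + 4)) =
        (d + 4) * (2 * (Q * ((t + 2) * (t + 3))) * (t + d + 4) +
          Y * ((t + 2) * (t + 3) * (t + d + 4))) := by ring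
    rw [l1, l2, hP, hX, hQ']
    have l3 : (d + 4) * (2 * (Y * ((d + 3) * (t + d + 5))) * (t + d + 4) +
          Y * ((t + 2) * (t + 3) * (t + d + 4))) =
        (t + d + 7) * (2 * (Y * ((d + 3) * (d + 2))) * (t + d + 4) +
          (Y * (d + 3)) * ((t + 2) * (t + 3))) +
        Y * ((t + 3) * ((t + 3) * (t + 3) + (2 * d + 3) * (t + 3) + 4 * ((d + 3) * (d + 1)) +
          2 * (d + 4))) := by ring
    rw [l3]
    exact Nat.le_add_right _ _
  have hfin : (d + 4) * (2 * n) ≤ (d + 4) * (2 * Q + Y) := h.trans hkey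
  exact Nat.le_of_mul_le_mul_left hfin (by omega)

variable {α : Type*} [DecidableEq α]

/-- the bound in rank at least three and corank at least three -/
theorem bound_three (t d : ℕ) (E : Finset α) (N : Finset (Finset α))
    (hE : E.card = t + 3 + d + 3) (S : Sys E (t + 3) N) (hNC : NC E (t + 3) N) :
    2 * N.card ≤ Bd t d := by
  refine induct (by omega) (Bd t) ?_ ?_ ?_ d E N hE S hNC
  · exact num_one t
  · exact num_two t
  · exact num_three t

/-- the bound in rank two and corank at least three -/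
theorem bound_two (d : ℕ) (E : Finset α) (N : Finset (Finset α))
    (hE : E.card = 2 + d + 3) (S : Sys E 2 N) (hNC : NC E 2 N) :
    2 * N.card ≤ (d + 3) * (d + 2) + 2 := by
  have hch : ∀ n : ℕ, 2 * (n + 1).choose 2 = (n + 1) * n := by
    intro n
    rw [Nat.choose_two_right, Nat.add_sub_cancel]
    apply Nat.mul_div_cancel'
    rw [mul_comm]
    exact even_iff_two_dvd.1 (Nat.even_mul_succ_self n)
  refine induct (by omega) (fun d => (d + 3) * (d + 2) + 2) ?_ ?_ ?_ d E N hE S hNC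
  · intro d s hs _
    have e0 : 2 + d + 1 = d + 2 + 1 := by ring
    have e1 : 2 - 1 = 1 := rfl
    rw [e0, e1, Nat.choose_one_right] at hs
    have hs1 : s ≤ 1 := by
      by_contra hcon
      nlinarith
    rw [e0, Nat.mul_add, hch]
    beta_reduce
    nlinarith
  · intro n hn
    have : (2 + 3).choose (2 + 1) = 10 := by rfl
    rw [this] at hn
    beta_reduce
    omega
  · intro d n hn
    beta_reduce at hn ⊢
    have hkey : (2 + d + 4) * ((d + 3) * (d + 2) + 2) ≤
        (d + 4) * ((d + 1 + 3) * (d + 1 + 2) + 2) := by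
      nlinarith
    exact Nat.le_of_mul_le_mul_left (hn.trans hkey) (by omega)

end Pool.Agent.R138.Rel
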