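import Pool.Agent.R138.RelNum
import Pool.Agent.R138.RelFejer

/-! The `H`-polynomials of paving matroids do not vanish outside the closed unit disk. -/

namespace Pool.Agent.R138.Rel

open Finset

/-- partial binomial sums -/
noncomputable def U (q : ℂ) (m r : ℕ) : ℂ :=
  ∑ k ∈ range (r + 1), (m.choose k : ℂ) * q ^ k * (1 - q) ^ (r - k)

/-- the `H`-polynomial of a uniform matroid of corank `e + 1` -/
noncomputable def Vp (q : ℂ) (e r : ℕ) : ℂ := ∑ i ∈ range (r + 1), ((e + i).choose i : ℂ) * q ^ i

theorem U_self (q : ℂ) (r : ℕ) : U q r r = 1 := by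
  have h := add_pow q (1 - q) r
  rw [add_sub_cancel, one_pow] at h
  rw [h, U]
  exact sum_congr rfl fun k _ => by ring

theorem U_succ (q : ℂ) (m r : ℕ) : U q (m + 1) (r + 1) = U q m (r + 1) + q * U q m r := by
  rw [U, U, U, sum_range_succ', sum_range_succ' _ (r + 1), mul_sum]
  rw [Nat.choose_zero_right, Nat.choose_zero_right]
  have h : ∀ j ∈ range (r + 1), ((m + 1).choose (j + 1) : ℂ) * q ^ (j + 1) *
      (1 - q) ^ (r + 1 - (j + 1)) = (m.choose (j + 1) : ℂ) * q ^ (j + 1) *
      (1 - q) ^ (r + 1 - (j + 1)) + q * ((m.choose j : ℂ) * q ^ j * (1 - q) ^ (r - j)) := by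
    intro j _
    rw [Nat.choose_succ_succ, Nat.succ_sub_succ]
    push_cast
    ring
  rw [sum_congr rfl h, sum_add_distrib]
  ring

theorem Vp_succ (q : ℂ) (e r : ℕ) :
    Vp q (e + 1) (r + 1) = Vp q e (r + 1) + q * Vp q (e + 1) r := by
  rw [Vp, Vp, Vp, sum_range_succ', sum_range_succ' _ (r + 1), mul_sum]
  have h : ∀ j ∈ range (r + 1), ((e + 1 + (j + 1)).choose (j + 1) : ℂ) * q ^ (j + 1) =
      ((e + (j + 1)).choose (j + 1) : ℂ) * q ^ (j + 1) +
      q * (((e + 1 + j).choose j : ℂ) * q ^ j) := by
    intro j _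
    have e1 : e + 1 + (j + 1) = (e + 1 + j) + 1 := by ring
    have e2 : e + (j + 1) = e + 1 + j := by ring
    rw [e1, Nat.choose_succ_succ, e2]
    push_cast
    ring
  rw [sum_congr rfl h, sum_add_distrib]
  simp only [add_zero, Nat.choose_zero_right]
  ring

theorem U_eq (q : ℂ) : ∀ e r : ℕ, U q (r + e + 1) r = Vp q e r := by
  intro e
  induction e with
  | zero =>
    intro r
    induction r with
    | zero => simp [U, Vp]
    | succ r ih =>
      rw [add_zero] at ih ⊢
      rw [U_succ, U_self, ih, Vp, Vp, sum_range_succ' _ (r + 1), mul_sum]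
      simp only [zero_add, Nat.choose_self, Nat.cast_one, one_mul, pow_zero]
      rw [add_comm]
      congr 1
      exact sum_congr rfl fun i _ => by ring
  | succ e ihe =>
    intro r
    induction r with
    | zero => simp [U, Vp]
    | succ r ih =>
      have e1 : r + 1 + (e + 1) + 1 = (r + 1 + e + 1) + 1 := by ring
      have e2 : r + 1 + e + 1 = r + (e + 1) + 1 := by ring
      rw [e1, U_succ, ihe (r + 1), e2, ih, Vp_succ]

theorem q_ne_one {q : ℂ} (hq : 1 < ‖q‖) : q ≠ 1 := by
  rintro rfl
  rw [norm_one] at hq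
  exact lt_irrefl _ hq

theorem geom_ne_zero {q : ℂ} (hq : 1 < ‖q‖) (n : ℕ) : ∑ i ∈ range (n + 1), q ^ i ≠ 0 := by
  intro h
  have h1 := geom_sum_mul q (n + 1)
  rw [h, zero_mul] at h1
  have h2 : q ^ (n + 1) = 1 := by linear_combination -h1
  have h3 : ‖q‖ ^ (n + 1) = 1 := by rw [← norm_pow, h2, norm_one]
  have h4 : 1 < ‖q‖ ^ (n + 1) := one_lt_pow₀ hq (Nat.succ_ne_zero n)
  linarith

theorem lin_ne_zero {q : ℂ} (hq : 1 < ‖q‖) (n : ℕ) : 1 + (n : ℂ) * q ≠ 0 := by
  intro h
  rcases Nat.eq_zero_or_pos n with h0 | h0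
  · rw [h0, Nat.cast_zero, zero_mul, add_zero] at h
    exact one_ne_zero h
  · have h1 : (n : ℂ) * q = -1 := by linear_combination h
    have h2 : ‖(n : ℂ) * q‖ = 1 := by rw [h1, norm_neg, norm_one]
    rw [norm_mul, Complex.norm_natCast] at h2
    have h3 : (1 : ℝ) ≤ n := by exact_mod_cast h0
    nlinarith

/-- the coefficients are convex -/
theorem choose_diff (e i : ℕ) :
    ((e + (i + 1)).choose (i + 1) : ℝ) - ((e + i).choose i : ℝ) = ((e + i).choose (i + 1) : ℝ) := by
  have e1 : e + (i + 1) = e + i + 1 := by ring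
  rw [e1, Nat.choose_succ_succ]
  push_cast
  ring

theorem choose_diff_mono (e i : ℕ) :
    ((e + (i + 1)).choose (i + 1) : ℝ) - ((e + i).choose i : ℝ) ≤
      ((e + (i + 2)).choose (i + 2) : ℝ) - ((e + (i + 1)).choose (i + 1) : ℝ) := by
  have h1 := choose_diff e i
  have h2 := choose_diff e (i + 1)
  have e1 : i + 1 + 1 = i + 2 := rfl
  rw [e1] at h2
  rw [h1, h2]
  have e3 : e + (i + 1) = e + i + 1 := by ring
  have e2 : (e + i + 1).choose (i + 2) = (e + i).choose (i + 1) + (e + i).choose (i + 2) :=
    Nat.choose_succ_succ _ _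
  rw [e3, e2]
  exact_mod_cast Nat.le_add_right _ _

/-- the main polynomial criterion, corank at least two -/
theorem poly_ne_zero {q : ℂ} (hq : 1 < ‖q‖) (e r : ℕ) (he : 1 ≤ e) (hr : 2 ≤ r) (h : ℝ)
    (hh : 2 * ((e + (r - 1)).choose (r - 1) : ℝ) ≤ 2 * h + ((e + (r - 2)).choose (r - 2) : ℝ)) :
    ∑ i ∈ range r, ((e + i).choose i : ℂ) * q ^ i + (h : ℂ) * q ^ r ≠ 0 := by
  have := nonvanishing (fun i => ((e + i).choose i : ℝ)) h r (by omega) q hq (by simp) (by
    intro _
    have := choose_diff e 0
    simp only [zero_add, add_zero, Nat.choose_zero_right, Nat.choose_one_right] at this ⊢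
    rw [this]
    exact_mod_cast he) (by
    intro i _
    exact choose_diff_mono e i) (by
    intro _
    linarith) (by
    intro h1
    omega)
  simpa using this

/-- with leading coefficient zero -/
theorem poly_ne_zero' {q : ℂ} (hq : 1 < ‖q‖) (e r : ℕ) :
    ∑ i ∈ range (r + 1), ((e + i).choose i : ℂ) * q ^ i ≠ 0 := by
  rcases Nat.eq_zero_or_pos e with he | he
  · subst he
    have := geom_ne_zero hq r
    simpa using this
  · rcases Nat.eq_zero_or_pos r with hr | hr
    · subst hr
      simp
    · rw [sum_range_succ]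
      have := nonvanishing (fun i => ((e + i).choose i : ℝ)) ((e + r).choose r : ℝ) r hr q hq
        (by simp) (by
        intro _
        have := choose_diff e 0
        simp only [zero_add, add_zero, Nat.choose_zero_right, Nat.choose_one_right] at this ⊢
        rw [this]
        exact_mod_cast he) (by
        intro i _
        exact choose_diff_mono e i) (by
        intro hr2
        obtain ⟨u, rfl⟩ : ∃ u, r = u + 2 := ⟨r - 2, by omega⟩
        have e1 : u + 2 - 1 = u + 1 := by omega
        have e2 : u + 2 - 2 = u := by omega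
        rw [e1, e2]
        have h1 := choose_diff_mono e u
        have h2 : ((e + (u + 1)).choose (u + 1) : ℝ) ≤ ((e + (u + 2)).choose (u + 2) : ℝ) := by
          have h3 := choose_diff e (u + 1)
          have h4 : (0 : ℝ) ≤ ((e + (u + 1)).choose (u + 1 + 1) : ℝ) := Nat.cast_nonneg _
          have e3 : u + 1 + 1 = u + 2 := rfl
          rw [e3] at h3 h4
          linarith
        linarith) (by
        intro hr1
        subst hr1
        simp only [add_zero, Nat.choose_zero_right, Nat.choose_one_right]
        push_cast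
        have : (1 : ℝ) ≤ e := by exact_mod_cast he
        linarith)
      simpa using this

theorem sum_lin (q : ℂ) (N : ℕ) : (q - 1) ^ 2 * ∑ i ∈ range N, ((i : ℂ) + 1) * q ^ i =
    N * q ^ (N + 1) - (N + 1) * q ^ N + 1 := by
  induction N with
  | zero => simp
  | succ N ih =>
    rw [sum_range_succ, mul_add, ih]
    push_cast
    ring

theorem lin_sum_ne_zero {q : ℂ} (hq : 1 < ‖q‖) (n : ℕ) (hn : 1 ≤ n) :
    ∑ i ∈ range n, ((i : ℂ) + 1) * q ^ i ≠ 0 := by
  obtain ⟨u, rfl⟩ : ∃ u, n = u + 1 := ⟨n - 1, by omega⟩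
  have h := poly_ne_zero' hq 1 u
  have h1 : ∀ i ∈ range (u + 1), ((1 + i).choose i : ℂ) * q ^ i = ((i : ℂ) + 1) * q ^ i := by
    intro i _
    rw [add_comm 1 i, Nat.choose_succ_self_right]
    push_cast
    rfl
  rwa [sum_congr rfl h1] at h

/-- the exceptional case of corank two -/
theorem corank_two_ne_zero {q : ℂ} (hq : 1 < ‖q‖) (n : ℕ) (hn : 1 ≤ n) :
    ∑ i ∈ range (2 * n), ((i : ℂ) + 1) * q ^ i + (n : ℂ) * q ^ (2 * n) ≠ 0 := by
  intro h
  have h1 := sum_lin q (2 * n)
  have h2 := sum_lin (q ^ 2) n
  have hq2 : 1 < ‖q ^ 2‖ := by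
    rw [norm_pow]
    exact one_lt_pow₀ hq two_ne_zero
  have h3 : (q ^ 2 - 1) ^ 2 * ∑ i ∈ range n, ((i : ℂ) + 1) * (q ^ 2) ^ i = 0 := by
    rw [h2]
    have h4 : (q - 1) ^ 2 * (∑ i ∈ range (2 * n), ((i : ℂ) + 1) * q ^ i + (n : ℂ) * q ^ (2 * n)) =
        n * (q ^ 2) ^ (n + 1) - (n + 1) * (q ^ 2) ^ n + 1 := by
      rw [mul_add, h1]
      push_cast
      ring
    rw [← h4, h, mul_zero]
  rcases mul_eq_zero.1 h3 with h5 | h5
  · have h6 : q ^ 2 = 1 := by
      have := pow_eq_zero_iff (two_ne_zero) |>.1 h5
      linear_combination this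
    exact q_ne_one hq2 h6
  · exact lin_sum_ne_zero hq2 n hn h5

/-- the rank-two exceptional case -/
theorem rank_two_ne_zero {q : ℂ} (hq : 1 < ‖q‖) (e : ℕ) : 1 + ((e : ℂ) + 1) * q + e * q ^ 2 ≠ 0 := by
  have h : 1 + ((e : ℂ) + 1) * q + e * q ^ 2 = (1 + q) * (1 + e * q) := by ring
  rw [h]
  apply mul_ne_zero _ (lin_ne_zero hq e)
  have := lin_ne_zero hq 1
  simpa using this

variable {α : Type*} [DecidableEq α]

/-- The main nonvanishing statement. -/
theorem main_ne_zero {q : ℂ} (hq : 1 < ‖q‖) (E : Finset α) (r : ℕ) (N : Finset (Finset α))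
    (S : Sys E r N) (hB : ∃ B ⊆ E, B.card = r ∧ B ∉ N) :
    U q E.card r - (N.card : ℂ) * q ^ r ≠ 0 := by
  have hrE : r ≤ E.card := by
    obtain ⟨B, hBE, hBr, -⟩ := hB
    rw [← hBr]
    exact card_le_card hBE
  have hNle : N.card + 1 ≤ E.card.choose r := by
    obtain ⟨B, hBE, hBr, hBN⟩ := hB
    rw [← card_powersetCard]
    have h1 : insert B N ⊆ powersetCard r E := by
      intro A hA
      rw [mem_insert] at hA
      rw [mem_powersetCard]
      rcases hA with rfl | hA
      · exact ⟨hBE, hBr⟩
      · exact ⟨S.sub A hA, S.card A hA⟩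
    have := card_le_card h1
    rwa [card_insert_of_notMem hBN] at this
  rcases Nat.eq_zero_or_pos (E.card - r) with hc0 | hc
  · -- corank zero
    have hE : E.card = r := by omega
    rw [hE, Nat.choose_self] at hNle
    have hN0 : N.card = 0 := by omega
    rw [hE, U_self, hN0]
    simp
  obtain ⟨e, he⟩ : ∃ e, E.card = r + e + 1 := ⟨E.card - r - 1, by omega⟩
  rw [he, U_eq]
  have hsplit : Vp q e r - (N.card : ℂ) * q ^ r =
      ∑ i ∈ range r, ((e + i).choose i : ℂ) * q ^ i +
        (((e + r).choose r : ℂ) - N.card) * q ^ r := by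
    rw [Vp, sum_range_succ]
    ring
  rw [hsplit]
  by_cases hNC : NC E r N
  swap
  · have hN := coloop S hNC hB
    have e1 : E.card - 1 = e + r := by omega
    rw [e1] at hN
    rw [hN, sub_self, zero_mul, add_zero]
    rcases Nat.eq_zero_or_pos r with hr | hr
    · subst hr
      -- rank zero: `N` would contain the empty set
      exfalso
      rw [he, Nat.choose_zero_right] at hNle
      rw [Nat.choose_zero_right] at hN
      omega
    · obtain ⟨u, rfl⟩ : ∃ u, r = u + 1 := ⟨r - 1, by omega⟩
      exact poly_ne_zero' hq e u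
  rcases Nat.lt_or_ge r 2 with hr | hr
  · rcases Nat.eq_zero_or_pos r with hr0 | hr0
    · subst hr0
      rw [Nat.choose_zero_right] at hNle
      have : N.card = 0 := by omega
      rw [this]
      simp
    · have hr1 : r = 1 := by omega
      subst hr1
      rw [he, Nat.choose_one_right] at hNle
      obtain ⟨k, hk⟩ : ∃ k, e + 1 = N.card + k := ⟨e + 1 - N.card, by omega⟩
      have h1 : ((e + 1).choose 1 : ℂ) - N.card = k := by
        rw [Nat.choose_one_right, hk]
        push_cast
        ring
      rw [h1]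
      have := lin_ne_zero hq k
      simpa using this
  rcases Nat.lt_or_ge e 2 with he2 | he2
  · rcases Nat.eq_zero_or_pos e with he0 | he0
    · subst he0
      have hN := corank_one S hNC (by omega)
      rw [hN]
      have := geom_ne_zero hq r
      rw [sum_range_succ] at this
      simpa using this
    · have he1 : e = 1 := by omega
      subst he1
      have hN := corank_two S hNC (by omega)
      by_cases hex : 2 * N.card ≤ r + 1
      · have h1 := poly_ne_zero hq 1 r le_rfl hr (((1 + r).choose r : ℝ) - N.card) (by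
          rw [add_comm 1 (r - 1), add_comm 1 r, add_comm 1 (r - 2), Nat.choose_succ_self_right,
            Nat.choose_succ_self_right, Nat.choose_succ_self_right]
          have h2 : (2 : ℝ) * N.card ≤ r + 1 := by exact_mod_cast hex
          have e1 : ((r - 1 + 1 : ℕ) : ℝ) = r := by
            have : r - 1 + 1 = r := by omega
            rw [this]
          have e2 : ((r - 2 + 1 : ℕ) : ℝ) = r - 1 := by
            have : r - 2 + 1 = r - 1 := by omega
            rw [this, Nat.cast_sub (by omega)]
            simp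
          rw [e1, e2]
          push_cast
          linarith)
        simpa using h1
      · obtain ⟨n, hn⟩ : ∃ n, r = 2 * n := ⟨N.card - 1, by omega⟩
        have hNn : N.card = n + 1 := by omega
        subst hn
        rw [hNn]
        have h1 := corank_two_ne_zero hq n (by omega)
        have h2 : ∀ i ∈ range (2 * n), ((1 + i).choose i : ℂ) * q ^ i = ((i : ℂ) + 1) * q ^ i := by
          intro i _
          rw [add_comm 1 i, Nat.choose_succ_self_right]
          push_cast
          rfl
        rw [sum_congr rfl h2]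
        have h3 : ((1 + 2 * n).choose (2 * n) : ℂ) - ((n + 1 : ℕ) : ℂ) = n := by
          rw [add_comm 1 (2 * n), Nat.choose_succ_self_right]
          push_cast
          ring
        rw [h3]
        exact h1
  · obtain ⟨d, rfl⟩ : ∃ d, e = d + 2 := ⟨e - 2, by omega⟩
    rcases Nat.lt_or_ge r 3 with hr3 | hr3
    · have hr2 : r = 2 := by omega
      subst hr2
      have hN := bound_two d E N (by omega) S hNC
      have hch : 2 * (d + 2 + 2).choose 2 = (d + 4) * (d + 3) := by
        rw [Nat.choose_two_right]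
        have e1 : d + 2 + 2 - 1 = d + 3 := by omega
        rw [e1]
        apply Nat.mul_div_cancel'
        rw [mul_comm]
        exact even_iff_two_dvd.1 (Nat.even_mul_succ_self (d + 3))
      have hchR : (2 : ℝ) * ((d + 2 + 2).choose 2 : ℕ) = (d + 4) * (d + 3) := by
        exact_mod_cast hch
      by_cases hex : N.card + (d + 3) ≤ (d + 2 + 2).choose 2
      · have h1 := poly_ne_zero hq (d + 2) 2 (by omega) le_rfl
          (((d + 2 + 2).choose 2 : ℕ) - (N.card : ℝ)) (by
            have e1 : d + 2 + (2 - 1) = d + 3 := by omega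
            have e2 : 2 - 1 = 1 := rfl
            have e3 : 2 - 2 = 0 := rfl
            rw [e1, e2, e3, Nat.choose_one_right, Nat.choose_zero_right]
            have h2 : (N.card : ℝ) + (d + 3) ≤ ((d + 2 + 2).choose 2 : ℕ) := by
              exact_mod_cast hex
            push_cast at h2 ⊢
            linarith)
        simpa using h1
      · have hNeq : N.card + (d + 2) = (d + 2 + 2).choose 2 := by
          have : 2 * N.card + 2 * (d + 2) ≤ 2 * (d + 2 + 2).choose 2 := by
            rw [hch]
            nlinarith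
          omega
        have h1 := rank_two_ne_zero hq (d + 2)
        have h2 : ((d + 2 + 2).choose 2 : ℂ) - (N.card : ℂ) = ((d + 2 : ℕ) : ℂ) := by
          rw [← hNeq]
          push_cast
          ring
        rw [h2, sum_range_succ, sum_range_one]
        simpa using h1
    · obtain ⟨t, rfl⟩ : ∃ t, r = t + 3 := ⟨r - 3, by omega⟩
      have hN := bound_three t d E N (by omega) S hNC
      have hNR : (2 : ℝ) * N.card ≤ 2 * ((t + d + 4).choose (t + 3) : ℕ) +
          ((t + d + 3).choose (t + 1) : ℕ) := by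
        rw [Bd] at hN
        exact_mod_cast hN
      have h1 := poly_ne_zero hq (d + 2) (t + 3) (by omega) (by omega)
        (((d + 2 + (t + 3)).choose (t + 3) : ℕ) - (N.card : ℝ)) (by
          have e1 : t + 3 - 1 = t + 2 := by omega
          have e2 : t + 3 - 2 = t + 1 := by omega
          have e3 : d + 2 + (t + 2) = t + d + 4 := by ring
          have e4 : d + 2 + (t + 1) = t + d + 3 := by ring
          have e5 : d + 2 + (t + 3) = (t + d + 4) + 1 := by ring
          rw [e1, e2, e3, e4, e5, Nat.choose_succ_succ (t + d + 4) (t + 2)]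
          push_cast
          linarith)
      simpa using h1

end Pool.Agent.R138.Rel
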